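import Pool.Agent.Lib.MP_1822da_lc.NB.Defs

/-!
# Lemma X: cyclic subgroups of finite index in nilpotent groups

PROOF of lemmaX (induction `Group.nilpotent_center_quotient_ind`; state it for all `x`; the trivial
group is clear). Let `K` be nilpotent, `Z = center K`, `Kb = K ⧸ Z`, `xb` the image of `x`. The
hypothesis passes to `Kb`, so by induction `⟨xb⟩` has finite index in `Kb`; hence `K2 = ⟨x⟩ Z` has
finite index in `K`.
(1) `xb` has finite order. Otherwise the normal core of `⟨xb⟩` (finite index, so not trivial) is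
`⟨xb ^ t⟩` with some `t ≥ 1`. Conjugation by `k` sends `xb ^ t` to a generator of this infinite
cyclic group, `xb ^ t` or `xb ^ (-t)`. The second case contradicts nilpotency: if
`k⁻¹ * z * k = z⁻¹` and `z` has infinite order then `z⁻¹ * k⁻¹ * z * k = z ^ (-2)`, so all
`z ^ ((-2) ^ i)` are in the `i`-th term of the lower central series. So `xb ^ t` is central, i.e.
`⁅k, x ^ t⁆ ∈ Z` for all `k ∈ K`; `k ↦ ⁅k, x ^ t⁆` is a homomorphism `K → Z` which kills `K2`
(abelian, contains `x`), so its image is finite, say of exponent `d ≥ 1`; as these commutators are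
central `⁅k, x ^ (t * d)⁆ = ⁅k, x ^ t⁆ ^ d = 1` for all `k`, so `x ^ (t * d) ∈ Z`: `xb` has finite
order.
(2) So `Kb` is finite (finite cyclic subgroup of finite index), `Z` has finite index, and
`commutator K` is finite (Schur's theorem; in Mathlib: Mathlib.GroupTheory.Transfer /
Abelianization, e.g. `Subgroup.card_commutator_dvd_index_center_pow` and the instance that
`commutator G` is finite if `commutatorSet G` is finite; `Subgroup.index_center_le_pow` goes the
other way).
(3) `⟨x⟩` has finite index in `⟨x⟩ ⊔ commutator K` (product with a finite normal subgroup), which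
has finite index in `K`.
-/

namespace Pool.Agent.MP1822N

open Set MeasureTheory Pointwise
open Pool.Agent.Lib.MP_1822da_lc Pool.Agent.MP1822T Pool.Agent.MP1822C

universe u v

open scoped commutatorElement

/-- Powers of an element with a central commutator. -/
private lemma comm_pow {G : Type u} [Group G] {y k c : G} (hc : ∀ g : G, c * g = g * c)
    (h : y * k = c * (k * y)) (n : ℕ) :
    y ^ n * k = c ^ n * (k * y ^ n) ∧ y * k ^ n = c ^ n * (k ^ n * y) := by
  have hcn : ∀ n : ℕ, ∀ g : G, c ^ n * g = g * c ^ n := by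
    intro n g
    have h1 : Commute c g := hc g
    exact (h1.pow_left n).eq
  induction n with
  | zero => simp
  | succ n ih =>
    obtain ⟨ih1, ih2⟩ := ih
    constructor
    · calc y ^ (n + 1) * k = y ^ n * (y * k) := by rw [pow_succ, mul_assoc]
        _ = y ^ n * (c * (k * y)) := by rw [h]
        _ = c * (y ^ n * k * y) := by rw [← mul_assoc, ← hc]; simp only [mul_assoc]
        _ = c * (c ^ n * (k * y ^ n) * y) := by rw [ih1]
        _ = c ^ (n + 1) * (k * y ^ (n + 1)) := by
          rw [pow_succ' c, pow_succ y]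
          simp only [mul_assoc]
    · calc y * k ^ (n + 1) = y * k ^ n * k := by rw [pow_succ, mul_assoc]
        _ = c ^ n * (k ^ n * y) * k := by rw [ih2]
        _ = c ^ n * (k ^ n * (y * k)) := by simp only [mul_assoc]
        _ = c ^ n * (k ^ n * (c * (k * y))) := by rw [h]
        _ = c ^ n * (c * (k ^ n * (k * y))) := by
          rw [← mul_assoc (k ^ n) c, ← hc]
          simp only [mul_assoc]
        _ = c ^ (n + 1) * (k ^ (n + 1) * y) := by
          rw [pow_succ c, pow_succ k]
          simp only [mul_assoc]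

/-- One step down in the upper central series. -/
private lemma upper_step {G : Type u} [Group G] {x : G} {e : ℕ} (he : ∀ k : G, x * k ^ e = k ^ e * x)
    {i n : ℕ} (h : x ^ n ∈ Subgroup.upperCentralSeries G (i + 2)) :
    x ^ (n * e) ∈ Subgroup.upperCentralSeries G (i + 1) := by
  rw [Subgroup.mem_upperCentralSeries_succ_iff] at h ⊢
  intro k
  have h1 := h k
  rw [Subgroup.mem_upperCentralSeries_succ_iff] at h1
  let Q := G ⧸ Subgroup.upperCentralSeries G i
  let π : G →* Q := QuotientGroup.mk' (Subgroup.upperCentralSeries G i)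
  have hker : ∀ g : G, π g = 1 ↔ g ∈ Subgroup.upperCentralSeries G i := fun g =>
    QuotientGroup.eq_one_iff g
  have hc : ∀ g : Q, π ⁅x ^ n, k⁆ * g = g * π ⁅x ^ n, k⁆ := by
    intro g
    obtain ⟨g, rfl⟩ := QuotientGroup.mk'_surjective _ g
    have h2 := (hker _).2 (h1 g)
    rw [map_commutatorElement, commutatorElement_eq_one_iff_mul_comm] at h2
    exact h2
  have h2 : π (x ^ n) * π k = π ⁅x ^ n, k⁆ * (π k * π (x ^ n)) := by
    rw [commutatorElement_def]
    simp only [map_mul, map_inv]
    group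
  obtain ⟨h3, h4⟩ := comm_pow hc h2 e
  have h5 : x ^ n * k ^ e = k ^ e * x ^ n := by
    have h6 : Commute x (k ^ e) := he k
    exact (h6.pow_left n).eq
  have h6 : π ⁅x ^ n, k⁆ ^ e = 1 := by
    have h7 := congrArg π h5
    simp only [map_mul, map_pow] at h7 h4
    rw [h7] at h4
    exact right_eq_mul.1 h4
  rw [← hker, map_commutatorElement, commutatorElement_eq_one_iff_mul_comm]
  rw [h6, one_mul] at h3
  rw [pow_mul, map_pow π (x ^ n) e]
  exact h3

private lemma finite_commutator {G : Type u} [Group G] [Finite (G ⧸ Subgroup.center G)] :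
    Finite (commutator G) := by
  have h1 : (commutatorSet G).Finite := by
    refine (Set.finite_range fun q : (G ⧸ Subgroup.center G) × (G ⧸ Subgroup.center G) =>
      ⁅q.1.out, q.2.out⁆).subset ?_
    rintro _ ⟨g, h, rfl⟩
    refine ⟨(QuotientGroup.mk g, QuotientGroup.mk h), ?_⟩
    obtain ⟨z, hz⟩ := QuotientGroup.mk_out_eq_mul (Subgroup.center G) g
    obtain ⟨w, hw⟩ := QuotientGroup.mk_out_eq_mul (Subgroup.center G) h
    show ⁅(QuotientGroup.mk g : G ⧸ Subgroup.center G).out,
      (QuotientGroup.mk h : G ⧸ Subgroup.center G).out⁆ = _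
    rw [hz, hw, commutatorElement_def, commutatorElement_def]
    have hz1 : ∀ u : G, u * (z : G) = z * u := fun u => Subgroup.mem_center_iff.1 z.2 u
    have hw1 : ∀ u : G, u * (w : G) = w * u := fun u => Subgroup.mem_center_iff.1 w.2 u
    rw [mul_inv_rev, mul_inv_rev]
    have e1 : g * (z : G) * (h * w) * ((z : G)⁻¹ * g⁻¹) * ((w : G)⁻¹ * h⁻¹) =
        (g * (z : G)) * (h * (w : G)) * ((z : G)⁻¹ * g⁻¹) * ((w : G)⁻¹ * h⁻¹) := rfl
    rw [hz1 g, hw1 h]
    have e2 : (z : G) * g * ((w : G) * h) * ((z : G)⁻¹ * g⁻¹) * ((w : G)⁻¹ * h⁻¹) =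
        (z : G) * (g * (w : G)) * (h * (z : G)⁻¹) * (g⁻¹ * (w : G)⁻¹) * h⁻¹ := by group
    rw [e2, hw1 g]
    have hz2 : ∀ u : G, u * (z : G)⁻¹ = (z : G)⁻¹ * u := fun u => by
      rw [mul_inv_eq_iff_eq_mul, mul_assoc, hz1, inv_mul_cancel_left]
    have hw2 : ∀ u : G, u * (w : G)⁻¹ = (w : G)⁻¹ * u := fun u => by
      rw [mul_inv_eq_iff_eq_mul, mul_assoc, hw1, inv_mul_cancel_left]
    rw [hz2 h, hw2 g⁻¹]
    have e3 : (z : G) * ((w : G) * g) * ((z : G)⁻¹ * h) * ((w : G)⁻¹ * g⁻¹) * h⁻¹ =
        (z : G) * (w : G) * (g * (z : G)⁻¹) * (h * (w : G)⁻¹) * g⁻¹ * h⁻¹ := by group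
    rw [e3, hz2 g, hw2 h]
    have e4 : (z : G) * (w : G) * ((z : G)⁻¹ * g) * ((w : G)⁻¹ * h) * g⁻¹ * h⁻¹ =
        (z : G) * ((w : G) * (z : G)⁻¹) * (g * (w : G)⁻¹) * h * g⁻¹ * h⁻¹ := by group
    rw [e4, hw2 g, hz2 (w : G)]
    group
  have h2 : Finite (commutatorSet G) := h1
  infer_instance

private lemma fin_index_of_fin {G : Type u} [Group G] (H N : Subgroup G) [N.Normal] [Finite N]
    (h : (H ⊔ N).FiniteIndex) : H.FiniteIndex := by
  have h1 : Finite (↥(H ⊔ N) ⧸ H.subgroupOf (H ⊔ N)) := by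
    have hN : ∀ n : N, (n : G) ∈ H ⊔ N := fun n => Subgroup.mem_sup_right n.2
    refine Finite.of_surjective
      (fun n : N => (QuotientGroup.mk ⟨n, hN n⟩ : ↥(H ⊔ N) ⧸ H.subgroupOf (H ⊔ N))) ?_
    intro q
    obtain ⟨⟨g, hg⟩, rfl⟩ := QuotientGroup.mk_surjective q
    have hg2 : g ∈ ((N ⊔ H : Subgroup G) : Set G) := by
      rw [sup_comm]
      exact hg
    rw [Subgroup.normal_mul] at hg2
    obtain ⟨n, hn, k, hk, hnk⟩ := hg2
    refine ⟨⟨n, hn⟩, ?_⟩
    rw [QuotientGroup.eq, Subgroup.mem_subgroupOf]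
    show n⁻¹ * g ∈ H
    rw [← hnk]
    simpa using hk
  refine ⟨?_⟩
  rw [← Subgroup.relIndex_mul_index (le_sup_left : H ≤ H ⊔ N)]
  refine mul_ne_zero ?_ h.index_ne_zero
  rw [Subgroup.relIndex, Subgroup.index]
  exact Nat.card_pos.ne'

/-- **Lemma X.** -/
theorem lemmaX {K : Type u} [Group K] [Group.IsNilpotent K] (x : K)
    (hfin : (Subgroup.zpowers x ⊔ commutator K).FiniteIndex) :
    (Subgroup.zpowers x).FiniteIndex := by
  revert x
  refine Group.nilpotent_center_quotient_ind (P := fun (G : Type u) [Group G]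
    [Group.IsNilpotent G] => ∀ x : G, (Subgroup.zpowers x ⊔ commutator G).FiniteIndex →
      (Subgroup.zpowers x).FiniteIndex) K ?_ ?_
  · intro G _ _ x _
    exact ⟨by
      rw [Subsingleton.elim (Subgroup.zpowers x) ⊤, Subgroup.index_top]
      exact one_ne_zero⟩
  · intro G _ _ ih x hx
    let π : G →* G ⧸ Subgroup.center G := QuotientGroup.mk' _
    have hπ : Function.Surjective π := QuotientGroup.mk'_surjective _
    -- the quotient
    have h1 : (Subgroup.zpowers (π x) ⊔ commutator (G ⧸ Subgroup.center G)).FiniteIndex := by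
      have h2 : (Subgroup.map π (Subgroup.zpowers x ⊔ commutator G)).FiniteIndex :=
        ⟨fun h0 => hx.index_ne_zero
          (Nat.eq_zero_of_zero_dvd (h0 ▸ Subgroup.index_map_dvd _ hπ))⟩
      refine @Subgroup.finiteIndex_of_le _ _ _ _ h2 ?_
      rw [Subgroup.map_sup, MonoidHom.map_zpowers]
      refine sup_le_sup le_rfl ?_
      rw [commutator_def, Subgroup.map_commutator, commutator_def]
      exact Subgroup.commutator_mono le_top le_top
    have h2 := ih (π x) h1
    -- a power of every element commutes with `x`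
    obtain ⟨K2, hK2⟩ : ∃ K2, K2 = (Subgroup.zpowers (π x)).comap π := ⟨_, rfl⟩
    have h3 : K2.FiniteIndex := by
      rw [hK2]
      exact ⟨by rw [Subgroup.index_comap_of_surjective _ hπ]; exact h2.index_ne_zero⟩
    have hcom : ∀ k ∈ K2, x * k = k * x := by
      intro k hk
      rw [hK2, Subgroup.mem_comap, Subgroup.mem_zpowers_iff] at hk
      obtain ⟨n, hn⟩ := hk
      rw [← map_zpow] at hn
      have h4 : (x ^ n)⁻¹ * k ∈ Subgroup.center G := QuotientGroup.eq.1 hn
      have h5 := Subgroup.mem_center_iff.1 h4 x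
      have h6 : x ^ n * ((x ^ n)⁻¹ * k) = k := mul_inv_cancel_left _ _
      obtain ⟨B, hB⟩ : ∃ B, B = (x ^ n)⁻¹ * k := ⟨_, rfl⟩
      rw [← hB] at h5 h6
      calc x * k = x * (x ^ n * B) := by rw [h6]
        _ = x ^ n * (x * B) := by
          rw [← mul_assoc, ← mul_assoc, (Commute.self_zpow x n).eq]
        _ = x ^ n * (B * x) := by rw [h5]
        _ = k * x := by rw [← mul_assoc, h6]
    obtain ⟨e, he0, he⟩ : ∃ e : ℕ, e ≠ 0 ∧ ∀ k : G, x * k ^ e = k ^ e * x := by
      refine ⟨K2.normalCore.index, (inferInstance : K2.normalCore.FiniteIndex).index_ne_zero,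
        fun k => hcom _ (K2.normalCore_le ?_)⟩
      exact Subgroup.pow_index_mem K2.normalCore k
    -- a power of `x` is central
    obtain ⟨c, hc⟩ := Group.IsNilpotent.nilpotent G
    have h4 : ∀ j i : ℕ, 1 ≤ i → i + j = c + 1 →
        ∃ n : ℕ, n ≠ 0 ∧ x ^ n ∈ Subgroup.upperCentralSeries G i := by
      intro j
      induction j with
      | zero =>
        intro i _ hi
        refine ⟨1, one_ne_zero, ?_⟩
        have h5 : Subgroup.upperCentralSeries G i = ⊤ := by
          rw [eq_top_iff, ← hc]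
          exact Subgroup.upperCentralSeries_mono G (by omega)
        rw [h5]
        exact Subgroup.mem_top _
      | succ j ihj =>
        intro i hi hij
        obtain ⟨i, rfl⟩ : ∃ i', i = i' + 1 := ⟨i - 1, by omega⟩
        obtain ⟨n, hn0, hn⟩ := ihj (i + 2) (by omega) (by omega)
        exact ⟨n * e, mul_ne_zero hn0 he0, upper_step he hn⟩
    obtain ⟨n, hn0, hn⟩ := h4 c 1 le_rfl (by omega)
    rw [Subgroup.upperCentralSeries_one] at hn
    -- the center has finite index
    have h5 : Finite (G ⧸ Subgroup.center G) := by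
      have h6 : IsOfFinOrder (π x) := by
        rw [isOfFinOrder_iff_pow_eq_one]
        refine ⟨n, Nat.pos_of_ne_zero hn0, ?_⟩
        rw [← map_pow]
        exact (QuotientGroup.eq_one_iff _).2 hn
      have h7 : Finite (Subgroup.zpowers (π x)) := finite_zpowers.2 h6
      have h8 : Finite ((G ⧸ Subgroup.center G) ⧸ Subgroup.zpowers (π x)) :=
        Subgroup.finite_quotient_of_finiteIndex
      exact Finite.of_equiv _ (Subgroup.groupEquivQuotientProdSubgroup
        (s := Subgroup.zpowers (π x))).symm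
    have h6 : Finite (commutator G) := finite_commutator
    exact fin_index_of_fin _ _ hx

end Pool.Agent.MP1822N
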