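import Pool.Agent.Lib.MP_1822da_lc.NB.A1

/-!
# Homomorphisms to `ℤ/2` on nilpotent groups with two generators

PROOFS.
hom_or_finite: `A` a set, `K` generated by `A` and `x`. `Q = K ⧸ (closure A ⊔ commutator K)` (a
normal subgroup, it contains the commutator subgroup) is cyclic, generated by the image `xb` of
`x`. If `orderOf xb` is even (0 = infinite order included), `xb ^ n ↦ n mod 2` is well defined, a
homomorphism `Q → ℤ/2` (compose with `K → Q`). Otherwise `Q` is finite.
fun_of_hom: choose representatives of the right cosets of `K` (`Quotient.out` for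
`QuotientGroup.rightRel K`), `β y := decide (φ (y * r(y)⁻¹) ≠ 1)`, `y * r(y)⁻¹ ∈ K`.
fun1 (H1): `N = closure {a, h}`, apply hom_or_finite in `N` with `A = {h}`, `x = a`; if the
second case holds, `⟨h⟩` has finite index in `N` by lemmaX, so `a ^ m ∈ ⟨h⟩` for some `m ≥ 1`:
`a ^ m = h ^ n`, `n ≠ 0` as `a` has infinite order: `Cm a h`. Then fun_of_hom.
-/

namespace Pool.Agent.MP1822N

open Set MeasureTheory Pointwise
open Pool.Agent.Lib.MP_1822da_lc Pool.Agent.MP1822T Pool.Agent.MP1822C

universe u v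

private theorem hf_normal {K : Type u} [Group K] (H : Subgroup K) (h : commutator K ≤ H) :
    H.Normal := by
  refine ⟨fun n hn g => ?_⟩
  have h1 : g * n * g⁻¹ * n⁻¹ ∈ H := by
    have h0 := Subgroup.commutator_mem_commutator (Subgroup.mem_top g) (Subgroup.mem_top n)
    rw [commutatorElement_def] at h0
    exact h h0
  have h2 : g * n * g⁻¹ = (g * n * g⁻¹ * n⁻¹) * n := by group
  rw [h2]
  exact H.mul_mem h1 hn

private theorem z2_cases (a : Multiplicative (ZMod 2)) : a = 1 ∨ a = Multiplicative.ofAdd 1 := by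
  revert a; decide

private theorem z2_ne : (Multiplicative.ofAdd 1 : Multiplicative (ZMod 2)) ≠ 1 := by decide

private theorem z2_sq : (Multiplicative.ofAdd 1 : Multiplicative (ZMod 2)) *
    Multiplicative.ofAdd 1 = 1 := by decide

open Classical in
/-- the homomorphism of a subgroup of index two -/
private noncomputable def homTwo {K : Type u} [Group K] (H : Subgroup K) (hi : H.index = 2) :
    K →* Multiplicative (ZMod 2) where
  toFun k := if k ∈ H then 1 else Multiplicative.ofAdd 1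
  map_one' := by simp [H.one_mem]
  map_mul' a b := by
    have h := Subgroup.mul_mem_iff_of_index_two hi (a := a) (b := b)
    by_cases ha : a ∈ H <;> by_cases hb : b ∈ H <;> simp [ha, hb, h, z2_sq]

private theorem homTwo_ne {K : Type u} [Group K] (H : Subgroup K) (hi : H.index = 2) {k : K}
    (hk : k ∉ H) : homTwo H hi k ≠ 1 := by
  simp [homTwo, hk]

private theorem homTwo_eq {K : Type u} [Group K] (H : Subgroup K) (hi : H.index = 2) {k : K}
    (hk : k ∈ H) : homTwo H hi k = 1 := by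
  simp [homTwo, hk]

theorem hom_or_finite {K : Type u} [Group K] (A : Set K) (x : K)
    (hgen : Subgroup.closure (insert x A) = ⊤) :
    (∃ φ : K →* Multiplicative (ZMod 2), φ x ≠ 1 ∧ ∀ a ∈ A, φ a = 1) ∨
      (Subgroup.closure A ⊔ commutator K).FiniteIndex := by
  set M : Subgroup K := Subgroup.closure A ⊔ commutator K with hM
  have hMn : M.Normal := hf_normal M le_sup_right
  have hgM : ∀ k : K, ∃ n : ℤ, ∃ m ∈ M, k = x ^ n * m := by
    intro k
    have h1 : Subgroup.zpowers x ⊔ M = ⊤ := by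
      rw [eq_top_iff, ← hgen, Subgroup.closure_le]
      intro y hy
      rcases hy with hy | hy
      · rw [hy]; exact Subgroup.mem_sup_left (Subgroup.mem_zpowers x)
      · exact Subgroup.mem_sup_right (Subgroup.mem_sup_left (Subgroup.subset_closure hy))
    have h2 : k ∈ ((Subgroup.zpowers x ⊔ M : Subgroup K) : Set K) := by
      rw [h1]; exact Set.mem_univ k
    rw [Subgroup.mul_normal] at h2
    obtain ⟨y, hy, m, hm, rfl⟩ := Set.mem_mul.mp h2
    obtain ⟨n, rfl⟩ := Subgroup.mem_zpowers_iff.mp hy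
    exact ⟨n, m, hm, rfl⟩
  set H : Subgroup K := Subgroup.zpowers (x ^ 2) ⊔ M with hH
  have hMH : M ≤ H := le_sup_right
  have hx2 : ∀ j : ℤ, x ^ (2 * j) ∈ H := by
    intro j
    rw [zpow_mul]
    exact Subgroup.mem_sup_left (Subgroup.mem_zpowers_iff.mpr ⟨j, by norm_cast⟩)
  by_cases hxH : x ∈ H
  · right
    have h2 : x ∈ ((Subgroup.zpowers (x ^ 2) ⊔ M : Subgroup K) : Set K) := hxH
    rw [Subgroup.mul_normal] at h2
    obtain ⟨y, hy, m, hm, hym⟩ := Set.mem_mul.mp h2
    obtain ⟨n, rfl⟩ := Subgroup.mem_zpowers_iff.mp hy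
    have hodd : x ^ (1 - 2 * n) ∈ M := by
      have h3 : x ^ (1 - 2 * n) = m := by
        have h4 : (x ^ 2) ^ n = x ^ (2 * n) := by
          rw [zpow_mul]; norm_cast
        rw [h4] at hym
        have h5 : m = (x ^ (2 * n))⁻¹ * x := eq_inv_mul_of_mul_eq hym
        rw [h5, ← zpow_neg, ← zpow_add_one]
        congr 1; ring
      rw [h3]; exact hm
    have hfo : IsOfFinOrder (QuotientGroup.mk x : K ⧸ M) := by
      rw [isOfFinOrder_iff_zpow_eq_one]
      refine ⟨1 - 2 * n, by omega, ?_⟩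
      rw [← QuotientGroup.mk_zpow]
      exact (QuotientGroup.eq_one_iff _).mpr hodd
    have htop : (Subgroup.zpowers (QuotientGroup.mk x : K ⧸ M)) = ⊤ := by
      rw [eq_top_iff]
      intro q _
      obtain ⟨k, rfl⟩ := QuotientGroup.mk_surjective q
      obtain ⟨n, m, hm, rfl⟩ := hgM k
      refine Subgroup.mem_zpowers_iff.mpr ⟨n, ?_⟩
      rw [QuotientGroup.mk_mul, QuotientGroup.mk_zpow, (QuotientGroup.eq_one_iff m).mpr hm,
        mul_one]
    have hfin : Finite (K ⧸ M) := by
      have h6 : ((Subgroup.zpowers (QuotientGroup.mk x : K ⧸ M)) : Set (K ⧸ M)).Finite :=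
        finite_zpowers.mpr hfo
      rw [htop] at h6
      exact Set.finite_univ_iff.mp h6
    exact Subgroup.finiteIndex_of_finite_quotient
  · left
    have hi : H.index = 2 := by
      rw [Subgroup.index_eq_two_iff]
      refine ⟨x, fun b => ?_⟩
      have hHn : H.Normal := hf_normal H (le_trans le_sup_right hMH)
      obtain ⟨n, m, hm, rfl⟩ := hgM b
      rcases Int.even_or_odd n with ⟨j, hj⟩ | ⟨j, hj⟩
      · right
        have hb : x ^ n * m ∈ H := by
          refine H.mul_mem ?_ (hMH hm)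
          rw [hj, ← two_mul]; exact hx2 j
        refine ⟨hb, fun hc => hxH ?_⟩
        have := H.mul_mem (H.inv_mem hb) hc
        simpa [mul_assoc] using this
      · left
        refine ⟨?_, fun hc => hxH ?_⟩
        · have h7 : x ^ n * m * x = x ^ (2 * (j + 1)) * (x⁻¹ * m * x) := by
            have : x ^ n = x ^ (2 * (j + 1)) * x⁻¹ := by
              rw [← zpow_sub_one]; congr 1; omega
            rw [this]; group
          rw [h7]
          refine H.mul_mem (hx2 _) (hMH ?_)
          have := hMn.conj_mem m hm x⁻¹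
          simpa using this
        · have h8 : x ^ n ∈ H := by
            have := H.mul_mem hc (H.inv_mem (hMH hm))
            simpa [mul_assoc] using this
          rw [hj, zpow_add_one] at h8
          have := H.mul_mem (H.inv_mem (hx2 j)) h8
          simpa [mul_assoc] using this
    refine ⟨homTwo H hi, ?_, fun a ha => ?_⟩
    · exact homTwo_ne H hi hxH
    · exact homTwo_eq H hi (hMH (Subgroup.mem_sup_left (Subgroup.subset_closure ha)))

variable {Γ : Type u} [Group Γ]

open Classical in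
theorem fun_of_hom (K : Subgroup Γ) (φ : K →* Multiplicative (ZMod 2)) :
    ∃ β : Γ → Bool, ∀ (k : K) (y : Γ), (φ k ≠ 1 → β (k * y) = !(β y)) ∧
      (φ k = 1 → β (k * y) = β y) := by
  let r : Γ → Γ := fun y => (Quotient.mk (QuotientGroup.rightRel K) y).out
  have hr : ∀ y, y * (r y)⁻¹ ∈ K := fun y =>
    QuotientGroup.rightRel_apply.mp (Quotient.mk_out (s := QuotientGroup.rightRel K) y)
  have hrk : ∀ (k : K) (y : Γ), r (k * y) = r y := by
    intro k y
    have h1 : (Quotient.mk (QuotientGroup.rightRel K) ((k : Γ) * y)) =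
        Quotient.mk (QuotientGroup.rightRel K) y := by
      refine Quotient.sound (QuotientGroup.rightRel_apply.mpr ?_)
      have : y * ((k : Γ) * y)⁻¹ = (k : Γ)⁻¹ := by group
      rw [this]
      exact K.inv_mem k.2
    show (Quotient.mk (QuotientGroup.rightRel K) ((k : Γ) * y)).out = _
    rw [h1]
  refine ⟨fun y => decide (φ ⟨y * (r y)⁻¹, hr y⟩ ≠ 1), fun k y => ?_⟩
  have h2 : (⟨(k : Γ) * y * (r (k * y))⁻¹, hr (k * y)⟩ : K) = k * ⟨y * (r y)⁻¹, hr y⟩ := by
    apply Subtype.ext
    show (k : Γ) * y * (r (k * y))⁻¹ = k * (y * (r y)⁻¹)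
    rw [hrk, mul_assoc]
  constructor
  · intro hk
    show decide (φ ⟨(k : Γ) * y * (r (k * y))⁻¹, hr (k * y)⟩ ≠ 1) =
      !(decide (φ ⟨y * (r y)⁻¹, hr y⟩ ≠ 1))
    rw [h2, map_mul]
    rcases z2_cases (φ k) with h | h
    · exact absurd h hk
    · rcases z2_cases (φ ⟨y * (r y)⁻¹, hr y⟩) with h' | h'
      · rw [h, h']; simp
      · rw [h, h']; simp [z2_sq]
  · intro hk
    show decide (φ ⟨(k : Γ) * y * (r (k * y))⁻¹, hr (k * y)⟩ ≠ 1) =
      (decide (φ ⟨y * (r y)⁻¹, hr y⟩ ≠ 1))
    rw [h2, map_mul, hk, one_mul]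

/-- H1 -/
theorem fun1 {a h : Γ} (hnil : Group.IsNilpotent (Subgroup.closure {a, h}))
    (ha : ¬ IsOfFinOrder a) (hc : ¬ Cm a h) :
    ∃ α : Γ → Bool, (∀ y, α (a * y) = !(α y)) ∧ ∀ y, α (h * y) = α y := by
  set N : Subgroup Γ := Subgroup.closure {a, h} with hN
  have haN : a ∈ N := Subgroup.subset_closure (by simp)
  have hhN : h ∈ N := Subgroup.subset_closure (by simp)
  have hgen : Subgroup.closure (insert (⟨a, haN⟩ : N) {(⟨h, hhN⟩ : N)}) = ⊤ := by
    have h1 : ((↑) : N → Γ) ⁻¹' ({a, h} : Set Γ) = insert (⟨a, haN⟩ : N) {(⟨h, hhN⟩ : N)} := by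
      ext ⟨y, hy⟩
      simp
    rw [← h1]
    exact Subgroup.closure_closure_coe_preimage
  rcases hom_or_finite {(⟨h, hhN⟩ : N)} (⟨a, haN⟩ : N) hgen with ⟨φ, hφ, hφ'⟩ | hf
  · obtain ⟨β, hβ⟩ := fun_of_hom N φ
    exact ⟨β, fun y => (hβ ⟨a, haN⟩ y).1 hφ, fun y =>
      (hβ ⟨h, hhN⟩ y).2 (hφ' _ (Set.mem_singleton _))⟩
  · exfalso
    rw [← Subgroup.zpowers_eq_closure] at hf
    have hX := lemmaX (⟨h, hhN⟩ : N) hf
    obtain ⟨m, hm0, _, hm⟩ := Subgroup.exists_pow_mem_of_index_ne_zero hX.index_ne_zero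
      (⟨a, haN⟩ : N)
    obtain ⟨n, hn⟩ := Subgroup.mem_zpowers_iff.mp hm
    have hn' : h ^ n = a ^ m := by
      have := congrArg (Subtype.val) hn
      simpa using this
    refine hc ⟨m, n, by exact_mod_cast hm0.ne', ?_, by rw [hn']; simp⟩
    rintro rfl
    apply ha
    rw [isOfFinOrder_iff_pow_eq_one]
    exact ⟨m, hm0, by rw [← hn', zpow_zero]⟩

end Pool.Agent.MP1822N
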