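import Pool.Agent.Lib.MP_1822da_lc.NB.A2a

/-!
# H2

PROOF of fun2 (H2): `c = a⁻¹ * b⁻¹ * a * b = a⁻¹ * a'` with `a' = b⁻¹ * a * b`, `K = closure {a, a'}`.
If there is no hom `K → ℤ/2` with `a ↦ 0, a' ↦ 1` then by hom_or_finite and lemmaX `⟨a⟩` has finite
index in `K`: `a' ^ M = a ^ L` with `M ≥ 1`, that is `b⁻¹ * a ^ M * b = a ^ L`. `E = L - M`. The
commutator `x⁻¹ * b⁻¹ * x * b` of `x = a ^ (M * s)` is `a ^ (E * s)`. Starting with `a ^ (M ^ j)`
and taking `j` commutators with `b` one gets `a ^ (E ^ j)`, in the `j`-th term of the lower central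
series of the nilpotent group `closure {a, b}`; `a` has infinite order, so `E = 0`. So
`a ^ M = a' ^ M` is central in `K`; the center of `K` has finite index (it contains
`⟨a ^ M⟩`), so `commutator K` is finite (Schur; see A1); modulo `commutator K`,
`c ^ M = a ^ (-M) * a' ^ M = 1`, so `c ^ M ∈ commutator K` and `c` has finite order, contradiction.
The second half (`a ↦ 1, a' ↦ 0`) is the first half for the pair `(a', b⁻¹)`: `closure {a', b⁻¹} =
closure {a, b}`, `b * a' * b⁻¹ = a`, and `a'⁻¹ * b * a' * b⁻¹ = a'⁻¹ * a = c⁻¹` up to conjugation.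
(For the hom on `K = closure {a, a'}` prove the function version with fun_of_hom.)
-/

namespace Pool.Agent.MP1822N

open Set MeasureTheory Pointwise
open Pool.Agent.Lib.MP_1822da_lc Pool.Agent.MP1822T Pool.Agent.MP1822C

universe u v

open scoped commutatorElement in
private theorem pw {G : Type u} [Group G] [Group.IsNilpotent G] {a b : G} (ha : ¬ IsOfFinOrder a)
    {M : ℕ} {L : ℤ} (h : b⁻¹ * a ^ (M : ℤ) * b = a ^ L) : L = M := by
  obtain ⟨n, hn⟩ := Subgroup.nilpotent_iff_lowerCentralSeries.1 (inferInstance : Group.IsNilpotent G)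
  have hcj : ∀ s : ℤ, b⁻¹ * a ^ ((M : ℤ) * s) * b = a ^ (L * s) := by
    intro s
    have h1 : (b⁻¹ * a ^ (M : ℤ) * b⁻¹⁻¹) ^ s = b⁻¹ * (a ^ (M : ℤ)) ^ s * b⁻¹⁻¹ := conj_zpow
    rw [inv_inv, h, ← zpow_mul, ← zpow_mul] at h1
    exact h1.symm
  have P : ∀ i : ℕ, ∀ k : ℕ, a ^ ((M : ℤ) ^ k * (L - M) ^ i) ∈
      Subgroup.lowerCentralSeries (⊤ : Subgroup G) i := by
    intro i
    induction i with
    | zero => intro k; exact Subgroup.mem_top _
    | succ i ih =>
      intro k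
      have h1 := ih (k + 1)
      set t : ℤ := (M : ℤ) ^ k * (L - M) ^ i with ht
      have e1 : ((M : ℤ) ^ (k + 1) * (L - M) ^ i) = M * t := by rw [ht]; ring
      rw [e1] at h1
      have e2 : a ^ ((M : ℤ) ^ k * (L - M) ^ (i + 1)) = ⁅(a ^ ((M : ℤ) * t))⁻¹, b⁻¹⁆ := by
        rw [commutatorElement_def, inv_inv, inv_inv]
        have e3 : (a ^ ((M : ℤ) * t))⁻¹ * b⁻¹ * a ^ ((M : ℤ) * t) * b =
            (a ^ ((M : ℤ) * t))⁻¹ * (b⁻¹ * a ^ ((M : ℤ) * t) * b) := by group
        rw [e3, hcj, ← zpow_neg, ← zpow_add]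
        congr 1
        rw [ht]; ring
      rw [e2]
      exact Subgroup.commutator_mem_commutator (inv_mem h1) (Subgroup.mem_top _)
  have h2 := P n 0
  rw [hn, Subgroup.mem_bot, pow_zero, one_mul] at h2
  have h3 : (L - (M : ℤ)) ^ n = 0 := by
    have hinj := injective_zpow_iff_not_isOfFinOrder.2 ha
    apply hinj
    simpa using h2
  have h4 : L - (M : ℤ) = 0 := by
    by_contra hne
    exact pow_ne_zero n hne h3
  linarith

private theorem fin {K : Type u} [Group K] {a a' : K} (hgen : Subgroup.closure {a, a'} = ⊤)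
    {M : ℕ} (hM : 0 < M) (h : a ^ M = a' ^ M) (hfi : (Subgroup.zpowers a).FiniteIndex) :
    IsOfFinOrder (a⁻¹ * a') := by
  have hz : a ^ M ∈ Subgroup.center K := by
    have h1 : Subgroup.closure {a, a'} ≤ Subgroup.centralizer {a ^ M} := by
      rw [Subgroup.closure_le]
      rintro x hx
      rw [SetLike.mem_coe, Subgroup.mem_centralizer_iff]
      intro g hg
      rw [Set.mem_singleton_iff] at hg
      rw [hg]
      rcases hx with rfl | hx
      · rw [← pow_succ, ← pow_succ']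
      · rw [Set.mem_singleton_iff] at hx
        rw [hx, h, ← pow_succ, ← pow_succ']
    rw [Subgroup.mem_center_iff]
    intro g
    have hg : g ∈ Subgroup.centralizer {a ^ M} := h1 (by rw [hgen]; exact Subgroup.mem_top _)
    rw [Subgroup.mem_centralizer_iff] at hg
    exact (hg _ (Set.mem_singleton _)).symm
  have hc : (Subgroup.center K).FiniteIndex := by
    set π : K →* K ⧸ Subgroup.center K := QuotientGroup.mk' (Subgroup.center K) with hπ
    have hs : Function.Surjective π := QuotientGroup.mk'_surjective _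
    have h1 : (Subgroup.map π (Subgroup.zpowers a)).index ≠ 0 := by
      intro h0
      have h2 := Subgroup.index_map_dvd (Subgroup.zpowers a) hs
      rw [h0, zero_dvd_iff] at h2
      exact hfi.index_ne_zero h2
    rw [MonoidHom.map_zpowers] at h1
    have h3 : IsOfFinOrder (π a) := by
      rw [isOfFinOrder_iff_pow_eq_one]
      refine ⟨M, hM, ?_⟩
      rw [← map_pow]
      exact (QuotientGroup.eq_one_iff _).2 hz
    have h4 : Finite (Subgroup.zpowers (π a)) := h3.finite_zpowers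
    have h5 := Subgroup.card_mul_index (Subgroup.zpowers (π a))
    have h6 : Nat.card (K ⧸ Subgroup.center K) ≠ 0 := by
      rw [← h5]
      exact mul_ne_zero Nat.card_pos.ne' h1
    exact ⟨h6⟩
  have hf : ∀ g : K, ((MonoidHom.transferCenterPow K g : Subgroup.center K) : K) =
      g ^ (Subgroup.center K).index := fun g => MonoidHom.transferCenterPow_apply g
  set n := (Subgroup.center K).index with hn
  have hn0 : n ≠ 0 := hc.index_ne_zero
  have hcn : ∀ g : K, g ^ n ∈ Subgroup.center K := fun g => by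
    rw [← hf g]; exact (MonoidHom.transferCenterPow K g).2
  have e1 : (a⁻¹ * a') ^ n = (a ^ n)⁻¹ * a' ^ n := by
    rw [← hf (a⁻¹ * a'), map_mul, map_inv, Subgroup.coe_mul, Subgroup.coe_inv, hf, hf]
  have e2 : Commute (a ^ n)⁻¹ (a' ^ n) := by
    have := Subgroup.mem_center_iff.1 (hcn a') (a ^ n)⁻¹
    exact this
  rw [isOfFinOrder_iff_pow_eq_one]
  refine ⟨n * M, Nat.mul_pos (Nat.pos_of_ne_zero hn0) hM, ?_⟩
  rw [pow_mul, e1, e2.mul_pow, inv_pow, ← pow_mul, ← pow_mul, mul_comm n M, pow_mul, pow_mul, h,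
    inv_mul_cancel]

private theorem nil_le {Γ : Type u} [Group Γ] {K N : Subgroup Γ} (h : K ≤ N)
    (hN : Group.IsNilpotent N) : Group.IsNilpotent K := by
  have e := Subgroup.subgroupOfEquivOfLe h
  have : Group.IsNilpotent N := hN
  exact Group.nilpotent_of_mulEquiv e

variable {Γ : Type u} [Group Γ]

private theorem fin_conj {a b : Γ} (h : IsOfFinOrder (b⁻¹ * a * b)) : IsOfFinOrder a := by
  rw [isOfFinOrder_iff_pow_eq_one] at h ⊢
  obtain ⟨n, hn, h⟩ := h
  refine ⟨n, hn, ?_⟩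
  have h1 : (b⁻¹ * a * b⁻¹⁻¹) ^ n = b⁻¹ * a ^ n * b⁻¹⁻¹ := conj_pow
  rw [inv_inv, h] at h1
  have h2 : a ^ n = b * (b⁻¹ * a ^ n * b) * b⁻¹ := by group
  rw [h2, ← h1]
  group

private theorem half {a b : Γ} (hnil : Group.IsNilpotent (Subgroup.closure {a, b}))
    (ha : ¬ IsOfFinOrder a) (hc : ¬ IsOfFinOrder (a⁻¹ * (b⁻¹ * a * b))) :
    ∃ β : Γ → Bool, (∀ y, β (b⁻¹ * a * b * y) = !(β y)) ∧ ∀ y, β (a * y) = β y := by
  set a' : Γ := b⁻¹ * a * b with ha'
  have haN : a ∈ Subgroup.closure {a, b} := Subgroup.subset_closure (by simp)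
  have hbN : b ∈ Subgroup.closure {a, b} := Subgroup.subset_closure (by simp)
  have hKN : Subgroup.closure {a, a'} ≤ Subgroup.closure {a, b} := by
    rw [Subgroup.closure_le]
    rintro x (rfl | hx)
    · exact haN
    · rw [Set.mem_singleton_iff] at hx
      rw [hx, ha']
      exact mul_mem (mul_mem (inv_mem hbN) haN) hbN
  set K := Subgroup.closure {a, a'} with hK
  have hKn : Group.IsNilpotent K := nil_le hKN hnil
  have haK : a ∈ K := Subgroup.subset_closure (by simp)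
  have ha'K : a' ∈ K := Subgroup.subset_closure (by simp)
  have hgen : Subgroup.closure {(⟨a, haK⟩ : K), ⟨a', ha'K⟩} = ⊤ := by
    have h1 := Subgroup.closure_closure_coe_preimage (k := {a, a'})
    rw [← h1]
    congr 1
    ext x
    simp only [Set.mem_insert_iff, Set.mem_singleton_iff, Set.mem_preimage, Subtype.ext_iff]
  have hgen' : Subgroup.closure (insert (⟨a', ha'K⟩ : K) {(⟨a, haK⟩ : K)}) = ⊤ := by
    rw [Set.pair_comm]
    exact hgen
  rcases hom_or_finite {(⟨a, haK⟩ : K)} (⟨a', ha'K⟩ : K) hgen' with ⟨φ, h1, h2⟩ | hfi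
  · obtain ⟨β, hβ⟩ := fun_of_hom K φ
    exact ⟨β, fun y => (hβ ⟨a', ha'K⟩ y).1 h1, fun y => (hβ ⟨a, haK⟩ y).2 (h2 _ rfl)⟩
  · exfalso
    rw [← Subgroup.zpowers_eq_closure] at hfi
    have hfi2 := lemmaX (⟨a, haK⟩ : K) hfi
    obtain ⟨M, hM, -, hMm⟩ := Subgroup.exists_pow_mem_of_index_ne_zero hfi2.index_ne_zero
      (⟨a', ha'K⟩ : K)
    rw [Subgroup.mem_zpowers_iff] at hMm
    obtain ⟨L, hL⟩ := hMm
    have hL' : a ^ L = a' ^ M := by
      have := congrArg (Subtype.val) hL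
      simpa using this
    have hcj : b⁻¹ * a ^ (M : ℤ) * b = a ^ L := by
      have h1 : (b⁻¹ * a * b⁻¹⁻¹) ^ M = b⁻¹ * a ^ M * b⁻¹⁻¹ := conj_pow
      rw [inv_inv, ← ha'] at h1
      rw [hL', h1, zpow_natCast]
    have := hnil
    have hLM : L = M := by
      refine pw (G := Subgroup.closure {a, b}) (a := ⟨a, haN⟩) (b := ⟨b, hbN⟩) ?_ ?_
      · intro hfo
        apply ha
        exact MonoidHom.isOfFinOrder (Subgroup.subtype (Subgroup.closure {a, b})) hfo
      · apply Subtype.ext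
        simpa using hcj
    rw [hLM, zpow_natCast] at hL'
    have hcf := fin hgen hM (Subtype.ext (by simpa using hL')) hfi2
    apply hc
    exact MonoidHom.isOfFinOrder (Subgroup.subtype K) hcf

/-- H2 -/
theorem fun2 {a b : Γ} (hnil : Group.IsNilpotent (Subgroup.closure {a, b}))
    (ha : ¬ IsOfFinOrder a) (hc : ¬ IsOfFinOrder (a⁻¹ * b⁻¹ * a * b)) :
    (∃ β : Γ → Bool, (∀ y, β (b⁻¹ * a * b * y) = !(β y)) ∧ ∀ y, β (a * y) = β y) ∧
      ∃ α : Γ → Bool, (∀ y, α (a * y) = !(α y)) ∧ ∀ y, α (b⁻¹ * a * b * y) = α y := by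
  have hc' : ¬ IsOfFinOrder (a⁻¹ * (b⁻¹ * a * b)) := by
    have e : a⁻¹ * (b⁻¹ * a * b) = a⁻¹ * b⁻¹ * a * b := by group
    rw [e]; exact hc
  refine ⟨half hnil ha hc', ?_⟩
  have e1 : (b⁻¹)⁻¹ * (b⁻¹ * a * b) * b⁻¹ = a := by group
  have hle : Subgroup.closure {b⁻¹ * a * b, b⁻¹} ≤ Subgroup.closure {a, b} := by
    have haN : a ∈ Subgroup.closure {a, b} := Subgroup.subset_closure (by simp)
    have hbN : b ∈ Subgroup.closure {a, b} := Subgroup.subset_closure (by simp)
    rw [Subgroup.closure_le]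
    rintro x (rfl | hx)
    · exact mul_mem (mul_mem (inv_mem hbN) haN) hbN
    · rw [Set.mem_singleton_iff] at hx
      rw [hx]
      exact inv_mem hbN
  have h := half (a := b⁻¹ * a * b) (b := b⁻¹) (nil_le hle hnil) (fun h => ha (fin_conj h)) (by
    rw [e1]
    intro h
    apply hc'
    have := h.inv
    have e2 : ((b⁻¹ * a * b)⁻¹ * a)⁻¹ = a⁻¹ * (b⁻¹ * a * b) := by group
    rwa [e2] at this)
  rw [e1] at h
  exact h

end Pool.Agent.MP1822N
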