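import Pool.Agent.Lib.MP_1822da_lc.NB.A2a

/-!
# Commensurable elements, H3, virtually cyclic cases

PROOFS.
Cm is symmetric, and transitive on elements of infinite order (proved).
fun3 (H3): in `L = closure (insert h A)` apply hom_or_finite with `x = h`. If the second case holds,
`closure A ⊔ commutator L` has finite index in `L`; fix `a₁ ∈ A`: for `a ∈ A` some `a ^ p ∈ ⟨a₁⟩`,
`p ≥ 1`, so `⟨a₁⟩ ⊔ commutator L` has finite index in `closure A ⊔ commutator L` (the quotient by
`⟨a₁⟩ ⊔ commutator L` is abelian and generated by finitely many elements of finite order, so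
finite). By lemmaX `⟨a₁⟩` has finite index in `L` and `h ^ m ∈ ⟨a₁⟩`, `m ≥ 1`: `Cm h a₁`.
Otherwise the hom gives `β` by fun_of_hom.
vc_of_Cm: all elements of `B` commensurable to `g ∈ B`, closure B nilpotent ⇒ closure B virtually
cyclic (as in H3: `⟨g⟩ ⊔ commutator` has finite index). vc_of_fin: `s` of finite order: `⟨g⟩ ⊔ commutator`
has finite index in `closure {g, s}`.
(Common tool, to be proved first: `K` a group generated by a finite set `T`, `x ∈ K`, every `t ∈ T` has a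
power `t ^ p ∈ ⟨x⟩ ⊔ commutator K`, `p ≥ 1` ⇒ `(⟨x⟩ ⊔ commutator K).FiniteIndex`; Mathlib has that a finitely
generated torsion commutative group is finite: `CommGroup.finite_of_fg_torsion`.)
-/

namespace Pool.Agent.MP1822N

open Set MeasureTheory Pointwise
open Pool.Agent.Lib.MP_1822da_lc Pool.Agent.MP1822T Pool.Agent.MP1822C

universe u v

variable {Γ : Type u} [Group Γ]


theorem Cm.symm {g h : Γ} (H : Cm g h) : Cm h g := by
  obtain ⟨m, n, hm, hn, he⟩ := H
  exact ⟨n, m, hn, hm, he.symm⟩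

theorem Cm.trans {g h l : Γ} (H : Cm g h) (H' : Cm h l) : Cm g l := by
  obtain ⟨m, n, hm, hn, he⟩ := H
  obtain ⟨m', n', hm', hn', he'⟩ := H'
  refine ⟨m * m', n * n', mul_ne_zero hm hm', mul_ne_zero hn hn', ?_⟩
  rw [zpow_mul, he, ← zpow_mul, mul_comm n m', zpow_mul, he', ← zpow_mul, mul_comm n' n]

theorem Cm.inv_right {g h : Γ} (H : Cm g h) : Cm g h⁻¹ := by
  obtain ⟨m, n, hm, hn, he⟩ := H
  exact ⟨m, -n, hm, neg_ne_zero.2 hn, by rw [he, _root_.inv_zpow, zpow_neg, inv_inv]⟩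

/-- the common tool -/
private theorem a3a_tool {K : Type u} [Group K] {T : Set K} (hT : T.Finite)
    (hgen : Subgroup.closure T = ⊤) (R : Subgroup K) (hR : commutator K ≤ R)
    (hp : ∀ t ∈ T, ∃ p : ℕ, 0 < p ∧ t ^ p ∈ R) : R.FiniteIndex := by
  haveI hn : R.Normal := Subgroup.Normal.of_commutator_le _ hR
  letI cg : CommGroup (K ⧸ R) :=
    { (inferInstance : Group (K ⧸ R)) with
      mul_comm := (Subgroup.Normal.quotient_commutative_iff_commutator_le.2 hR).is_comm.comm }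
  haveI fgK : Group.FG K := Group.fg_iff.2 ⟨T, hgen, hT⟩
  haveI fgQ : Group.FG (K ⧸ R) := QuotientGroup.fg R
  have htor : Monoid.IsTorsion (K ⧸ R) := by
    intro q
    obtain ⟨k, rfl⟩ := QuotientGroup.mk_surjective q
    have hk : k ∈ Subgroup.closure T := by rw [hgen]; exact Subgroup.mem_top k
    induction hk using Subgroup.closure_induction with
    | mem t ht =>
      obtain ⟨p, hp0, hpm⟩ := hp t ht
      rw [isOfFinOrder_iff_pow_eq_one]
      refine ⟨p, hp0, ?_⟩
      rw [← QuotientGroup.mk_pow]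
      exact (QuotientGroup.eq_one_iff _).2 hpm
    | one => exact IsOfFinOrder.one
    | mul x y _ _ hx hy => exact hx.mul hy
    | inv x _ hx => exact hx.inv
  haveI : Finite (K ⧸ R) := CommGroup.finite_of_fg_torsion _ htor
  exact Subgroup.finiteIndex_of_finite_quotient

private theorem a3a_pow_mem {K : Type u} [Group K] {R : Subgroup K} {k : K} {m : ℤ} (hm : m ≠ 0)
    (h : k ^ m ∈ R) : ∃ p : ℕ, 0 < p ∧ k ^ p ∈ R := by
  refine ⟨m.natAbs, Int.natAbs_pos.2 hm, ?_⟩
  rcases Int.natAbs_eq m with h' | h'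
  · rw [h', zpow_natCast] at h
    exact h
  · rw [h', zpow_neg, zpow_natCast] at h
    exact (Subgroup.inv_mem_iff R).1 h

private theorem a3a_tool2 {K : Type u} [Group K] {A : Set K} {x : K} (hA : A.Finite)
    (hgen : Subgroup.closure (insert x A) = ⊤)
    (hfin : (Subgroup.closure A ⊔ commutator K).FiniteIndex) (R : Subgroup K)
    (hR : commutator K ≤ R) (hp : ∀ t ∈ A, ∃ p : ℕ, 0 < p ∧ t ^ p ∈ R) : R.FiniteIndex := by
  refine a3a_tool (hA.insert x) hgen R hR ?_
  intro t ht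
  rcases ht with rfl | ht
  swap
  · exact hp t ht
  haveI hn : R.Normal := Subgroup.Normal.of_commutator_le _ hR
  letI cg : CommGroup (K ⧸ R) :=
    { (inferInstance : Group (K ⧸ R)) with
      mul_comm := (Subgroup.Normal.quotient_commutative_iff_commutator_le.2 hR).is_comm.comm }
  obtain ⟨p, hp0, -, hpm⟩ := Subgroup.exists_pow_mem_of_index_ne_zero hfin.index_ne_zero t
  have hcl : ∀ k ∈ Subgroup.closure A, IsOfFinOrder (k : K ⧸ R) := by
    intro k hk
    induction hk using Subgroup.closure_induction with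
    | mem t ht =>
      obtain ⟨p, hp0, hpm⟩ := hp t ht
      rw [isOfFinOrder_iff_pow_eq_one]
      refine ⟨p, hp0, ?_⟩
      rw [← QuotientGroup.mk_pow]
      exact (QuotientGroup.eq_one_iff _).2 hpm
    | one => exact IsOfFinOrder.one
    | mul x y _ _ hx hy => exact hx.mul hy
    | inv x _ hx => exact hx.inv
  obtain ⟨u, hu, v, hv, huv⟩ := Subgroup.mem_sup_of_normal_right.1 hpm
  have hv1 : ((v : K) : K ⧸ R) = 1 := (QuotientGroup.eq_one_iff _).2 (hR hv)
  have h1 : IsOfFinOrder ((t : K ⧸ R) ^ p) := by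
    rw [← QuotientGroup.mk_pow, ← huv, QuotientGroup.mk_mul, hv1, mul_one]
    exact hcl u hu
  have h2 : IsOfFinOrder (t : K ⧸ R) := (isOfFinOrder_pow.1 h1).resolve_right (by omega)
  obtain ⟨q, hq0, hq⟩ := isOfFinOrder_iff_pow_eq_one.1 h2
  refine ⟨q, hq0, ?_⟩
  rw [← QuotientGroup.mk_pow] at hq
  exact (QuotientGroup.eq_one_iff _).1 hq

/-- H3 -/
theorem fun3 {h : Γ} {A : Finset Γ}
    (hnil : Group.IsNilpotent (Subgroup.closure (insert h (A : Set Γ))))
    (ho : ¬ IsOfFinOrder h) (Ao : ∀ a ∈ A, ¬ IsOfFinOrder a) (hne : A.Nonempty)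
    (hAA : ∀ a ∈ A, ∀ a' ∈ A, Cm a a') (hhA : ∀ a ∈ A, ¬ Cm h a) :
    ∃ β : Γ → Bool, (∀ y, β (h * y) = !(β y)) ∧ ∀ a ∈ A, ∀ y, β (a * y) = β y := by
  have hhm : h ∈ Subgroup.closure (insert h (A : Set Γ)) :=
    Subgroup.subset_closure (Set.mem_insert _ _)
  have ham : ∀ a ∈ A, a ∈ Subgroup.closure (insert h (A : Set Γ)) := fun a ha =>
    Subgroup.subset_closure (Set.mem_insert_of_mem _ (Finset.mem_coe.2 ha))
  set L : Subgroup Γ := Subgroup.closure (insert h (A : Set Γ)) with hL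
  set A' : Set L := (Subtype.val : L → Γ) ⁻¹' (A : Set Γ) with hA'
  have hpre : insert (⟨h, hhm⟩ : L) A' = (Subtype.val : L → Γ) ⁻¹' (insert h (A : Set Γ)) := by
    ext k
    simp only [Set.mem_insert_iff, Set.mem_preimage, hA', Subtype.ext_iff]
  have hgen : Subgroup.closure (insert (⟨h, hhm⟩ : L) A') = ⊤ := by
    rw [hpre]
    exact Subgroup.closure_closure_coe_preimage
  have hfA : A'.Finite := Set.Finite.preimage Subtype.val_injective.injOn A.finite_toSet
  obtain ⟨a₁, ha₁⟩ := hne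
  rcases hom_or_finite A' (⟨h, hhm⟩ : L) hgen with ⟨φ, hφ, hφA⟩ | hfin
  · obtain ⟨β, hβ⟩ := fun_of_hom L φ
    refine ⟨β, fun y => (hβ ⟨h, hhm⟩ y).1 hφ, fun a ha y => ?_⟩
    exact (hβ ⟨a, ham a ha⟩ y).2 (hφA _ (Finset.mem_coe.2 ha))
  · exfalso
    have hR : ((Subgroup.zpowers (⟨a₁, ham a₁ ha₁⟩ : L)) ⊔ commutator L).FiniteIndex := by
      refine a3a_tool2 hfA hgen hfin _ le_sup_right ?_
      intro t ht
      obtain ⟨m, n, hm, hn, he⟩ := hAA (t : Γ) (Finset.mem_coe.1 ht) a₁ ha₁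
      refine a3a_pow_mem (m := m) hm (Subgroup.mem_sup_left ?_)
      refine Subgroup.mem_zpowers_iff.2 ⟨n, ?_⟩
      apply Subtype.ext
      simp only [SubgroupClass.coe_zpow]
      exact he.symm
    haveI := hnil
    have hF := lemmaX _ hR
    obtain ⟨p, hp0, -, hpm⟩ :=
      Subgroup.exists_pow_mem_of_index_ne_zero hF.index_ne_zero (⟨h, hhm⟩ : L)
    obtain ⟨n, hn⟩ := Subgroup.mem_zpowers_iff.1 hpm
    have hn' : a₁ ^ n = h ^ p := by
      have := congrArg Subtype.val hn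
      simpa using this
    refine hhA a₁ ha₁ ⟨p, n, by exact_mod_cast hp0.ne', ?_, ?_⟩
    · rintro rfl
      apply ho
      rw [isOfFinOrder_iff_pow_eq_one]
      exact ⟨p, hp0, by rw [← hn', zpow_zero]⟩
    · rw [zpow_natCast, hn']

theorem vc_of_Cm {B : Finset Γ} (hnil : Group.IsNilpotent (Subgroup.closure (B : Set Γ)))
    {g : Γ} (hg : g ∈ B) (hB : ∀ b ∈ B, Cm b g) :
    IsVirtuallyCyclic (Subgroup.closure (B : Set Γ)) := by
  have hgm : g ∈ Subgroup.closure (B : Set Γ) := Subgroup.subset_closure (Finset.mem_coe.2 hg)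
  haveI := hnil
  refine ⟨⟨g, hgm⟩, lemmaX _ ?_⟩
  refine a3a_tool (T := (Subtype.val : Subgroup.closure (B : Set Γ) → Γ) ⁻¹' (B : Set Γ))
    (Set.Finite.preimage Subtype.val_injective.injOn B.finite_toSet)
    Subgroup.closure_closure_coe_preimage _ le_sup_right ?_
  intro t ht
  obtain ⟨m, n, hm, hn, he⟩ := hB (t : Γ) (Finset.mem_coe.1 ht)
  refine a3a_pow_mem (m := m) hm (Subgroup.mem_sup_left ?_)
  refine Subgroup.mem_zpowers_iff.2 ⟨n, ?_⟩
  apply Subtype.ext
  simp only [SubgroupClass.coe_zpow]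
  exact he.symm

theorem vc_of_fin {g s : Γ} (hnil : Group.IsNilpotent (Subgroup.closure {g, s}))
    (hs : IsOfFinOrder s) : IsVirtuallyCyclic (Subgroup.closure {g, s}) := by
  have hgm : g ∈ Subgroup.closure ({g, s} : Set Γ) :=
    Subgroup.subset_closure (Set.mem_insert _ _)
  haveI := hnil
  refine ⟨⟨g, hgm⟩, lemmaX _ ?_⟩
  refine a3a_tool (T := (Subtype.val : Subgroup.closure ({g, s} : Set Γ) → Γ) ⁻¹' ({g, s} : Set Γ))
    (Set.Finite.preimage Subtype.val_injective.injOn (Set.toFinite _))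
    Subgroup.closure_closure_coe_preimage _ le_sup_right ?_
  intro t ht
  rcases ht with ht | ht
  · refine ⟨1, one_pos, Subgroup.mem_sup_left ?_⟩
    rw [pow_one]
    have : t = ⟨g, hgm⟩ := Subtype.ext ht
    rw [this]
    exact Subgroup.mem_zpowers _
  · obtain ⟨p, hp0, hp⟩ := isOfFinOrder_iff_pow_eq_one.1 hs
    refine ⟨p, hp0, ?_⟩
    have : t ^ p = 1 := by
      apply Subtype.ext
      rw [SubgroupClass.coe_pow]
      rw [Set.mem_singleton_iff.1 ht, hp]
      rfl
    rw [this]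
    exact Subgroup.one_mem _

end Pool.Agent.MP1822N
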