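import Pool.Agent.Lib.MP_1822da_lc.NB.A2a

/-!
# Triples in nilpotent groups (H4)

PROOF of fun4 (H4): suppose the contrary for all three-element subsets. For distinct `x, y, z ∈ T`,
`L = closure {x, y, z}`: by fun_of_hom there is no hom `L → ℤ/2` which is nontrivial on exactly one
of `x, y, z`. So (1) every hom `L → ℤ/2` takes the value `1 ∈ ℤ/2` on none or on at least two of `x, y, z`.
(2) There are homs `φ, ψ : L → ℤ/2` with `φ ≠ 0`, `ψ ≠ 0`, `φ ≠ ψ`. Otherwise let `w ∈ {x, y, z}` be an element with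
`φ w ≠ 0` for the only nonzero hom (any `w` if there is none). `⟨w⟩ ⊔ commutator L` has finite index in `L`: the
quotient `Q` is a finitely generated abelian group without nonzero hom to `ℤ/2`, so it is finite (e.g.: use
hom_or_finite twice; with `L = closure {w, w', w''}`: if `closure {w, w'} ⊔ commutator L` had infinite index,
hom_or_finite (`x = w''`) would give a hom which is nonzero on `w''` and zero on `w`; in `Q` the image of `w''` is then
of finite order modulo `w'`; then the same for `w'` modulo `w`, using that a hom of a subgroup of finite ODD index extends;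
or use the structure theorem / `CommGroup.finite_of_fg_torsion` and: if `Q` has an element of infinite order then it has a
quotient `ℤ`, hence a hom onto `ℤ/2`). By lemmaX `⟨w⟩` has finite index in `L`, and another one of `x, y, z` is
commensurable to `w`, contradiction.
(3) By (1) the value vectors of `φ, ψ, φ + ψ` on `(x, y, z)` are in `{110, 101, 011, 111}`, and they are three different
nonzero vectors (a hom is determined by its values on the generators) with sum `0`: the only possibility is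
`110, 101, 011` (two of them and `111` do not add up to `0`). So every hom `χ : L → ℤ/2` satisfies
`χ x + χ y + χ z = 0` (all homs: if there were another one, a sum would have weight one or be `111`; `111` plus `110`
is `001`).
(4) Every hom `χ : M → ℤ/2`, `M = closure T`, `T = {a, b, c, d}`, restricts to the four groups `L`: the sum of any three
of the values is `0`, so all four are equal, `3 * value = 0`, all zero. So `M` has no nonzero hom to `ℤ/2`; as in (2)
`commutator M` has finite index, by lemmaX with `x = 1` the trivial group has finite index, `M` is finite,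
but the elements of `T` have infinite order.
(Tool for (2), (4): a finitely generated group `K` and `w : K` such that every hom `K → ℤ/2` with `φ w = 0` is zero ⇒
`(⟨w⟩ ⊔ commutator K).FiniteIndex`. If no hom with `w ↦ 0` is nonzero ... this covers both cases.)
-/

namespace Pool.Agent.MP1822N

open Set MeasureTheory Pointwise
open Pool.Agent.Lib.MP_1822da_lc Pool.Agent.MP1822T Pool.Agent.MP1822C

universe u v

variable {Γ : Type u} [Group Γ]


private theorem b3_tool {K : Type u} [Group K] {T : Set K} (hT : T.Finite)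
    (hgen : Subgroup.closure T = ⊤) (w : K)
    (hw : ∀ φ : K →* Multiplicative (ZMod 2), φ w = 1 → ∀ k, φ k = 1) :
    (Subgroup.zpowers w ⊔ commutator K).FiniteIndex := by
  set R : Subgroup K := Subgroup.zpowers w ⊔ commutator K with hRdef
  have hR : commutator K ≤ R := le_sup_right
  haveI hn : R.Normal := Subgroup.Normal.of_commutator_le _ hR
  letI cg : CommGroup (K ⧸ R) :=
    { (inferInstance : Group (K ⧸ R)) with
      mul_comm := (Subgroup.Normal.quotient_commutative_iff_commutator_le.2 hR).is_comm.comm }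
  haveI fgK : Group.FG K := Group.fg_iff.2 ⟨T, hgen, hT⟩
  haveI fgQ : Group.FG (K ⧸ R) := QuotientGroup.fg R
  haveI mfin : Module.Finite ℤ (Additive (K ⧸ R)) := by
    rw [Module.Finite.iff_addGroup_fg]
    infer_instance
  set I : Ideal ℤ := Ideal.span {2} with hI
  have hle : (⊤ : Submodule ℤ (Additive (K ⧸ R))) ≤ I • ⊤ := by
    intro q _
    by_contra hq
    have h2 : ∀ v : (Additive (K ⧸ R)) ⧸ (I • ⊤ : Submodule ℤ (Additive (K ⧸ R))),
        (2 : ℕ) • v = 0 := by
      intro v
      obtain ⟨x, rfl⟩ := Submodule.Quotient.mk_surjective _ v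
      rw [← Submodule.Quotient.mk_smul, Submodule.Quotient.mk_eq_zero]
      have h3 : (2 : ℕ) • x = (2 : ℤ) • x := by
        rw [← natCast_zsmul]; norm_num
      rw [h3]
      exact Submodule.smul_mem_smul (Ideal.subset_span (Set.mem_singleton _)) Submodule.mem_top
    letI md : Module (ZMod 2)
        ((Additive (K ⧸ R)) ⧸ (I • ⊤ : Submodule ℤ (Additive (K ⧸ R)))) :=
      AddCommGroup.zmodModule h2
    have h4 : (Submodule.Quotient.mk q : (Additive (K ⧸ R)) ⧸
        (I • ⊤ : Submodule ℤ (Additive (K ⧸ R)))) ≠ 0 := by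
      rw [Ne, Submodule.Quotient.mk_eq_zero]
      exact hq
    have h5 : ∃ f : Module.Dual (ZMod 2) ((Additive (K ⧸ R)) ⧸
        (I • ⊤ : Submodule ℤ (Additive (K ⧸ R)))), f (Submodule.Quotient.mk q) ≠ 0 := by
      by_contra hc
      push_neg at hc
      exact h4 ((Module.forall_dual_apply_eq_zero_iff (ZMod 2) _).1 hc)
    obtain ⟨f, hf⟩ := h5
    let φ : K →* Multiplicative (ZMod 2) :=
      { toFun := fun k => Multiplicative.ofAdd
          (f (Submodule.Quotient.mk (Additive.ofMul (QuotientGroup.mk k : K ⧸ R))))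
        map_one' := by
          rw [QuotientGroup.mk_one, ofMul_one, Submodule.Quotient.mk_zero, map_zero]
          rfl
        map_mul' := by
          intro a b
          rw [QuotientGroup.mk_mul, ofMul_mul, Submodule.Quotient.mk_add, map_add]
          rfl }
    have hφw : φ w = 1 := by
      have h6 : (QuotientGroup.mk w : K ⧸ R) = 1 :=
        (QuotientGroup.eq_one_iff _).2 (Subgroup.mem_sup_left (Subgroup.mem_zpowers w))
      show Multiplicative.ofAdd
          (f (Submodule.Quotient.mk (Additive.ofMul (QuotientGroup.mk w : K ⧸ R)))) = 1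
      rw [h6, ofMul_one, Submodule.Quotient.mk_zero, map_zero]
      rfl
    obtain ⟨k, hk⟩ := QuotientGroup.mk_surjective (Additive.toMul q)
    have h7 := hw φ hφw k
    apply hf
    have h8 : Multiplicative.ofAdd
          (f (Submodule.Quotient.mk (Additive.ofMul (QuotientGroup.mk k : K ⧸ R)))) = 1 := h7
    rw [hk] at h8
    exact h8
  obtain ⟨r, hr, hr0⟩ := Submodule.exists_sub_one_mem_and_smul_eq_zero_of_fg_of_le_smul I
    (⊤ : Submodule ℤ (Additive (K ⧸ R))) mfin.fg_top hle
  have hr1 : r ≠ 0 := by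
    rintro rfl
    rw [hI, Ideal.mem_span_singleton] at hr
    omega
  have htor : Monoid.IsTorsion (K ⧸ R) := by
    intro q
    rw [isOfFinOrder_iff_zpow_eq_one]
    refine ⟨r, hr1, ?_⟩
    have := hr0 (Additive.ofMul q) Submodule.mem_top
    rw [← ofMul_zpow] at this
    exact this
  haveI : Finite (K ⧸ R) := CommGroup.finite_of_fg_torsion _ htor
  exact Subgroup.finiteIndex_of_finite_quotient

private theorem b3_nil_mono {P Q : Set Γ} (hPQ : P ⊆ Q)
    (hQ : Group.IsNilpotent (Subgroup.closure Q)) : Group.IsNilpotent (Subgroup.closure P) := by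
  have hle : Subgroup.closure P ≤ Subgroup.closure Q := Subgroup.closure_mono hPQ
  have h1 : Group.IsNilpotent ((Subgroup.closure P).subgroupOf (Subgroup.closure Q)) :=
    inferInstance
  exact (Group.isNilpotent_congr (Subgroup.subgroupOfEquivOfLe hle)).1 h1

private theorem b3_z2 (a b : Multiplicative (ZMod 2)) (ha : a ≠ 1) (hb : b ≠ 1) : a * b = 1 := by
  revert a b; decide

/-- homs of a closure are determined by the generators -/
private theorem b3_triv {P : Set Γ} (φ : Subgroup.closure P →* Multiplicative (ZMod 2))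
    (h : ∀ p, ∀ hp : p ∈ P, φ ⟨p, Subgroup.subset_closure hp⟩ = 1) (k : Subgroup.closure P) :
    φ k = 1 := by
  have h1 : (⊤ : Subgroup (Subgroup.closure P)) ≤ φ.ker := by
    rw [← Subgroup.closure_closure_coe_preimage (k := P), Subgroup.closure_le]
    intro q hq
    exact h q.1 hq
  exact h1 (Subgroup.mem_top k)

/-- H4 -/
theorem fun4 {T : Finset Γ} (hT : T.card = 4)
    (hnil : Group.IsNilpotent (Subgroup.closure (T : Set Γ)))
    (ho : ∀ a ∈ T, ¬ IsOfFinOrder a) (hc : ∀ a ∈ T, ∀ b ∈ T, a ≠ b → ¬ Cm a b) :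
    ∃ x ∈ T, ∃ y ∈ T, ∃ z ∈ T, x ≠ y ∧ x ≠ z ∧ y ≠ z ∧
      ∃ β : Γ → Bool, (∀ w, β (x * w) = !(β w)) ∧ (∀ w, β (y * w) = β w) ∧
        ∀ w, β (z * w) = β w := by
  classical
  by_contra hcon
  have key : ∀ x ∈ T, ∀ y ∈ T, ∀ z ∈ T, x ≠ y → x ≠ z → y ≠ z → ∀ (L : Subgroup Γ)
      (hx : x ∈ L) (hy : y ∈ L) (hz : z ∈ L) (φ : L →* Multiplicative (ZMod 2)),
      φ ⟨x, hx⟩ ≠ 1 → φ ⟨y, hy⟩ = 1 → φ ⟨z, hz⟩ = 1 → False := by
    intro x hxT y hyT z hzT hxy hxz hyz L hx hy hz φ h1 h2 h3
    obtain ⟨β, hβ⟩ := fun_of_hom L φ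
    exact hcon ⟨x, hxT, y, hyT, z, hzT, hxy, hxz, hyz, β, fun w => (hβ ⟨x, hx⟩ w).1 h1,
      fun w => (hβ ⟨y, hy⟩ w).2 h2, fun w => (hβ ⟨z, hz⟩ w).2 h3⟩
  -- step A
  have stepA : ∀ x ∈ T, ∀ y ∈ T, ∀ z ∈ T, x ≠ y → x ≠ z → y ≠ z →
      ∃ φ : Subgroup.closure ({x, y, z} : Set Γ) →* Multiplicative (ZMod 2),
        φ ⟨x, Subgroup.subset_closure (by simp)⟩ = 1 ∧
        φ ⟨y, Subgroup.subset_closure (by simp)⟩ ≠ 1 ∧
        φ ⟨z, Subgroup.subset_closure (by simp)⟩ ≠ 1 := by
    intro x hxT y hyT z hzT hxy hxz hyz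
    by_contra hno
    have hxm : x ∈ Subgroup.closure ({x, y, z} : Set Γ) := Subgroup.subset_closure (by simp)
    have hym : y ∈ Subgroup.closure ({x, y, z} : Set Γ) := Subgroup.subset_closure (by simp)
    have hzm : z ∈ Subgroup.closure ({x, y, z} : Set Γ) := Subgroup.subset_closure (by simp)
    have hw : ∀ φ : Subgroup.closure ({x, y, z} : Set Γ) →* Multiplicative (ZMod 2),
        φ ⟨x, hxm⟩ = 1 → ∀ k, φ k = 1 := by
      intro φ h1
      have h2 : φ ⟨y, hym⟩ = 1 := by
        by_contra h2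
        have h3 : φ ⟨z, hzm⟩ ≠ 1 := fun h3 =>
          key y hyT x hxT z hzT hxy.symm hyz hxz _ hym hxm hzm φ h2 h1 h3
        exact hno ⟨φ, h1, h2, h3⟩
      have h3 : φ ⟨z, hzm⟩ = 1 := by
        by_contra h3
        exact key z hzT x hxT y hyT hxz.symm hyz.symm hxy _ hzm hxm hym φ h3 h1 h2
      refine b3_triv φ ?_
      intro p hp
      rcases hp with rfl | rfl | rfl
      · exact h1
      · exact h2
      · exact h3
    have hfin := b3_tool (K := Subgroup.closure ({x, y, z} : Set Γ))
      (T := (Subtype.val : Subgroup.closure ({x, y, z} : Set Γ) → Γ) ⁻¹' ({x, y, z} : Set Γ))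
      (Set.Finite.preimage Subtype.val_injective.injOn (Set.toFinite _))
      Subgroup.closure_closure_coe_preimage ⟨x, hxm⟩ hw
    haveI : Group.IsNilpotent (Subgroup.closure ({x, y, z} : Set Γ)) := by
      refine b3_nil_mono ?_ hnil
      intro p hp
      rcases hp with rfl | rfl | rfl
      · exact Finset.mem_coe.2 hxT
      · exact Finset.mem_coe.2 hyT
      · exact Finset.mem_coe.2 hzT
    have hF := lemmaX _ hfin
    obtain ⟨p, hp0, -, hpm⟩ :=
      Subgroup.exists_pow_mem_of_index_ne_zero hF.index_ne_zero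
        (⟨y, hym⟩ : Subgroup.closure ({x, y, z} : Set Γ))
    obtain ⟨n, hn⟩ := Subgroup.mem_zpowers_iff.1 hpm
    have hn' : x ^ n = y ^ p := by
      have := congrArg Subtype.val hn
      simpa using this
    refine hc y hyT x hxT hxy.symm ⟨p, n, by exact_mod_cast hp0.ne', ?_, ?_⟩
    · rintro rfl
      apply ho y hyT
      rw [isOfFinOrder_iff_pow_eq_one]
      exact ⟨p, hp0, by rw [← hn', zpow_zero]⟩
    · rw [zpow_natCast, hn']
  -- step B
  have hmem : ∀ x ∈ T, x ∈ Subgroup.closure (T : Set Γ) := fun x hx =>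
    Subgroup.subset_closure (Finset.mem_coe.2 hx)
  have stepB : ∀ χ : Subgroup.closure (T : Set Γ) →* Multiplicative (ZMod 2),
      ∀ x, ∀ hx : x ∈ T, ∀ y, ∀ hy : y ∈ T, ∀ z, ∀ hz : z ∈ T, x ≠ y → x ≠ z → y ≠ z →
      χ ⟨x, hmem x hx⟩ ≠ 1 → ((χ ⟨y, hmem y hy⟩ ≠ 1 ∧ χ ⟨z, hmem z hz⟩ = 1) ∨
        (χ ⟨y, hmem y hy⟩ = 1 ∧ χ ⟨z, hmem z hz⟩ ≠ 1)) := by
    intro χ x hx y hy z hz hxy hxz hyz h1
    by_cases h2 : χ ⟨y, hmem y hy⟩ = 1
    · right
      refine ⟨h2, fun h3 => ?_⟩
      exact key x hx y hy z hz hxy hxz hyz _ (hmem x hx) (hmem y hy) (hmem z hz) χ h1 h2 h3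
    · left
      refine ⟨h2, ?_⟩
      by_contra h3
      obtain ⟨φ, p1, p2, p3⟩ := stepA x hx y hy z hz hxy hxz hyz
      have hsub : ({x, y, z} : Set Γ) ⊆ (T : Set Γ) := by
        intro p hp
        rcases hp with rfl | rfl | rfl
        · exact Finset.mem_coe.2 hx
        · exact Finset.mem_coe.2 hy
        · exact Finset.mem_coe.2 hz
      have hle : Subgroup.closure ({x, y, z} : Set Γ) ≤ Subgroup.closure (T : Set Γ) :=
        Subgroup.closure_mono hsub
      refine key x hx y hy z hz hxy hxz hyz _ (Subgroup.subset_closure (by simp))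
        (Subgroup.subset_closure (by simp)) (Subgroup.subset_closure (by simp))
        ((χ.comp (Subgroup.inclusion hle)) * φ) ?_ ?_ ?_
      · rw [MonoidHom.mul_apply, p1, mul_one]
        exact h1
      · rw [MonoidHom.mul_apply]
        exact b3_z2 _ _ h2 p2
      · rw [MonoidHom.mul_apply]
        exact b3_z2 _ _ h3 p3
  -- step C
  have stepC : ∀ χ : Subgroup.closure (T : Set Γ) →* Multiplicative (ZMod 2),
      ∀ x, ∀ hx : x ∈ T, χ ⟨x, hmem x hx⟩ = 1 := by
    intro χ x hx
    by_contra h1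
    have he : (T.erase x).card = 3 := by rw [Finset.card_erase_of_mem hx, hT]
    obtain ⟨b, c, d, hbc, hbd, hcd, he'⟩ := Finset.card_eq_three.1 he
    have hb' : b ∈ T.erase x := by rw [he']; simp
    have hc' : c ∈ T.erase x := by rw [he']; simp
    have hd' : d ∈ T.erase x := by rw [he']; simp
    obtain ⟨hbx, hb⟩ := Finset.mem_erase.1 hb'
    obtain ⟨hcx, hcT⟩ := Finset.mem_erase.1 hc'
    obtain ⟨hdx, hd⟩ := Finset.mem_erase.1 hd'
    have e1 := stepB χ x hx b hb c hcT hbx.symm hcx.symm hbc h1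
    have e2 := stepB χ x hx b hb d hd hbx.symm hdx.symm hbd h1
    have e3 := stepB χ x hx c hcT d hd hcx.symm hdx.symm hcd h1
    tauto
  have hpos : 0 < T.card := by omega
  obtain ⟨a, ha⟩ := Finset.card_pos.1 hpos
  have hfin := b3_tool (K := Subgroup.closure (T : Set Γ))
    (T := (Subtype.val : Subgroup.closure (T : Set Γ) → Γ) ⁻¹' (T : Set Γ))
    (Set.Finite.preimage Subtype.val_injective.injOn T.finite_toSet)
    Subgroup.closure_closure_coe_preimage 1
    (fun φ _ => b3_triv φ (fun p hp => stepC φ p (Finset.mem_coe.1 hp)))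
  haveI := hnil
  have hF := lemmaX _ hfin
  obtain ⟨p, hp0, -, hpm⟩ :=
    Subgroup.exists_pow_mem_of_index_ne_zero hF.index_ne_zero
      (⟨a, hmem a ha⟩ : Subgroup.closure (T : Set Γ))
  obtain ⟨n, hn⟩ := Subgroup.mem_zpowers_iff.1 hpm
  apply ho a ha
  rw [isOfFinOrder_iff_pow_eq_one]
  refine ⟨p, hp0, ?_⟩
  rw [one_zpow] at hn
  have := congrArg Subtype.val hn
  simpa using this.symm

end Pool.Agent.MP1822N
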