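import Pool.Agent.Lib.MP_1822da_lc.NB.Defs

/-!
# Collecting words in nilpotent groups

`cmt A 0 = A`, `cmt A (j+1) = {x⁻¹ * a⁻¹ * x * a : x ∈ cmt A j, a ∈ A}`.

PROOF of conj_cmt: downwards induction on `j` (`j = c`: `cmt A c ⊆ {1}`), then induction on `m`: for
`x ∈ cmt A j`, `v ∈ A ^ (m+1)`, `v = a * v'`, `a ∈ A`, `v' ∈ A ^ m`:
`v⁻¹ * x * v = (v'⁻¹ * x * v') * (v'⁻¹ * (x⁻¹ * a⁻¹ * x * a) * v')`.
PROOF of collect: induction on the set of letters: first move all letters `a` of the word to the left, `w = a ^ k * w' * r` with `k ≤ n`,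
`w'` without the letter `a`, `r` a product of `n ^ 2` conjugates of commutators by words of length at most `n`.
-/

namespace Pool.Agent.MP1822N

open Set MeasureTheory Pointwise
open scoped commutatorElement
open Pool.Agent.Lib.MP_1822da_lc Pool.Agent.MP1822T Pool.Agent.MP1822C

universe u v

variable {N : Type u} [Group N]

/-- iterated commutators with elements of `A` -/
def cmt (A : Set N) : ℕ → Set N
  | 0 => A
  | j + 1 => {z | ∃ x ∈ cmt A j, ∃ a ∈ A, z = x⁻¹ * a⁻¹ * x * a}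

/-- all iterated commutators of length at least `2`, and `1` -/
def cmts (A : Set N) (c : ℕ) : Set N := {1} ∪ ⋃ j ∈ Finset.Icc 1 c, cmt A j

private theorem a4_cmt_finite {A : Set N} (hA : A.Finite) (j : ℕ) : (cmt A j).Finite := by
  induction j with
  | zero => exact hA
  | succ j ih =>
    refine (Set.Finite.image2 (fun x a => x⁻¹ * a⁻¹ * x * a) ih hA).subset ?_
    rintro z ⟨x, hx, a, ha, rfl⟩
    exact ⟨x, hx, a, ha, rfl⟩

theorem cmts_finite {A : Set N} (hA : A.Finite) (c : ℕ) : (cmts A c).Finite := by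
  unfold cmts
  refine (Set.finite_singleton 1).union ?_
  exact Set.Finite.biUnion (Finset.finite_toSet _) fun j _ => a4_cmt_finite hA j

private theorem a4_cmt_sub {A : Set N} {H : Subgroup N} (hA : A ⊆ H) (j : ℕ) : cmt A j ⊆ H := by
  induction j with
  | zero => exact hA
  | succ j ih =>
    rintro z ⟨x, hx, a, ha, rfl⟩
    exact H.mul_mem (H.mul_mem (H.mul_mem (H.inv_mem (ih hx)) (H.inv_mem (hA ha))) (ih hx)) (hA ha)

theorem cmts_comm {A : Set N} {H : Subgroup N} (hA : A ⊆ H) (c : ℕ) :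
    cmts A c ⊆ (⁅H, H⁆ : Subgroup N) := by
  intro z hz
  unfold cmts at hz
  rcases hz with hz | hz
  · rw [Set.mem_singleton_iff.mp hz]
    exact Subgroup.one_mem _
  · simp only [Set.mem_iUnion, Finset.mem_Icc] at hz
    obtain ⟨j, ⟨hj1, -⟩, hz⟩ := hz
    obtain ⟨i, rfl⟩ : ∃ i, j = i + 1 := ⟨j - 1, by omega⟩
    obtain ⟨x, hx, a, ha, rfl⟩ := hz
    have h1 : x⁻¹ * a⁻¹ * x * a = ⁅x⁻¹, a⁻¹⁆ := by
      rw [commutatorElement_def, inv_inv, inv_inv]
    rw [h1]
    exact Subgroup.commutator_mem_commutator (H.inv_mem (a4_cmt_sub hA i hx)) (H.inv_mem (hA ha))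

private theorem a4_cmt_lcs (A : Set N) (j : ℕ) : cmt A j ⊆ ((⊤ : Subgroup N).lowerCentralSeries j : Subgroup N) := by
  induction j with
  | zero =>
    intro z _
    rw [Subgroup.lowerCentralSeries_zero]
    exact Subgroup.mem_top z
  | succ j ih =>
    rintro z ⟨x, hx, a, ha, rfl⟩
    have h1 : x⁻¹ * a⁻¹ * x * a = ⁅x⁻¹, a⁻¹⁆ := by
      rw [commutatorElement_def, inv_inv, inv_inv]
    rw [h1]
    exact Subgroup.commutator_mem_commutator (Subgroup.inv_mem _ (ih hx)) (Subgroup.mem_top _)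

/-- iterated commutators vanish in a nilpotent group -/
theorem cmt_nil [Group.IsNilpotent N] (A : Set N) : ∃ c, cmt A (c + 1) ⊆ {1} := by
  obtain ⟨c, hc⟩ := Subgroup.nilpotent_iff_lowerCentralSeries.mp (inferInstance : Group.IsNilpotent N)
  refine ⟨c, fun z hz => ?_⟩
  have h1 := a4_cmt_lcs A (c + 1) hz
  have h2 : (⊤ : Subgroup N).lowerCentralSeries (c + 1) ≤ (⊤ : Subgroup N).lowerCentralSeries c :=
    Subgroup.lowerCentralSeries_antitone _ (Nat.le_succ c)
  have h3 := h2 h1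
  rw [hc] at h3
  exact Set.mem_singleton_iff.mpr (Subgroup.mem_bot.mp h3)

private theorem a4_one_cmts (A : Set N) (c : ℕ) : (1 : N) ∈ cmts A c := Or.inl rfl

private theorem a4_cmt_big {A : Set N} {c : ℕ} (hc : cmt A (c + 1) ⊆ {1}) (j : ℕ) : cmt A (c + 1 + j) ⊆ {1} := by
  induction j with
  | zero => exact hc
  | succ j ih =>
    rintro z ⟨x, hx, a, ha, rfl⟩
    rw [Set.mem_singleton_iff.mp (ih hx)]
    simp

private theorem a4_conj {A : Set N} {c : ℕ} (hc : cmt A (c + 1) ⊆ {1}) (i : ℕ) :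
    ∀ j : ℕ, 1 ≤ j → c + 1 = j + i → ∀ (m : ℕ) (x v : N), x ∈ cmt A j → v ∈ A ^ m → v⁻¹ * x * v ∈ cmts A c ^ ((m + 1) ^ i) := by
  induction i with
  | zero =>
    intro j hj hji m x v hx hv
    have h1 : x = 1 := by
      have : j = c + 1 := by omega
      rw [this] at hx
      exact Set.mem_singleton_iff.mp (hc hx)
    rw [h1, pow_zero, pow_one, mul_one, inv_mul_cancel]
    exact a4_one_cmts A c
  | succ i ih =>
    intro j hj hji m
    induction m with
    | zero =>
      intro x v hx hv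
      rw [pow_zero, Set.mem_one] at hv
      rw [hv, zero_add, one_pow, pow_one, inv_one, one_mul, mul_one]
      refine Or.inr ?_
      simp only [Set.mem_iUnion, Finset.mem_Icc]
      exact ⟨j, ⟨hj, by omega⟩, hx⟩
    | succ m ihm =>
      intro x v hx hv
      rw [pow_succ'] at hv
      obtain ⟨a, ha, v', hv', rfl⟩ := Set.mem_mul.mp hv
      have h1 := ihm x v' hx hv'
      have h2 := ih (j + 1) (by omega) (by omega) m (x⁻¹ * a⁻¹ * x * a) v' ⟨x, hx, a, ha, rfl⟩ hv'
      have h3 : (a * v')⁻¹ * x * (a * v') = (v'⁻¹ * x * v') * (v'⁻¹ * (x⁻¹ * a⁻¹ * x * a) * v') := by group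
      rw [h3]
      have h4 := Set.mul_mem_mul h1 h2
      rw [← pow_add] at h4
      refine Set.pow_subset_pow_right (a4_one_cmts A c) ?_ h4
      calc (m + 1) ^ (i + 1) + (m + 1) ^ i = (m + 1) ^ i * (m + 2) := by ring
        _ ≤ (m + 2) ^ i * (m + 2) := Nat.mul_le_mul_right _ (Nat.pow_le_pow_left (by omega) _)
        _ = (m + 1 + 1) ^ (i + 1) := by ring

theorem conj_cmt {A : Set N} {c : ℕ} (hc : cmt A (c + 1) ⊆ {1}) {j : ℕ} (hj : 1 ≤ j) (m : ℕ)
    {x v : N} (hx : x ∈ cmt A j) (hv : v ∈ A ^ m) :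
    v⁻¹ * x * v ∈ cmts A c ^ ((m + 1) ^ (c + 1)) := by
  rcases Nat.lt_or_ge (c + 1) j with h | h
  · have h1 : x = 1 := by
      obtain ⟨i, rfl⟩ : ∃ i, j = c + 1 + i := ⟨j - (c + 1), by omega⟩
      exact Set.mem_singleton_iff.mp (a4_cmt_big hc i hx)
    rw [h1, mul_one, inv_mul_cancel]
    exact Set.one_mem_pow (a4_one_cmts A c)
  · refine Set.pow_subset_pow_right (a4_one_cmts A c) ?_ (a4_conj hc (c + 1 - j) j hj (by omega) m x v hx hv)
    exact Nat.pow_le_pow_right (by omega) (by omega)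

/-- conjugates of commutators by words of length `j` -/
private def CC (A : Set N) (j : ℕ) : Set N := {z | ∃ x ∈ cmt A 1, ∃ v ∈ A ^ j, z = v⁻¹ * x * v}

private theorem a4_CC_mono {A : Set N} (h1 : (1 : N) ∈ A) {i j : ℕ} (h : i ≤ j) : CC A i ⊆ CC A j := by
  rintro z ⟨x, hx, v, hv, rfl⟩
  exact ⟨x, hx, v, Set.pow_subset_pow_right h1 h hv, rfl⟩

private theorem a4_one_CC {A : Set N} (h1 : (1 : N) ∈ A) (j : ℕ) : (1 : N) ∈ CC A j :=
  ⟨1, ⟨1, h1, 1, h1, by simp⟩, 1, Set.one_mem_pow h1, by simp⟩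

private theorem a4_CC_conj {A : Set N} {j : ℕ} {y : N} (hy : y ∈ A) (p : ℕ) :
    ∀ r ∈ CC A j ^ p, y⁻¹ * r * y ∈ CC A (j + 1) ^ p := by
  induction p with
  | zero =>
    intro r hr
    rw [pow_zero, Set.mem_one] at hr
    rw [hr, pow_zero, mul_one, inv_mul_cancel]
    exact Set.mem_one.mpr rfl
  | succ p ih =>
    intro r hr
    rw [pow_succ] at hr ⊢
    obtain ⟨r', hr', z, ⟨x, hx, v, hv, rfl⟩, rfl⟩ := Set.mem_mul.mp hr
    refine Set.mem_mul.mpr ⟨y⁻¹ * r' * y, ih r' hr', (v * y)⁻¹ * x * (v * y), ⟨x, hx, v * y, ?_, rfl⟩, by group⟩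
    rw [pow_succ]
    exact Set.mul_mem_mul hv hy

/-- moving one letter to the left -/
private theorem a4_move {A B : Set N} (h1 : (1 : N) ∈ A) (hB : B ⊆ A) {a : N} (ha : a ∈ A) (i : ℕ) :
    ∀ w ∈ B ^ i, ∃ s ∈ CC A i ^ i, w * a = a * w * s := by
  induction i with
  | zero =>
    intro w hw
    rw [pow_zero, Set.mem_one] at hw
    exact ⟨1, Set.mem_one.mpr rfl, by rw [hw]; group⟩
  | succ i ih =>
    intro w hw
    rw [pow_succ] at hw
    obtain ⟨w0, hw0, y, hy, rfl⟩ := Set.mem_mul.mp hw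
    obtain ⟨s, hs, hws⟩ := ih w0 hw0
    refine ⟨(y⁻¹ * s * y) * (y⁻¹ * a⁻¹ * y * a), ?_, ?_⟩
    · rw [pow_succ]
      refine Set.mul_mem_mul (a4_CC_conj (hB hy) i s hs) ⟨y⁻¹ * a⁻¹ * y * a, ⟨y, hB hy, a, ha, rfl⟩, 1, Set.one_mem_pow h1, by group⟩
    · have e1 : w0 * y * a = (w0 * a) * (y * (y⁻¹ * a⁻¹ * y * a)) := by group
      rw [e1, hws]
      group

/-- all letters `a` to the left -/
private theorem a4_left {A B : Set N} (h1 : (1 : N) ∈ A) (hB : B ⊆ A) (hB1 : (1 : N) ∈ B) {a : N} (ha : a ∈ A) (i : ℕ) :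
    ∀ w ∈ (insert a B) ^ i, ∃ k ≤ i, ∃ w' ∈ B ^ i, ∃ r ∈ CC A i ^ (i * i), w = a ^ k * w' * r := by
  induction i with
  | zero =>
    intro w hw
    rw [pow_zero, Set.mem_one] at hw
    exact ⟨0, le_refl _, 1, Set.mem_one.mpr rfl, 1, by rw [Nat.mul_zero, pow_zero]; exact Set.mem_one.mpr rfl, by rw [hw]; group⟩
  | succ i ih =>
    intro w hw
    rw [pow_succ] at hw
    obtain ⟨w0, hw0, y, hy, rfl⟩ := Set.mem_mul.mp hw
    obtain ⟨k, hk, w', hw', r, hr, rfl⟩ := ih w0 hw0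
    have hle : i + i * i ≤ (i + 1) * (i + 1) := by nlinarith
    rcases Set.mem_insert_iff.mp hy with hya | hyB
    · subst hya
      obtain ⟨s, hs, hws⟩ := a4_move h1 hB ha i w' hw'
      refine ⟨k + 1, by omega, w', Set.pow_subset_pow_right hB1 (Nat.le_succ i) hw', s * (y⁻¹ * r * y), ?_, ?_⟩
      · refine Set.pow_subset_pow_right (a4_one_CC h1 (i + 1)) hle ?_
        rw [pow_add]
        exact Set.mul_mem_mul (Set.pow_subset_pow_left (a4_CC_mono h1 (Nat.le_succ i)) hs) (a4_CC_conj ha (i * i) r hr)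
      · have e1 : y ^ k * w' * r * y = y ^ k * (w' * y) * (y⁻¹ * r * y) := by group
        rw [e1, hws, pow_succ]
        group
    · refine ⟨k, by omega, w' * y, ?_, y⁻¹ * r * y, ?_, by group⟩
      · rw [pow_succ]
        exact Set.mul_mem_mul hw' hyB
      · exact Set.pow_subset_pow_right (a4_one_CC h1 (i + 1)) (by nlinarith) (a4_CC_conj (hB hyB) (i * i) r hr)

private theorem a4_coll {A : Set N} (h1 : (1 : N) ∈ A) (n : ℕ) [DecidableEq N] (B : Finset N) :
    (B : Set N) ⊆ A → ∃ P : Set N, P.Finite ∧ P.ncard ≤ (n + 1) ^ B.card ∧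
      (insert 1 (B : Set N)) ^ n ⊆ P * CC A n ^ (B.card * n ^ 2) := by
  induction B using Finset.induction_on with
  | empty =>
    intro _
    refine ⟨{1}, Set.finite_singleton 1, by rw [Set.ncard_singleton]; simp, ?_⟩
    rw [Finset.card_empty, Nat.zero_mul, pow_zero, Finset.coe_empty, insert_empty_eq, mul_one]
    intro w hw
    have h2 : ∀ j : ℕ, ({1} : Set N) ^ j ⊆ {1} := by
      intro j
      induction j with
      | zero => intro z hz; rw [pow_zero, Set.mem_one] at hz; exact hz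
      | succ j ih =>
        intro z hz
        rw [pow_succ] at hz
        obtain ⟨x, hx, y, hy, rfl⟩ := Set.mem_mul.mp hz
        rw [Set.mem_singleton_iff.mp (ih hx), Set.mem_singleton_iff.mp hy, mul_one]
        exact rfl
    exact h2 n hw
  | insert a B haB ih =>
    intro hsub
    rw [Finset.coe_insert] at hsub
    have ha : a ∈ A := hsub (Set.mem_insert _ _)
    have hB : (B : Set N) ⊆ A := fun x hx => hsub (Set.mem_insert_of_mem _ hx)
    obtain ⟨P, hP, hPc, hPs⟩ := ih hB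
    have hfin : (((Finset.range (n + 1)).image fun k => a ^ k : Finset N) : Set N).Finite := Finset.finite_toSet _
    refine ⟨(((Finset.range (n + 1)).image fun k => a ^ k : Finset N) : Set N) * P, hfin.mul hP, ?_, ?_⟩
    · rw [Finset.card_insert_of_notMem haB, pow_succ']
      have h2 : ((((Finset.range (n + 1)).image fun k => a ^ k : Finset N) : Set N) * P).ncard ≤
          (((Finset.range (n + 1)).image fun k => a ^ k : Finset N) : Set N).ncard * P.ncard := by
        rw [← Set.image2_mul, ← Set.image_uncurry_prod]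
        refine (Set.ncard_image_le (hfin.prod hP)).trans ?_
        rw [Set.ncard_prod]
      refine h2.trans (Nat.mul_le_mul ?_ hPc)
      rw [Set.ncard_coe_finset]
      refine Finset.card_image_le.trans ?_
      rw [Finset.card_range]
    · intro w hw
      rw [Finset.coe_insert, Set.insert_comm] at hw
      obtain ⟨k, hk, w', hw', r, hr, rfl⟩ := a4_left h1 (B := insert 1 (B : Set N))
        (Set.insert_subset h1 hB) (Set.mem_insert _ _) ha n w hw
      obtain ⟨p, hp, s, hs, rfl⟩ := Set.mem_mul.mp (hPs hw')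
      rw [Finset.card_insert_of_notMem haB]
      refine Set.mem_mul.mpr ⟨a ^ k * p, Set.mul_mem_mul ?_ hp, s * r, ?_, by group⟩
      · rw [Finset.coe_image]
        exact ⟨k, by rw [Finset.coe_range, Set.mem_Iio]; omega, rfl⟩
      · have e1 : (B.card + 1) * n ^ 2 = B.card * n ^ 2 + n * n := by ring
        rw [e1, pow_add]
        exact Set.mul_mem_mul hs hr

/-- **Collection.** -/
theorem collect {A : Set N} (hA : A.Finite) (h1 : (1 : N) ∈ A) :
    ∃ d : ℕ, ∀ n : ℕ, ∃ P : Set N, P.Finite ∧ P.ncard ≤ (n + 1) ^ d ∧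
      A ^ n ⊆ P * {z | ∃ x ∈ cmt A 1, ∃ v ∈ A ^ (2 * n), z = v⁻¹ * x * v} ^ (d * n ^ 2) := by
  classical
  refine ⟨hA.toFinset.card, fun n => ?_⟩
  obtain ⟨P, hP, hPc, hPs⟩ := a4_coll h1 n hA.toFinset (by rw [Set.Finite.coe_toFinset])
  refine ⟨P, hP, hPc, ?_⟩
  rw [Set.Finite.coe_toFinset, Set.insert_eq_of_mem h1] at hPs
  refine hPs.trans (Set.mul_subset_mul_left (Set.pow_subset_pow_left ?_))
  exact a4_CC_mono h1 (by omega)

end Pool.Agent.MP1822N
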