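import Pool.Agent.Lib.MP_1822da_lc.NB.A4a

/-!
# Polynomial growth of nilpotent groups

PROOF of growth: nilpotent groups are solvable, `derivedSeries N d = ⊥`. Downwards induction on `k ≤ d`: for all finite
`A ⊆ derivedSeries N k` there are `C, D` as in the statement. `k = d`: `A ^ n ⊆ {1}`. `k+1 → k`: w.l.o.g. `1 ∈ A`
(enlarge `A`); `c` from cmt_nil. By collect and conj_cmt
`A ^ n ⊆ P * B ^ (d' * n^2 * (2*n+1)^(c+1))` with `B = cmts A c ⊆ derivedSeries N (k+1)` (cmts_comm) finite; the induction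
hypothesis bounds `(B ^ q).ncard` by `C (q+1)^D`; `(P * Q).ncard ≤ P.ncard * Q.ncard`. A polynomial bound in `n` is
`≤ C' (n+1)^D'`.
growth_pair: `N = closure {a, b}`, `A` the preimage of `{1, a, b, a⁻¹, b⁻¹}`, `({1,a,b,a⁻¹,b⁻¹})^n` is the image of
`A ^ n` under the inclusion.
-/

namespace Pool.Agent.MP1822N

open Set MeasureTheory Pointwise
open Pool.Agent.Lib.MP_1822da_lc Pool.Agent.MP1822T Pool.Agent.MP1822C

universe u v

private lemma fin_pow {N : Type u} [Group N] {A : Set N} (hA : A.Finite) (n : ℕ) :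
    (A ^ n).Finite := by
  induction n with
  | zero =>
    rw [pow_zero]
    exact Set.finite_one
  | succ n ih =>
    rw [pow_succ]
    exact ih.mul hA

private lemma ncard_mul {N : Type u} [Group N] (P Q : Set N) :
    (P * Q).ncard ≤ P.ncard * Q.ncard := by
  rw [← Nat.card_coe_set_eq, ← Nat.card_coe_set_eq, ← Nat.card_coe_set_eq]
  exact Set.natCard_mul_le

/-- The polynomial bound. -/
private lemma poly_bd (c d C D n : ℕ) :
    (n + 1) ^ d * (C * ((2 * n + 1) ^ (c + 1) * (d * n ^ 2) + 1) ^ D) ≤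
      (C * (2 ^ (c + 1) * d + 1) ^ D) * (n + 1) ^ (d + (c + 3) * D) := by
  have h1 : (2 * n + 1) ^ (c + 1) ≤ 2 ^ (c + 1) * (n + 1) ^ (c + 1) := by
    rw [← mul_pow]
    exact Nat.pow_le_pow_left (by omega) _
  have h2 : d * n ^ 2 ≤ d * (n + 1) ^ 2 :=
    Nat.mul_le_mul_left _ (Nat.pow_le_pow_left (by omega) _)
  have h3 : 1 ≤ (n + 1) ^ (c + 3) := Nat.one_le_pow _ _ (by omega)
  have h4 : (2 * n + 1) ^ (c + 1) * (d * n ^ 2) + 1 ≤ (2 ^ (c + 1) * d + 1) * (n + 1) ^ (c + 3) := by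
    calc (2 * n + 1) ^ (c + 1) * (d * n ^ 2) + 1
        ≤ 2 ^ (c + 1) * (n + 1) ^ (c + 1) * (d * (n + 1) ^ 2) + (n + 1) ^ (c + 3) :=
          Nat.add_le_add (Nat.mul_le_mul h1 h2) h3
      _ = (2 ^ (c + 1) * d + 1) * (n + 1) ^ (c + 3) := by ring
  have h5 := Nat.pow_le_pow_left h4 D
  calc (n + 1) ^ d * (C * ((2 * n + 1) ^ (c + 1) * (d * n ^ 2) + 1) ^ D)
      ≤ (n + 1) ^ d * (C * ((2 ^ (c + 1) * d + 1) * (n + 1) ^ (c + 3)) ^ D) :=
        Nat.mul_le_mul_left _ (Nat.mul_le_mul_left _ h5)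
    _ = (C * (2 ^ (c + 1) * d + 1) ^ D) * (n + 1) ^ (d + (c + 3) * D) := by
        rw [mul_pow, ← pow_mul, pow_add]
        ring

private lemma growth_aux {N : Type u} [Group N] [Group.IsNilpotent N] (dd : ℕ)
    (hdd : derivedSeries N dd = ⊥) : ∀ j k : ℕ, k + j = dd → ∀ A : Set N, A.Finite →
      A ⊆ (derivedSeries N k : Set N) → ∃ C D : ℕ, ∀ n : ℕ, (A ^ n).ncard ≤ C * (n + 1) ^ D := by
  intro j
  induction j with
  | zero =>
    intro k hk A hA hAk
    have h1 : A ⊆ {1} := by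
      rw [add_zero] at hk
      rw [hk, hdd] at hAk
      simpa using hAk
    refine ⟨1, 0, fun n => ?_⟩
    have h2 : A ^ n ⊆ {1} := by
      refine (Set.pow_subset_pow_left h1).trans ?_
      rw [Set.singleton_pow, one_pow]
    have h3 := Set.ncard_le_ncard h2 (Set.finite_singleton 1)
    rw [Set.ncard_singleton] at h3
    simpa using h3
  | succ j ih =>
    intro k hk A' hA' hAk'
    obtain ⟨A, hAdef⟩ : ∃ A, A = insert (1 : N) A' := ⟨_, rfl⟩
    have hA : A.Finite := by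
      rw [hAdef]
      exact hA'.insert 1
    have h1A : (1 : N) ∈ A := by
      rw [hAdef]
      exact Set.mem_insert _ _
    have hAk : A ⊆ (derivedSeries N k : Set N) := by
      rw [hAdef]
      exact Set.insert_subset (one_mem _) hAk'
    have hA'A : A' ⊆ A := by
      rw [hAdef]
      exact Set.subset_insert _ _
    obtain ⟨c, hc⟩ := cmt_nil A
    obtain ⟨d, hd⟩ := collect hA h1A
    have hB : (cmts A c).Finite := cmts_finite hA c
    have hBk : cmts A c ⊆ (derivedSeries N (k + 1) : Set N) := by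
      rw [derivedSeries_succ]
      exact cmts_comm hAk c
    obtain ⟨C, D, hCD⟩ := ih (k + 1) (by omega) (cmts A c) hB hBk
    refine ⟨C * (2 ^ (c + 1) * d + 1) ^ D, d + (c + 3) * D, fun n => ?_⟩
    obtain ⟨P, hP, hPn, hsub⟩ := hd n
    have h1 : {z | ∃ x ∈ cmt A 1, ∃ v ∈ A ^ (2 * n), z = v⁻¹ * x * v} ⊆
        cmts A c ^ ((2 * n + 1) ^ (c + 1)) := by
      rintro z ⟨x, hx, v, hv, rfl⟩
      exact conj_cmt hc le_rfl (2 * n) hx hv
    have h2 : A' ^ n ⊆ P * cmts A c ^ ((2 * n + 1) ^ (c + 1) * (d * n ^ 2)) := by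
      refine (Set.pow_subset_pow_left hA'A).trans (hsub.trans ?_)
      refine Set.mul_subset_mul_left ?_
      rw [pow_mul (cmts A c)]
      exact Set.pow_subset_pow_left h1
    calc (A' ^ n).ncard ≤ (P * cmts A c ^ ((2 * n + 1) ^ (c + 1) * (d * n ^ 2))).ncard :=
          Set.ncard_le_ncard h2 (hP.mul (fin_pow hB _))
      _ ≤ P.ncard * (cmts A c ^ ((2 * n + 1) ^ (c + 1) * (d * n ^ 2))).ncard := ncard_mul _ _
      _ ≤ (n + 1) ^ d * (C * ((2 * n + 1) ^ (c + 1) * (d * n ^ 2) + 1) ^ D) :=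
          Nat.mul_le_mul hPn (hCD _)
      _ ≤ _ := poly_bd c d C D n

/-- **Nilpotent groups have polynomial growth.** -/
theorem growth {N : Type u} [Group N] [Group.IsNilpotent N] (A : Set N) (hA : A.Finite) :
    ∃ C D : ℕ, ∀ n : ℕ, (A ^ n).ncard ≤ C * (n + 1) ^ D := by
  have h1 : Group.IsSolvable N := inferInstance
  obtain ⟨dd, hdd⟩ := (Group.isSolvable_def N).1 h1
  refine growth_aux dd hdd dd 0 (zero_add _) A hA ?_
  rw [derivedSeries_zero]
  exact fun _ _ => Set.mem_univ _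

/-- The form used below. -/
theorem growth_pair {Γ : Type u} [Group Γ] {a b : Γ}
    (hnil : Group.IsNilpotent (Subgroup.closure {a, b})) :
    ∃ C D : ℕ, ∀ n : ℕ, (({1, a, b, a⁻¹, b⁻¹} : Set Γ) ^ n).ncard ≤ C * (n + 1) ^ D := by
  obtain ⟨H, hH⟩ : ∃ H : Subgroup Γ, H = Subgroup.closure {a, b} := ⟨_, rfl⟩
  rw [← hH] at hnil
  have ha : a ∈ H := by
    rw [hH]
    exact Subgroup.subset_closure (by simp)
  have hb : b ∈ H := by
    rw [hH]
    exact Subgroup.subset_closure (by simp)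
  let A : Set H := {1, ⟨a, ha⟩, ⟨b, hb⟩, ⟨a, ha⟩⁻¹, ⟨b, hb⟩⁻¹}
  have hA : A.Finite := Set.toFinite _
  obtain ⟨C, D, hCD⟩ := growth A hA
  refine ⟨C, D, fun n => ?_⟩
  have h1 : ({1, a, b, a⁻¹, b⁻¹} : Set Γ) = H.subtype '' A := by
    simp [A, Set.image_insert_eq, Set.image_singleton]
  rw [h1, ← Set.image_pow]
  exact (Set.ncard_image_le (fin_pow hA n)).trans (hCD n)

end Pool.Agent.MP1822N
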