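import Pool.Agent.Lib.MP_1822da_lc.NB.A3a
import Pool.Agent.Lib.MP_1822da_lc.NB.A3b

/-!
# Stars

PROOFS. nil_mono: a subgroup of a nilpotent group is nilpotent (`Subgroup.isNilpotent`, transfer along the
inclusion of subgroups, e.g. `Group.isNilpotent_of_injective`/`isNilpotent_of_subgroupOf`).
star_pair: `β` by fun1 with the roles exchanged (`¬ Cm h a` by Cm.symm), `α` by fun1. star_cm: `β` by fun3. star_two: `β` is
given. The inequalities `h ∉ A` etc. from `hinv` and `¬ Cm` (`Cm h h` holds) or the hypotheses.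
-/

namespace Pool.Agent.MP1822N

open Set MeasureTheory Pointwise
open Pool.Agent.Lib.MP_1822da_lc Pool.Agent.MP1822T Pool.Agent.MP1822C

universe u v

variable {Γ : Type u} [Group Γ]


theorem nil_mono {P Q : Set Γ} (hPQ : P ⊆ Q)
    (hQ : Group.IsNilpotent (Subgroup.closure Q)) : Group.IsNilpotent (Subgroup.closure P) := by
  have hle : Subgroup.closure P ≤ Subgroup.closure Q := Subgroup.closure_mono hPQ
  have h1 : Group.IsNilpotent ((Subgroup.closure P).subgroupOf (Subgroup.closure Q)) :=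
    inferInstance
  exact (Group.isNilpotent_congr (Subgroup.subgroupOfEquivOfLe hle)).1 h1

private theorem a5_refl (g : Γ) : Cm g g := ⟨1, 1, one_ne_zero, one_ne_zero, rfl⟩

theorem star_pair {S : Finset Γ} {a h : Γ} (hhS : h ∈ S) (haS : a ∈ S) (hh : ¬ IsOfFinOrder h)
    (ha : ¬ IsOfFinOrder a) (hnil : Group.IsNilpotent (Subgroup.closure {a, h}))
    (hc : ¬ Cm a h) : Star S h {a} where
  hS := hhS
  AS := by
    intro x hx
    rw [Finset.mem_singleton] at hx
    rwa [hx]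
  ne := Finset.singleton_nonempty a
  ho := hh
  Ao := by
    intro x hx
    rw [Finset.mem_singleton] at hx
    rwa [hx]
  hA := by
    intro hx
    rw [Finset.mem_singleton] at hx
    apply hc
    rw [hx]
    exact a5_refl a
  hA' := by
    intro hx
    rw [Finset.mem_singleton] at hx
    apply hc
    rw [← hx]
    exact (a5_refl h).inv_right.symm
  AA := by
    intro x hx hx'
    rw [Finset.mem_singleton] at hx hx'
    rw [hx] at hx'
    apply ha
    rw [isOfFinOrder_iff_pow_eq_one]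
    refine ⟨2, two_pos, ?_⟩
    rw [pow_two]
    nth_rewrite 1 [← hx']
    exact inv_mul_cancel a
  nil := by
    intro x hx
    rw [Finset.mem_singleton] at hx
    rwa [hx]
  β := by
    have hnil' : Group.IsNilpotent (Subgroup.closure {h, a} : Subgroup Γ) := by
      rw [Set.pair_comm]
      exact hnil
    obtain ⟨β, h1, h2⟩ := fun1 hnil' hh (fun H => hc H.symm)
    refine ⟨β, h1, fun x hx y => ?_⟩
    rw [Finset.mem_singleton] at hx
    rw [hx]
    exact h2 y
  α := by
    intro x hx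
    rw [Finset.mem_singleton] at hx
    rw [hx]
    exact fun1 hnil ha hc

private theorem a5_star {S : Finset Γ} {h : Γ} {A : Finset Γ} (hhS : h ∈ S) (hAS : A ⊆ S)
    (hne : A.Nonempty) (hh : ¬ IsOfFinOrder h) (hA : ∀ a ∈ A, ¬ IsOfFinOrder a)
    (hnil : Group.IsNilpotent (Subgroup.closure (insert h (A : Set Γ))))
    (hinv : ∀ a ∈ A, a⁻¹ ∉ A) (hc : ∀ a ∈ A, ¬ Cm h a)
    (hβ : ∃ β : Γ → Bool, (∀ y, β (h * y) = !(β y)) ∧ ∀ a ∈ A, ∀ y, β (a * y) = β y) :
    Star S h A := by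
  have hnil' : ∀ a ∈ A, Group.IsNilpotent (Subgroup.closure {a, h} : Subgroup Γ) := by
    intro a ha
    refine nil_mono ?_ hnil
    intro x hx
    rcases hx with hx | hx
    · rw [hx]
      exact Or.inr (Finset.mem_coe.2 ha)
    · exact Or.inl hx
  exact
    { hS := hhS
      AS := hAS
      ne := hne
      ho := hh
      Ao := hA
      hA := fun hx => hc h hx (a5_refl h)
      hA' := fun hx => hc _ hx (a5_refl h).inv_right
      AA := hinv
      nil := hnil'
      β := hβ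
      α := fun a ha => fun1 (hnil' a ha) (hA a ha) (fun H => hc a ha H.symm) }

theorem star_cm {S : Finset Γ} {h : Γ} {A : Finset Γ} (hhS : h ∈ S) (hAS : A ⊆ S)
    (hne : A.Nonempty) (hh : ¬ IsOfFinOrder h) (hA : ∀ a ∈ A, ¬ IsOfFinOrder a)
    (hnil : Group.IsNilpotent (Subgroup.closure (insert h (A : Set Γ))))
    (hinv : ∀ a ∈ A, a⁻¹ ∉ A) (hAA : ∀ a ∈ A, ∀ a' ∈ A, Cm a a') (hc : ∀ a ∈ A, ¬ Cm h a) :
    Star S h A :=
  a5_star hhS hAS hne hh hA hnil hinv hc (fun3 hnil hh hA hne hAA hc)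

theorem star_fun {S : Finset Γ} {h : Γ} {A : Finset Γ} (hhS : h ∈ S) (hAS : A ⊆ S)
    (hne : A.Nonempty) (hh : ¬ IsOfFinOrder h) (hA : ∀ a ∈ A, ¬ IsOfFinOrder a)
    (hnil : Group.IsNilpotent (Subgroup.closure (insert h (A : Set Γ))))
    (hinv : ∀ a ∈ A, a⁻¹ ∉ A) (hc : ∀ a ∈ A, ¬ Cm h a)
    (hβ : ∃ β : Γ → Bool, (∀ y, β (h * y) = !(β y)) ∧ ∀ a ∈ A, ∀ y, β (a * y) = β y) :
    Star S h A :=
  a5_star hhS hAS hne hh hA hnil hinv hc hβ

end Pool.Agent.MP1822N
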