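import Pool.Agent.Lib.MP_1822da_lc.NB.A5a

/-!
# The partition into stars

`Cov S T`: the finite set `T` is a disjoint union of stars (centre and leaves).
PROOF of cov. Strong induction on `T.card`, for all `T ⊆ S` with the hypotheses (`h3` only used for `T.card = 3` and three
pairwise non-`Cm` elements). Stars from star_pair, star_cm, star_fun (with fun4 or `h3`; always two leaves).
`card = 2`: one star. `card = 3`: if two elements `a, b` are `Cm`, the third `c` is not `Cm` to them (not all
are `Cm`): star (c; {a, b}). Otherwise `h3`.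
`card ≥ 4`: take `x, y ∈ T` not `Cm`, `T' = T \ {x, y}`.
(i) all elements of `T'` are `Cm` to each other: if neither `x` nor `y` is `Cm` to them, split `T'` into two
nonempty parts: stars (x; A₁), (y; A₂); if `x` is (then `y` is not): star (y; T \ {y}); if `y` is: star
(x; T \ {x}).
(ii) `T'` has two non-`Cm` elements and (`card ≠ 5` or two different elements of `T'` are `Cm`): star
(x; {y}) and induction for `T'` (if `card T' = 3` the hypothesis `h3` of `T'` is not needed: state the induction with
`h3 : T.card = 3 → (pairwise not Cm) → …`).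
(iii) `card = 5`, `T' = {p, q, r}` pairwise not `Cm`. If `x` is `Cm` to one of them, say `p`: if not `Cm r y`:
stars (q; {x, p}) and (r; {y}) [q is not `Cm` to p, so not to x]; if `Cm r y`: stars (x; {r, y}) [x is not
`Cm` to y, so not to r] and (p; {q}). The same with `x`, `y` exchanged. Otherwise all five elements are
pairwise not `Cm`: fun4 for `T \ {y'}` with any `y' ∈ T`: a star (x'; {y'', z''}) and the other two elements
form a star.
-/

namespace Pool.Agent.MP1822N

open Set MeasureTheory Pointwise
open Pool.Agent.Lib.MP_1822da_lc Pool.Agent.MP1822T Pool.Agent.MP1822C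

universe u v

variable {Γ : Type u} [Group Γ]


open Classical in
/-- disjoint unions of stars -/
inductive Cov (S : Finset Γ) : Finset Γ → Prop
  | nil : Cov S ∅
  | star {T : Finset Γ} {h : Γ} {A : Finset Γ} (hst : Star S h A) (hh : h ∉ T)
      (hd : Disjoint A T) (hT : Cov S T) : Cov S (insert h (A ∪ T))

section Abstract

variable {α : Type u} [DecidableEq α]

private theorem covA_two {C : Finset α → Prop} {R : α → α → Prop} {T₀ : Finset α}
    {P : α → Finset α → Prop} (hC0 : C ∅)
    (hC1 : ∀ T ⊆ T₀, ∀ h ∈ T, ∀ A ⊆ T, h ∉ A → P h A → C (T \ insert h A) → C T)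
    (P1 : ∀ x ∈ T₀, ∀ y ∈ T₀, ¬ R x y → P x {y})
    {x y : α} (hx : x ∈ T₀) (hy : y ∈ T₀) (hne : x ≠ y) (hxy : ¬ R x y) : C {x, y} := by
  refine hC1 {x, y} ?_ x (by simp) {y} (by simp) (by simpa using hne) (P1 x hx y hy hxy) ?_
  · intro z hz
    simp only [Finset.mem_insert, Finset.mem_singleton] at hz
    rcases hz with rfl | rfl <;> assumption
  · simpa using hC0

private theorem covA_five {C : Finset α → Prop} {R : α → α → Prop} (hs : ∀ x y, R x y → R y x)
    (ht : ∀ x y z, R x y → R y z → R x z) (hr : ∀ x, R x x) {T₀ : Finset α}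
    {P : α → Finset α → Prop} (hC0 : C ∅)
    (hC1 : ∀ T ⊆ T₀, ∀ h ∈ T, ∀ A ⊆ T, h ∉ A → P h A → C (T \ insert h A) → C T)
    (P1 : ∀ x ∈ T₀, ∀ y ∈ T₀, ¬ R x y → P x {y})
    (P2 : ∀ h ∈ T₀, ∀ A ⊆ T₀, A.Nonempty → (∀ a ∈ A, ∀ a' ∈ A, R a a') → (∀ a ∈ A, ¬ R h a) →
      P h A)
    {x y p q r : α} (hT : ({x, y, p, q, r} : Finset α) ⊆ T₀)
    (xp : x ≠ p) (xq : x ≠ q) (xr : x ≠ r) (yp : y ≠ p) (yq : y ≠ q) (yr : y ≠ r)
    (pq : p ≠ q) (pr : p ≠ r) (qr : q ≠ r)
    (hxp : R x p) (hxy : ¬ R x y) (hpq : ¬ R p q) (hpr : ¬ R p r) (hqr : ¬ R q r) :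
    C {x, y, p, q, r} := by
  have xy : x ≠ y := fun h => hxy (h ▸ hr x)
  have hx : x ∈ T₀ := hT (by simp)
  have hy : y ∈ T₀ := hT (by simp)
  have hp : p ∈ T₀ := hT (by simp)
  have hq : q ∈ T₀ := hT (by simp)
  have hr' : r ∈ T₀ := hT (by simp)
  by_cases hry : R r y
  · -- stars (x; {r, y}) and (p; {q})
    have hxr : ¬ R x r := fun h => hxy (ht _ _ _ h hry)
    refine hC1 _ hT x (by simp) {r, y} ?_ ?_ ?_ ?_
    · intro z hz
      simp only [Finset.mem_insert, Finset.mem_singleton] at hz ⊢
      tauto
    · simp only [Finset.mem_insert, Finset.mem_singleton, not_or]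
      exact ⟨xr, xy⟩
    · refine P2 x hx _ ?_ ⟨r, by simp⟩ ?_ ?_
      · intro z hz
        simp only [Finset.mem_insert, Finset.mem_singleton] at hz
        rcases hz with rfl | rfl <;> assumption
      · intro a ha a' ha'
        simp only [Finset.mem_insert, Finset.mem_singleton] at ha ha'
        rcases ha with rfl | rfl <;> rcases ha' with rfl | rfl
        · exact hr _
        · exact hry
        · exact hs _ _ hry
        · exact hr _
      · intro a ha
        simp only [Finset.mem_insert, Finset.mem_singleton] at ha
        rcases ha with rfl | rfl <;> assumption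
    · have he : ({x, y, p, q, r} : Finset α) \ insert x {r, y} = {p, q} := by
        ext z
        simp only [Finset.mem_sdiff, Finset.mem_insert, Finset.mem_singleton, not_or]
        constructor
        · rintro ⟨h1, h2, h3, h4⟩
          tauto
        · rintro (rfl | rfl)
          · exact ⟨by tauto, fun h => xp h.symm, pr, fun h => yp h.symm⟩
          · exact ⟨by tauto, fun h => xq h.symm, qr, fun h => yq h.symm⟩
      rw [he]
      exact covA_two hC0 hC1 P1 hp hq pq hpq
  · -- stars (q; {x, p}) and (r; {y})
    have hqx : ¬ R q x := fun h => hpq (hs _ _ (ht _ _ _ h hxp))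
    refine hC1 _ hT q (by simp) {x, p} ?_ ?_ ?_ ?_
    · intro z hz
      simp only [Finset.mem_insert, Finset.mem_singleton] at hz ⊢
      tauto
    · simp only [Finset.mem_insert, Finset.mem_singleton, not_or]
      exact ⟨fun h => xq h.symm, fun h => pq h.symm⟩
    · refine P2 q hq _ ?_ ⟨x, by simp⟩ ?_ ?_
      · intro z hz
        simp only [Finset.mem_insert, Finset.mem_singleton] at hz
        rcases hz with rfl | rfl <;> assumption
      · intro a ha a' ha'
        simp only [Finset.mem_insert, Finset.mem_singleton] at ha ha'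
        rcases ha with rfl | rfl <;> rcases ha' with rfl | rfl
        · exact hr _
        · exact hxp
        · exact hs _ _ hxp
        · exact hr _
      · intro a ha
        simp only [Finset.mem_insert, Finset.mem_singleton] at ha
        rcases ha with rfl | rfl
        · exact hqx
        · exact fun h => hpq (hs _ _ h)
    · have he : ({x, y, p, q, r} : Finset α) \ insert q {x, p} = {r, y} := by
        ext z
        simp only [Finset.mem_sdiff, Finset.mem_insert, Finset.mem_singleton, not_or]
        constructor
        · rintro ⟨h1, h2, h3, h4⟩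
          tauto
        · rintro (rfl | rfl)
          · exact ⟨by tauto, fun h => qr h.symm, fun h => xr h.symm, fun h => pr h.symm⟩
          · exact ⟨by tauto, yq, fun h => xy h.symm, yp⟩
      rw [he]
      exact covA_two hC0 hC1 P1 hr' hy (fun h => yr h.symm) hry

private theorem covA_three {C : Finset α → Prop} {R : α → α → Prop} (hs : ∀ x y, R x y → R y x)
    (ht : ∀ x y z, R x y → R y z → R x z) (hr : ∀ x, R x x) {T₀ : Finset α}
    {P : α → Finset α → Prop} (hC0 : C ∅)
    (hC1 : ∀ T ⊆ T₀, ∀ h ∈ T, ∀ A ⊆ T, h ∉ A → P h A → C (T \ insert h A) → C T)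
    (P1 : ∀ x ∈ T₀, ∀ y ∈ T₀, ¬ R x y → P x {y})
    (P2 : ∀ h ∈ T₀, ∀ A ⊆ T₀, A.Nonempty → (∀ a ∈ A, ∀ a' ∈ A, R a a') → (∀ a ∈ A, ¬ R h a) →
      P h A)
    {x y p q r : α} (hT : ({x, y, p, q, r} : Finset α) ⊆ T₀)
    (xp : x ≠ p) (xq : x ≠ q) (xr : x ≠ r) (yp : y ≠ p) (yq : y ≠ q) (yr : y ≠ r)
    (pq : p ≠ q) (pr : p ≠ r) (qr : q ≠ r)
    (hx : R x p ∨ R x q ∨ R x r) (hxy : ¬ R x y) (hpq : ¬ R p q) (hpr : ¬ R p r)
    (hqr : ¬ R q r) : C {x, y, p, q, r} := by
  rcases hx with hx | hx | hx
  · exact covA_five hs ht hr hC0 hC1 P1 P2 hT xp xq xr yp yq yr pq pr qr hx hxy hpq hpr hqr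
  · have he : ({x, y, p, q, r} : Finset α) = {x, y, q, p, r} := by
      ext z
      simp only [Finset.mem_insert, Finset.mem_singleton]
      tauto
    rw [he] at hT ⊢
    exact covA_five hs ht hr hC0 hC1 P1 P2 hT xq xp xr yq yp yr pq.symm qr pr hx hxy
      (fun h => hpq (hs _ _ h)) hqr hpr
  · have he : ({x, y, p, q, r} : Finset α) = {x, y, r, p, q} := by
      ext z
      simp only [Finset.mem_insert, Finset.mem_singleton]
      tauto
    rw [he] at hT ⊢
    exact covA_five hs ht hr hC0 hC1 P1 P2 hT xr xp xq yr yp yq pr.symm qr.symm pq hx hxy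
      (fun h => hpr (hs _ _ h)) (fun h => hqr (hs _ _ h)) hpq

private theorem covA {C : Finset α → Prop} {R : α → α → Prop} (hs : ∀ x y, R x y → R y x)
    (ht : ∀ x y z, R x y → R y z → R x z) (hr : ∀ x, R x x) {T₀ : Finset α}
    {P : α → Finset α → Prop} (hC0 : C ∅)
    (hC1 : ∀ T ⊆ T₀, ∀ h ∈ T, ∀ A ⊆ T, h ∉ A → P h A → C (T \ insert h A) → C T)
    (P1 : ∀ x ∈ T₀, ∀ y ∈ T₀, ¬ R x y → P x {y})
    (P2 : ∀ h ∈ T₀, ∀ A ⊆ T₀, A.Nonempty → (∀ a ∈ A, ∀ a' ∈ A, R a a') → (∀ a ∈ A, ¬ R h a) →
      P h A)
    (P4 : ∀ U ⊆ T₀, U.card = 4 → (∀ a ∈ U, ∀ b ∈ U, a ≠ b → ¬ R a b) →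
      ∃ x ∈ U, ∃ y ∈ U, ∃ z ∈ U, x ≠ y ∧ x ≠ z ∧ y ≠ z ∧ P x {y, z}) :
    ∀ n : ℕ, ∀ T ⊆ T₀, T.card = n → (∃ x ∈ T, ∃ y ∈ T, ¬ R x y) →
      (T.card = 3 → (∀ a ∈ T, ∀ b ∈ T, a ≠ b → ¬ R a b) → C T) → C T := by
  intro n
  induction n using Nat.strong_induction_on with
  | _ n ih =>
  intro T hT hn ⟨x, hx, y, hy, hxy⟩ h3
  have xy : x ≠ y := fun h => hxy (h ▸ hr x)
  obtain ⟨T', hT'⟩ : ∃ T', T' = T \ {x, y} := ⟨_, rfl⟩
  have hcard : T.card = T'.card + 2 := by
    have h1 : ({x, y} : Finset α) ⊆ T := by
      intro z hz
      simp only [Finset.mem_insert, Finset.mem_singleton] at hz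
      rcases hz with rfl | rfl <;> assumption
    have h2 := Finset.card_sdiff_add_card_eq_card h1
    rw [Finset.card_pair xy, ← hT'] at h2
    exact h2.symm
  have hmem : ∀ z, z ∈ T' ↔ z ∈ T ∧ z ≠ x ∧ z ≠ y := by
    intro z
    rw [hT']
    simp only [Finset.mem_sdiff, Finset.mem_insert, Finset.mem_singleton, not_or]
  have hT'T : T' ⊆ T := fun z hz => ((hmem z).1 hz).1
  by_cases hall : ∀ a ∈ T', ∀ b ∈ T', R a b
  · -- case (i)
    rcases T'.eq_empty_or_nonempty with he | ⟨t, htT⟩
    · -- T = {x, y}
      have hTe : T = {x, y} := by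
        ext z
        simp only [Finset.mem_insert, Finset.mem_singleton]
        constructor
        · intro hz
          by_contra hc
          rw [not_or] at hc
          have : z ∈ T' := (hmem z).2 ⟨hz, hc⟩
          rw [he] at this
          simp at this
        · rintro (rfl | rfl) <;> assumption
      rw [hTe]
      exact covA_two hC0 hC1 P1 (hT hx) (hT hy) xy hxy
    · by_cases hxt : R x t
      · -- star (y; T \ {y})
        have hyt : ∀ a ∈ T.erase y, R x a := by
          intro a ha
          rw [Finset.mem_erase] at ha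
          by_cases hax : a = x
          · rw [hax]; exact hr x
          · exact ht _ _ _ hxt (hall t htT a ((hmem a).2 ⟨ha.2, hax, ha.1⟩))
        refine hC1 T hT y hy (T.erase y) (Finset.erase_subset _ _) (by simp) ?_ ?_
        · refine P2 y (hT hy) _ (fun z hz => hT (Finset.mem_of_mem_erase hz))
            ⟨x, Finset.mem_erase.2 ⟨xy, hx⟩⟩ ?_ ?_
          · intro a ha a' ha'
            exact ht _ _ _ (hs _ _ (hyt a ha)) (hyt a' ha')
          · intro a ha h
            exact hxy (hs _ _ (ht _ _ _ h (hs _ _ (hyt a ha))))
        · rw [Finset.insert_erase hy, Finset.sdiff_self]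
          exact hC0
      · by_cases hyt : R y t
        · -- star (x; T \ {x})
          have hyt' : ∀ a ∈ T.erase x, R y a := by
            intro a ha
            rw [Finset.mem_erase] at ha
            by_cases hax : a = y
            · rw [hax]; exact hr y
            · exact ht _ _ _ hyt (hall t htT a ((hmem a).2 ⟨ha.2, ha.1, hax⟩))
          refine hC1 T hT x hx (T.erase x) (Finset.erase_subset _ _) (by simp) ?_ ?_
          · refine P2 x (hT hx) _ (fun z hz => hT (Finset.mem_of_mem_erase hz))
              ⟨y, Finset.mem_erase.2 ⟨xy.symm, hy⟩⟩ ?_ ?_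
            · intro a ha a' ha'
              exact ht _ _ _ (hs _ _ (hyt' a ha)) (hyt' a' ha')
            · intro a ha h
              exact hxy (ht _ _ _ h (hs _ _ (hyt' a ha)))
          · rw [Finset.insert_erase hx, Finset.sdiff_self]
            exact hC0
        · -- neither
          have hxa : ∀ a ∈ T', ¬ R x a := fun a ha h => hxt (ht _ _ _ h (hall a ha t htT))
          have hya : ∀ a ∈ T', ¬ R y a := fun a ha h => hyt (ht _ _ _ h (hall a ha t htT))
          rcases (T'.erase t).eq_empty_or_nonempty with he | hne
          · -- T' = {t}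
            have hT't : T' = {t} := by
              rw [← Finset.insert_erase htT, he]
              simp
            have hc3 : T.card = 3 := by
              rw [hcard, hT't, Finset.card_singleton]
            apply h3 hc3
            have hz : ∀ z ∈ T, z = x ∨ z = y ∨ z = t := by
              intro z hz
              by_cases h1 : z = x
              · exact Or.inl h1
              by_cases h2 : z = y
              · exact Or.inr (Or.inl h2)
              have : z ∈ T' := (hmem z).2 ⟨hz, h1, h2⟩
              rw [hT't, Finset.mem_singleton] at this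
              exact Or.inr (Or.inr this)
            intro a ha b hb hab
            rcases hz a ha with rfl | rfl | rfl <;> rcases hz b hb with rfl | rfl | rfl
            · exact absurd rfl hab
            · exact hxy
            · exact hxt
            · exact fun h => hxy (hs _ _ h)
            · exact absurd rfl hab
            · exact hyt
            · exact fun h => hxt (hs _ _ h)
            · exact fun h => hyt (hs _ _ h)
            · exact absurd rfl hab
          · -- stars (x; {t}), (y; rest)
            have htm := (hmem t).1 htT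
            refine hC1 T hT x hx {t} (by simpa using htm.1)
              (by simpa using fun h : x = t => htm.2.1 h.symm)
              (P1 x (hT hx) t (hT htm.1) hxt) ?_
            have hsub : T \ insert x {t} ⊆ T := Finset.sdiff_subset
            have he : T \ insert x {t} = insert y (T'.erase t) := by
              ext z
              simp only [Finset.mem_sdiff, Finset.mem_insert, Finset.mem_singleton, not_or,
                Finset.mem_erase, hmem z]
              constructor
              · rintro ⟨h1, h2, h4⟩
                by_cases h5 : z = y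
                · exact Or.inl h5
                · exact Or.inr ⟨h4, h1, h2, h5⟩
              · rintro (rfl | ⟨h1, h2, h4, h5⟩)
                · exact ⟨hy, xy.symm, fun h => htm.2.2 h.symm⟩
                · exact ⟨h2, h4, h1⟩
            rw [he] at hsub ⊢
            have hyn : y ∉ T'.erase t := by
              intro h
              exact ((hmem y).1 (Finset.mem_of_mem_erase h)).2.2 rfl
            refine hC1 _ (hsub.trans hT) y (by simp) (T'.erase t) (Finset.subset_insert _ _) hyn
              ?_ ?_
            · refine P2 y (hT hy) _ (fun z hz => hT (hT'T (Finset.mem_of_mem_erase hz))) hne ?_ ?_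
              · intro a ha a' ha'
                exact hall a (Finset.mem_of_mem_erase ha) a' (Finset.mem_of_mem_erase ha')
              · intro a ha
                exact hya a (Finset.mem_of_mem_erase ha)
            · rw [Finset.sdiff_self]
              exact hC0
  · -- T' has two elements which are not R
    by_cases hpw : T'.card = 3 ∧ (∀ a ∈ T', ∀ b ∈ T', a ≠ b → ¬ R a b)
    · -- case (iii)
      obtain ⟨hc, hpw⟩ := hpw
      obtain ⟨p, q, r, pq, pr, qr, hTe⟩ := Finset.card_eq_three.1 hc
      have hp : p ∈ T' := by rw [hTe]; simp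
      have hq : q ∈ T' := by rw [hTe]; simp
      have hr' : r ∈ T' := by rw [hTe]; simp
      have hpm := (hmem p).1 hp
      have hqm := (hmem q).1 hq
      have hrm := (hmem r).1 hr'
      have hT5 : T = {x, y, p, q, r} := by
        ext z
        simp only [Finset.mem_insert, Finset.mem_singleton]
        constructor
        · intro hz
          by_cases h1 : z = x
          · exact Or.inl h1
          by_cases h2 : z = y
          · exact Or.inr (Or.inl h2)
          have : z ∈ T' := (hmem z).2 ⟨hz, h1, h2⟩
          rw [hTe] at this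
          simp only [Finset.mem_insert, Finset.mem_singleton] at this
          exact Or.inr (Or.inr this)
        · rintro (rfl | rfl | rfl | rfl | rfl)
          · exact hx
          · exact hy
          · exact hpm.1
          · exact hqm.1
          · exact hrm.1
      have hpq := hpw p hp q hq pq
      have hpr := hpw p hp r hr' pr
      have hqr := hpw q hq r hr' qr
      by_cases h1 : R x p ∨ R x q ∨ R x r
      · rw [hT5] at hT ⊢
        exact covA_three hs ht hr hC0 hC1 P1 P2 hT hpm.2.1.symm hqm.2.1.symm hrm.2.1.symm
          hpm.2.2.symm hqm.2.2.symm hrm.2.2.symm pq pr qr h1 hxy hpq hpr hqr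
      · by_cases h2 : R y p ∨ R y q ∨ R y r
        · have he : T = {y, x, p, q, r} := by
            rw [hT5]
            ext z
            simp only [Finset.mem_insert, Finset.mem_singleton]
            tauto
          rw [he] at hT ⊢
          exact covA_three hs ht hr hC0 hC1 P1 P2 hT hpm.2.2.symm hqm.2.2.symm hrm.2.2.symm
            hpm.2.1.symm hqm.2.1.symm hrm.2.1.symm pq pr qr h2 (fun h => hxy (hs _ _ h))
            hpq hpr hqr
        · -- all five pairwise not R
          have hall5 : ∀ a ∈ T, ∀ b ∈ T, a ≠ b → ¬ R a b := by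
            intro a ha b hb hab hR
            have key : ∀ z ∈ T', ¬ R x z ∧ ¬ R y z := by
              intro z hz
              rw [hTe] at hz
              simp only [Finset.mem_insert, Finset.mem_singleton] at hz
              rw [not_or, not_or] at h1 h2
              rcases hz with rfl | rfl | rfl
              · exact ⟨h1.1, h2.1⟩
              · exact ⟨h1.2.1, h2.2.1⟩
              · exact ⟨h1.2.2, h2.2.2⟩
            by_cases hax : a = x
            · by_cases hby : b = y
              · rw [hax, hby] at hR; exact hxy hR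
              · exact (key b ((hmem b).2 ⟨hb, fun h => hab (hax.trans h.symm), hby⟩)).1
                  (hax ▸ hR)
            · by_cases hay : a = y
              · by_cases hbx : b = x
                · rw [hay, hbx] at hR; exact hxy (hs _ _ hR)
                · exact (key b ((hmem b).2 ⟨hb, hbx, fun h => hab (hay.trans h.symm)⟩)).2
                    (hay ▸ hR)
              · have haT : a ∈ T' := (hmem a).2 ⟨ha, hax, hay⟩
                by_cases hbx : b = x
                · exact (key a haT).1 (hs _ _ (hbx ▸ hR))
                · by_cases hby : b = y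
                  · exact (key a haT).2 (hs _ _ (hby ▸ hR))
                  · exact hpw a haT b ((hmem b).2 ⟨hb, hbx, hby⟩) hab hR
          have hUc : (T.erase x).card = 4 := by
            rw [Finset.card_erase_of_mem hx, hcard, hc]
          obtain ⟨x', hx', y', hy', z', hz', h12, h13, h23, hP⟩ := P4 (T.erase x)
            ((Finset.erase_subset _ _).trans hT) hUc
            (fun a ha b hb => hall5 a (Finset.mem_of_mem_erase ha) b (Finset.mem_of_mem_erase hb))
          have hx'T := Finset.mem_of_mem_erase hx'
          have hy'T := Finset.mem_of_mem_erase hy'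
          have hz'T := Finset.mem_of_mem_erase hz'
          have hAT : ({y', z'} : Finset α) ⊆ T := by
            intro z hz
            simp only [Finset.mem_insert, Finset.mem_singleton] at hz
            rcases hz with rfl | rfl <;> assumption
          have hn' : x' ∉ ({y', z'} : Finset α) := by
            simp only [Finset.mem_insert, Finset.mem_singleton, not_or]
            exact ⟨h12, h13⟩
          refine hC1 T hT x' hx'T {y', z'} hAT hn' hP ?_
          have hins : insert x' ({y', z'} : Finset α) ⊆ T := by
            intro z hz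
            rw [Finset.mem_insert] at hz
            rcases hz with rfl | hz
            · exact hx'T
            · exact hAT hz
          have hc2 : (T \ insert x' {y', z'}).card = 2 := by
            have h5 := Finset.card_sdiff_add_card_eq_card hins
            rw [Finset.card_insert_of_notMem hn', Finset.card_pair h23, hcard, hc] at h5
            omega
          obtain ⟨s, t, hst, hse⟩ := Finset.card_eq_two.1 hc2
          have hs' : s ∈ T := by
            have : s ∈ T \ insert x' {y', z'} := by rw [hse]; simp
            exact (Finset.mem_sdiff.1 this).1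
          have ht' : t ∈ T := by
            have : t ∈ T \ insert x' {y', z'} := by rw [hse]; simp
            exact (Finset.mem_sdiff.1 this).1
          rw [hse]
          exact covA_two hC0 hC1 P1 (hT hs') (hT ht') hst (hall5 s hs' t ht' hst)
    · -- case (ii)
      have hall' : ∃ p ∈ T', ∃ q ∈ T', ¬ R p q := by
        by_contra hcon
        apply hall
        intro a ha b hb
        by_contra h
        exact hcon ⟨a, ha, b, hb, h⟩
      have hlt : T'.card < n := by omega
      have hCT' : C T' := ih T'.card hlt T' (hT'T.trans hT) rfl hall'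
        (fun h5 h6 => absurd ⟨h5, h6⟩ hpw)
      refine hC1 T hT x hx {y} (by simpa using hy) (by simpa using xy)
        (P1 x (hT hx) y (hT hy) hxy) ?_
      rw [show (insert x {y} : Finset α) = {x, y} from rfl, ← hT']
      exact hCT'

end Abstract

theorem cov {S T : Finset Γ} (hTS : T ⊆ S) (hinv : ∀ x ∈ T, x⁻¹ ∉ T)
    (ho : ∀ x ∈ T, ¬ IsOfFinOrder x)
    (hnil : Group.IsNilpotent (Subgroup.closure (T : Set Γ)))
    (h2 : ∃ x ∈ T, ∃ y ∈ T, ¬ Cm x y)
    (h3 : T.card = 3 → ∃ x ∈ T, ∃ β : Γ → Bool, (∀ y, β (x * y) = !(β y)) ∧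
      ∀ z ∈ T, z ≠ x → ∀ y, β (z * y) = β y) : Cov S T := by
  classical
  have hrefl : ∀ x : Γ, Cm x x := fun x => ⟨1, 1, one_ne_zero, one_ne_zero, rfl⟩
  have hC1 : ∀ U ⊆ T, ∀ h ∈ U, ∀ A ⊆ U, h ∉ A → Star S h A → Cov S (U \ insert h A) →
      Cov S U := by
    intro U hU h hh A hA hhA hst hc
    have he : insert h (A ∪ (U \ insert h A)) = U := by
      ext z
      simp only [Finset.mem_insert, Finset.mem_union, Finset.mem_sdiff, not_or]
      constructor
      · rintro (rfl | h1 | h1)
        · exact hh
        · exact hA h1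
        · exact h1.1
      · intro hz
        by_cases h1 : z = h
        · exact Or.inl h1
        · by_cases h4 : z ∈ A
          · exact Or.inr (Or.inl h4)
          · exact Or.inr (Or.inr ⟨hz, h1, h4⟩)
    have hres := Cov.star (S := S) (T := U \ insert h A) (h := h) (A := A) hst
      (by simp) (Finset.disjoint_left.2 (fun z hz hz' => by
        rw [Finset.mem_sdiff, Finset.mem_insert, not_or] at hz'
        exact hz'.2.2 hz)) hc
    have he' := he
    rw [← he']
    exact hres
  have hsf : ∀ h ∈ T, ∀ A ⊆ T, A.Nonempty → (∀ a ∈ A, ¬ Cm h a) →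
      (∃ β : Γ → Bool, (∀ y, β (h * y) = !(β y)) ∧ ∀ a ∈ A, ∀ y, β (a * y) = β y) →
      Star S h A := by
    intro h hh A hA hne hc hβ
    refine star_fun (hTS hh) (hA.trans hTS) hne (ho h hh) (fun a ha => ho a (hA ha)) ?_
      (fun a ha ha' => hinv a (hA ha) (hA ha')) hc hβ
    refine nil_mono ?_ hnil
    intro z hz
    rcases hz with rfl | hz
    · exact hh
    · exact hA hz
  refine covA (C := Cov S) (R := Cm) (T₀ := T) (P := Star S) (fun x y h => h.symm)
    (fun x y z h h' => h.trans h') hrefl Cov.nil hC1 ?_ ?_ ?_ T.card T (Finset.Subset.refl _) rfl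
    h2 ?_
  · intro x hx y hy hxy
    refine star_pair (hTS hx) (hTS hy) (ho x hx) (ho y hy) (nil_mono ?_ hnil)
      (fun h => hxy h.symm)
    intro z hz
    rcases hz with rfl | hz
    · exact hy
    · rw [Set.mem_singleton_iff] at hz
      rw [hz]
      exact hx
  · intro h hh A hA hne hAA hhA
    refine star_cm (hTS hh) (hA.trans hTS) hne (ho h hh) (fun a ha => ho a (hA ha))
      (nil_mono ?_ hnil) (fun a ha ha' => hinv a (hA ha) (hA ha')) hAA hhA
    intro z hz
    rcases hz with rfl | hz
    · exact hh
    · exact hA hz
  · intro U hU hUc hpw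
    obtain ⟨x, hx, y, hy, z, hz, xy, xz, yz, β, hβx, hβy, hβz⟩ := fun4 hUc
      (nil_mono (fun z hz => hU hz) hnil) (fun a ha => ho a (hU ha)) hpw
    refine ⟨x, hx, y, hy, z, hz, xy, xz, yz, hsf x (hU hx) {y, z} ?_ ⟨y, by simp⟩ ?_ ⟨β, hβx, ?_⟩⟩
    · intro w hw
      simp only [Finset.mem_insert, Finset.mem_singleton] at hw
      rcases hw with rfl | rfl
      · exact hU hy
      · exact hU hz
    · intro a ha
      simp only [Finset.mem_insert, Finset.mem_singleton] at ha
      rcases ha with rfl | rfl
      · exact hpw x hx _ hy xy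
      · exact hpw x hx _ hz xz
    · intro a ha
      simp only [Finset.mem_insert, Finset.mem_singleton] at ha
      rcases ha with rfl | rfl
      · exact hβy
      · exact hβz
  · intro hc hpw
    obtain ⟨x, hx, β, hβx, hβ⟩ := h3 hc
    have hne : (T.erase x).Nonempty := by
      rw [← Finset.card_pos, Finset.card_erase_of_mem hx, hc]
      norm_num
    refine hC1 T (Finset.Subset.refl _) x hx (T.erase x) (Finset.erase_subset _ _) (by simp)
      (hsf x hx _ (Finset.erase_subset _ _) hne ?_ ⟨β, hβx, ?_⟩) ?_
    · intro a ha
      rw [Finset.mem_erase] at ha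
      exact hpw x hx a ha.2 ha.1.symm
    · intro a ha
      rw [Finset.mem_erase] at ha
      exact hβ a ha.2 ha.1
    · rw [Finset.insert_erase hx, Finset.sdiff_self]
      exact Cov.nil

end Pool.Agent.MP1822N
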