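import Pool.Agent.Lib.MP_1822da_lc.NB.A5b

/-!
# Blocks are disjoint unions of stars

PROOF of cov_block: for a nilpotent block `B ⊆ S` choose `T` = one element of each pair `{g, g⁻¹}` (use
`MP1822V.exists_rep`), `B = T ∪ T⁻¹`, `B.card = 2 * T.card` (`g ≠ g⁻¹`: `MP1822V.ne_inv_of_infinite`);
`closure B = closure T`; not all elements of `T` are `Cm` to each other by vc_of_Cm (and Cm.inv_right, Cm.trans);
`h3` from `NilBlock.six` and fun_of_hom (if `h⁻¹ ∈ T` instead of `h`, the same function works: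
`β (h⁻¹ * y) = !(β y)`; for `z ∈ T`, `z ≠ h`, `z ≠ h⁻¹`: `φ z = 1`).
-/

namespace Pool.Agent.MP1822N

open Set MeasureTheory Pointwise
open Pool.Agent.Lib.MP_1822da_lc Pool.Agent.MP1822T Pool.Agent.MP1822C

universe u v

variable {Γ : Type u} [Group Γ]


theorem cov_block {S B : Finset Γ} (hBS : B ⊆ S) (hB : NilBlock B) :
    ∃ T : Finset Γ, Cov S T ∧ (∀ x ∈ T, x⁻¹ ∉ T) ∧ ∀ x, x ∈ B ↔ x ∈ T ∨ x⁻¹ ∈ T := by
  classical
  obtain ⟨r, hr, hr'⟩ := MP1822V.exists_rep Γ
  set T : Finset Γ := B.filter (fun x => r x = x) with hT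
  have hTB : T ⊆ B := Finset.filter_subset _ _
  have hinv : ∀ x ∈ T, x⁻¹ ∉ T := by
    intro x hx hx'
    have h1 := (Finset.mem_filter.1 hx).2
    have h2 := (Finset.mem_filter.1 hx').2
    rw [hr', h1] at h2
    exact MP1822V.ne_inv_of_infinite (hB.ord x (hTB hx)) h2
  have hiff : ∀ x, x ∈ B ↔ x ∈ T ∨ x⁻¹ ∈ T := by
    intro x
    constructor
    · intro hx
      rcases hr x with h | h
      · exact Or.inl (Finset.mem_filter.2 ⟨hx, h⟩)
      · exact Or.inr (Finset.mem_filter.2 ⟨hB.symm x hx, by rw [hr', h]⟩)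
    · rintro (h | h)
      · exact hTB h
      · have := hB.symm _ (hTB h)
        rwa [inv_inv] at this
  have hcl : Subgroup.closure (T : Set Γ) = Subgroup.closure (B : Set Γ) := by
    refine le_antisymm (Subgroup.closure_mono (Finset.coe_subset.2 hTB)) ?_
    rw [Subgroup.closure_le]
    intro x hx
    rcases (hiff x).1 (Finset.mem_coe.1 hx) with h | h
    · exact Subgroup.subset_closure (Finset.mem_coe.2 h)
    · have : x⁻¹ ∈ Subgroup.closure (T : Set Γ) := Subgroup.subset_closure (Finset.mem_coe.2 h)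
      exact (Subgroup.inv_mem_iff _).1 this
  have hnil : Group.IsNilpotent (Subgroup.closure (T : Set Γ)) := by
    rw [hcl]; exact hB.nil
  have hnvc : ¬ IsVirtuallyCyclic (Subgroup.closure (T : Set Γ)) := by
    rw [hcl]; exact hB.nvc
  have hne : T.Nonempty := by
    rw [Finset.nonempty_iff_ne_empty]
    intro h0
    apply hnvc
    rw [h0]
    haveI hs : Subsingleton (Subgroup.closure ((∅ : Finset Γ) : Set Γ)) := by
      rw [Finset.coe_empty, Subgroup.closure_empty]
      infer_instance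
    refine ⟨1, ⟨?_⟩⟩
    rw [Subsingleton.elim (Subgroup.zpowers (1 : Subgroup.closure ((∅ : Finset Γ) : Set Γ))) ⊤,
      Subgroup.index_top]
    exact one_ne_zero
  have h2 : ∃ x ∈ T, ∃ y ∈ T, ¬ Cm x y := by
    by_contra hcon
    obtain ⟨g, hg⟩ := hne
    refine hnvc (vc_of_Cm hnil hg ?_)
    intro b hb
    by_contra h
    exact hcon ⟨b, hb, g, hg, h⟩
  refine ⟨T, cov (hTB.trans hBS) hinv (fun x hx => hB.ord x (hTB hx)) hnil h2 ?_, hinv, hiff⟩
  intro h3
  have hcard : B.card = 6 := by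
    have he : B = T ∪ T.image (fun x => x⁻¹) := by
      ext x
      rw [hiff x, Finset.mem_union, Finset.mem_image]
      constructor
      · rintro (h | h)
        · exact Or.inl h
        · exact Or.inr ⟨x⁻¹, h, inv_inv x⟩
      · rintro (h | ⟨y, hy, rfl⟩)
        · exact Or.inl h
        · right; rw [inv_inv]; exact hy
    have hd : Disjoint T (T.image (fun x => x⁻¹)) := by
      rw [Finset.disjoint_left]
      intro x hx hx'
      obtain ⟨y, hy, rfl⟩ := Finset.mem_image.1 hx'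
      exact hinv y hy hx
    rw [he, Finset.card_union_of_disjoint hd, Finset.card_image_of_injective _ inv_injective, h3]
  obtain ⟨h, hh, φ, hφ, hφ'⟩ := hB.six hcard
  obtain ⟨β, hβ⟩ := fun_of_hom _ φ
  rcases (hiff h).1 hh with hhT | hhT
  · refine ⟨h, hhT, β, fun y => (hβ ⟨h, Subgroup.subset_closure hh⟩ y).1 hφ, ?_⟩
    intro z hz hzh y
    have hzB : z ∈ B := hTB hz
    refine (hβ ⟨z, Subgroup.subset_closure hzB⟩ y).2 (hφ' z hzB hzh ?_)
    rintro rfl
    exact hinv _ hhT hz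
  · have hhB : h⁻¹ ∈ B := hTB hhT
    have hφi : φ ⟨h⁻¹, Subgroup.subset_closure hhB⟩ ≠ 1 := by
      have h5 : (⟨h⁻¹, Subgroup.subset_closure hhB⟩ : Subgroup.closure (B : Set Γ)) =
          (⟨h, Subgroup.subset_closure hh⟩ : Subgroup.closure (B : Set Γ))⁻¹ := rfl
      rw [h5, map_inv]
      intro h6
      exact hφ (inv_eq_one.1 h6)
    refine ⟨h⁻¹, hhT, β, fun y => (hβ ⟨h⁻¹, Subgroup.subset_closure hhB⟩ y).1 hφi, ?_⟩
    intro z hz hzh y
    have hzB : z ∈ B := hTB hz
    refine (hβ ⟨z, Subgroup.subset_closure hzB⟩ y).2 (hφ' z hzB ?_ hzh)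
    rintro rfl
    exact hinv _ hhT (by rw [inv_inv]; exact hz)

end Pool.Agent.MP1822N
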