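import Pool.Agent.Lib.MP_1822da_lc.NB.Defs

/-!
# Bounded 2-factors, first case (section 3 of NB1822.md, LEMMA E0)

PROOF of E0: `c = a⁻¹ * b⁻¹ * a * b` has finite order, `κ = α`. Let `w ∈ Om`, `β w = α w = false`. The alternating
path is `w → b*w → a*b*w → b⁻¹*a*b*w → a⁻¹*b⁻¹*a*b*w = c*w` and `β`, `α` have the same values at `c*w` and `w`.
So the set of all `c^n*y, b*c^n*y, a*b*c^n*y, b⁻¹*a*b*c^n*y` is closed under both involutions; every point of `Om`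
is in such a set.
-/

namespace Pool.Agent.MP1822N

open Set MeasureTheory Pointwise
open Pool.Agent.Lib.MP_1822da_lc Pool.Agent.MP1822T Pool.Agent.MP1822C

universe u v

variable {Γ : Type u} [Group Γ]


/-- Bounded 2-factors for the pair `a, b`, local form. -/
def EE (a b : Γ) : Prop :=
  ∀ (Om : Set Γ) (β : Γ → Bool), (∀ y, a * y ∈ Om ↔ y ∈ Om) → (∀ y, b * y ∈ Om ↔ y ∈ Om) →
    (∀ y ∈ Om, β (b * y) = !(β y)) → (∀ y ∈ Om, β (a * y) = β y) →
    ∃ κ : Γ → Bool, (∀ y ∈ Om, κ (a * y) = !(κ y)) ∧ ∃ B : Finset Γ, ∀ y ∈ Om, ∀ y',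
      Relation.ReflTransGen (TS a b κ β) y y' → y' * y⁻¹ ∈ B

theorem E0 {a b : Γ} (hc : IsOfFinOrder (a⁻¹ * b⁻¹ * a * b)) {α : Γ → Bool}
    (hαa : ∀ y, α (a * y) = !(α y)) (hαb : ∀ y, α (b * y) = α y) : EE a b := by
  intro Om β haO hbO hβb hβa
  classical
  refine ⟨α, fun y _ => hαa y, ?_⟩
  set c : Γ := a⁻¹ * b⁻¹ * a * b with hcd
  -- inverses
  have haO' : ∀ y, a⁻¹ * y ∈ Om ↔ y ∈ Om := fun y => by rw [← haO (a⁻¹ * y), mul_inv_cancel_left]
  have hbO' : ∀ y, b⁻¹ * y ∈ Om ↔ y ∈ Om := fun y => by rw [← hbO (b⁻¹ * y), mul_inv_cancel_left]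
  have hβb' : ∀ y ∈ Om, β (b⁻¹ * y) = !(β y) := fun y hy => by
    have h1 := hβb (b⁻¹ * y) ((hbO' y).2 hy)
    rw [mul_inv_cancel_left] at h1
    rw [h1, Bool.not_not]
  have hβa' : ∀ y ∈ Om, β (a⁻¹ * y) = β y := fun y hy => by
    have h1 := hβa (a⁻¹ * y) ((haO' y).2 hy)
    rw [mul_inv_cancel_left] at h1
    exact h1.symm
  have hαa' : ∀ y, α (a⁻¹ * y) = !(α y) := fun y => by
    have h1 := hαa (a⁻¹ * y)
    rw [mul_inv_cancel_left] at h1
    rw [h1, Bool.not_not]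
  have hαb' : ∀ y, α (b⁻¹ * y) = α y := fun y => by
    have h1 := hαb (b⁻¹ * y)
    rw [mul_inv_cancel_left] at h1
    exact h1.symm
  -- the base points of a component
  let Q : Γ → Γ → Prop := fun y1 w => w ∈ Om ∧ β w = false ∧ α w = false ∧ w * y1⁻¹ ∈ Subgroup.zpowers c
  have hcw : ∀ w, c * w = a⁻¹ * (b⁻¹ * (a * (b * w))) := fun w => by rw [hcd]; group
  have hcw' : ∀ w, c⁻¹ * w = b⁻¹ * (a⁻¹ * (b * (a * w))) := fun w => by rw [hcd]; group
  have hQ1 : ∀ y1 w, Q y1 w → Q y1 (c * w) := by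
    rintro y1 w ⟨h1, h2, h3, h4⟩
    refine ⟨?_, ?_, ?_, ?_⟩
    · rw [hcw, haO', hbO', haO, hbO]; exact h1
    · rw [hcw, hβa' _ (by rw [hbO', haO, hbO]; exact h1), hβb' _ (by rw [haO, hbO]; exact h1),
        hβa _ (by rw [hbO]; exact h1), hβb _ h1, h2]
      rfl
    · rw [hcw, hαa', hαb', hαa, hαb, h3]
      rfl
    · rw [mul_assoc]
      exact mul_mem (Subgroup.mem_zpowers c) h4
  have hQ2 : ∀ y1 w, Q y1 w → Q y1 (c⁻¹ * w) := by
    rintro y1 w ⟨h1, h2, h3, h4⟩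
    refine ⟨?_, ?_, ?_, ?_⟩
    · rw [hcw', hbO', haO', hbO, haO]; exact h1
    · rw [hcw', hβb' _ (by rw [haO', hbO, haO]; exact h1), hβa' _ (by rw [hbO, haO]; exact h1),
        hβb _ (by rw [haO]; exact h1), hβa _ h1, h2]
      rfl
    · rw [hcw', hαb', hαa', hαb, hαa, h3]
      rfl
    · rw [mul_assoc]
      exact mul_mem (inv_mem (Subgroup.mem_zpowers c)) h4
  let Z : Γ → Γ → Prop := fun y1 z => ∃ w, Q y1 w ∧
    (z = w ∨ z = b * w ∨ z = a * (b * w) ∨ z = b⁻¹ * (a * (b * w)))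
  have hZ : ∀ y1 z z', Z y1 z → TS a b α β z z' → Z y1 z' := by
    rintro y1 z z' ⟨w, hw, hz⟩ ht
    obtain ⟨h1, h2, h3, h4⟩ := hw
    have hbw : β (b * w) = true := by rw [hβb w h1, h2]; rfl
    have habw : β (a * (b * w)) = true := by rw [hβa _ (by rw [hbO]; exact h1), hbw]
    have hbabw : β (b⁻¹ * (a * (b * w))) = false := by
      rw [hβb' _ (by rw [haO, hbO]; exact h1), habw]; rfl
    have hbw' : α (b * w) = false := by rw [hαb, h3]
    have habw' : α (a * (b * w)) = true := by rw [hαa, hbw']; rfl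
    have hbabw' : α (b⁻¹ * (a * (b * w))) = true := by rw [hαb', habw']
    rcases hz with rfl | rfl | rfl | rfl
    · rcases ht with rfl | rfl
      · refine ⟨c⁻¹ * z, hQ2 y1 z ⟨h1, h2, h3, h4⟩, Or.inr (Or.inr (Or.inr ?_))⟩
        unfold sg
        rw [h3, hcd]
        simp only [Bool.false_eq_true, if_false, smul_eq_mul]
        group
      · refine ⟨z, ⟨h1, h2, h3, h4⟩, Or.inr (Or.inl ?_)⟩
        unfold sg
        rw [h2]
        simp only [Bool.false_eq_true, if_false, smul_eq_mul]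
    · rcases ht with rfl | rfl
      · refine ⟨w, ⟨h1, h2, h3, h4⟩, Or.inr (Or.inr (Or.inl ?_))⟩
        unfold sg
        rw [hbw']
        simp only [Bool.false_eq_true, if_false, smul_eq_mul]
      · refine ⟨w, ⟨h1, h2, h3, h4⟩, Or.inl ?_⟩
        unfold sg
        rw [hbw]
        simp only [if_true, smul_eq_mul, inv_mul_cancel_left]
    · rcases ht with rfl | rfl
      · refine ⟨w, ⟨h1, h2, h3, h4⟩, Or.inr (Or.inl ?_)⟩
        unfold sg
        rw [habw']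
        simp only [if_true, smul_eq_mul, inv_mul_cancel_left]
      · refine ⟨w, ⟨h1, h2, h3, h4⟩, Or.inr (Or.inr (Or.inr ?_))⟩
        unfold sg
        rw [habw]
        simp only [if_true, smul_eq_mul]
    · rcases ht with rfl | rfl
      · refine ⟨c * w, hQ1 y1 w ⟨h1, h2, h3, h4⟩, Or.inl ?_⟩
        unfold sg
        rw [hbabw', hcw]
        simp only [if_true, smul_eq_mul]
      · refine ⟨w, ⟨h1, h2, h3, h4⟩, Or.inr (Or.inr (Or.inl ?_))⟩
        unfold sg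
        rw [hbabw]
        simp only [Bool.false_eq_true, if_false, smul_eq_mul, mul_inv_cancel_left]
  have hR : ∀ y1 z z', Z y1 z → Relation.ReflTransGen (TS a b α β) z z' → Z y1 z' := by
    intro y1 z z' hz hr
    induction hr with
    | refl => exact hz
    | tail _ h1 ih => exact hZ y1 _ _ ih h1
  have hfin : ((Subgroup.zpowers c : Subgroup Γ) : Set Γ).Finite := finite_zpowers.2 hc
  have hB : (({1, b, a * b, b⁻¹ * a * b} : Set Γ) * ((Subgroup.zpowers c : Subgroup Γ) : Set Γ) *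
      ({1, a⁻¹, b⁻¹, b⁻¹ * a⁻¹} : Set Γ)).Finite :=
    ((by simp : ({1, b, a * b, b⁻¹ * a * b} : Set Γ).Finite).mul hfin).mul (by simp)
  refine ⟨hB.toFinset, fun y hy y' hr => ?_⟩
  rw [Set.Finite.mem_toFinset]
  -- the base point
  obtain ⟨g, hg, hgO, hgβ, hgα, hgZ⟩ : ∃ g ∈ ({1, a⁻¹, b⁻¹, b⁻¹ * a⁻¹} : Set Γ), g * y ∈ Om ∧ β (g * y) = false ∧
      α (g * y) = false ∧ Z (g * y) y := by
    have hQ0 : ∀ y1, y1 ∈ Om → β y1 = false → α y1 = false → Q y1 y1 := fun y1 h1 h2 h3 =>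
      ⟨h1, h2, h3, by rw [mul_inv_cancel]; exact one_mem _⟩
    rcases hβ : β y with _ | _ <;> rcases hα : α y with _ | _
    · refine ⟨1, by simp, by rw [one_mul]; exact hy, by rw [one_mul]; exact hβ, by rw [one_mul]; exact hα, ?_⟩
      rw [one_mul]
      exact ⟨y, hQ0 y hy hβ hα, Or.inl rfl⟩
    · have h1 : a⁻¹ * y ∈ Om := (haO' y).2 hy
      have h2 : β (a⁻¹ * y) = false := by rw [hβa' y hy, hβ]
      have h3 : α (a⁻¹ * y) = false := by rw [hαa', hα]; rfl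
      refine ⟨a⁻¹, by simp, h1, h2, h3, c⁻¹ * (a⁻¹ * y), hQ2 _ _ (hQ0 _ h1 h2 h3), Or.inr (Or.inr (Or.inr ?_))⟩
      rw [hcd]
      group
    · have h1 : b⁻¹ * y ∈ Om := (hbO' y).2 hy
      have h2 : β (b⁻¹ * y) = false := by rw [hβb' y hy, hβ]; rfl
      have h3 : α (b⁻¹ * y) = false := by rw [hαb', hα]
      refine ⟨b⁻¹, by simp, h1, h2, h3, b⁻¹ * y, hQ0 _ h1 h2 h3, Or.inr (Or.inl ?_)⟩
      rw [mul_inv_cancel_left]
    · have h1 : b⁻¹ * a⁻¹ * y ∈ Om := by rw [mul_assoc, hbO', haO']; exact hy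
      have h2 : β (b⁻¹ * a⁻¹ * y) = false := by
        rw [mul_assoc, hβb' _ ((haO' y).2 hy), hβa' y hy, hβ]; rfl
      have h3 : α (b⁻¹ * a⁻¹ * y) = false := by rw [mul_assoc, hαb', hαa', hα]; rfl
      refine ⟨b⁻¹ * a⁻¹, by simp, h1, h2, h3, b⁻¹ * a⁻¹ * y, hQ0 _ h1 h2 h3, Or.inr (Or.inr (Or.inl ?_))⟩
      group
  obtain ⟨w, ⟨-, -, -, h4⟩, h5⟩ := hR _ _ _ hgZ hr
  have h6 : ∃ p ∈ ({1, b, a * b, b⁻¹ * a * b} : Set Γ), y' = p * w := by
    rcases h5 with rfl | rfl | rfl | rfl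
    · exact ⟨1, by simp, by rw [one_mul]⟩
    · exact ⟨b, by simp, rfl⟩
    · exact ⟨a * b, by simp, by rw [mul_assoc]⟩
    · exact ⟨b⁻¹ * a * b, by simp, by group⟩
  obtain ⟨p, hp, rfl⟩ := h6
  have h7 : p * w * y⁻¹ = p * (w * (g * y)⁻¹) * g := by group
  rw [h7]
  exact mul_mem_mul (mul_mem_mul hp h4) hg

end Pool.Agent.MP1822N
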