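import Pool.Agent.Lib.MP_1822da_lc.NB.B1a
import Pool.Agent.Lib.MP_1822da_lc.NB.A2b

/-!
# Bounded 2-factors, induction (section 3 of NB1822.md)

PROOF.
(E1) `a' = b⁻¹*a*b`. Given `Om`, `β` let `Om0 = {y ∈ Om | β y = false}`, invariant under `a` and `a'`
(`β (b⁻¹*z) = !(β z)` on `Om`); take `κ0`, `B0` from `EE a a'` for `Om0`, `β'`. Put `κ y = κ0 y` if `β y = false` and
`κ y = β' (b⁻¹*y)` if `β y = true`. Then `κ (a*y) = !(κ y)` as `b⁻¹*(a*y) = a'*(b⁻¹*y)`. With
`π y = y` (`β y = false`), `π y = b⁻¹*y` (`β y = true`): `π (sg b β y) = π y`; `π (sg a κ y) = sg a κ0 (π y)`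
if `β y = false`, `= sg a' β' (π y)` if `β y = true`. So `TS a b κ β` is mapped to equality or
`TS a a' κ0 β'`, and `y' * y⁻¹ ∈ {1, b} * B0 * {1, b⁻¹}`.
(two_factor) induction on `n`: for all `b` with `closure {a, b}` nilpotent, a function `α` for `(a, b)` as in E0 and
`IsOfFinOrder (a⁻¹ * b_n⁻¹ * a * b_n)` (`b_0 = b`, `b_(i+1) = b_i⁻¹*a*b_i`): `EE a b`. If
`a⁻¹*b⁻¹*a*b` has finite order: E0. Otherwise (so `n ≥ 1`) `fun2` gives `β'` and a function `α'` for
`(a, a')`; `closure {a, a'} ≤ closure {a, b}` is nilpotent, induction for `a' = b_1` and E1.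
Such an `n` exists: `a⁻¹*b_i⁻¹*a*b_i` is in the `(i+1)`-st term of the lower central series of
`closure {a, b}`: `b_(i+1) = a * (a⁻¹*b_i⁻¹*a*b_i)`, so `a⁻¹*b_(i+1)⁻¹*a*b_(i+1)` is a conjugate of a commutator of
`a` and `a⁻¹*b_i⁻¹*a*b_i`. Finally `Om = univ`.
-/

namespace Pool.Agent.MP1822N

open Set MeasureTheory Pointwise
open Pool.Agent.Lib.MP_1822da_lc Pool.Agent.MP1822T Pool.Agent.MP1822C

universe u v

variable {Γ : Type u} [Group Γ]


theorem E1 {a b : Γ} {β' : Γ → Bool} (h1 : ∀ y, β' (b⁻¹ * a * b * y) = !(β' y))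
    (h2 : ∀ y, β' (a * y) = β' y) (hE : EE a (b⁻¹ * a * b)) : EE a b := by
  classical
  intro Om β hOa hOb hβb hβa
  -- inverse letters
  have hOa' : ∀ y, a⁻¹ * y ∈ Om ↔ y ∈ Om := fun y => by
    have h := hOa (a⁻¹ * y)
    rw [mul_inv_cancel_left] at h
    exact h.symm
  have hOb' : ∀ y, b⁻¹ * y ∈ Om ↔ y ∈ Om := fun y => by
    have h := hOb (b⁻¹ * y)
    rw [mul_inv_cancel_left] at h
    exact h.symm
  have hβb' : ∀ y ∈ Om, β (b⁻¹ * y) = !(β y) := fun y hy => by
    have h := hβb _ ((hOb' y).mpr hy)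
    rw [mul_inv_cancel_left] at h
    rw [h, Bool.not_not]
  have hβa' : ∀ y ∈ Om, β (a⁻¹ * y) = β y := fun y hy => by
    have h := hβa _ ((hOa' y).mpr hy)
    rw [mul_inv_cancel_left] at h
    exact h.symm
  have hβ'a' : ∀ y, β' (a⁻¹ * y) = β' y := fun y => by
    have h := h2 (a⁻¹ * y)
    rw [mul_inv_cancel_left] at h
    exact h.symm
  obtain ⟨κ0, hκ0, B0, hB0⟩ := hE {y | y ∈ Om ∧ β y = false} β' (by
      intro y
      constructor
      · rintro ⟨k1, k2⟩
        have k3 := (hOa y).mp k1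
        exact ⟨k3, by rw [← hβa y k3]; exact k2⟩
      · rintro ⟨k1, k2⟩
        exact ⟨(hOa y).mpr k1, by rw [hβa y k1]; exact k2⟩) (by
      intro y
      have e1 : b⁻¹ * a * b * y = b⁻¹ * (a * (b * y)) := by group
      have k0 : b⁻¹ * a * b * y ∈ Om ↔ y ∈ Om := by
        rw [e1, hOb', hOa, hOb]
      have k1 : y ∈ Om → β (b⁻¹ * a * b * y) = β y := fun hy => by
        have hb := (hOb y).mpr hy
        rw [e1, hβb' _ ((hOa _).mpr hb), hβa _ hb, hβb y hy, Bool.not_not]
      constructor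
      · rintro ⟨k2, k3⟩
        have k4 := k0.mp k2
        exact ⟨k4, by rw [← k1 k4]; exact k3⟩
      · rintro ⟨k2, k3⟩
        exact ⟨k0.mpr k2, by rw [k1 k2]; exact k3⟩) (fun y _ => h1 y) (fun y _ => h2 y)
  set κ : Γ → Bool := fun y => if β y then β' (b⁻¹ * y) else κ0 y with hκ
  set π : Γ → Γ := fun y => if β y then b⁻¹ * y else y with hπ
  have hconj : ∀ y, b⁻¹ * (a * y) = b⁻¹ * a * b * (b⁻¹ * y) := fun y => by group
  have hconj' : ∀ y, b⁻¹ * (a⁻¹ * y) = (b⁻¹ * a * b)⁻¹ * (b⁻¹ * y) := fun y => by group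
  have hπO : ∀ y ∈ Om, π y ∈ {y | y ∈ Om ∧ β y = false} := by
    intro y hy
    rw [hπ]
    by_cases hb : β y = true
    · simp only [hb, if_true]
      exact ⟨(hOb' y).mpr hy, by rw [hβb' y hy, hb]; rfl⟩
    · have hb' : β y = false := by simpa using hb
      simp only [hb']
      exact ⟨hy, hb'⟩
  refine ⟨κ, ?_, ?_⟩
  · intro y hy
    by_cases hb : β y = true
    · have hb2 : β (a * y) = true := by rw [hβa y hy, hb]
      rw [hκ]
      simp only [hb, hb2, if_true]
      rw [hconj, h1]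
    · have hb' : β y = false := by simpa using hb
      have hb2 : β (a * y) = false := by rw [hβa y hy, hb']
      rw [hκ]
      simp only [hb', hb2]
      exact hκ0 y ⟨hy, hb'⟩
  -- one step
  have hstep : ∀ y ∈ Om, ∀ y', TS a b κ β y y' → y' ∈ Om ∧
      Relation.ReflTransGen (TS a (b⁻¹ * a * b) κ0 β') (π y) (π y') := by
    intro y hy y' ht
    rcases ht with ht | ht
    · -- along `a`
      by_cases hb : β y = true
      · have hκy : κ y = β' (b⁻¹ * y) := by rw [hκ]; simp only [hb, if_true]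
        have hπy : π y = b⁻¹ * y := by rw [hπ]; simp only [hb, if_true]
        unfold sg at ht
        by_cases hk : κ y = true
        · rw [hk, if_pos rfl, smul_eq_mul] at ht
          have hyO : y' ∈ Om := by rw [ht]; exact (hOa' y).mpr hy
          have hby : β y' = true := by rw [ht, hβa' y hy, hb]
          refine ⟨hyO, Relation.ReflTransGen.single (Or.inr ?_)⟩
          have hπy' : π y' = b⁻¹ * y' := by rw [hπ]; simp only [hby, if_true]
          unfold sg
          rw [hπy, hπy', ← hκy, hk, if_pos rfl, smul_eq_mul, ht, hconj']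
        · have hk' : κ y = false := by simpa using hk
          rw [hk', if_neg (by simp), smul_eq_mul] at ht
          have hyO : y' ∈ Om := by rw [ht]; exact (hOa y).mpr hy
          have hby : β y' = true := by rw [ht, hβa y hy, hb]
          refine ⟨hyO, Relation.ReflTransGen.single (Or.inr ?_)⟩
          have hπy' : π y' = b⁻¹ * y' := by rw [hπ]; simp only [hby, if_true]
          unfold sg
          rw [hπy, hπy', ← hκy, hk', if_neg (by simp), smul_eq_mul, ht, hconj]
      · have hb' : β y = false := by simpa using hb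
        have hκy : κ y = κ0 y := by rw [hκ]; simp [hb']
        have hπy : π y = y := by rw [hπ]; simp [hb']
        unfold sg at ht
        by_cases hk : κ y = true
        · rw [hk, if_pos rfl, smul_eq_mul] at ht
          have hyO : y' ∈ Om := by rw [ht]; exact (hOa' y).mpr hy
          have hby : β y' = false := by rw [ht, hβa' y hy, hb']
          refine ⟨hyO, Relation.ReflTransGen.single (Or.inl ?_)⟩
          have hπy' : π y' = y' := by rw [hπ]; simp [hby]
          unfold sg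
          rw [hπy, hπy', ← hκy, hk, if_pos rfl, smul_eq_mul, ht]
        · have hk' : κ y = false := by simpa using hk
          rw [hk', if_neg (by simp), smul_eq_mul] at ht
          have hyO : y' ∈ Om := by rw [ht]; exact (hOa y).mpr hy
          have hby : β y' = false := by rw [ht, hβa y hy, hb']
          refine ⟨hyO, Relation.ReflTransGen.single (Or.inl ?_)⟩
          have hπy' : π y' = y' := by rw [hπ]; simp [hby]
          unfold sg
          rw [hπy, hπy', ← hκy, hk', if_neg (by simp), smul_eq_mul, ht]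
    · -- along `b`
      unfold sg at ht
      by_cases hb : β y = true
      · have hπy : π y = b⁻¹ * y := by rw [hπ]; simp only [hb, if_true]
        rw [hb, if_pos rfl, smul_eq_mul] at ht
        have hyO : y' ∈ Om := by rw [ht]; exact (hOb' y).mpr hy
        have hby : β y' = false := by rw [ht, hβb' y hy, hb]; rfl
        have hπy' : π y' = y' := by rw [hπ]; simp [hby]
        exact ⟨hyO, by rw [hπy, hπy', ht]⟩
      · have hb' : β y = false := by simpa using hb
        have hπy : π y = y := by rw [hπ]; simp [hb']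
        rw [hb', if_neg (by simp), smul_eq_mul] at ht
        have hyO : y' ∈ Om := by rw [ht]; exact (hOb y).mpr hy
        have hby : β y' = true := by rw [ht, hβb y hy, hb']; rfl
        have hπy' : π y' = b⁻¹ * y' := by rw [hπ]; simp only [hby, if_true]
        exact ⟨hyO, by rw [hπy, hπy', ht, inv_mul_cancel_left]⟩
  have hpath : ∀ y ∈ Om, ∀ y', Relation.ReflTransGen (TS a b κ β) y y' → y' ∈ Om ∧
      Relation.ReflTransGen (TS a (b⁻¹ * a * b) κ0 β') (π y) (π y') := by
    intro y hy y' ht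
    induction ht with
    | refl => exact ⟨hy, Relation.ReflTransGen.refl⟩
    | tail _ hl ih =>
      obtain ⟨i1, i2⟩ := ih
      obtain ⟨j1, j2⟩ := hstep _ i1 _ hl
      exact ⟨j1, i2.trans j2⟩
  refine ⟨((({1, b} : Finset Γ) ×ˢ B0) ×ˢ ({1, b⁻¹} : Finset Γ)).image (fun t => t.1.1 * t.1.2 * t.2),
    fun y hy y' ht => ?_⟩
  obtain ⟨-, k2⟩ := hpath y hy y' ht
  have k3 := hB0 _ (hπO y hy) _ k2
  have hq : ∀ z : Γ, ∃ q ∈ ({1, b} : Finset Γ), z = q * π z := by
    intro z
    by_cases hb : β z = true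
    · refine ⟨b, by simp, ?_⟩
      rw [hπ]
      simp only [hb, if_true]
      rw [mul_inv_cancel_left]
    · have hb' : β z = false := by simpa using hb
      refine ⟨1, by simp, ?_⟩
      rw [hπ]
      simp [hb']
  obtain ⟨q, hq1, hq2⟩ := hq y
  obtain ⟨q', hq1', hq2'⟩ := hq y'
  rw [Finset.mem_image]
  refine ⟨((q', π y' * (π y)⁻¹), q⁻¹), ?_, ?_⟩
  · rw [Finset.mem_product, Finset.mem_product]
    refine ⟨⟨hq1', k3⟩, ?_⟩
    rw [Finset.mem_insert, Finset.mem_singleton] at hq1 ⊢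
    rcases hq1 with h | h
    · left
      rw [h, inv_one]
    · right
      rw [h]
  · show q' * (π y' * (π y)⁻¹) * q⁻¹ = y' * y⁻¹
    calc q' * (π y' * (π y)⁻¹) * q⁻¹ = (q' * π y') * (q * π y)⁻¹ := by group
      _ = y' * y⁻¹ := by rw [← hq2', ← hq2]

private theorem b1b_nil {a b b' : Γ} (hnil : Group.IsNilpotent (Subgroup.closure {a, b}))
    (hb : b' ∈ Subgroup.closure {a, b}) : Group.IsNilpotent (Subgroup.closure {a, b'}) := by
  have hle : Subgroup.closure {a, b'} ≤ Subgroup.closure {a, b} := by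
    rw [Subgroup.closure_le]
    rintro x (hx | hx)
    · rw [hx]
      exact Subgroup.subset_closure (by simp)
    · rw [mem_singleton_iff] at hx
      rw [hx]
      exact hb
  have h1 : Group.IsNilpotent ((Subgroup.closure {a, b'}).subgroupOf (Subgroup.closure {a, b})) :=
    Subgroup.isNilpotent _
  exact Group.nilpotent_of_mulEquiv (Subgroup.subgroupOfEquivOfLe hle)

/-- the iterated commutators become trivial -/
private theorem b1b_iter {a b : Γ} (hnil : Group.IsNilpotent (Subgroup.closure {a, b})) :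
    ∃ n : ℕ, IsOfFinOrder (a⁻¹ * ((fun x : Γ => x⁻¹ * a * x)^[n] b)⁻¹ * a * (fun x : Γ => x⁻¹ * a * x)^[n] b) := by
  obtain ⟨k, hk⟩ := (Subgroup.isNilpotent_iff_lowerCentralSeries _).mp hnil
  have ha : a ∈ Subgroup.closure {a, b} := Subgroup.subset_closure (by simp)
  have hb : b ∈ Subgroup.closure {a, b} := Subgroup.subset_closure (by simp)
  have key : ∀ i : ℕ, a⁻¹ * ((fun x : Γ => x⁻¹ * a * x)^[i] b)⁻¹ * a * (fun x : Γ => x⁻¹ * a * x)^[i] b ∈
      (Subgroup.closure {a, b}).lowerCentralSeries i := by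
    intro i
    induction i with
    | zero =>
      exact Subgroup.mul_mem _ (Subgroup.mul_mem _ (Subgroup.mul_mem _ (Subgroup.inv_mem _ ha)
        (Subgroup.inv_mem _ hb)) ha) hb
    | succ i ih =>
      rw [Function.iterate_succ_apply', Subgroup.lowerCentralSeries_succ]
      set x := (fun x : Γ => x⁻¹ * a * x)^[i] b with hx
      have h1 := Subgroup.inv_mem _ (Subgroup.commutator_mem_commutator (Subgroup.inv_mem _ ih)
        (Subgroup.inv_mem _ ha))
      rw [commutatorElement_inv, commutatorElement_def] at h1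
      have e1 : a⁻¹ * (x⁻¹ * a * x)⁻¹ * a * (x⁻¹ * a * x) =
          a⁻¹ * (a⁻¹ * x⁻¹ * a * x)⁻¹ * a⁻¹⁻¹ * (a⁻¹ * x⁻¹ * a * x)⁻¹⁻¹ := by
        group
      show a⁻¹ * (x⁻¹ * a * x)⁻¹ * a * (x⁻¹ * a * x) ∈ _
      rw [e1]
      exact h1
  refine ⟨k, ?_⟩
  have h := key k
  rw [hk, Subgroup.mem_bot] at h
  rw [h]
  exact IsOfFinOrder.one

private theorem b1b_EE {a : Γ} (ha : ¬ IsOfFinOrder a) (n : ℕ) : ∀ b : Γ,
    Group.IsNilpotent (Subgroup.closure {a, b}) →
    (∃ α : Γ → Bool, (∀ y, α (a * y) = !(α y)) ∧ ∀ y, α (b * y) = α y) →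
    IsOfFinOrder (a⁻¹ * ((fun x : Γ => x⁻¹ * a * x)^[n] b)⁻¹ * a * (fun x : Γ => x⁻¹ * a * x)^[n] b) →
    EE a b := by
  induction n with
  | zero =>
    rintro b _ ⟨α, hα1, hα2⟩ hf
    exact E0 hf hα1 hα2
  | succ n ih =>
    rintro b hnil ⟨α, hα1, hα2⟩ hf
    by_cases hc : IsOfFinOrder (a⁻¹ * b⁻¹ * a * b)
    · exact E0 hc hα1 hα2
    · obtain ⟨⟨β', hβ1, hβ2⟩, hα'⟩ := fun2 hnil ha hc
      have ham : a ∈ Subgroup.closure {a, b} := Subgroup.subset_closure (by simp)
      have hbm : b ∈ Subgroup.closure {a, b} := Subgroup.subset_closure (by simp)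
      have hb' : b⁻¹ * a * b ∈ Subgroup.closure {a, b} :=
        Subgroup.mul_mem _ (Subgroup.mul_mem _ (Subgroup.inv_mem _ hbm) ham) hbm
      rw [Function.iterate_succ_apply] at hf
      exact E1 hβ1 hβ2 (ih _ (b1b_nil hnil hb') hα' hf)

/-- **Bounded 2-factors.** -/
theorem two_factor {a b : Γ} (hnil : Group.IsNilpotent (Subgroup.closure {a, b}))
    (ha : ¬ IsOfFinOrder a) {β α : Γ → Bool} (hβb : ∀ y, β (b * y) = !(β y))
    (hβa : ∀ y, β (a * y) = β y) (hαa : ∀ y, α (a * y) = !(α y)) (hαb : ∀ y, α (b * y) = α y) :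
    ∃ κ : Γ → Bool, (∀ y, κ (a * y) = !(κ y)) ∧
      ∃ B : Finset Γ, ∀ y y', Relation.ReflTransGen (TS a b κ β) y y' → y' * y⁻¹ ∈ B := by
  obtain ⟨n, hn⟩ := b1b_iter hnil
  obtain ⟨κ, h1, B, h2⟩ := b1b_EE ha n b hnil ⟨α, hαa, hαb⟩ hn univ β (fun y => by simp) (fun y => by simp)
    (fun y _ => hβb y) (fun y _ => hβa y)
  exact ⟨κ, fun y => h1 y (mem_univ y), B, fun y y' => h2 y (mem_univ y) y'⟩

end Pool.Agent.MP1822N
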