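import Pool.Agent.Lib.MP_1822da_lc.NB.Defs

/-!
# Null flows and path systems (section 4 of NB1822.md)

`dv F y` is the net flow out of `y` for the flow `F` (`F y s` = flow from `y` to `gen a b s * y`).
A path system for `v` on `Om`: flows `P y`, `y ∈ Om`, near `y`, from `y` to `v * y`.
`Phi P φ = Σ_(y ∈ Om) φ y • P y`.

PROOFS. tot_eq: `∑ β ∈ B, g (β⁻¹ * y)` with `g c ≠ 0 → y * c⁻¹ ∈ B`: extra elements of `B'` contribute `0`
(`β⁻¹ * y = c`, `y * c⁻¹ = β`).
NullF.add: `B ∪ B'`, `f + f'`, `K + K'`. NullF.smul: `r • f`.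
Phi_diff: `f c = φ c • (P c - P' c)` for `c ∈ Om`, `0` otherwise; `B ∪ B'`.
PathS.comp: `P' y` goes from `y` to `v' * y`, `P (v' * y)` from `v' * y` to `v * v' * y`; support of the second in
`B * v' * y`. PathS.inv: `- P (v⁻¹ * y)` goes from `y` to `v⁻¹ * y`.
Phi_comp: reindexing `c ↦ v' * c` in the second sum.
-/

namespace Pool.Agent.MP1822N

open Set MeasureTheory Pointwise
open Pool.Agent.Lib.MP_1822da_lc Pool.Agent.MP1822T Pool.Agent.MP1822C

universe u v

variable {Γ : Type u} [Group Γ]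


/-- net flow out of `y` -/
noncomputable def dv (a b : Γ) (F : Γ → Bool → ℝ) (y : Γ) : ℝ :=
  ∑ s : Bool, (F y s - F ((gen a b s)⁻¹ * y) s)

/-- null flows -/
def NullF (a b : Γ) (R : Γ → Bool → Prop) (F : Γ → Bool → ℝ) : Prop :=
  ∃ (B : Finset Γ) (f : Γ → Γ → Bool → ℝ) (K : ℝ), (∀ β ∈ B, β ∈ Subgroup.closure {a, b}) ∧
    (∀ c y s, f c y s ≠ 0 → y * c⁻¹ ∈ B) ∧
    (∀ c y s, f c y s ≠ 0 → R y s) ∧ (∀ c y, dv a b (f c) y = 0) ∧
    (∀ c y s, |f c y s| ≤ K) ∧ ∀ y s, F y s = tot B f univ y s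

open Classical in
/-- a path system for `v` on `Om` -/
structure PathS (a b : Γ) (R : Γ → Bool → Prop) (Om : Set Γ) (v : Γ) (B : Finset Γ) (K : ℝ)
    (P : Γ → Γ → Bool → ℝ) : Prop where
  vcl : v ∈ Subgroup.closure {a, b}
  cl : ∀ β ∈ B, β ∈ Subgroup.closure {a, b}
  inv : ∀ y, v * y ∈ Om ↔ y ∈ Om
  supp : ∀ y ∈ Om, ∀ z s, P y z s ≠ 0 → z * y⁻¹ ∈ B
  mem : ∀ y ∈ Om, ∀ z s, P y z s ≠ 0 → R z s
  bd : ∀ y ∈ Om, ∀ z s, |P y z s| ≤ K
  div : ∀ y ∈ Om, ∀ z, dv a b (P y) z = (if z = y then 1 else 0) - (if z = v * y then 1 else 0)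

open Classical in
/-- the sum of `φ y • P y` over `y ∈ Om` -/
noncomputable def Phi (B : Finset Γ) (Om : Set Γ) (P : Γ → Γ → Bool → ℝ) (φ : Γ → ℝ)
    (z : Γ) (s : Bool) : ℝ :=
  ∑ β ∈ B, if β⁻¹ * z ∈ Om then φ (β⁻¹ * z) * P (β⁻¹ * z) z s else 0

theorem sum_eq_of_supp {B B' : Finset Γ} (hBB : B ⊆ B') {g : Γ → ℝ} {y : Γ}
    (hg : ∀ c, g c ≠ 0 → y * c⁻¹ ∈ B) :
    ∑ β ∈ B', g (β⁻¹ * y) = ∑ β ∈ B, g (β⁻¹ * y) := by
  refine (Finset.sum_subset hBB fun β _ hβ => ?_).symm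
  by_contra h
  apply hβ
  have h1 := hg _ h
  rwa [mul_inv_rev, inv_inv, mul_inv_cancel_left] at h1

private theorem tot_univ_ext {B B' : Finset Γ} (hBB : B ⊆ B') {f : Γ → Γ → Bool → ℝ}
    (hf : ∀ c y s, f c y s ≠ 0 → y * c⁻¹ ∈ B) (y : Γ) (s : Bool) :
    tot B' f univ y s = tot B f univ y s := by
  unfold tot
  simp only [indicator_univ]
  exact sum_eq_of_supp hBB (g := fun c => f c y s) fun c hc => hf c y s hc

private theorem dv_add (a b : Γ) (F F' : Γ → Bool → ℝ) (y : Γ) :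
    dv a b (fun z s => F z s + F' z s) y = dv a b F y + dv a b F' y := by
  unfold dv
  simp only [Fintype.sum_bool]
  ring

private theorem dv_smul (a b : Γ) (r : ℝ) (F : Γ → Bool → ℝ) (y : Γ) :
    dv a b (fun z s => r * F z s) y = r * dv a b F y := by
  unfold dv
  simp only [Fintype.sum_bool]
  ring

private theorem tot_univ_add (B : Finset Γ) (f f' : Γ → Γ → Bool → ℝ) (y : Γ) (s : Bool) :
    tot B (fun c y s => f c y s + f' c y s) univ y s = tot B f univ y s + tot B f' univ y s := by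
  unfold tot
  simp only [indicator_univ]
  exact Finset.sum_add_distrib

open Classical in
private theorem sum_ext_if {B B' : Finset Γ} (hBB : B ⊆ B') (Om : Set Γ) (φ P : Γ → ℝ) (z : Γ)
    (h : ∀ c ∈ Om, P c ≠ 0 → z * c⁻¹ ∈ B) :
    (∑ β ∈ B', if β⁻¹ * z ∈ Om then φ (β⁻¹ * z) * P (β⁻¹ * z) else 0) =
      ∑ β ∈ B, if β⁻¹ * z ∈ Om then φ (β⁻¹ * z) * P (β⁻¹ * z) else 0 := by
  refine sum_eq_of_supp (g := fun c => if c ∈ Om then φ c * P c else 0) (y := z) hBB fun c hc => ?_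
  simp only [ne_eq, ite_eq_right_iff, Classical.not_imp, mul_eq_zero, not_or] at hc
  exact h c hc.1 hc.2.2

theorem NullF.add {a b : Γ} {R : Γ → Bool → Prop} {F F' : Γ → Bool → ℝ} (h : NullF a b R F)
    (h' : NullF a b R F') : NullF a b R (fun y s => F y s + F' y s) := by
  classical
  obtain ⟨B, f, K, h1, h2, h3, h4, h5, h6⟩ := h
  obtain ⟨B', f', K', h1', h2', h3', h4', h5', h6'⟩ := h'
  refine ⟨B ∪ B', fun c y s => f c y s + f' c y s, K + K', ?_, ?_, ?_, ?_, ?_, ?_⟩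
  · intro β hβ
    rcases Finset.mem_union.1 hβ with hβ | hβ
    · exact h1 β hβ
    · exact h1' β hβ
  · intro c y s hn
    rw [Finset.mem_union]
    by_cases hf : f c y s = 0
    · right; exact h2' c y s fun hf' => hn (by beta_reduce; rw [hf, hf', add_zero])
    · left; exact h2 c y s hf
  · intro c y s hn
    by_cases hf : f c y s = 0
    · exact h3' c y s fun hf' => hn (by beta_reduce; rw [hf, hf', add_zero])
    · exact h3 c y s hf
  · intro c y
    rw [dv_add, h4, h4', add_zero]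
  · intro c y s
    exact (abs_add_le _ _).trans (add_le_add (h5 c y s) (h5' c y s))
  · intro y s
    beta_reduce
    rw [tot_univ_add, tot_univ_ext Finset.subset_union_left h2, tot_univ_ext Finset.subset_union_right h2',
      h6, h6']

theorem NullF.smul {a b : Γ} {R : Γ → Bool → Prop} {F : Γ → Bool → ℝ} (h : NullF a b R F)
    (r : ℝ) : NullF a b R (fun y s => r * F y s) := by
  obtain ⟨B, f, K, h1, h2, h3, h4, h5, h6⟩ := h
  refine ⟨B, fun c y s => r * f c y s, |r| * K, h1, ?_, ?_, ?_, ?_, ?_⟩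
  · intro c y s hn
    exact h2 c y s fun hf => hn (by beta_reduce; rw [hf, mul_zero])
  · intro c y s hn
    exact h3 c y s fun hf => hn (by beta_reduce; rw [hf, mul_zero])
  · intro c y
    rw [dv_smul, h4, mul_zero]
  · intro c y s
    rw [abs_mul]
    exact mul_le_mul_of_nonneg_left (h5 c y s) (abs_nonneg r)
  · intro y s
    beta_reduce
    rw [h6]
    unfold tot
    simp only [indicator_univ]
    exact Finset.mul_sum _ _ _

open Classical in
theorem Phi_diff {a b : Γ} {R : Γ → Bool → Prop} {Om : Set Γ} {v : Γ} {B B' : Finset Γ}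
    {K K' : ℝ} {P P' : Γ → Γ → Bool → ℝ} (hP : PathS a b R Om v B K P)
    (hP' : PathS a b R Om v B' K' P') {φ : Γ → ℝ} {Kφ : ℝ} (hφ : ∀ y ∈ Om, |φ y| ≤ Kφ) :
    NullF a b R (fun z s => Phi B Om P φ z s - Phi B' Om P' φ z s) := by
  have hK : ∀ y ∈ Om, 0 ≤ Kφ := fun y hy => (abs_nonneg _).trans (hφ y hy)
  refine ⟨B ∪ B', fun c z s => if c ∈ Om then φ c * (P c z s - P' c z s) else 0,
    max (Kφ * (K + K')) 0, ?_, ?_, ?_, ?_, ?_, ?_⟩
  · intro β hβ
    rcases Finset.mem_union.1 hβ with hβ | hβ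
    · exact hP.cl β hβ
    · exact hP'.cl β hβ
  · intro c z s hn
    simp only [ne_eq, ite_eq_right_iff, Classical.not_imp, mul_eq_zero, not_or] at hn
    obtain ⟨hc, -, hn⟩ := hn
    rw [Finset.mem_union]
    by_cases hf : P c z s = 0
    · right; exact hP'.supp c hc z s fun hf' => hn (by beta_reduce; rw [hf, hf', sub_zero])
    · left; exact hP.supp c hc z s hf
  · intro c z s hn
    simp only [ne_eq, ite_eq_right_iff, Classical.not_imp, mul_eq_zero, not_or] at hn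
    obtain ⟨hc, -, hn⟩ := hn
    by_cases hf : P c z s = 0
    · exact hP'.mem c hc z s fun hf' => hn (by beta_reduce; rw [hf, hf', sub_zero])
    · exact hP.mem c hc z s hf
  · intro c z
    by_cases hc : c ∈ Om
    · have h1 := hP.div c hc z
      have h2 := hP'.div c hc z
      unfold dv at h1 h2 ⊢
      simp only [if_pos hc, Fintype.sum_bool] at h1 h2 ⊢
      linear_combination φ c * h1 - φ c * h2
    · unfold dv
      simp [hc]
  · intro c z s
    by_cases hc : c ∈ Om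
    · simp only [if_pos hc]
      refine le_trans ?_ (le_max_left _ _)
      rw [abs_mul]
      refine mul_le_mul (hφ c hc) ?_ (abs_nonneg _) (hK c hc)
      exact (abs_sub _ _).trans (add_le_add (hP.bd c hc z s) (hP'.bd c hc z s))
    · simp only [if_neg hc, abs_zero]
      exact le_max_right _ _
  · intro z s
    unfold tot Phi
    simp only [indicator_univ]
    have h1 := sum_ext_if (Finset.subset_union_left (s₁ := B) (s₂ := B')) Om φ (fun c => P c z s) z
      fun c hc hn => hP.supp c hc z s hn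
    have h2 := sum_ext_if (Finset.subset_union_right (s₁ := B) (s₂ := B')) Om φ (fun c => P' c z s) z
      fun c hc hn => hP'.supp c hc z s hn
    beta_reduce at h1 h2
    rw [← h1, ← h2, ← Finset.sum_sub_distrib]
    refine Finset.sum_congr rfl fun β _ => ?_
    split_ifs <;> ring

open Classical in
theorem PathS.comp {a b : Γ} {R : Γ → Bool → Prop} {Om : Set Γ} {v v' : Γ} {B B' : Finset Γ}
    {K K' : ℝ} {P P' : Γ → Γ → Bool → ℝ} (hP : PathS a b R Om v B K P)
    (hP' : PathS a b R Om v' B' K' P') :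
    PathS a b R Om (v * v') (B' ∪ B.image (· * v')) (K' + K)
      (fun y z s => P' y z s + P (v' * y) z s) := by
  refine ⟨mul_mem hP.vcl hP'.vcl, ?_, ?_, ?_, ?_, ?_, ?_⟩
  · intro β hβ
    rcases Finset.mem_union.1 hβ with hβ | hβ
    · exact hP'.cl β hβ
    · obtain ⟨γ, hγ, rfl⟩ := Finset.mem_image.1 hβ
      exact mul_mem (hP.cl γ hγ) hP'.vcl
  · intro y
    rw [mul_assoc, hP.inv, hP'.inv]
  · intro y hy z s hn
    rw [Finset.mem_union]
    by_cases hf : P' y z s = 0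
    · right
      have h1 : P (v' * y) z s ≠ 0 := fun hf' => hn (by beta_reduce; rw [hf, hf', add_zero])
      have h2 := hP.supp (v' * y) ((hP'.inv y).2 hy) z s h1
      refine Finset.mem_image.2 ⟨_, h2, ?_⟩
      group
    · left; exact hP'.supp y hy z s hf
  · intro y hy z s hn
    by_cases hf : P' y z s = 0
    · have h1 : P (v' * y) z s ≠ 0 := fun hf' => hn (by beta_reduce; rw [hf, hf', add_zero])
      exact hP.mem (v' * y) ((hP'.inv y).2 hy) z s h1
    · exact hP'.mem y hy z s hf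
  · intro y hy z s
    exact (abs_add_le _ _).trans (add_le_add (hP'.bd y hy z s) (hP.bd _ ((hP'.inv y).2 hy) z s))
  · intro y hy z
    rw [dv_add, hP'.div y hy z, hP.div _ ((hP'.inv y).2 hy) z, mul_assoc]
    ring

open Classical in
theorem PathS.inv' {a b : Γ} {R : Γ → Bool → Prop} {Om : Set Γ} {v : Γ} {B : Finset Γ}
    {K : ℝ} {P : Γ → Γ → Bool → ℝ} (hP : PathS a b R Om v B K P) :
    PathS a b R Om v⁻¹ (B.image (· * v⁻¹)) K (fun y z s => - P (v⁻¹ * y) z s) := by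
  have hinv : ∀ y, v⁻¹ * y ∈ Om ↔ y ∈ Om := fun y => by
    rw [← hP.inv (v⁻¹ * y), mul_inv_cancel_left]
  refine ⟨inv_mem hP.vcl, ?_, hinv, ?_, ?_, ?_, ?_⟩
  · intro β hβ
    obtain ⟨γ, hγ, rfl⟩ := Finset.mem_image.1 hβ
    exact mul_mem (hP.cl γ hγ) (inv_mem hP.vcl)
  · intro y hy z s hn
    have h1 : P (v⁻¹ * y) z s ≠ 0 := fun hf' => hn (by beta_reduce; rw [hf', neg_zero])
    have h2 := hP.supp _ ((hinv y).2 hy) z s h1
    refine Finset.mem_image.2 ⟨_, h2, ?_⟩
    group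
  · intro y hy z s hn
    have h1 : P (v⁻¹ * y) z s ≠ 0 := fun hf' => hn (by beta_reduce; rw [hf', neg_zero])
    exact hP.mem _ ((hinv y).2 hy) z s h1
  · intro y hy z s
    rw [abs_neg]
    exact hP.bd _ ((hinv y).2 hy) z s
  · intro y hy z
    have h1 := hP.div _ ((hinv y).2 hy) z
    rw [mul_inv_cancel_left] at h1
    unfold dv at h1 ⊢
    simp only [Fintype.sum_bool] at h1 ⊢
    linear_combination -h1

open Classical in
theorem Phi_comp {a b : Γ} {R : Γ → Bool → Prop} {Om : Set Γ} {v v' : Γ} {B B' : Finset Γ}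
    {K K' : ℝ} {P P' : Γ → Γ → Bool → ℝ} (hP : PathS a b R Om v B K P)
    (hP' : PathS a b R Om v' B' K' P') (φ : Γ → ℝ) (z : Γ) (s : Bool) :
    Phi (B' ∪ B.image (· * v')) Om (fun y z s => P' y z s + P (v' * y) z s) φ z s =
      Phi B' Om P' φ z s + Phi B Om P (fun y => φ (v'⁻¹ * y)) z s := by
  unfold Phi
  have h1 := sum_ext_if (Finset.subset_union_left (s₁ := B') (s₂ := B.image (· * v'))) Om φ
    (fun c => P' c z s) z fun c hc hn => hP'.supp c hc z s hn
  have h2 := sum_ext_if (Finset.subset_union_right (s₁ := B') (s₂ := B.image (· * v'))) Om φ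
    (fun c => P (v' * c) z s) z fun c hc hn => by
      refine Finset.mem_image.2 ⟨_, hP.supp _ ((hP'.inv c).2 hc) z s hn, ?_⟩
      group
  have h3 : (∑ β ∈ B.image (· * v'), if β⁻¹ * z ∈ Om then φ (β⁻¹ * z) * P (v' * (β⁻¹ * z)) z s else 0) =
      ∑ β ∈ B, if β⁻¹ * z ∈ Om then φ (v'⁻¹ * (β⁻¹ * z)) * P (β⁻¹ * z) z s else 0 := by
    rw [Finset.sum_image fun x _ y _ hxy => mul_right_cancel hxy]
    refine Finset.sum_congr rfl fun β _ => ?_
    have h4 : (β * v')⁻¹ * z = v'⁻¹ * (β⁻¹ * z) := by group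
    have h5 : v' * (v'⁻¹ * (β⁻¹ * z)) = β⁻¹ * z := mul_inv_cancel_left _ _
    have h6 : v'⁻¹ * (β⁻¹ * z) ∈ Om ↔ β⁻¹ * z ∈ Om := by rw [← hP'.inv, h5]
    simp only [h4, h5, h6]
  beta_reduce at h1 h2
  rw [h3] at h2
  rw [← h1, ← h2, ← Finset.sum_add_distrib]
  refine Finset.sum_congr rfl fun β _ => ?_
  split_ifs <;> ring

end Pool.Agent.MP1822N
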