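import Pool.Agent.Lib.MP_1822da_lc.NB.B2a

/-!
# Lemma N: iterated commutators (section 4 of NB1822.md)

PROOF of lemmaN. `c = n*v*n⁻¹*v⁻¹`, `n*v = c*v*n`. Path systems (PathS.comp, PathS.inv'): `Pc` for `c`; `y ↦ Pv y + Pn (v*y)`
and `y ↦ Pn y + Pv (n*y) + Pc (v*n*y)` are path systems of `n*v`; so by Phi_diff and Phi_comp modulo `NullF`
`Phi Pv φ + Phi Pn (φ (v⁻¹ ·)) = Phi Pn φ + Phi Pv (φ (n⁻¹ ·)) + Phi Pc (φ ((v*n)⁻¹ ·))`. With
`φ (v*y) = φ y`, `φ (n*y) = -φ y` on `Om`: `2 • Phi Pv φ + Phi Pc φ` is `NullF`, and `φ (c*y) = φ y`.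
(Only the values of `φ` on `Om` enter in `Phi`.)
`v_0 = v`, `v_(i+1) = n*v_i*n⁻¹*v_i⁻¹` is `1` for large `i` as `closure {v, n}` is nilpotent; a path
system for `1` is null by Phi_diff with `P' = 0` (`B' = ∅`). Induction on the number `k` with `v_k = 1`, for all `v`.
null_of_flow: if `e (gen a b s * y) = - e y` then `vs a b (e • F) y = e y * dv a b F y`, so `e • F` is `NullW`
(`|e| = 1`).
NullW.add, NullW.smul: as for NullF.
-/

namespace Pool.Agent.MP1822N

open Set MeasureTheory Pointwise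
open Pool.Agent.Lib.MP_1822da_lc Pool.Agent.MP1822T Pool.Agent.MP1822C

universe u v

variable {Γ : Type u} [Group Γ]


private theorem b2b_congr {B : Finset Γ} {Om : Set Γ} {P : Γ → Γ → Bool → ℝ} {φ ψ : Γ → ℝ}
    (h : ∀ y ∈ Om, φ y = ψ y) (z : Γ) (s : Bool) : Phi B Om P φ z s = Phi B Om P ψ z s := by
  unfold Phi
  refine Finset.sum_congr rfl fun β _ => ?_
  split_ifs with hm
  · rw [h _ hm]
  · rfl

private theorem b2b_neg {B : Finset Γ} {Om : Set Γ} {P : Γ → Γ → Bool → ℝ} {φ : Γ → ℝ}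
    (z : Γ) (s : Bool) : Phi B Om P (fun y => - φ y) z s = - Phi B Om P φ z s := by
  unfold Phi
  rw [← Finset.sum_neg_distrib]
  refine Finset.sum_congr rfl fun β _ => ?_
  split_ifs with hm
  · ring
  · ring

/-- the iterated commutators become trivial -/
private theorem b2b_iter {v n : Γ} (hnil : Group.IsNilpotent (Subgroup.closure {v, n})) :
    ∃ k : ℕ, (fun x : Γ => n * x * n⁻¹ * x⁻¹)^[k] v = 1 := by
  obtain ⟨k, hk⟩ := (Subgroup.isNilpotent_iff_lowerCentralSeries _).mp hnil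
  have hv : v ∈ Subgroup.closure {v, n} := Subgroup.subset_closure (by simp)
  have hn : n ∈ Subgroup.closure {v, n} := Subgroup.subset_closure (by simp)
  have key : ∀ i : ℕ, (fun x : Γ => n * x * n⁻¹ * x⁻¹)^[i] v ∈
      (Subgroup.closure {v, n}).lowerCentralSeries i := by
    intro i
    induction i with
    | zero => exact hv
    | succ i ih =>
      rw [Function.iterate_succ_apply', Subgroup.lowerCentralSeries_succ]
      set w := (fun x : Γ => n * x * n⁻¹ * x⁻¹)^[i] v with hw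
      have h1 := Subgroup.inv_mem _ (Subgroup.commutator_mem_commutator ih hn)
      rw [commutatorElement_inv, commutatorElement_def] at h1
      exact h1
  refine ⟨k, ?_⟩
  have h := key k
  rw [hk, Subgroup.mem_bot] at h
  exact h

private theorem b2b_main {a b : Γ} {R : Γ → Bool → Prop} {Om : Set Γ} {n : Γ}
    {Bn : Finset Γ} {Kn : ℝ} {Pn : Γ → Γ → Bool → ℝ} (hn : PathS a b R Om n Bn Kn Pn)
    {φ : Γ → ℝ} {Kφ : ℝ} (hφ : ∀ y ∈ Om, |φ y| ≤ Kφ) (hφn : ∀ y ∈ Om, φ (n * y) = - φ y) (k : ℕ) :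
    ∀ (v : Γ) (Bv : Finset Γ) (Kv : ℝ) (Pv : Γ → Γ → Bool → ℝ), PathS a b R Om v Bv Kv Pv →
      (∀ y ∈ Om, φ (v * y) = φ y) → (fun x : Γ => n * x * n⁻¹ * x⁻¹)^[k] v = 1 →
      NullF a b R (Phi Bv Om Pv φ) := by
  classical
  induction k with
  | zero =>
    intro v Bv Kv Pv hv _ hk
    have hv1 : v = 1 := hk
    subst hv1
    have h0 : PathS a b R Om 1 ∅ 0 (fun _ _ _ => 0) :=
      { vcl := Subgroup.one_mem _
        cl := fun β hβ => absurd hβ (by simp)
        inv := fun y => by rw [one_mul]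
        supp := fun y _ z s h => absurd rfl h
        mem := fun y _ z s h => absurd rfl h
        bd := fun y _ z s => by simp
        div := fun y _ z => by simp [dv] }
    have h1 := Phi_diff hv h0 hφ
    have h2 : (fun z s => Phi Bv Om Pv φ z s - Phi ∅ Om (fun _ _ _ => 0) φ z s) = Phi Bv Om Pv φ := by
      funext z s
      simp [Phi]
    rwa [h2] at h1
  | succ k ih =>
    intro v Bv Kv Pv hv hφv hk
    rw [Function.iterate_succ_apply] at hk
    have hvi : ∀ y ∈ Om, v⁻¹ * y ∈ Om := fun y hy => (hv.inv _).mp (by rwa [mul_inv_cancel_left])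
    have hni : ∀ y ∈ Om, n⁻¹ * y ∈ Om := fun y hy => (hn.inv _).mp (by rwa [mul_inv_cancel_left])
    have hφv' : ∀ y ∈ Om, φ (v⁻¹ * y) = φ y := fun y hy => by
      have h := hφv _ (hvi y hy)
      rw [mul_inv_cancel_left] at h
      exact h.symm
    have hφn' : ∀ y ∈ Om, φ (n⁻¹ * y) = - φ y := fun y hy => by
      have h := hφn _ (hni y hy)
      rw [mul_inv_cancel_left] at h
      linarith
    -- the path system of the commutator
    have hc := ((hn.comp hv).comp hn.inv').comp hv.inv'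
    have hφc : ∀ y ∈ Om, φ (n * v * n⁻¹ * v⁻¹ * y) = φ y := by
      intro y hy
      have h1 := hvi y hy
      have h2 := hni _ h1
      have h3 := (hv.inv _).mpr h2
      have e1 : n * v * n⁻¹ * v⁻¹ * y = n * (v * (n⁻¹ * (v⁻¹ * y))) := by group
      rw [e1, hφn _ h3, hφv _ h2, hφn' _ h1, hφv' _ hy, neg_neg]
    have hcn := ih _ _ _ _ hc hφc hk
    -- two path systems for `n * v`
    have h1 := hn.comp hv
    have h2 := hc.comp (hv.comp hn)
    have e : n * v * n⁻¹ * v⁻¹ * (v * n) = n * v := by group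
    rw [e] at h2
    have h3 := Phi_diff h1 h2 hφ
    have h4 := h3.add (hcn.smul (-1))
    have h5 := h4.smul (1 / 2)
    refine (congrArg (NullF a b R) ?_).mp h5
    funext z s
    rw [Phi_comp hn hv, Phi_comp hc (hv.comp hn), Phi_comp hv hn]
    have k1 : Phi Bn Om Pn (fun y => φ (v⁻¹ * y)) z s = Phi Bn Om Pn φ z s :=
      b2b_congr hφv' z s
    have k2 : Phi Bv Om Pv (fun y => φ (n⁻¹ * y)) z s = - Phi Bv Om Pv φ z s := by
      rw [← b2b_neg]
      exact b2b_congr hφn' z s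
    have k3 : ∀ (B : Finset Γ) (P : Γ → Γ → Bool → ℝ),
        Phi B Om P (fun y => φ ((v * n)⁻¹ * y)) z s = - Phi B Om P φ z s := by
      intro B P
      rw [← b2b_neg]
      refine b2b_congr (fun y hy => ?_) z s
      have e1 : (v * n)⁻¹ * y = n⁻¹ * (v⁻¹ * y) := by group
      rw [e1, hφn' _ (hvi y hy), hφv' _ hy]
    rw [k1, k2, k3]
    ring

/-- **Lemma N.** -/
theorem lemmaN {a b : Γ} {R : Γ → Bool → Prop} {Om : Set Γ} {v n : Γ}
    {Bv Bn : Finset Γ} {Kv Kn : ℝ} {Pv Pn : Γ → Γ → Bool → ℝ}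
    (hv : PathS a b R Om v Bv Kv Pv) (hn : PathS a b R Om n Bn Kn Pn)
    (hnil : Group.IsNilpotent (Subgroup.closure {v, n}))
    {φ : Γ → ℝ} {Kφ : ℝ} (hφ : ∀ y ∈ Om, |φ y| ≤ Kφ) (hφv : ∀ y ∈ Om, φ (v * y) = φ y)
    (hφn : ∀ y ∈ Om, φ (n * y) = - φ y) :
    NullF a b R (Phi Bv Om Pv φ) := by
  obtain ⟨k, hk⟩ := b2b_iter hnil
  exact b2b_main hn hφ hφn k v Bv Kv Pv hv hφv hk

theorem null_of_flow {a b : Γ} {R : Γ → Bool → Prop} {F : Γ → Bool → ℝ} (hF : NullF a b R F)
    {e : Γ → ℝ} (he : ∀ y, |e y| = 1) (hes : ∀ s y, e (gen a b s * y) = - e y) :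
    NullW a b R (fun y s => e y * F y s) := by
  obtain ⟨B, f, K, h1, h2, h3, h4, h5, h6⟩ := hF
  have hes' : ∀ s y, e ((gen a b s)⁻¹ * y) = - e y := fun s y => by
    have h := hes s ((gen a b s)⁻¹ * y)
    rw [mul_inv_cancel_left] at h
    linarith
  refine ⟨B, fun c y s => e y * f c y s, K, ⟨h1, fun c y s h => h2 c y s (right_ne_zero_of_mul h),
    fun c y s h => h3 c y s (right_ne_zero_of_mul h), fun c y => ?_⟩, fun c y s => ?_, fun y s => ?_⟩
  · have h := h4 c y
    unfold dv at h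
    unfold vs
    have e1 : ∀ s : Bool, e y * f c y s + e ((gen a b s)⁻¹ • y) * f c ((gen a b s)⁻¹ • y) s =
        e y * (f c y s - f c ((gen a b s)⁻¹ * y) s) := by
      intro s
      rw [smul_eq_mul, hes']
      ring
    rw [Finset.sum_congr rfl fun s _ => e1 s, ← Finset.mul_sum, h, mul_zero]
  · rw [abs_mul, he, one_mul]
    exact h5 c y s
  · show e y * F y s = _
    rw [h6]
    unfold tot
    rw [Finset.mul_sum]
    refine Finset.sum_congr rfl fun β _ => ?_
    simp only [Set.indicator_univ]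

theorem NullW.add {a b : Γ} {R : Γ → Bool → Prop} {w w' : Γ → Bool → ℝ} (h : NullW a b R w)
    (h' : NullW a b R w') : NullW a b R (fun y s => w y s + w' y s) := by
  classical
  obtain ⟨B, f, K, hf, h1, h2⟩ := h
  obtain ⟨B', f', K', hf', h1', h2'⟩ := h'
  have hor : ∀ c y s, f c y s + f' c y s ≠ 0 → f c y s ≠ 0 ∨ f' c y s ≠ 0 := by
    intro c y s h
    by_contra hcon
    push Not at hcon
    rw [hcon.1, hcon.2, add_zero] at h
    exact h rfl
  refine ⟨B ∪ B', fun c y s => f c y s + f' c y s, K + K', ⟨?_, ?_, ?_, ?_⟩, ?_, ?_⟩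
  · intro β hβ
    rcases Finset.mem_union.mp hβ with h | h
    · exact hf.cl β h
    · exact hf'.cl β h
  · intro c y s h
    rcases hor c y s h with h | h
    · exact Finset.mem_union_left _ (hf.supp c y s h)
    · exact Finset.mem_union_right _ (hf'.supp c y s h)
  · intro c y s h
    rcases hor c y s h with h | h
    · exact hf.mem c y s h
    · exact hf'.mem c y s h
  · intro c y
    have e1 := hf.vs0 c y
    have e2 := hf'.vs0 c y
    unfold vs at e1 e2 ⊢
    have e3 : ∑ s : Bool, (f c y s + f' c y s + (f c ((gen a b s)⁻¹ • y) s + f' c ((gen a b s)⁻¹ • y) s)) =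
        ∑ s : Bool, (f c y s + f c ((gen a b s)⁻¹ • y) s) +
        ∑ s : Bool, (f' c y s + f' c ((gen a b s)⁻¹ • y) s) := by
      rw [← Finset.sum_add_distrib]
      exact Finset.sum_congr rfl fun s _ => by ring
    rw [e3, e1, e2, add_zero]
  · intro c y s
    exact (abs_add_le _ _).trans (add_le_add (h1 c y s) (h1' c y s))
  · intro y s
    show w y s + w' y s = _
    rw [h2, h2']
    unfold tot
    simp only [Set.indicator_univ]
    rw [Finset.sum_add_distrib]
    rw [sum_eq_of_supp (B := B) (B' := B ∪ B') Finset.subset_union_left (g := fun c => f c y s)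
        (fun c hc => hf.supp c y s hc),
      sum_eq_of_supp (B := B') (B' := B ∪ B') Finset.subset_union_right (g := fun c => f' c y s)
        (fun c hc => hf'.supp c y s hc)]

theorem NullW.smul {a b : Γ} {R : Γ → Bool → Prop} {w : Γ → Bool → ℝ} (h : NullW a b R w)
    (r : ℝ) : NullW a b R (fun y s => r * w y s) := by
  obtain ⟨B, f, K, hf, h1, h2⟩ := h
  refine ⟨B, fun c y s => r * f c y s, |r| * K, ⟨hf.cl, fun c y s h => hf.supp c y s (right_ne_zero_of_mul h),
    fun c y s h => hf.mem c y s (right_ne_zero_of_mul h), fun c y => ?_⟩, fun c y s => ?_, fun y s => ?_⟩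
  · have e1 := hf.vs0 c y
    unfold vs at e1 ⊢
    have e3 : ∑ s : Bool, (r * f c y s + r * f c ((gen a b s)⁻¹ • y) s) =
        r * ∑ s : Bool, (f c y s + f c ((gen a b s)⁻¹ • y) s) := by
      rw [Finset.mul_sum]
      exact Finset.sum_congr rfl fun s _ => by ring
    rw [e3, e1, mul_zero]
  · rw [abs_mul]
    exact mul_le_mul_of_nonneg_left (h1 c y s) (abs_nonneg r)
  · show r * w y s = _
    rw [h2]
    unfold tot
    rw [Finset.mul_sum]
    refine Finset.sum_congr rfl fun β _ => ?_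
    simp only [Set.indicator_univ]

end Pool.Agent.MP1822N
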