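import Pool.Agent.Lib.MP_1822da_lc.NB.B2b

/-!
# Null weights on the 4-regular graph (QUAD, section 4 of NB1822.md)

`e y = (-1)^(α y + β y)` (as a real number), so `e (a*y) = e (h*y) = - e y`.
PROOF: `Om = univ`, `R = RT`. Path systems: `a`: `P y` = flow `1` on the edge `(y, false)`; `h`: flow `1` on
`(y, true)`; `h*a`: flow `1` on `(y, false)` and on `(a*y, true)` (PathS.comp).
 (i) `φ y = (-1)^(β y) * e y`: `φ (h*y) = φ y`, `φ (a*y) = - φ y`; lemmaN with `v = h`, `n = a`: the flow
 `F1 = φ` on the edges `(·, true)`, `0` on `(·, false)` is null.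
 (ii) `φ = e`, `v = h*a`, `n = a`: `Phi` is `F2 z false = e z`, `F2 z true = e (a⁻¹*z) = - e z`.
 (`closure {h*a, a}`, `closure {h, a}` are nilpotent: contained in `closure {a, h}`.)
 With `e`-weights (null_of_flow): `e*F1 = (-1)^β` on `(·, true)`, `e*F2 = 1` on `(·, false)`, `-1` on `(·, true)`.
 `MH β false y s - u4 y s` is `1/2*(-1)^(β y) + 1/4` on `(·, true)`, `-1/4` on `(·, false)`:
 `= 1/2 * e*F1 - 1/4 * e*F2`. `MH β true` : `- 1/2 * e*F1 - 1/4 * e*F2`.
-/

namespace Pool.Agent.MP1822N

open Set MeasureTheory Pointwise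
open Pool.Agent.Lib.MP_1822da_lc Pool.Agent.MP1822T Pool.Agent.MP1822C

universe u v

variable {Γ : Type u} [Group Γ]


open Classical in
/-- the unit flow on the edge `(g * y, s0)` -/
private noncomputable def b3aE (g : Γ) (s0 : Bool) (y z : Γ) (s : Bool) : ℝ :=
  if z = g * y ∧ s = s0 then 1 else 0

open Classical in
private theorem dv_b3aE (a b g : Γ) (s0 : Bool) (y z : Γ) :
    ∑ s : Bool, (b3aE g s0 y z s - b3aE g s0 y ((gen a b s)⁻¹ * z) s) =
      (if z = g * y then 1 else 0) - (if z = gen a b s0 * g * y then 1 else 0) := by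
  have h1 : ∀ s, ((gen a b s)⁻¹ * z = g * y ↔ z = gen a b s * g * y) := by
    intro s
    rw [inv_mul_eq_iff_eq_mul, mul_assoc]
  rw [Fintype.sum_bool]
  unfold b3aE
  cases s0 <;> simp [h1]

/-- the path system of a generator -/
private theorem b3a_gen (a b : Γ) (s0 : Bool) :
    PathS a b RT univ (gen a b s0) ({1} : Finset Γ) 1 (fun y z s => b3aE 1 s0 y z s) := by
  refine ⟨?_, ?_, ?_, ?_, ?_, ?_, ?_⟩
  · cases s0
    · exact Subgroup.subset_closure (Or.inl rfl)
    · exact Subgroup.subset_closure (Or.inr rfl)
  · intro x hx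
    rw [Finset.mem_singleton] at hx
    rw [hx]
    exact Subgroup.one_mem _
  · intro y
    simp
  · intro y _ z s hne
    rw [Finset.mem_singleton]
    unfold b3aE at hne
    have h1 : z = 1 * y ∧ s = s0 := by
      by_contra h2
      exact hne (if_neg h2)
    rw [h1.1, one_mul, mul_inv_cancel]
  · intro y _ z s _
    trivial
  · intro y _ z s
    unfold b3aE
    split_ifs <;> norm_num
  · intro y _ z
    have h1 := dv_b3aE a b 1 s0 y z
    rw [one_mul, mul_one] at h1
    unfold dv
    exact h1

private theorem b3a_Phi (s0 : Bool) (φ : Γ → ℝ) (z : Γ) (s : Bool) :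
    Phi ({1} : Finset Γ) univ (fun y z s => b3aE 1 s0 y z s) φ z s =
      if s = s0 then φ z else 0 := by
  unfold Phi b3aE
  rw [Finset.sum_singleton]
  simp

theorem null_quad {a h : Γ} (hnil : Group.IsNilpotent (Subgroup.closure {a, h}))
    {β α : Γ → Bool} (hβh : ∀ y, β (h * y) = !(β y)) (hβa : ∀ y, β (a * y) = β y)
    (hαa : ∀ y, α (a * y) = !(α y)) (hαh : ∀ y, α (h * y) = α y) (j : Bool) :
    NullW a h RT (fun y s => MH β j y s - u4 y s) := by
  classical
  -- the signs
  set e : Γ → ℝ := fun y => (if α y then -1 else 1) * (if β y then -1 else 1) with he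
  set p : Γ → ℝ := fun y => if α y then -1 else 1 with hp
  have hea : ∀ y, e (a * y) = - e y := by
    intro y
    simp only [he, hαa, hβa]
    cases α y <;> cases β y <;> norm_num
  have heh : ∀ y, e (h * y) = - e y := by
    intro y
    simp only [he, hαh, hβh]
    cases α y <;> cases β y <;> norm_num
  have he1 : ∀ y, |e y| = 1 := by
    intro y
    simp only [he]
    cases α y <;> cases β y <;> norm_num
  have hee : ∀ y, e y * e y = 1 := by
    intro y
    simp only [he]
    cases α y <;> cases β y <;> norm_num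
  have hep : ∀ y, e y * p y = if β y then -1 else 1 := by
    intro y
    simp only [he, hp]
    cases α y <;> cases β y <;> norm_num
  have hp1 : ∀ y, |p y| = 1 := by
    intro y
    simp only [hp]
    cases α y <;> norm_num
  have hpa : ∀ y, p (a * y) = - p y := by
    intro y
    simp only [hp, hαa]
    cases α y <;> norm_num
  have hph : ∀ y, p (h * y) = p y := by
    intro y
    simp only [hp, hαh]
  have heai : ∀ y, e (a⁻¹ * y) = - e y := by
    intro y
    have h1 := hea (a⁻¹ * y)
    rw [mul_inv_cancel_left] at h1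
    linarith
  have hca : a ∈ Subgroup.closure {a, h} := Subgroup.subset_closure (Or.inl rfl)
  have hch : h ∈ Subgroup.closure {a, h} := Subgroup.subset_closure (Or.inr rfl)
  have hnilx : ∀ v ∈ Subgroup.closure {a, h}, Group.IsNilpotent (Subgroup.closure {v, a}) := by
    intro v hv
    have hle : Subgroup.closure {v, a} ≤ Subgroup.closure {a, h} := by
      rw [Subgroup.closure_le]
      intro x hx
      rcases hx with rfl | rfl
      · exact hv
      · exact hca
    have h1 : Group.IsNilpotent ((Subgroup.closure {v, a}).subgroupOf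
        (Subgroup.closure {a, h})) := Subgroup.isNilpotent _
    exact (Group.isNilpotent_congr (Subgroup.subgroupOfEquivOfLe hle)).mp h1
  have hPa : PathS a h RT univ a ({1} : Finset Γ) 1 (fun y z s => b3aE 1 false y z s) :=
    b3a_gen a h false
  have hPh : PathS a h RT univ h ({1} : Finset Γ) 1 (fun y z s => b3aE 1 true y z s) :=
    b3a_gen a h true
  have hes : ∀ s y, e (gen a h s * y) = - e y := by
    intro s y
    cases s
    · exact hea y
    · exact heh y
  -- first null weight
  have hN1 := lemmaN hPh hPa (hnilx h hch) (φ := p) (Kφ := 1) (fun y _ => (hp1 y).le)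
    (fun y _ => hph y) (fun y _ => hpa y)
  have hW1 := null_of_flow hN1 he1 hes
  -- second null weight
  have hN2 := lemmaN (hPh.comp hPa) hPa (hnilx (h * a) (Subgroup.mul_mem _ hch hca)) (φ := e)
    (Kφ := 1) (fun y _ => (he1 y).le) (fun y _ => by rw [mul_assoc, heh, hea, neg_neg])
    (fun y _ => hea y)
  have hW2 := null_of_flow hN2 he1 hes
  have hW := (hW1.smul (if j then -(1 / 2) else 1 / 2)).add (hW2.smul (-(1 / 4)))
  refine (congrArg (NullW a h RT) ?_).mp hW
  funext z s
  rw [Phi_comp hPh hPa, b3a_Phi, b3a_Phi, b3a_Phi]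
  have h9 := hee z
  have h8 := hep z
  rw [heai]
  unfold MH u4
  have h7 : e z * (if s = true then p z else 0) = if s = true then (if β z then -1 else 1) else 0 := by
    split_ifs with h1 h2
    · rw [h8, if_pos h2]
    · rw [h8, if_neg h2]
    · ring
  have h6 : e z * ((if s = false then e z else 0) + if s = true then -e z else 0) =
      if s = true then -1 else 1 := by
    cases s
    · simp only [if_true, Bool.false_eq_true, if_false]
      linarith
    · simp only [if_true, Bool.true_eq_false, if_false]
      linarith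
  rw [h7, h6]
  cases s <;> cases hb : β z <;> cases j <;> simp <;> norm_num

end Pool.Agent.MP1822N
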