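import Pool.Agent.Lib.MP_1822da_lc.NB.B2b

/-!
# Null weights on the cubic graph, first (CUBIC, section 4 of NB1822.md)

`e y = (-1)^(α y + β y)` (as a real number), so `e (a*y) = e (h*y) = - e y`.
PROOF: `R = R3 β`, `Om = {y | β y = false}`, invariant under `a` and `a' = h⁻¹*a*h`. Path systems on `Om`: `a`: flow `1` on
`(y, false)`; `v = a * a'`: flow `1` on `(y, true)` (from `y` to `h*y`), `1` on `(h*y, false)` (to `a*h*y`), `-1` on
`(a'*y, true)` (from `a*h*y = h*a'*y` to `a'*y`), `1` on `(a'*y, false)` (to `a*a'*y`); all these edges are in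
`R3 β`. (Direct definition with `if`s, or PathS for `a'` and PathS.comp.) `φ = e`, `n = a`: `e (v*y) = e y` (`a'` changes the
sign of `e`), `closure {a*a', a} ≤ closure {a, h}` is
nilpotent. `Phi z true` (`β z = false`) `= e z - e (a'⁻¹*z) = 2 * e z`; `Phi z false = - e z` in both cases
(`β z = true`: `z = h*y`, `e y = - e z`; `β z = false`: `z = a'*y`, `e y = - e z`). So (null_of_flow) `2 * MH β false - 1_(a-edges)`
is `NullW`, and this is `3 * (MH β false - u3 β)`.
-/

namespace Pool.Agent.MP1822N

open Set MeasureTheory Pointwise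
open Pool.Agent.Lib.MP_1822da_lc Pool.Agent.MP1822T Pool.Agent.MP1822C

universe u v

variable {Γ : Type u} [Group Γ]


open Classical in
/-- the unit flow on the edge `(g * y, s0)` -/
noncomputable def cubE (g : Γ) (s0 : Bool) (y z : Γ) (s : Bool) : ℝ :=
  if z = g * y ∧ s = s0 then 1 else 0

open Classical in
theorem dv_cubE (a b g : Γ) (s0 : Bool) (y z : Γ) :
    ∑ s : Bool, (cubE g s0 y z s - cubE g s0 y ((gen a b s)⁻¹ * z) s) =
      (if z = g * y then 1 else 0) - (if z = gen a b s0 * g * y then 1 else 0) := by
  have h1 : ∀ s, ((gen a b s)⁻¹ * z = g * y ↔ z = gen a b s * g * y) := by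
    intro s
    rw [inv_mul_eq_iff_eq_mul, mul_assoc]
  rw [Fintype.sum_bool]
  unfold cubE
  cases s0 <;> simp [h1]

open Classical in
theorem sum_cubE {B : Finset Γ} {g : Γ} (hg : g ∈ B) (s0 : Bool) (Om : Set Γ) (φ : Γ → ℝ)
    (z : Γ) (s : Bool) :
    ∑ γ ∈ B, (if γ⁻¹ * z ∈ Om then φ (γ⁻¹ * z) * cubE g s0 (γ⁻¹ * z) z s else 0) =
      if g⁻¹ * z ∈ Om ∧ s = s0 then φ (g⁻¹ * z) else 0 := by
  rw [Finset.sum_eq_single g]
  · unfold cubE
    by_cases h1 : g⁻¹ * z ∈ Om
    · by_cases h2 : s = s0
      · simp [h1, h2]
      · simp [h1, h2]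
    · simp [h1]
  · intro γ _ hγ
    have h1 : cubE g s0 (γ⁻¹ * z) z s = 0 := by
      unfold cubE
      rw [if_neg]
      rintro ⟨h2, -⟩
      apply hγ
      have h3 : g * γ⁻¹ = 1 := by
        have h4 : (g * γ⁻¹) * z = 1 * z := by
          rw [one_mul, mul_assoc]
          exact h2.symm
        exact mul_right_cancel h4
      exact (eq_of_mul_inv_eq_one h3).symm
    rw [h1, mul_zero, ite_self]
  · intro h1
    exact absurd hg h1

theorem null_cub1 {a h : Γ} (hnil : Group.IsNilpotent (Subgroup.closure {a, h}))
    {β α : Γ → Bool} (hβh : ∀ y, β (h * y) = !(β y)) (hβa : ∀ y, β (a * y) = β y)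
    (hαa : ∀ y, α (a * y) = !(α y)) (hαh : ∀ y, α (h * y) = α y) :
    NullW a h (R3 β) (fun y s => MH β false y s - u3 β y s) := by
  classical
  -- the sign
  set e : Γ → ℝ := fun y => (if α y then -1 else 1) * (if β y then -1 else 1) with he
  have hea : ∀ y, e (a * y) = - e y := by
    intro y
    simp only [he, hαa, hβa]
    cases α y <;> cases β y <;> norm_num
  have heh : ∀ y, e (h * y) = - e y := by
    intro y
    simp only [he, hαh, hβh]
    cases α y <;> cases β y <;> norm_num
  have he1 : ∀ y, |e y| = 1 := by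
    intro y
    simp only [he]
    cases α y <;> cases β y <;> norm_num
  have hee : ∀ y, e y * e y = 1 := by
    intro y
    simp only [he]
    cases α y <;> cases β y <;> norm_num
  have hehi : ∀ y, e (h⁻¹ * y) = - e y := by
    intro y
    have h1 := heh (h⁻¹ * y)
    rw [mul_inv_cancel_left] at h1
    linarith
  have hβhi : ∀ y, β (h⁻¹ * y) = !(β y) := by
    intro y
    have h1 := hβh (h⁻¹ * y)
    rw [mul_inv_cancel_left] at h1
    rw [h1, Bool.not_not]
  obtain ⟨a', ha'⟩ : ∃ a', a' = h⁻¹ * a * h := ⟨_, rfl⟩
  have hea' : ∀ y, e (a' * y) = - e y := by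
    intro y
    rw [ha', mul_assoc, mul_assoc, hehi, hea, heh]
    ring
  have hβa' : ∀ y, β (a' * y) = β y := by
    intro y
    rw [ha', mul_assoc, mul_assoc, hβhi, hβa, hβh, Bool.not_not]
  have hea'i : ∀ y, e (a'⁻¹ * y) = - e y := by
    intro y
    have h1 := hea' (a'⁻¹ * y)
    rw [mul_inv_cancel_left] at h1
    linarith
  have hβa'i : ∀ y, β (a'⁻¹ * y) = β y := by
    intro y
    have h1 := hβa' (a'⁻¹ * y)
    rw [mul_inv_cancel_left] at h1
    exact h1.symm
  have hca : a ∈ Subgroup.closure {a, h} := Subgroup.subset_closure (Or.inl rfl)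
  have hch : h ∈ Subgroup.closure {a, h} := Subgroup.subset_closure (Or.inr rfl)
  have hca' : a' ∈ Subgroup.closure {a, h} := by
    rw [ha']
    exact Subgroup.mul_mem _ (Subgroup.mul_mem _ (Subgroup.inv_mem _ hch) hca) hch
  have hha' : h * a' = a * h := by
    rw [ha']
    group
  obtain ⟨Om, hOm⟩ : ∃ Om : Set Γ, Om = {y | β y = false} := ⟨_, rfl⟩
  -- the path system of `a * a'`
  have hPv : PathS a h (R3 β) Om (a * a') ({1, h, a'} : Finset Γ) 4
      (fun y z s => cubE 1 true y z s + cubE h false y z s - cubE a' true y z s +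
        cubE a' false y z s) := by
    refine ⟨Subgroup.mul_mem _ hca hca', ?_, ?_, ?_, ?_, ?_, ?_⟩
    · intro x hx
      simp only [Finset.mem_insert, Finset.mem_singleton] at hx
      rcases hx with rfl | rfl | rfl
      · exact Subgroup.one_mem _
      · exact hch
      · exact hca'
    · intro y
      rw [hOm, Set.mem_ofPred_eq, Set.mem_ofPred_eq, mul_assoc, hβa, hβa']
    · intro y _ z s hne
      by_contra hB
      simp only [Finset.mem_insert, Finset.mem_singleton, not_or] at hB
      obtain ⟨h1, h2, h3⟩ := hB
      have hz : ∀ g : Γ, z * y⁻¹ ≠ g → ∀ s0, cubE g s0 y z s = 0 := by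
        intro g hg s0
        unfold cubE
        rw [if_neg]
        rintro ⟨h4, -⟩
        apply hg
        rw [h4, mul_inv_cancel_right]
      apply hne
      rw [hz 1 h1, hz h h2, hz a' h3, hz a' h3]
      norm_num
    · intro y hy z s hne
      by_contra hR
      unfold R3 at hR
      rw [not_or] at hR
      obtain ⟨h1, h2⟩ := hR
      have hs : s = true := by simpa using h1
      subst hs
      apply hne
      have h3 : cubE 1 true y z true = 0 := by
        unfold cubE
        rw [if_neg]
        rintro ⟨h4, -⟩
        rw [one_mul] at h4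
        rw [h4] at h2
        exact h2 (by rw [hOm] at hy; exact hy)
      have h4 : cubE h false y z true = 0 := by
        unfold cubE
        rw [if_neg]
        rintro ⟨-, h5⟩
        exact absurd h5 (by decide)
      have h5 : cubE a' true y z true = 0 := by
        unfold cubE
        rw [if_neg]
        rintro ⟨h6, -⟩
        rw [h6, hβa'] at h2
        exact h2 (by rw [hOm] at hy; exact hy)
      have h6 : cubE a' false y z true = 0 := by
        unfold cubE
        rw [if_neg]
        rintro ⟨-, h7⟩
        exact absurd h7 (by decide)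
      rw [h3, h4, h5, h6]
      norm_num
    · intro y _ z s
      have hb : ∀ (g : Γ) (s0 : Bool), 0 ≤ cubE g s0 y z s ∧ cubE g s0 y z s ≤ 1 := by
        intro g s0
        unfold cubE
        split_ifs <;> norm_num
      have h1 := hb 1 true
      have h2 := hb h false
      have h3 := hb a' true
      have h4 := hb a' false
      rw [abs_le]
      constructor <;> linarith [h1.1, h1.2, h2.1, h2.2, h3.1, h3.2, h4.1, h4.2]
    · intro y _ z
      have h1 := dv_cubE a h 1 true y z
      have h2 := dv_cubE a h h false y z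
      have h3 := dv_cubE a h a' true y z
      have h4 := dv_cubE a h a' false y z
      rw [Fintype.sum_bool] at h1 h2 h3 h4
      have g1 : gen a h true = h := rfl
      have g2 : gen a h false = a := rfl
      rw [g1, g2] at h1 h2 h3 h4
      rw [one_mul, mul_one] at h1
      rw [hha'] at h3
      unfold dv
      rw [Fintype.sum_bool, g1, g2]
      simp only []
      linarith
  -- the path system of `a`
  have hPn : PathS a h (R3 β) Om a ({1} : Finset Γ) 1 (fun y z s => cubE 1 false y z s) := by
    refine ⟨hca, ?_, ?_, ?_, ?_, ?_, ?_⟩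
    · intro x hx
      rw [Finset.mem_singleton] at hx
      rw [hx]
      exact Subgroup.one_mem _
    · intro y
      rw [hOm, Set.mem_ofPred_eq, Set.mem_ofPred_eq, hβa]
    · intro y _ z s hne
      rw [Finset.mem_singleton]
      unfold cubE at hne
      have h1 : z = 1 * y ∧ s = false := by
        by_contra h2
        exact hne (if_neg h2)
      rw [h1.1, one_mul, mul_inv_cancel]
    · intro y _ z s hne
      unfold cubE at hne
      have h1 : z = 1 * y ∧ s = false := by
        by_contra h2
        exact hne (if_neg h2)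
      exact Or.inl h1.2
    · intro y _ z s
      unfold cubE
      split_ifs <;> norm_num
    · intro y _ z
      have h1 := dv_cubE a h 1 false y z
      have g2 : gen a h false = a := rfl
      rw [g2, one_mul, mul_one] at h1
      unfold dv
      exact h1
  have hnil' : Group.IsNilpotent (Subgroup.closure {a * a', a}) := by
    have hle : Subgroup.closure {a * a', a} ≤ Subgroup.closure {a, h} := by
      rw [Subgroup.closure_le]
      intro x hx
      rcases hx with rfl | rfl
      · exact Subgroup.mul_mem _ hca hca'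
      · exact hca
    have h1 : Group.IsNilpotent ((Subgroup.closure {a * a', a}).subgroupOf
        (Subgroup.closure {a, h})) := Subgroup.isNilpotent _
    exact (Group.isNilpotent_congr (Subgroup.subgroupOfEquivOfLe hle)).mp h1
  have hN := lemmaN hPv hPn hnil' (φ := e) (Kφ := 1) (fun y _ => (he1 y).le)
    (fun y _ => by rw [mul_assoc, hea, hea', neg_neg]) (fun y _ => hea y)
  have hW := null_of_flow hN he1 (fun s y => by
    cases s
    · exact hea y
    · exact heh y)
  have hW3 := hW.smul (1 / 3)
  have hfin : (fun y s => MH β false y s - u3 β y s) = (fun y s => 1 / 3 * (e y *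
      Phi ({1, h, a'} : Finset Γ) Om (fun y z s => cubE 1 true y z s + cubE h false y z s -
        cubE a' true y z s + cubE a' false y z s) e y s)) := by
    funext z s
    have hPhi : Phi ({1, h, a'} : Finset Γ) Om (fun y z s => cubE 1 true y z s +
        cubE h false y z s - cubE a' true y z s + cubE a' false y z s) e z s =
        (if (1 : Γ)⁻¹ * z ∈ Om ∧ s = true then e ((1 : Γ)⁻¹ * z) else 0) +
        (if h⁻¹ * z ∈ Om ∧ s = false then e (h⁻¹ * z) else 0) -
        (if a'⁻¹ * z ∈ Om ∧ s = true then e (a'⁻¹ * z) else 0) +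
        (if a'⁻¹ * z ∈ Om ∧ s = false then e (a'⁻¹ * z) else 0) := by
      have q1 := sum_cubE (B := ({1, h, a'} : Finset Γ)) (g := 1) (by simp) true Om e z s
      have q2 := sum_cubE (B := ({1, h, a'} : Finset Γ)) (g := h) (by simp) false Om e z s
      have q3 := sum_cubE (B := ({1, h, a'} : Finset Γ)) (g := a') (by simp) true Om e z s
      have q4 := sum_cubE (B := ({1, h, a'} : Finset Γ)) (g := a') (by simp) false Om e z s
      rw [← q1, ← q2, ← q3, ← q4, ← Finset.sum_add_distrib, ← Finset.sum_sub_distrib,
        ← Finset.sum_add_distrib]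
      unfold Phi
      refine Finset.sum_congr rfl fun γ _ => ?_
      by_cases h1 : γ⁻¹ * z ∈ Om
      · simp only [if_pos h1]
        ring
      · simp only [if_neg h1]
        ring
    rw [hPhi]
    simp only [hOm, Set.mem_ofPred_eq, inv_one, one_mul, hβhi, hβa'i, hehi, hea'i]
    unfold MH u3 R3
    have h9 := hee z
    cases s <;> cases hb : β z <;> simp <;> linarith
  rw [hfin]
  exact hW3

end Pool.Agent.MP1822N
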