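import Pool.Agent.Lib.MP_1822da_lc.NB.B3b

/-!
# Null weights on the cubic graph, second (CUBIC, section 4 of NB1822.md)

PROOF: `D = MH β false - MA κ false` has `vs = 0` at every vertex (`β (h⁻¹*y) = !(β y)`, same for `κ` and `a`). Let
`comp c` be the set of the `y` reachable from `c` by `TS a h κ β` (finite, contained in `B*c`, an equivalence
class as `TS` is symmetric; replace `B` by the set of its elements in `closure {a, h}`: `y * c⁻¹ ∈ closure {a, h}` for
`y ∈ comp c`). An edge with nonzero `D`-weight has both endpoints in the same class. Put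
`f c y s = D y s / |comp c|` if `y ∈ comp c`, `0` otherwise: `Fam` (`D y s ≠ 0 → R3 β y s`), `|f| ≤ 1`, the sum over `c` is `D`
(`comp c = comp y` for the `|comp y|` points `c ∈ comp y`). So `D` is
`NullW` in `R3 β`. `3 * u3 β = MH β false + MA κ false + MA κ true`, hence
`MA κ true - u3 β = -2 * (MH β false - u3 β) + D` (NullW.add, NullW.smul, null_cub1).
-/

namespace Pool.Agent.MP1822N

open Set MeasureTheory Pointwise
open Pool.Agent.Lib.MP_1822da_lc Pool.Agent.MP1822T Pool.Agent.MP1822C

universe u v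

variable {Γ : Type u} [Group Γ]


private theorem B3c_sg_sg {g : Γ} {κ : Γ → Bool} (hκ : ∀ y, κ (g * y) = !(κ y)) (y : Γ) :
    sg g κ (sg g κ y) = y := by
  unfold sg
  simp only [smul_eq_mul]
  cases h : κ y
  · simp [hκ, h]
  · have h1 : κ (g⁻¹ * y) = false := by
      have := hκ (g⁻¹ * y)
      rw [mul_inv_cancel_left, h] at this
      cases h2 : κ (g⁻¹ * y)
      · rfl
      · rw [h2] at this; simp at this
    simp [h1]

private theorem B3c_symm {a h : Γ} {κ β : Γ → Bool} (hκ : ∀ y, κ (a * y) = !(κ y)) (hβ : ∀ y, β (h * y) = !(β y))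
    {y y' : Γ} (hyy : TS a h κ β y y') : TS a h κ β y' y := by
  rcases hyy with h1 | h1
  · left; rw [h1, B3c_sg_sg hκ]
  · right; rw [h1, B3c_sg_sg hβ]

private theorem B3c_rsymm {a h : Γ} {κ β : Γ → Bool} (hκ : ∀ y, κ (a * y) = !(κ y))
    (hβ : ∀ y, β (h * y) = !(β y)) {y y' : Γ} (hyy : Relation.ReflTransGen (TS a h κ β) y y') :
    Relation.ReflTransGen (TS a h κ β) y' y := by
  induction hyy with
  | refl => exact Relation.ReflTransGen.refl
  | tail _ h1 ih => exact Relation.ReflTransGen.head (B3c_symm hκ hβ h1) ih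

private theorem B3c_cl {a h : Γ} {κ β : Γ → Bool} {y y' : Γ}
    (hyy : Relation.ReflTransGen (TS a h κ β) y y') : y' * y⁻¹ ∈ Subgroup.closure ({a, h} : Set Γ) := by
  have ha : a ∈ Subgroup.closure ({a, h} : Set Γ) := Subgroup.subset_closure (by simp)
  have hh : h ∈ Subgroup.closure ({a, h} : Set Γ) := Subgroup.subset_closure (by simp)
  have hs : ∀ (g : Γ) (ρ : Γ → Bool) (z : Γ), g ∈ Subgroup.closure ({a, h} : Set Γ) →
      sg g ρ z * z⁻¹ ∈ Subgroup.closure ({a, h} : Set Γ) := by
    intro g ρ z hg
    unfold sg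
    cases ρ z
    · simpa using hg
    · simpa using Subgroup.inv_mem _ hg
  induction hyy with
  | refl => rw [mul_inv_cancel]; exact Subgroup.one_mem _
  | @tail x z _ h1 ih =>
    have h2 : z * x⁻¹ ∈ Subgroup.closure ({a, h} : Set Γ) := by
      rcases h1 with h1 | h1
      · rw [h1]; exact hs a κ x ha
      · rw [h1]; exact hs h β x hh
    have h3 : z * y⁻¹ = (z * x⁻¹) * (x * y⁻¹) := by group
    rw [h3]
    exact Subgroup.mul_mem _ h2 ih

private theorem B3c_D {a h : Γ} {β κ : Γ → Bool} (hβh : ∀ y, β (h * y) = !(β y))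
    (hκ : ∀ y, κ (a * y) = !(κ y))
    (hb : ∃ B : Finset Γ, ∀ y y', Relation.ReflTransGen (TS a h κ β) y y' → y' * y⁻¹ ∈ B) :
    NullW a h (R3 β) (fun y s => MH β false y s - MA κ false y s) := by
  classical
  obtain ⟨B, hB⟩ := hb
  set r := Relation.ReflTransGen (TS a h κ β) with hr
  have hsym : ∀ {x y}, r x y → r y x := fun hxy => B3c_rsymm hκ hβh hxy
  have hB' : ∀ y y', r y y' → y' * y⁻¹ ∈ B.filter (fun g => g ∈ Subgroup.closure ({a, h} : Set Γ)) :=
    fun y y' hyy => Finset.mem_filter.2 ⟨hB y y' hyy, B3c_cl hyy⟩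
  set B' := B.filter (fun g => g ∈ Subgroup.closure ({a, h} : Set Γ)) with hB'def
  let cls : Γ → Finset Γ := fun c => (B'.image (fun g => g * c)).filter (fun y => r c y)
  have hcls : ∀ c y, y ∈ cls c ↔ r c y := by
    intro c y
    constructor
    · intro hy; exact (Finset.mem_filter.1 hy).2
    · intro hy
      refine Finset.mem_filter.2 ⟨Finset.mem_image.2 ⟨y * c⁻¹, hB' c y hy, by group⟩, hy⟩
  have hclseq : ∀ c y, r c y → cls c = cls y := by
    intro c y hcy
    ext x
    rw [hcls, hcls]
    exact ⟨fun hx => (hsym hcy).trans hx, fun hx => hcy.trans hx⟩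
  set D : Γ → Bool → ℝ := fun y s => MH β false y s - MA κ false y s with hD
  have hDt : ∀ y, D y true = if β y = false then 1 else 0 := by
    intro y
    simp only [hD, MH, MA]
    simp
  have hDf : ∀ y, D y false = if κ y = false then -1 else 0 := by
    intro y
    simp only [hD, MH, MA]
    by_cases h1 : κ y = false
    · simp [h1]
    · simp [h1]
  have hDabs : ∀ y s, |D y s| ≤ 1 := by
    intro y s
    cases s
    · rw [hDf]; split_ifs <;> norm_num
    · rw [hDt]; split_ifs <;> norm_num
  have hβi : ∀ y, β (h⁻¹ * y) = !(β y) := by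
    intro y
    have h1 := hβh (h⁻¹ * y)
    rw [mul_inv_cancel_left] at h1
    rw [h1, Bool.not_not]
  have hκi : ∀ y, κ (a⁻¹ * y) = !(κ y) := by
    intro y
    have h1 := hκ (a⁻¹ * y)
    rw [mul_inv_cancel_left] at h1
    rw [h1, Bool.not_not]
  let f : Γ → Γ → Bool → ℝ := fun c y s => if r c y then D y s / ((cls c).card : ℝ) else 0
  have hf : ∀ c y s, f c y s = if r c y then D y s / ((cls c).card : ℝ) else 0 := fun _ _ _ => rfl
  have hfi : ∀ c y s, f c ((gen a h s)⁻¹ * y) s =
      if r c y then D ((gen a h s)⁻¹ * y) s / ((cls c).card : ℝ) else 0 := by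
    intro c y s
    rw [hf]
    by_cases h0 : D ((gen a h s)⁻¹ * y) s = 0
    · rw [h0, zero_div, ite_self, ite_self]
    · have h1 : TS a h κ β ((gen a h s)⁻¹ * y) y := by
        cases s
        · left
          rw [hDf] at h0
          have h2 : κ ((gen a h false)⁻¹ * y) = false := by
            by_contra h3
            exact h0 (if_neg h3)
          unfold sg
          rw [h2]
          simp [gen]
        · right
          rw [hDt] at h0
          have h2 : β ((gen a h true)⁻¹ * y) = false := by
            by_contra h3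
            exact h0 (if_neg h3)
          unfold sg
          rw [h2]
          simp [gen]
      have h2 : r c ((gen a h s)⁻¹ * y) ↔ r c y :=
        ⟨fun hx => hx.tail h1, fun hx => hx.tail (B3c_symm hκ hβh h1)⟩
      by_cases h3 : r c y
      · rw [if_pos h3, if_pos (h2.2 h3)]
      · rw [if_neg h3, if_neg (fun h4 => h3 (h2.1 h4))]
  refine ⟨B', f, 1, ⟨?_, ?_, ?_, ?_⟩, ?_, ?_⟩
  · intro g hg
    exact (Finset.mem_filter.1 hg).2
  · intro c y s hne
    rw [hf] at hne
    by_cases h1 : r c y
    · exact hB' c y h1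
    · rw [if_neg h1] at hne; exact absurd rfl hne
  · intro c y s hne
    rw [hf] at hne
    cases s
    · left; rfl
    · right
      by_contra h3
      apply hne
      rw [hDt, if_neg h3, zero_div, ite_self]
  · intro c y
    unfold vs
    simp only [smul_eq_mul, hfi]
    rw [Fintype.sum_bool, hf, hf]
    by_cases h1 : r c y
    · simp only [if_pos h1]
      have h2 : D y true + D ((gen a h true)⁻¹ * y) true + (D y false + D ((gen a h false)⁻¹ * y) false) = 0 := by
        rw [hDt, hDt, hDf, hDf]
        simp only [gen, if_true, Bool.false_eq_true, if_false, hβi, hκi]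
        cases β y <;> cases κ y <;> norm_num
      rw [← add_div, ← add_div, ← add_div, h2, zero_div]
    · simp only [if_neg h1, add_zero]
  · intro c y s
    rw [hf]
    split_ifs with h1
    · rw [abs_div, Nat.abs_cast]
      rcases Nat.eq_zero_or_pos (cls c).card with h2 | h2
      · rw [h2]; simp
      · have h3 : (1 : ℝ) ≤ ((cls c).card : ℝ) := by exact_mod_cast h2
        rw [div_le_one (by linarith)]
        exact (hDabs y s).trans h3
    · simp
  · intro y s
    unfold tot
    simp only [Set.indicator_univ]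
    have h1 : ∀ g ∈ B', f (g⁻¹ * y) y s = if r y (g⁻¹ * y) then D y s / ((cls y).card : ℝ) else 0 := by
      intro g _
      rw [hf]
      by_cases h2 : r (g⁻¹ * y) y
      · rw [if_pos h2, if_pos (hsym h2), hclseq _ _ h2]
      · rw [if_neg h2, if_neg (fun h3 => h2 (hsym h3))]
    rw [Finset.sum_congr rfl h1, ← Finset.sum_filter, Finset.sum_const, nsmul_eq_mul]
    have h2 : (B'.filter (fun g => r y (g⁻¹ * y))).card = (cls y).card := by
      refine Finset.card_bij (fun g _ => g⁻¹ * y) ?_ ?_ ?_
      · intro g hg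
        exact (hcls _ _).2 (Finset.mem_filter.1 hg).2
      · intro g1 _ g2 _ h3
        exact inv_injective (mul_right_cancel h3)
      · intro c hc
        have h3 := (hcls _ _).1 hc
        refine ⟨y * c⁻¹, Finset.mem_filter.2 ⟨hB' c y (hsym h3), ?_⟩, ?_⟩
        · have h4 : (y * c⁻¹)⁻¹ * y = c := by group
          rw [h4]; exact h3
        · show (y * c⁻¹)⁻¹ * y = c
          group
    rw [h2]
    have h3 : ((cls y).card : ℝ) ≠ 0 := by
      have h4 : y ∈ cls y := (hcls y y).2 Relation.ReflTransGen.refl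
      have h5 : 0 < (cls y).card := Finset.card_pos.2 ⟨y, h4⟩
      exact_mod_cast h5.ne'
    rw [mul_div_cancel₀ _ h3]

theorem null_cub2 {a h : Γ} (hnil : Group.IsNilpotent (Subgroup.closure {a, h}))
    {β α κ : Γ → Bool} (hβh : ∀ y, β (h * y) = !(β y)) (hβa : ∀ y, β (a * y) = β y)
    (hαa : ∀ y, α (a * y) = !(α y)) (hαh : ∀ y, α (h * y) = α y)
    (hκ : ∀ y, κ (a * y) = !(κ y))
    (hb : ∃ B : Finset Γ, ∀ y y', Relation.ReflTransGen (TS a h κ β) y y' → y' * y⁻¹ ∈ B) :
    NullW a h (R3 β) (fun y s => MA κ true y s - u3 β y s) := by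
  classical
  have h1 := ((null_cub1 hnil hβh hβa hαa hαh).smul (-2)).add (B3c_D hβh hκ hb)
  have h2 : (fun y s => -2 * (MH β false y s - u3 β y s) + (MH β false y s - MA κ false y s)) =
      (fun y s => MA κ true y s - u3 β y s) := by
    funext y s
    unfold MH MA u3 R3
    cases s <;> cases hβ : β y <;> cases hκ' : κ y <;> simp <;> norm_num
  rw [← h2]
  exact h1

end Pool.Agent.MP1822N
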