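import Pool.Agent.Lib.MP_1822da_lc.NB.Defs

/-!
# Alternating cycles from reachability (section 5 of NB1822.md, first part of THEOREM AB)

`e : Γ → Bool` is a bipartition: black = `e y = false`, white = `e y = true`. For an edge `(y, s)` let `bl`, `wh` be its
black and its white endpoint. `Arc`: along an edge of `R` not in `Q` from black to white, along an edge of `Q` from
white to black.
PROOF. Let `E = (y, s) ∈ R`, `Q y s = false`, `w = wh E`, `v = bl E`. There is a path of arcs from `w` to `v`; with the arc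
`v → w` of `E` it gives a closed directed walk: `g` = sum over its steps of `+1` (edge not in
`Q`) or `-1` (edge in `Q`) at the edge used. `vs g = 0`: every visit of a vertex enters and leaves, at a black vertex it
enters through a `Q`-edge and leaves through an edge off `Q`, at a white vertex the other way round. `g ≥ 0` off `Q`, `g ≤ 0` on
`Q`, `g E ≥ 1`. All endpoints of the edges used are in `T^n * w` (except possibly `v`, a neighbour of `w`).
Bound for `|g|`: take a path without repeated vertices, or the number of steps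
`≤ (T^n).ncard` (a shortest path); e.g. prove: for a relation `r` and a finite set `S` containing all endpoints, `ReflTransGen r w v`
implies that there is a list-chain of length `≤ S.ncard` (or use `SimpleGraph`/`List.Chain` tools, or
Mathlib's `Relation.ReflTransGen` and strong induction on the number of vertices allowed).
A formulation which is convenient for the induction: for a path of `k` arcs from `w` to `z` (inside) there is `g` with
`vs g x = ± [x = z] ∓ [x = w]` (with the sign `+` at white, `-` at black points, i.e. `vs g x = σ x * ([x = w] - [x = z])` up to a global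
sign, `σ = 1` on white and `-1` on black points), `|g| ≤ k`.
`B`: all `β` with `β * y` (the base point of an edge used), given `y ∈ {w, a⁻¹w, b⁻¹w, …}`: `B = T^(n+2)`.
-/

namespace Pool.Agent.MP1822N

open Set MeasureTheory Pointwise
open Pool.Agent.Lib.MP_1822da_lc Pool.Agent.MP1822T Pool.Agent.MP1822C

universe u v

variable {Γ : Type u} [Group Γ]


/-- the black endpoint -/
def bl (a b : Γ) (e : Γ → Bool) (y : Γ) (s : Bool) : Γ := if e y then gen a b s * y else y

/-- the white endpoint -/
def wh (a b : Γ) (e : Γ → Bool) (y : Γ) (s : Bool) : Γ := if e y then y else gen a b s * y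

/-- arcs: off `Q` from black to white, in `Q` from white to black -/
def Arc (a b : Γ) (R : Γ → Bool → Prop) (Q : Γ → Bool → Bool) (e : Γ → Bool) (x x' : Γ) : Prop :=
  ∃ z s, R z s ∧ ((Q z s = false ∧ x = bl a b e z s ∧ x' = wh a b e z s) ∨
    (Q z s = true ∧ x = wh a b e z s ∧ x' = bl a b e z s))

/-- bounded reachability in a finite set -/
private theorem B4a_reach {α : Type u} (r : α → α → Prop) (w : α) (F : Set α) (hF : F.Finite) (hw : w ∈ F)
    (hr : ∀ x x', r x x' → x' ∈ F) (P : ℕ → α → Prop) (h0 : P 0 w) (hm : ∀ k x, P k x → P (k + 1) x)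
    (hs : ∀ k x x', x ∈ F → P k x → r x x' → P (k + 1) x') {z : α} (hz : Relation.ReflTransGen r w z) :
    P F.ncard z := by
  classical
  let N : ℕ → Set α := fun k => Nat.rec {w} (fun _ s => s ∪ {x' | ∃ x ∈ s, r x x'}) k
  have hN0 : N 0 = {w} := rfl
  have hN1 : ∀ k, N (k + 1) = N k ∪ {x' | ∃ x ∈ N k, r x x'} := fun k => rfl
  have hNF : ∀ k, N k ⊆ F := by
    intro k
    induction k with
    | zero => rw [hN0]; exact Set.singleton_subset_iff.2 hw
    | succ k ih =>
      rw [hN1]
      rintro x (hx | ⟨y, _, hy⟩)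
      · exact ih hx
      · exact hr y x hy
  have hNP : ∀ k, ∀ x ∈ N k, P k x := by
    intro k
    induction k with
    | zero =>
      intro x hx
      rw [hN0, Set.mem_singleton_iff] at hx
      rw [hx]; exact h0
    | succ k ih =>
      rintro x hx
      rw [hN1] at hx
      rcases hx with hx | ⟨y, hy, hyx⟩
      · exact hm k x (ih x hx)
      · exact hs k y x (hNF k hy) (ih y hy) hyx
  have hw' : ∀ k, w ∈ N k := by
    intro k
    induction k with
    | zero => rw [hN0]; rfl
    | succ k ih => rw [hN1]; exact Or.inl ih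
  have key : ∃ k ≤ F.ncard, N (k + 1) ⊆ N k := by
    by_contra hcon
    push Not at hcon
    have h1 : ∀ k ≤ F.ncard + 1, k + 1 ≤ (N k).ncard := by
      intro k
      induction k with
      | zero => intro _; rw [hN0, Set.ncard_singleton]
      | succ k ih =>
        intro hk
        have h2 := ih (by omega)
        have h3 : N k ⊂ N (k + 1) :=
          ⟨by rw [hN1]; exact Set.subset_union_left, hcon k (by omega)⟩
        have h4 := Set.ncard_lt_ncard h3 (hF.subset (hNF (k + 1)))
        omega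
    have h2 := h1 (F.ncard + 1) le_rfl
    have h3 := Set.ncard_le_ncard (hNF (F.ncard + 1)) hF
    omega
  obtain ⟨k, hk, hkN⟩ := key
  have hzk : z ∈ N k := by
    induction hz with
    | refl => exact hw' k
    | tail _ hbc ih =>
      apply hkN
      rw [hN1]
      exact Or.inr ⟨_, ih, hbc⟩
  have hPk := hNP k z hzk
  have hup : ∀ d, P (k + d) z := by
    intro d
    induction d with
    | zero => exact hPk
    | succ d ih => exact hm _ _ ih
  have := hup (F.ncard - k)
  rwa [Nat.add_sub_cancel' hk] at this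

open Classical in
/-- the weight of one edge -/
private noncomputable def B4a_dlt (z0 : Γ) (s0 : Bool) (z : Γ) (t : Bool) : ℝ :=
  if z = z0 ∧ t = s0 then 1 else 0

open Classical in
private theorem B4a_vs_dlt (a b : Γ) (z0 : Γ) (s0 : Bool) (x : Γ) :
    vs a b (B4a_dlt z0 s0) x = (if x = z0 then 1 else 0) + (if x = gen a b s0 * z0 then 1 else 0) := by
  unfold vs B4a_dlt
  rw [Fintype.sum_bool]
  cases s0 <;> simp [inv_mul_eq_iff_eq_mul]

private theorem B4a_vs_add (a b : Γ) (g h : Γ → Bool → ℝ) (c : ℝ) (x : Γ) :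
    vs a b (fun z t => g z t + c * h z t) x = vs a b g x + c * vs a b h x := by
  unfold vs
  rw [Fintype.sum_bool, Fintype.sum_bool, Fintype.sum_bool]
  ring

open Classical in
private theorem B4a_bw (a b : Γ) (e : Γ → Bool) (z0 : Γ) (s0 : Bool) (x : Γ) :
    ((if x = z0 then 1 else 0) + (if x = gen a b s0 * z0 then 1 else 0) : ℝ) =
      (if x = bl a b e z0 s0 then 1 else 0) + (if x = wh a b e z0 s0 then 1 else 0) := by
  unfold bl wh
  cases e z0
  · simp
  · simp [add_comm]

private theorem B4a_ebl {a b : Γ} {e : Γ → Bool} (he : ∀ s y, e (gen a b s * y) = !(e y)) (z : Γ) (s : Bool) :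
    e (bl a b e z s) = false := by
  unfold bl
  cases h : e z
  · simp [h]
  · simp [he, h]

private theorem B4a_ewh {a b : Γ} {e : Γ → Bool} (he : ∀ s y, e (gen a b s * y) = !(e y)) (z : Γ) (s : Bool) :
    e (wh a b e z s) = true := by
  unfold wh
  cases h : e z
  · simp [he, h]
  · simp [h]

private theorem B4a_pow_mem {a b : Γ} (n : ℕ) (x : Γ) (hx : x ∈ ({1, a, b, a⁻¹, b⁻¹} : Set Γ) ^ n) :
    x ∈ Subgroup.closure {a, b} := by
  induction n generalizing x with
  | zero =>
    rw [pow_zero, Set.mem_one] at hx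
    rw [hx]; exact Subgroup.one_mem _
  | succ n ih =>
    rw [pow_succ] at hx
    obtain ⟨y, hy, z, hz, rfl⟩ := Set.mem_mul.1 hx
    refine Subgroup.mul_mem _ (ih y hy) ?_
    have ha : a ∈ Subgroup.closure ({a, b} : Set Γ) := Subgroup.subset_closure (by simp)
    have hb : b ∈ Subgroup.closure ({a, b} : Set Γ) := Subgroup.subset_closure (by simp)
    simp only [Set.mem_insert_iff, Set.mem_singleton_iff] at hz
    rcases hz with h | h | h | h | h
    · rw [h]; exact Subgroup.one_mem _
    · rw [h]; exact ha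
    · rw [h]; exact hb
    · rw [h]; exact Subgroup.inv_mem _ ha
    · rw [h]; exact Subgroup.inv_mem _ hb

private theorem B4a_one_mem {a b : Γ} (n : ℕ) : (1 : Γ) ∈ ({1, a, b, a⁻¹, b⁻¹} : Set Γ) ^ n := by
  induction n with
  | zero => rw [pow_zero]; exact Set.one_mem_one
  | succ n ih =>
    rw [pow_succ]
    exact Set.mem_mul.2 ⟨1, ih, 1, by simp, one_mul 1⟩

private theorem B4a_fin {a b : Γ} (n : ℕ) : (({1, a, b, a⁻¹, b⁻¹} : Set Γ) ^ n).Finite := by
  induction n with
  | zero => rw [pow_zero]; exact Set.finite_one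
  | succ n ih =>
    rw [pow_succ]
    exact ih.mul (Set.toFinite _)

theorem alt_of_reach {a b : Γ} {e : Γ → Bool} (he : ∀ s y, e (gen a b s * y) = !(e y))
    {R : Γ → Bool → Prop} {Q : Γ → Bool → Bool}
    {n : ℕ} (hreach : ∀ y s, R y s → Q y s = false → Relation.ReflTransGen
      (fun x x' => Arc a b R Q e x x' ∧
        x' * (wh a b e y s)⁻¹ ∈ ({1, a, b, a⁻¹, b⁻¹} : Set Γ) ^ n) (wh a b e y s) (bl a b e y s)) :
    ∃ (B : Finset Γ) (K : ℝ), (∀ β ∈ B, β ∈ Subgroup.closure {a, b}) ∧
      ∀ y s, R y s → Q y s = false → ∃ g : Γ → Bool → ℝ,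
      (∀ z t, g z t ≠ 0 → z * y⁻¹ ∈ B ∧ R z t) ∧ (∀ z, vs a b g z = 0) ∧
      (∀ z t, |g z t| ≤ K) ∧ (∀ z t, Q z t = false → 0 ≤ g z t) ∧
      (∀ z t, Q z t = true → g z t ≤ 0) ∧ 1 ≤ g y s := by
  classical
  have hTfin : ∀ m : ℕ, (({1, a, b, a⁻¹, b⁻¹} : Set Γ) ^ m).Finite := fun m => B4a_fin m
  refine ⟨(hTfin (n + 1)).toFinset, (((({1, a, b, a⁻¹, b⁻¹} : Set Γ) ^ n).ncard : ℕ) : ℝ) + 1, ?_, ?_⟩
  · intro β hβ
    exact B4a_pow_mem (n + 1) β ((hTfin (n + 1)).mem_toFinset.1 hβ)
  intro y s hR hQ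
  set w := wh a b e y s with hwdef
  set F : Set Γ := {x | x * w⁻¹ ∈ ({1, a, b, a⁻¹, b⁻¹} : Set Γ) ^ n} with hFdef
  have hFim : F = (fun t => t * w) '' (({1, a, b, a⁻¹, b⁻¹} : Set Γ) ^ n) := by
    ext x
    constructor
    · intro hx
      exact ⟨x * w⁻¹, hx, by simp⟩
    · rintro ⟨t, ht, rfl⟩
      show t * w * w⁻¹ ∈ ({1, a, b, a⁻¹, b⁻¹} : Set Γ) ^ n
      rwa [mul_inv_cancel_right]
  have hFfin : F.Finite := by rw [hFim]; exact (hTfin n).image _
  have hFcard : F.ncard = (({1, a, b, a⁻¹, b⁻¹} : Set Γ) ^ n).ncard := by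
    rw [hFim]; exact Set.ncard_image_of_injective _ (mul_left_injective w)
  have hwF : w ∈ F := by
    show w * w⁻¹ ∈ ({1, a, b, a⁻¹, b⁻¹} : Set Γ) ^ n
    rw [mul_inv_cancel]; exact B4a_one_mem n
  let sg' : Γ → ℝ := fun x => if e x then -1 else 1
  have hsb : ∀ z t, sg' (bl a b e z t) = 1 := fun z t => by
    show (if e (bl a b e z t) then (-1 : ℝ) else 1) = 1
    rw [B4a_ebl he]; simp
  have hsw : ∀ z t, sg' (wh a b e z t) = -1 := fun z t => by
    show (if e (wh a b e z t) then (-1 : ℝ) else 1) = -1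
    rw [B4a_ewh he]; simp
  let P : ℕ → Γ → Prop := fun k x => ∃ g : Γ → Bool → ℝ,
    (∀ z t, g z t ≠ 0 → z ∈ F ∧ R z t) ∧
    (∀ z, vs a b g z = sg' w * (if z = w then 1 else 0) - sg' x * (if z = x then 1 else 0)) ∧
    (∀ z t, |g z t| ≤ k) ∧ (∀ z t, Q z t = false → 0 ≤ g z t) ∧ (∀ z t, Q z t = true → g z t ≤ 0)
  have hP0 : P 0 w := by
    refine ⟨fun _ _ => 0, fun z t h => absurd rfl h, fun z => ?_, fun z t => by simp, fun z t _ => le_rfl,
      fun z t _ => le_rfl⟩
    unfold vs
    simp
  have hPm : ∀ k x, P k x → P (k + 1) x := by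
    rintro k x ⟨g, h1, h2, h3, h4, h5⟩
    refine ⟨g, h1, h2, fun z t => (h3 z t).trans ?_, h4, h5⟩
    push_cast
    linarith
  have hPs : ∀ k x x', x ∈ F → P k x → (Arc a b R Q e x x' ∧ x' * w⁻¹ ∈ ({1, a, b, a⁻¹, b⁻¹} : Set Γ) ^ n) →
      P (k + 1) x' := by
    rintro k x x' hxF ⟨g, h1, h2, h3, h4, h5⟩ ⟨⟨z0, s0, hR0, hc⟩, hx'⟩
    have hx'F : x' ∈ F := hx'
    have hz0 : z0 ∈ F := by
      rcases hc with ⟨_, e1, e2⟩ | ⟨_, e1, e2⟩
      · unfold bl at e1; unfold wh at e2
        cases h : e z0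
        · rw [h] at e1; simp only [Bool.false_eq_true, if_false] at e1; rw [← e1]; exact hxF
        · rw [h] at e2; simp only [if_true] at e2; rw [← e2]; exact hx'F
      · unfold wh at e1; unfold bl at e2
        cases h : e z0
        · rw [h] at e2; simp only [Bool.false_eq_true, if_false] at e2; rw [← e2]; exact hx'F
        · rw [h] at e1; simp only [if_true] at e1; rw [← e1]; exact hxF
    have hdl : ∀ z t, B4a_dlt z0 s0 z t = 0 ∨ (B4a_dlt z0 s0 z t = 1 ∧ z = z0 ∧ t = s0) := by
      intro z t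
      unfold B4a_dlt
      by_cases h : z = z0 ∧ t = s0
      · right; exact ⟨if_pos h, h.1, h.2⟩
      · left; exact if_neg h
    rcases hc with ⟨hq, e1, e2⟩ | ⟨hq, e1, e2⟩
    · refine ⟨fun z t => g z t + 1 * B4a_dlt z0 s0 z t, ?_, ?_, ?_, ?_, ?_⟩
      · intro z t hzt
        rcases hdl z t with h | ⟨-, h6, h7⟩
        · apply h1
          intro h0
          apply hzt
          show g z t + 1 * B4a_dlt z0 s0 z t = 0
          rw [h0, h]; ring
        · rw [h6, h7]; exact ⟨hz0, hR0⟩
      · intro z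
        rw [e1] at h2
        rw [e2, B4a_vs_add, h2, B4a_vs_dlt, B4a_bw a b e, hsb z0 s0, hsw z0 s0]
        ring
      · intro z t
        have h6 := h3 z t
        rw [abs_le] at h6 ⊢
        push_cast
        rcases hdl z t with h | ⟨h, -⟩ <;> beta_reduce <;> rw [h] <;> constructor <;> linarith [h6.1, h6.2]
      · intro z t hzt
        have h6 := h4 z t hzt
        rcases hdl z t with h | ⟨h, -⟩ <;> beta_reduce <;> rw [h] <;> linarith
      · intro z t hzt
        have h6 := h5 z t hzt
        rcases hdl z t with h | ⟨h, h7, h8⟩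
        · beta_reduce; rw [h]; linarith
        · rw [h7, h8, hq] at hzt
          exact absurd hzt (by simp)
    · refine ⟨fun z t => g z t + (-1) * B4a_dlt z0 s0 z t, ?_, ?_, ?_, ?_, ?_⟩
      · intro z t hzt
        rcases hdl z t with h | ⟨-, h6, h7⟩
        · apply h1
          intro h0
          apply hzt
          show g z t + (-1) * B4a_dlt z0 s0 z t = 0
          rw [h0, h]; ring
        · rw [h6, h7]; exact ⟨hz0, hR0⟩
      · intro z
        rw [e1] at h2
        rw [e2, B4a_vs_add, h2, B4a_vs_dlt, B4a_bw a b e, hsb z0 s0, hsw z0 s0]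
        ring
      · intro z t
        have h6 := h3 z t
        rw [abs_le] at h6 ⊢
        push_cast
        rcases hdl z t with h | ⟨h, -⟩ <;> beta_reduce <;> rw [h] <;> constructor <;> linarith [h6.1, h6.2]
      · intro z t hzt
        have h6 := h4 z t hzt
        rcases hdl z t with h | ⟨h, h7, h8⟩
        · beta_reduce; rw [h]; linarith
        · rw [h7, h8, hq] at hzt
          exact absurd hzt (by simp)
      · intro z t hzt
        have h6 := h5 z t hzt
        rcases hdl z t with h | ⟨h, -⟩ <;> beta_reduce <;> rw [h] <;> linarith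
  obtain ⟨g, h1, h2, h3, h4, h5⟩ := B4a_reach _ w F hFfin hwF (fun x x' h => h.2) P hP0 hPm hPs (hreach y s hR hQ)
  have hwy : w * y⁻¹ ∈ ({1, a, b, a⁻¹, b⁻¹} : Set Γ) := by
    rw [hwdef]
    unfold wh
    cases e y
    · cases s <;> simp [gen]
    · simp
  have hdl : ∀ z t, B4a_dlt y s z t = 0 ∨ (B4a_dlt y s z t = 1 ∧ z = y ∧ t = s) := by
    intro z t
    unfold B4a_dlt
    by_cases h : z = y ∧ t = s
    · right; exact ⟨if_pos h, h.1, h.2⟩
    · left; exact if_neg h
  have hyy : B4a_dlt y s y s = 1 := by unfold B4a_dlt; exact if_pos ⟨rfl, rfl⟩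
  refine ⟨fun z t => g z t + 1 * B4a_dlt y s z t, ?_, ?_, ?_, ?_, ?_, ?_⟩
  · intro z t hzt
    rw [Set.Finite.mem_toFinset]
    rcases hdl z t with h | ⟨-, h6, h7⟩
    · have h0 : g z t ≠ 0 := by
        intro h0
        apply hzt
        show g z t + 1 * B4a_dlt y s z t = 0
        rw [h0, h]; ring
      obtain ⟨hzF, hRz⟩ := h1 z t h0
      refine ⟨?_, hRz⟩
      rw [pow_succ]
      refine Set.mem_mul.2 ⟨z * w⁻¹, hzF, w * y⁻¹, hwy, ?_⟩
      group
    · rw [h6, h7, mul_inv_cancel]
      exact ⟨B4a_one_mem (n + 1), hR⟩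
  · intro z
    rw [B4a_vs_add, h2, B4a_vs_dlt, B4a_bw a b e, ← hwdef]
    have h6 : sg' w = -1 := hsw y s
    rw [h6, hsb]
    ring
  · intro z t
    have h6 := h3 z t
    rw [hFcard, abs_le] at h6
    rw [abs_le]
    rcases hdl z t with h | ⟨h, -⟩ <;> beta_reduce <;> rw [h] <;> constructor <;> linarith [h6.1, h6.2]
  · intro z t hzt
    have h6 := h4 z t hzt
    rcases hdl z t with h | ⟨h, -⟩ <;> beta_reduce <;> rw [h] <;> linarith
  · intro z t hzt
    have h6 := h5 z t hzt
    rcases hdl z t with h | ⟨h, h7, h8⟩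
    · beta_reduce; rw [h]; linarith
    · rw [h7, h8, hQ] at hzt
      exact absurd hzt (by simp)
  · show 1 ≤ g y s + 1 * B4a_dlt y s y s
    rw [hyy]
    linarith [h4 y s hQ]

end Pool.Agent.MP1822N
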