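import Pool.Agent.Lib.MP_1822da_lc.NB.B4a

/-!
# Reachability by the flux argument (section 5 of NB1822.md, second part of THEOREM AB)

PROOF of flux: `T2 = {1, a, b, a⁻¹, b⁻¹}`, `Ball j = T2^j * w`, `A` a finite subset of `Ball n` containing `w`, not `v`, closed under
arcs inside `Ball n`. `sA (y, s) = [wh ∈ A] - [bl ∈ A]`. For `f` finitely supported with
`vs f = 0`: `∑ over all edges, f y s * sA (y, s) = 0` (sum of `vs f` over the white points of `A` minus the sum
over the black points of `A`). For `j ≤ n` let `Ej` = the edges `(y, s)` in `R` with exactly one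
endpoint in `A` and both endpoints in `Ball j`. They are all arcs INTO `A` (from a vertex of `A` one would
reach the other endpoint, which is in `Ball n`, so it would be in `A`). With `J y s = x y s - wt Q y s`: `J * sA ≥ ε` on `Ej`
(off `Q`: white endpoint in `A`, `J = x ≥ ε`; on `Q`: black endpoint in `A`, `J = x - 1 ≤ -ε`).
`J = tot B f univ`. `∑_(Ej) J * sA = ∑_c ∑_(Ej) f c * sA` (finitely many `c`). `B ⊆ T2^r` for some `r` (`Fam.cl`; `T2` is
symmetric and contains `1`), `k = 2*r + 2`. If all edges of the support of `f c` have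
both endpoints in `Ball j` the inner sum is `0` (edges of the support which are not in `Ej` have `sA = 0`).
Otherwise `f c` vanishes on `E(j-k)`: two edges `(y, s)`, `(y', s')` of its support have `y' * y⁻¹ ∈ T2^(2*r)`.
So `ε * |Ej| ≤ C1 * (|Ej| - |E(j-k)|)` with `C1 = |B| * K` (enlarge `K` so that `C1 ≥ ε`), that is
`|E(j-k)| ≤ (1 - ε/C1) |Ej|` for `k ≤ j ≤ n`; `|E1| ≥ 1` (the edge `v w`: `w ∈ A`, `v ∉ A`); `Ej ⊆ E(j+1)`; and
`|Ej| ≤ 2 |Ball j| ≤ 2 C (j+1)^D`. By no_exp `n < n0`.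
no_exp: `N (1 + i*k) ≥ (1-δ)^(-i)` against a polynomial bound, `n0` large
(exponential beats polynomial: `tendsto_pow_const_div_const_pow_of_one_lt`).
alt_cycles: `n := n0`; if `bl` is not reachable from `wh` inside `Ball n0`, `A` = set of the reachable points, contradiction to
flux. Then alt_of_reach.
-/

namespace Pool.Agent.MP1822N

open Set MeasureTheory Pointwise
open Pool.Agent.Lib.MP_1822da_lc Pool.Agent.MP1822T Pool.Agent.MP1822C

universe u v

variable {Γ : Type u} [Group Γ]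


theorem no_exp (C D k : ℕ) (hk : 1 ≤ k) {δ : ℝ} (hδ : 0 < δ) (hδ1 : δ < 1) :
    ∃ n0 : ℕ, ∀ n : ℕ, n0 ≤ n → ∀ N : ℕ → ℝ, (∀ j, N j ≤ N (j + 1)) → 1 ≤ N 1 →
      (∀ j, N j ≤ C * (j + 1 : ℝ) ^ D) →
      ∃ j, k ≤ j ∧ j ≤ n ∧ (1 - δ) * N j < N (j - k) := by
  have hd : 0 < 1 - δ := by linarith
  have hr : 1 < (1 - δ)⁻¹ := (one_lt_inv₀ hd).2 (by linarith)
  have hM : (0 : ℝ) < C * (k + 2 : ℝ) ^ D + 1 := by positivity
  have hev := (tendsto_pow_const_div_const_pow_of_one_lt D hr).eventually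
    (gt_mem_nhds (show 0 < (C * (k + 2 : ℝ) ^ D + 1)⁻¹ by positivity))
  obtain ⟨i, hi1, hi2⟩ := (hev.and (Filter.eventually_ge_atTop 1)).exists
  refine ⟨1 + i * k, fun n hn N hmono hN1 hNle => ?_⟩
  by_contra hcon
  push Not at hcon
  have hind : ∀ m, m ≤ i → (1 - δ)⁻¹ ^ m ≤ N (1 + m * k) := by
    intro m
    induction m with
    | zero =>
      intro _
      simpa using hN1
    | succ m ih =>
      intro hm
      have h1 := ih (by omega)
      have h3 : (m + 1) * k ≤ i * k := Nat.mul_le_mul_right k hm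
      have h4 : (m + 1) * k = m * k + k := by ring
      have h2 := hcon (1 + (m + 1) * k) (by omega) (by omega)
      have h5 : 1 + (m + 1) * k - k = 1 + m * k := by omega
      rw [h5] at h2
      have h6 : (1 - δ)⁻¹ ^ m ≤ (1 - δ) * N (1 + (m + 1) * k) := h1.trans h2
      rw [pow_succ, ← div_eq_mul_inv, div_le_iff₀ hd]
      linarith
  have h1 := (hind i le_rfl).trans (hNle (1 + i * k))
  have hi0 : (1 : ℝ) ≤ i := by exact_mod_cast hi2
  have h2 : (((1 + i * k : ℕ) : ℝ) + 1) ^ D ≤ (k + 2 : ℝ) ^ D * (i : ℝ) ^ D := by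
    rw [← mul_pow]
    apply pow_le_pow_left₀ (by positivity)
    push_cast
    nlinarith
  have hp : 0 < (1 - δ)⁻¹ ^ i := by positivity
  rw [div_lt_iff₀ hp] at hi1
  have h3 : (C * (k + 2 : ℝ) ^ D + 1) * (i : ℝ) ^ D < (1 - δ)⁻¹ ^ i := by
    have h4 := mul_lt_mul_of_pos_left hi1 hM
    rwa [← mul_assoc, mul_inv_cancel₀ hM.ne', one_mul] at h4
  have h5 : (C : ℝ) * (((1 + i * k : ℕ) : ℝ) + 1) ^ D ≤ C * ((k + 2 : ℝ) ^ D * (i : ℝ) ^ D) :=
    mul_le_mul_of_nonneg_left h2 (Nat.cast_nonneg _)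
  have h6 : 0 ≤ (i : ℝ) ^ D := by positivity
  linarith

open Classical in
private noncomputable def TT (a b : Γ) : Finset Γ := {1, a, b, a⁻¹, b⁻¹}

open Classical in
private theorem TT_coe (a b : Γ) (n : ℕ) :
    ((TT a b ^ n : Finset Γ) : Set Γ) = ({1, a, b, a⁻¹, b⁻¹} : Set Γ) ^ n := by
  rw [Finset.coe_pow]
  congr 1
  simp [TT]

open Classical in
private theorem TT_one (a b : Γ) : (1 : Γ) ∈ TT a b := by
  simp [TT]

open Classical in
private theorem TT_mono (a b : Γ) {m n : ℕ} (h : m ≤ n) : TT a b ^ m ⊆ TT a b ^ n :=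
  Finset.pow_subset_pow_right (TT_one a b) h

open Classical in
private theorem TT_mul {a b : Γ} {m n : ℕ} {x y : Γ} (hx : x ∈ TT a b ^ m) (hy : y ∈ TT a b ^ n) :
    x * y ∈ TT a b ^ (m + n) := by
  rw [pow_add]
  exact Finset.mul_mem_mul hx hy

open Classical in
private theorem TT_inv {a b : Γ} {n : ℕ} : ∀ {x : Γ}, x ∈ TT a b ^ n → x⁻¹ ∈ TT a b ^ n := by
  induction n with
  | zero =>
    intro x hx
    rw [pow_zero, Finset.mem_one] at hx ⊢
    rw [hx, inv_one]
  | succ n ih =>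
    intro x hx
    rw [pow_succ, Finset.mem_mul] at hx
    obtain ⟨y, hy, z, hz, rfl⟩ := hx
    rw [pow_succ', mul_inv_rev]
    refine Finset.mul_mem_mul ?_ (ih hy)
    simp only [TT, Finset.mem_insert, Finset.mem_singleton] at hz ⊢
    rcases hz with rfl | rfl | rfl | rfl | rfl <;> simp

open Classical in
private theorem TT_gen (a b : Γ) (s : Bool) : gen a b s ∈ TT a b ^ 1 := by
  rw [pow_one]
  unfold gen TT
  cases s <;> simp

open Classical in
private theorem TT_closure {a b x : Γ} (hx : x ∈ Subgroup.closure {a, b}) : ∃ r, x ∈ TT a b ^ r := by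
  induction hx using Subgroup.closure_induction with
  | mem x hx =>
    refine ⟨1, ?_⟩
    rw [pow_one]
    rcases hx with rfl | hx
    · simp [TT]
    · rw [Set.mem_singleton_iff] at hx
      rw [hx]
      simp [TT]
  | one => exact ⟨0, by simp⟩
  | mul x y _ _ hx hy =>
    obtain ⟨r, hr⟩ := hx
    obtain ⟨r', hr'⟩ := hy
    exact ⟨r + r', TT_mul hr hr'⟩
  | inv x _ hx =>
    obtain ⟨r, hr⟩ := hx
    exact ⟨r, TT_inv hr⟩

open Classical in
private theorem TT_fin {a b : Γ} (B : Finset Γ) (hB : ∀ β ∈ B, β ∈ Subgroup.closure {a, b}) :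
    ∃ r, ∀ β ∈ B, β ∈ TT a b ^ r := by
  induction B using Finset.induction_on with
  | empty => exact ⟨0, by simp⟩
  | insert β B _ ih =>
    obtain ⟨r, hr⟩ := ih fun γ hγ => hB γ (Finset.mem_insert_of_mem hγ)
    obtain ⟨r', hr'⟩ := TT_closure (hB β (Finset.mem_insert_self _ _))
    refine ⟨max r r', fun γ hγ => ?_⟩
    rcases Finset.mem_insert.1 hγ with rfl | h
    · exact TT_mono a b (le_max_right _ _) hr'
    · exact TT_mono a b (le_max_left _ _) (hr γ h)

open Classical in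
/-- the sign of an edge relative to `A` -/
private noncomputable def sA (a b : Γ) (e : Γ → Bool) (A : Set Γ) (y : Γ) (s : Bool) : ℝ :=
  (if wh a b e y s ∈ A then 1 else 0) - (if bl a b e y s ∈ A then 1 else 0)

private theorem sA_abs (a b : Γ) (e : Γ → Bool) (A : Set Γ) (y : Γ) (s : Bool) :
    |sA a b e A y s| ≤ 1 := by
  unfold sA
  split_ifs <;> norm_num

open Classical in
/-- the sum of `f * sA` over all edges is zero -/
private theorem flow_zero {a b : Γ} {e : Γ → Bool} (he : ∀ s y, e (gen a b s * y) = !(e y)) (A : Set Γ)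
    {f : Γ → Bool → ℝ} {S : Finset Γ} (hS : ∀ y s, f y s ≠ 0 → y ∈ S) (hv : ∀ y, vs a b f y = 0) :
    ∑ y ∈ S, ∑ s : Bool, f y s * sA a b e A y s = 0 := by
  obtain ⟨h, hh⟩ : ∃ h : Γ → ℝ, h = fun z => (if e z then 1 else -1) * (if z ∈ A then 1 else 0) :=
    ⟨_, rfl⟩
  have hsA : ∀ y s, sA a b e A y s = h y + h (gen a b s * y) := by
    intro y s
    have h1 := he s y
    unfold sA wh bl
    rw [hh]
    simp only [h1]
    cases e y
    · simp only [Bool.not_false, if_true, Bool.false_eq_true, if_false]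
      ring
    · simp only [Bool.not_true, if_true, Bool.false_eq_true, if_false]
      ring
  have hfin : ∀ (g : Γ → ℝ) (s : Bool), (Function.support fun y => f y s * g y).Finite := by
    intro g s
    apply S.finite_toSet.subset
    intro y hy
    rw [Function.mem_support] at hy
    exact hS y s (left_ne_zero_of_mul hy)
  have hfin2 : ∀ (s : Bool), (Function.support fun z => f ((gen a b s)⁻¹ * z) s * h z).Finite := by
    intro s
    apply (S.finite_toSet.image (fun y => gen a b s * y)).subset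
    intro z hz
    rw [Function.mem_support] at hz
    exact ⟨(gen a b s)⁻¹ * z, hS _ s (left_ne_zero_of_mul hz), mul_inv_cancel_left _ _⟩
  have hcomp : ∀ s : Bool, ∑ᶠ y, f y s * h (gen a b s * y) = ∑ᶠ z, f ((gen a b s)⁻¹ * z) s * h z := by
    intro s
    have h1 := finsum_comp_equiv (Equiv.mulLeft (gen a b s)) (f := fun z => f ((gen a b s)⁻¹ * z) s * h z)
    rw [← h1]
    apply finsum_congr
    intro y
    rw [Equiv.coe_mulLeft, inv_mul_cancel_left]
  have h0 : ∑ y ∈ S, ∑ s : Bool, f y s * sA a b e A y s = ∑ᶠ y, ∑ s : Bool, f y s * sA a b e A y s := by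
    symm
    apply finsum_eq_sum_of_support_subset
    intro y hy
    rw [Function.mem_support] at hy
    obtain ⟨s, -, hs⟩ := Finset.exists_ne_zero_of_sum_ne_zero hy
    exact hS y s (left_ne_zero_of_mul hs)
  rw [h0]
  have h1 : (fun y => ∑ s : Bool, f y s * sA a b e A y s) = fun y =>
      (f y true * h y + f y true * h (gen a b true * y)) +
      (f y false * h y + f y false * h (gen a b false * y)) := by
    funext y
    rw [Fintype.sum_bool, hsA, hsA]
    ring
  rw [h1, finsum_add_distrib, finsum_add_distrib (hfin _ _) (hfin _ _),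
    finsum_add_distrib (hfin _ _) (hfin _ _), hcomp, hcomp,
    ← finsum_add_distrib (hfin _ _) (hfin2 _), ← finsum_add_distrib (hfin _ _) (hfin2 _),
    ← finsum_add_distrib]
  · have h2 : (fun z => f z true * h z + f ((gen a b true)⁻¹ * z) true * h z +
        (f z false * h z + f ((gen a b false)⁻¹ * z) false * h z)) = fun _ => (0 : ℝ) := by
      funext z
      have h3 := hv z
      unfold vs at h3
      rw [Fintype.sum_bool] at h3
      simp only [smul_eq_mul] at h3
      calc _ = (f z true + f ((gen a b true)⁻¹ * z) true +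
            (f z false + f ((gen a b false)⁻¹ * z) false)) * h z := by ring
        _ = 0 := by rw [h3, zero_mul]
    rw [h2, finsum_zero]
  · exact ((hfin h true).union (hfin2 true)).subset (Function.support_add _ _)
  · exact ((hfin h false).union (hfin2 false)).subset (Function.support_add _ _)
  · exact ((hfin _ true).union (hfin _ true)).subset (Function.support_add _ _)
  · exact ((hfin _ false).union (hfin _ false)).subset (Function.support_add _ _)

open Classical in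
private theorem sum_conv {B : Finset Γ} {y : Γ} {g : Γ → ℝ} (hg : ∀ c, g c ≠ 0 → y * c⁻¹ ∈ B) {Cf : Finset Γ}
    (hC : ∀ β ∈ B, β⁻¹ * y ∈ Cf) : ∑ β ∈ B, g (β⁻¹ * y) = ∑ c ∈ Cf, g c := by
  have h1 : ∑ c ∈ B.image (fun β => β⁻¹ * y), g c = ∑ β ∈ B, g (β⁻¹ * y) := by
    apply Finset.sum_image
    intro x _ x' _ hxx
    have : x⁻¹ = x'⁻¹ := mul_right_cancel hxx
    exact inv_injective this
  rw [← h1]
  apply Finset.sum_subset
  · intro c hc
    obtain ⟨β, hβ, rfl⟩ := Finset.mem_image.1 hc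
    exact hC β hβ
  · intro c _ hc
    by_contra h2
    apply hc
    rw [Finset.mem_image]
    refine ⟨y * c⁻¹, hg c h2, ?_⟩
    group

open Classical in
private theorem flux_core {B : Finset Γ} {f : Γ → Γ → Bool → ℝ} {K ε : ℝ} {J σ : Γ → Bool → ℝ}
    (hsupp : ∀ c y s, f c y s ≠ 0 → y * c⁻¹ ∈ B) (hK : ∀ c y s, |f c y s| ≤ K)
    (hJ : ∀ y s, J y s = ∑ β ∈ B, f (β⁻¹ * y) y s) {E1 E2 : Finset (Γ × Bool)} (hE : E1 ⊆ E2)
    (hlow : ∀ p ∈ E2, ε ≤ J p.1 p.2 * σ p.1 p.2)
    (hc : ∀ c, |∑ p ∈ E2, f c p.1 p.2 * σ p.1 p.2| ≤ ∑ p ∈ E2 \ E1, |f c p.1 p.2|) :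
    ε * (E2.card : ℝ) ≤ (B.card * K) * ((E2.card : ℝ) - E1.card) := by
  obtain ⟨Cf, hCf⟩ : ∃ Cf : Finset Γ, Cf = (E2 ×ˢ B).image (fun q => q.2⁻¹ * q.1.1) := ⟨_, rfl⟩
  have hmem : ∀ p ∈ E2, ∀ β ∈ B, β⁻¹ * p.1 ∈ Cf := by
    intro p hp β hβ
    rw [hCf, Finset.mem_image]
    exact ⟨(p, β), Finset.mem_product.2 ⟨hp, hβ⟩, rfl⟩
  have h1 : ε * (E2.card : ℝ) ≤ ∑ p ∈ E2, J p.1 p.2 * σ p.1 p.2 := by
    calc ε * (E2.card : ℝ) = ∑ _p ∈ E2, ε := by rw [Finset.sum_const, nsmul_eq_mul, mul_comm]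
      _ ≤ _ := Finset.sum_le_sum hlow
  have h2 : ∑ p ∈ E2, J p.1 p.2 * σ p.1 p.2 = ∑ c ∈ Cf, ∑ p ∈ E2, f c p.1 p.2 * σ p.1 p.2 := by
    rw [Finset.sum_comm]
    refine Finset.sum_congr rfl fun p hp => ?_
    rw [hJ, sum_conv (g := fun c => f c p.1 p.2) (fun c hc => hsupp c p.1 p.2 hc) (hmem p hp),
      Finset.sum_mul]
  have h3 : ∑ c ∈ Cf, ∑ p ∈ E2, f c p.1 p.2 * σ p.1 p.2 ≤ ∑ c ∈ Cf, ∑ p ∈ E2 \ E1, |f c p.1 p.2| :=
    Finset.sum_le_sum fun c _ => (le_abs_self _).trans (hc c)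
  have h4 : ∑ c ∈ Cf, ∑ p ∈ E2 \ E1, |f c p.1 p.2| = ∑ p ∈ E2 \ E1, ∑ β ∈ B, |f (β⁻¹ * p.1) p.1 p.2| := by
    rw [Finset.sum_comm]
    refine Finset.sum_congr rfl fun p hp => ?_
    exact (sum_conv (g := fun c => |f c p.1 p.2|) (fun c hc => hsupp c p.1 p.2 (abs_ne_zero.1 hc))
      (hmem p (Finset.mem_sdiff.1 hp).1)).symm
  have h5 : ∑ p ∈ E2 \ E1, ∑ β ∈ B, |f (β⁻¹ * p.1) p.1 p.2| ≤ ∑ _p ∈ E2 \ E1, (B.card * K : ℝ) := by
    refine Finset.sum_le_sum fun p _ => ?_
    calc ∑ β ∈ B, |f (β⁻¹ * p.1) p.1 p.2| ≤ ∑ _β ∈ B, K := Finset.sum_le_sum fun β _ => hK _ _ _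
      _ = B.card * K := by rw [Finset.sum_const, nsmul_eq_mul]
  have h6 : ∑ _p ∈ E2 \ E1, (B.card * K : ℝ) = (B.card * K) * ((E2.card : ℝ) - E1.card) := by
    rw [Finset.sum_const, nsmul_eq_mul, Finset.card_sdiff_of_subset hE, Nat.cast_sub (Finset.card_le_card hE)]
    ring
  linarith

/-- the flux inequality -/
theorem flux {a b : Γ} {e : Γ → Bool} (he : ∀ s y, e (gen a b s * y) = !(e y))
    {R : Γ → Bool → Prop} {Q : Γ → Bool → Bool} {x : Γ → Bool → ℝ} {ε : ℝ} (hε : 0 < ε)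
    (hx : ∀ y s, R y s → ε ≤ x y s) (hxQ : ∀ y s, Q y s = true → x y s ≤ 1 - ε)
    (hnull : NullW a b R (fun y s => x y s - wt Q y s)) :
    ∃ (k : ℕ) (δ : ℝ), 1 ≤ k ∧ 0 < δ ∧ δ < 1 ∧ ∀ (n : ℕ) (w v : Γ) (A : Set Γ),
      w ∈ A → v ∉ A → (∃ y s, R y s ∧ bl a b e y s = v ∧ wh a b e y s = w) →
      (∀ z ∈ A, z * w⁻¹ ∈ ({1, a, b, a⁻¹, b⁻¹} : Set Γ) ^ n) →
      (∀ z ∈ A, ∀ z', Arc a b R Q e z z' → z' * w⁻¹ ∈ ({1, a, b, a⁻¹, b⁻¹} : Set Γ) ^ n → z' ∈ A) →
      ∃ N : ℕ → ℝ, (∀ j, N j ≤ N (j + 1)) ∧ 1 ≤ N 1 ∧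
        (∀ j, N j ≤ 2 * (({1, a, b, a⁻¹, b⁻¹} : Set Γ) ^ j).ncard) ∧
        ∀ j, k ≤ j → j ≤ n → N (j - k) ≤ (1 - δ) * N j := by
  classical
  obtain ⟨B, f, K, hF, hK, htot⟩ := hnull
  obtain ⟨r, hr⟩ := TT_fin B hF.cl
  have hK0 : 0 ≤ K := (abs_nonneg _).trans (hK 1 1 true)
  obtain ⟨C1, hC1⟩ : ∃ C1 : ℝ, C1 = B.card * K + 2 * ε := ⟨_, rfl⟩
  have hBK : 0 ≤ (B.card : ℝ) * K := by positivity
  have hC10 : 0 < C1 := by rw [hC1]; positivity
  refine ⟨2 * r + 2, ε / C1, by omega, by positivity, ?_, ?_⟩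
  · rw [div_lt_one hC10, hC1]
    linarith
  intro n w v A hwA hvA hedge hA hcl
  obtain ⟨y0, s0, hR0, hbl, hwh⟩ := hedge
  obtain ⟨Bl, hBl'⟩ : ∃ Bl : ℕ → Finset Γ, Bl = fun j => (TT a b ^ j).image (fun z => z * w) := ⟨_, rfl⟩
  have hBl : ∀ j z, z ∈ Bl j ↔ z * w⁻¹ ∈ TT a b ^ j := by
    intro j z
    rw [hBl', Finset.mem_image]
    constructor
    · rintro ⟨z', h1, rfl⟩
      rwa [mul_inv_cancel_right]
    · intro h1
      exact ⟨z * w⁻¹, h1, inv_mul_cancel_right _ _⟩
  have hBmono : ∀ {i j : ℕ}, i ≤ j → Bl i ⊆ Bl j := by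
    intro i j hij z hz
    rw [hBl] at hz ⊢
    exact TT_mono a b hij hz
  obtain ⟨E, hE'⟩ : ∃ E : ℕ → Finset (Γ × Bool), E = fun j => ((Bl j) ×ˢ (Finset.univ : Finset Bool)).filter
      fun p => R p.1 p.2 ∧ gen a b p.2 * p.1 ∈ Bl j ∧
        ¬ (wh a b e p.1 p.2 ∈ A ↔ bl a b e p.1 p.2 ∈ A) := ⟨_, rfl⟩
  have hE : ∀ j p, p ∈ E j ↔ p.1 ∈ Bl j ∧ R p.1 p.2 ∧ gen a b p.2 * p.1 ∈ Bl j ∧
        ¬ (wh a b e p.1 p.2 ∈ A ↔ bl a b e p.1 p.2 ∈ A) := by
    intro j p
    rw [hE', Finset.mem_filter, Finset.mem_product]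
    simp only [Finset.mem_univ, and_true]
  have hEmono : ∀ {i j : ℕ}, i ≤ j → E i ⊆ E j := by
    intro i j hij p hp
    rw [hE] at hp ⊢
    exact ⟨hBmono hij hp.1, hp.2.1, hBmono hij hp.2.2.1, hp.2.2.2⟩
  have hTn : ∀ j z, z * w⁻¹ ∈ ({1, a, b, a⁻¹, b⁻¹} : Set Γ) ^ j ↔ z ∈ Bl j := by
    intro j z
    rw [hBl, ← TT_coe, Finset.mem_coe]
  have hends : ∀ y s, (wh a b e y s = y ∧ bl a b e y s = gen a b s * y) ∨
      (wh a b e y s = gen a b s * y ∧ bl a b e y s = y) := by
    intro y s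
    unfold wh bl
    cases e y <;> simp
  refine ⟨fun j => ((E j).card : ℝ), fun j => ?_, ?_, fun j => ?_, fun j hkj hjn => ?_⟩
  · change ((E j).card : ℝ) ≤ ((E (j + 1)).card : ℝ)
    exact_mod_cast Finset.card_le_card (hEmono (Nat.le_succ j))
  · have h1 : (y0, s0) ∈ E 1 := by
      rw [hE]
      have hw1 : w ∈ Bl 1 := by
        rw [hBl, mul_inv_cancel, pow_one]
        exact TT_one a b
      have hg := TT_gen a b s0
      have hgw : gen a b s0 * w ∈ Bl 1 := by
        rw [hBl, mul_inv_cancel_right]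
        exact hg
      have hgw' : (gen a b s0)⁻¹ * w ∈ Bl 1 := by
        rw [hBl, mul_inv_cancel_right]
        exact TT_inv hg
      have hne : ¬ (wh a b e y0 s0 ∈ A ↔ bl a b e y0 s0 ∈ A) := by
        rw [hbl, hwh]
        intro h
        exact hvA (h.1 hwA)
      rcases hends y0 s0 with ⟨h1, h2⟩ | ⟨h1, h2⟩
      · rw [h1] at hwh
        refine ⟨?_, hR0, ?_, hne⟩
        · change y0 ∈ Bl 1
          rw [hwh]
          exact hw1
        · change gen a b s0 * y0 ∈ Bl 1
          rw [hwh]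
          exact hgw
      · rw [h1] at hwh
        refine ⟨?_, hR0, ?_, hne⟩
        · change y0 ∈ Bl 1
          have h3 : y0 = (gen a b s0)⁻¹ * w := by rw [← hwh, inv_mul_cancel_left]
          rw [h3]
          exact hgw'
        · change gen a b s0 * y0 ∈ Bl 1
          rw [hwh]
          exact hw1
    have h2 : 1 ≤ (E 1).card := Finset.card_pos.2 ⟨_, h1⟩
    change (1 : ℝ) ≤ ((E 1).card : ℝ)
    exact_mod_cast h2
  · have h1 : (E j).card ≤ (Bl j).card * 2 := by
      calc (E j).card ≤ ((Bl j) ×ˢ (Finset.univ : Finset Bool)).card := by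
            rw [hE']
            exact Finset.card_filter_le _ _
        _ = (Bl j).card * 2 := by rw [Finset.card_product, Finset.card_univ, Fintype.card_bool]
    have h2 : (Bl j).card ≤ (TT a b ^ j).card := by
      rw [hBl']
      exact Finset.card_image_le
    have h3 : (({1, a, b, a⁻¹, b⁻¹} : Set Γ) ^ j).ncard = (TT a b ^ j).card := by
      rw [← TT_coe, Set.ncard_coe_finset]
    rw [h3]
    have h4 : (E j).card ≤ 2 * (TT a b ^ j).card := by omega
    change ((E j).card : ℝ) ≤ 2 * ((TT a b ^ j).card : ℝ)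
    exact_mod_cast h4
  · -- the main inequality
    have hsub : E (j - (2 * r + 2)) ⊆ E j := hEmono (Nat.sub_le _ _)
    have hcore := flux_core (σ := sA a b e A) (ε := ε) (J := fun y s => x y s - wt Q y s) hF.supp hK (by
        intro y s
        refine (htot y s).trans ?_
        unfold tot
        refine Finset.sum_congr rfl fun β _ => ?_
        rw [Set.indicator_univ]) hsub (by
        intro p hp
        rw [hE] at hp
        obtain ⟨h1, h2, h3, h4⟩ := hp
        have hends' := hends p.1 p.2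
        have hwB : wh a b e p.1 p.2 ∈ Bl n := by
          rcases hends' with ⟨h5, -⟩ | ⟨h5, -⟩
          · rw [h5]
            exact hBmono hjn h1
          · rw [h5]
            exact hBmono hjn h3
        have hbB : bl a b e p.1 p.2 ∈ Bl n := by
          rcases hends' with ⟨-, h5⟩ | ⟨-, h5⟩
          · rw [h5]
            exact hBmono hjn h3
          · rw [h5]
            exact hBmono hjn h1
        have hxx := hx p.1 p.2 h2
        cases hQ : Q p.1 p.2 with
        | false =>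
          have h5 : bl a b e p.1 p.2 ∉ A := by
            intro h6
            apply h4
            refine ⟨fun _ => h6, fun _ => ?_⟩
            exact hcl _ h6 _ ⟨p.1, p.2, h2, Or.inl ⟨hQ, rfl, rfl⟩⟩ ((hTn n _).2 hwB)
          have h6 : wh a b e p.1 p.2 ∈ A := by
            by_contra h7
            exact h4 ⟨fun h => absurd h h7, fun h => absurd h h5⟩
          change ε ≤ (x p.1 p.2 - wt Q p.1 p.2) * sA a b e A p.1 p.2
          unfold sA wt
          rw [if_pos h6, if_neg h5, hQ]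
          simp only [Bool.false_eq_true, if_false]
          linarith
        | true =>
          have h5 : wh a b e p.1 p.2 ∉ A := by
            intro h6
            apply h4
            refine ⟨fun _ => ?_, fun _ => h6⟩
            exact hcl _ h6 _ ⟨p.1, p.2, h2, Or.inr ⟨hQ, rfl, rfl⟩⟩ ((hTn n _).2 hbB)
          have h6 : bl a b e p.1 p.2 ∈ A := by
            by_contra h7
            exact h4 ⟨fun h => absurd h h5, fun h => absurd h h7⟩
          have h7 := hxQ p.1 p.2 hQ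
          change ε ≤ (x p.1 p.2 - wt Q p.1 p.2) * sA a b e A p.1 p.2
          unfold sA wt
          rw [if_neg h5, if_pos h6, hQ]
          simp only [if_true]
          linarith) (by
        intro c
        by_cases hcase : ∀ y s, f c y s ≠ 0 → y ∈ Bl j ∧ gen a b s * y ∈ Bl j
        · have h1 : ∑ p ∈ E j, f c p.1 p.2 * sA a b e A p.1 p.2 =
              ∑ p ∈ (Bl j) ×ˢ (Finset.univ : Finset Bool), f c p.1 p.2 * sA a b e A p.1 p.2 := by
            apply Finset.sum_subset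
            · rw [hE']
              exact Finset.filter_subset _ _
            · intro p _ hp
              by_cases hf : f c p.1 p.2 = 0
              · rw [hf, zero_mul]
              · have h2 := hcase _ _ hf
                have h3 : (wh a b e p.1 p.2 ∈ A ↔ bl a b e p.1 p.2 ∈ A) := by
                  by_contra h4
                  exact hp ((hE j p).2 ⟨h2.1, hF.mem _ _ _ hf, h2.2, h4⟩)
                have h5 : sA a b e A p.1 p.2 = 0 := by
                  unfold sA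
                  by_cases h6 : wh a b e p.1 p.2 ∈ A
                  · rw [if_pos h6, if_pos (h3.1 h6), sub_self]
                  · rw [if_neg h6, if_neg (fun h => h6 (h3.2 h)), sub_self]
                rw [h5, mul_zero]
          rw [h1, Finset.sum_product, flow_zero he A (fun y s h => (hcase y s h).1) (hF.vs0 c), abs_zero]
          exact Finset.sum_nonneg fun _ _ => abs_nonneg _
        · push Not at hcase
          obtain ⟨y, s, hf, hout⟩ := hcase
          have hzero : ∀ p ∈ E (j - (2 * r + 2)), f c p.1 p.2 = 0 := by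
            intro p hp
            by_contra h1
            rw [hE] at hp
            have h2 : p.1 * w⁻¹ ∈ TT a b ^ (j - (2 * r + 2)) := (hBl _ _).1 hp.1
            have h3 : y * c⁻¹ ∈ TT a b ^ r := hr _ (hF.supp c y s hf)
            have h4 : (p.1 * c⁻¹)⁻¹ ∈ TT a b ^ r := TT_inv (hr _ (hF.supp c p.1 p.2 h1))
            have h5 := TT_mul (TT_mul h3 h4) h2
            have h6 : y * c⁻¹ * (p.1 * c⁻¹)⁻¹ * (p.1 * w⁻¹) = y * w⁻¹ := by group
            rw [h6] at h5
            have h7 := TT_mul (TT_gen a b s) h5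
            rw [← mul_assoc] at h7
            refine hout ?_ ?_
            · rw [hBl]
              exact TT_mono a b (by omega) h5
            · rw [hBl]
              exact TT_mono a b (by omega) h7
          have h1 : ∑ p ∈ E j, f c p.1 p.2 * sA a b e A p.1 p.2 =
              ∑ p ∈ E j \ E (j - (2 * r + 2)), f c p.1 p.2 * sA a b e A p.1 p.2 := by
            symm
            apply Finset.sum_subset Finset.sdiff_subset
            intro p hp hp'
            have h2 : p ∈ E (j - (2 * r + 2)) := by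
              by_contra h3
              exact hp' (Finset.mem_sdiff.2 ⟨hp, h3⟩)
            rw [hzero p h2, zero_mul]
          rw [h1]
          refine (Finset.abs_sum_le_sum_abs _ _).trans (Finset.sum_le_sum fun p _ => ?_)
          rw [abs_mul]
          calc |f c p.1 p.2| * |sA a b e A p.1 p.2| ≤ |f c p.1 p.2| * 1 :=
                mul_le_mul_of_nonneg_left (sA_abs _ _ _ _ _ _) (abs_nonneg _)
            _ = _ := mul_one _)
    have h1 : ((E (j - (2 * r + 2))).card : ℝ) ≤ (E j).card := by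
      exact_mod_cast Finset.card_le_card hsub
    have h2 : ε * ((E j).card : ℝ) ≤ C1 * (((E j).card : ℝ) - (E (j - (2 * r + 2))).card) := by
      refine hcore.trans ?_
      rw [hC1]
      apply mul_le_mul_of_nonneg_right _ (by linarith)
      linarith
    change ((E (j - (2 * r + 2))).card : ℝ) ≤ (1 - ε / C1) * (E j).card
    have h3 : ε / C1 * ((E j).card : ℝ) ≤ ((E j).card : ℝ) - (E (j - (2 * r + 2))).card := by
      rw [div_mul_eq_mul_div, div_le_iff₀ hC10]
      linarith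
    linarith

/-- **Theorem AB.** -/
theorem alt_cycles {a b : Γ}
    (hgr : ∃ C D : ℕ, ∀ n : ℕ, (({1, a, b, a⁻¹, b⁻¹} : Set Γ) ^ n).ncard ≤ C * (n + 1) ^ D)
    {e : Γ → Bool} (he : ∀ s y, e (gen a b s * y) = !(e y))
    {R : Γ → Bool → Prop} {Q : Γ → Bool → Bool} (hQR : ∀ y s, Q y s = true → R y s)
    (hQ : ∀ y, vs a b (wt Q) y = 1) {x : Γ → Bool → ℝ} {ε : ℝ} (hε : 0 < ε)
    (hx1 : ∀ y, vs a b x y = 1) (hx : ∀ y s, R y s → ε ≤ x y s) (hx0 : ∀ y s, ¬ R y s → x y s = 0)
    (hxQ : ∀ y s, Q y s = true → x y s ≤ 1 - ε)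
    (hnull : NullW a b R (fun y s => x y s - wt Q y s)) :
    ∃ (B : Finset Γ) (K : ℝ), (∀ β ∈ B, β ∈ Subgroup.closure {a, b}) ∧
      ∀ y s, R y s → Q y s = false → ∃ g : Γ → Bool → ℝ,
      (∀ z t, g z t ≠ 0 → z * y⁻¹ ∈ B ∧ R z t) ∧ (∀ z, vs a b g z = 0) ∧
      (∀ z t, |g z t| ≤ K) ∧ (∀ z t, Q z t = false → 0 ≤ g z t) ∧
      (∀ z t, Q z t = true → g z t ≤ 0) ∧ 1 ≤ g y s := by
  obtain ⟨C, D, hCD⟩ := hgr
  obtain ⟨k, δ, hk, hδ, hδ1, hfl⟩ := flux he hε hx hxQ hnull
  obtain ⟨n0, hn0⟩ := no_exp (2 * C) D k hk hδ hδ1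
  refine alt_of_reach he (R := R) (Q := Q) (n := n0) fun y s hR hQf => ?_
  by_contra hcon
  obtain ⟨w, hw⟩ : ∃ w, w = wh a b e y s := ⟨_, rfl⟩
  rw [← hw] at hcon
  obtain ⟨N, hN1, hN2, hN3, hN4⟩ := hfl n0 w (bl a b e y s) {z | Relation.ReflTransGen
      (fun x x' => Arc a b R Q e x x' ∧
        x' * w⁻¹ ∈ ({1, a, b, a⁻¹, b⁻¹} : Set Γ) ^ n0) w z} Relation.ReflTransGen.refl hcon
    ⟨y, s, hR, rfl, hw.symm⟩ (by
      intro z hz
      rcases Relation.ReflTransGen.cases_tail hz with h | ⟨z', -, h⟩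
      · rw [← h, mul_inv_cancel]
        exact Set.one_mem_pow (by simp)
      · exact h.2) (by
      intro z hz z' harc hz'
      exact Relation.ReflTransGen.tail hz ⟨harc, hz'⟩)
  obtain ⟨j, hj1, hj2, hj3⟩ := hn0 n0 le_rfl N hN1 hN2 (by
    intro j
    refine (hN3 j).trans ?_
    have h1 := hCD j
    have h2 : ((({1, a, b, a⁻¹, b⁻¹} : Set Γ) ^ j).ncard : ℝ) ≤ C * (j + 1 : ℝ) ^ D := by exact_mod_cast h1
    push_cast
    linarith)
  have := hN4 j hj1 hj2
  linarith

end Pool.Agent.MP1822N
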