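import Pool.Agent.Lib.MP_1822da_lc.NB.B4b

/-!
# Chains of safe steps

PROOFS.
safe_symm: `x' = x + tot f univ`: use `-f` (`Fam`), `x' + tot (-f) C = x + tot f Cᶜ ≥ 0`. chain_symm: induction.
chain_of_null: `B`, `K`, `g (y, s)` from alt_cycles (choice). `G y z t = ∑_s [R y s ∧ Q y s = false] g (y, s) z t`: a
`Fam` with the finite set `B`, `|G| ≤ 2 K`; `K1 = 2 K |B| + 1` bounds `∑_(β ∈ B) |G (β⁻¹*z) z t|`; `d = 1 / (2 * K1)`.
`x1 = wt Q + d * tot G univ`. Partial sums `wt Q + d * tot G C`: on `Q`-edges `≥ 1 - d*K1 = 1/2`, off `Q`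
`≥ 0`. So `SafeStep (wt Q) x1` and `SafeStep x1 (wt Q)` by safe_symm. `x1 ≥ min (1/2) d` on `R` (`G y y s ≥ 1`
for the edge itself, so `1 ∈ B`; the other terms are `≥ 0`). `x1 - x = (x1 - wt Q) - (x - wt Q)` is `NullW` (write it as one family
`f2` with `B2 = B ∪ B'`), `= tot B2 f2 univ`,
`|f2| ≤ K2`. Let `δ = min ε (min (1/2) d)`, `N ≥ |B2| * K2 / δ`, `N ≥ 1`. `x_i = x + (i/N) (x1 - x) ≥ δ` on `R`, `0` off
`R` (`x1 = 0` off `R`). `x_i → x_(i+1)` is safe with the family `f2 / N`: partial sums are `≥ δ - |B2|*K2/N ≥ 0` on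
`R`; off `R` they are `0`. So `Chain x x1`, then the last step.
-/

namespace Pool.Agent.MP1822N

open Set MeasureTheory Pointwise
open Pool.Agent.Lib.MP_1822da_lc Pool.Agent.MP1822T Pool.Agent.MP1822C

universe u v

variable {Γ : Type u} [Group Γ]


private theorem b5_tot_smul (B : Finset Γ) (r : ℝ) (f : Γ → Γ → Bool → ℝ) (C : Set Γ) (y : Γ) (s : Bool) :
    tot B (fun c y s => r * f c y s) C y s = r * tot B f C y s := by
  classical
  unfold tot
  rw [Finset.mul_sum]
  refine Finset.sum_congr rfl fun β _ => ?_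
  simp only [Set.indicator_apply]
  split_ifs
  · rfl
  · rw [mul_zero]

private theorem b5_vs_smul (a b : Γ) (r : ℝ) (F : Γ → Bool → ℝ) (y : Γ) :
    vs a b (fun z s => r * F z s) y = r * vs a b F y := by
  unfold vs
  simp only [Fintype.sum_bool]
  ring

private theorem b5_vs_add (a b : Γ) (F F' : Γ → Bool → ℝ) (y : Γ) :
    vs a b (fun z s => F z s + F' z s) y = vs a b F y + vs a b F' y := by
  unfold vs
  simp only [Fintype.sum_bool]
  ring

private theorem b5_tot_compl (B : Finset Γ) (f : Γ → Γ → Bool → ℝ) (C : Set Γ) (y : Γ) (s : Bool) :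
    tot B f C y s + tot B f Cᶜ y s = tot B f univ y s := by
  unfold tot
  rw [← Finset.sum_add_distrib]
  refine Finset.sum_congr rfl fun β _ => ?_
  rw [indicator_univ]
  exact congrFun (Set.indicator_self_add_compl C (fun c => f c y s)) (β⁻¹ * y)

private theorem b5_fam_smul {a b : Γ} {R : Γ → Bool → Prop} {B : Finset Γ} {f : Γ → Γ → Bool → ℝ}
    (h : Fam a b R B f) (r : ℝ) : Fam a b R B (fun c y s => r * f c y s) where
  cl := h.cl
  supp := fun c y s hn => h.supp c y s (right_ne_zero_of_mul hn)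
  mem := fun c y s hn => h.mem c y s (right_ne_zero_of_mul hn)
  vs0 := fun c y => by
    rw [b5_vs_smul, h.vs0, mul_zero]

private theorem b5_tot_ext {B B' : Finset Γ} (hBB : B ⊆ B') {f : Γ → Γ → Bool → ℝ}
    (hf : ∀ c y s, f c y s ≠ 0 → y * c⁻¹ ∈ B) (y : Γ) (s : Bool) :
    tot B' f univ y s = tot B f univ y s := by
  unfold tot
  simp only [indicator_univ]
  refine (Finset.sum_subset hBB fun β _ hβ => ?_).symm
  by_contra h
  apply hβ
  have h1 := hf _ _ _ h
  rwa [mul_inv_rev, inv_inv, mul_inv_cancel_left] at h1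

private theorem b5_tot_add (B : Finset Γ) (f f' : Γ → Γ → Bool → ℝ) (y : Γ) (s : Bool) :
    tot B (fun c y s => f c y s + f' c y s) univ y s = tot B f univ y s + tot B f' univ y s := by
  unfold tot
  simp only [indicator_univ]
  exact Finset.sum_add_distrib

private theorem b5_tot_abs (B : Finset Γ) {f : Γ → Γ → Bool → ℝ} {K : ℝ} (hK : 0 ≤ K)
    (hf : ∀ c y s, |f c y s| ≤ K) (C : Set Γ) (y : Γ) (s : Bool) :
    |tot B f C y s| ≤ B.card * K := by
  classical
  unfold tot
  refine (Finset.abs_sum_le_sum_abs _ _).trans ?_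
  rw [← nsmul_eq_mul]
  refine Finset.sum_le_card_nsmul _ _ _ fun β _ => ?_
  simp only [Set.indicator_apply]
  split_ifs
  · exact hf _ _ _
  · rw [abs_zero]
    exact hK

private theorem b5_tot_zero {a b : Γ} {R : Γ → Bool → Prop} {B : Finset Γ} {f : Γ → Γ → Bool → ℝ}
    (h : Fam a b R B f) (C : Set Γ) {y : Γ} {s : Bool} (hR : ¬ R y s) : tot B f C y s = 0 := by
  classical
  unfold tot
  refine Finset.sum_eq_zero fun β _ => ?_
  simp only [Set.indicator_apply]
  split_ifs
  · by_contra hn
    exact hR (h.mem _ _ _ hn)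
  · rfl

theorem safe_symm {a b : Γ} {R : Γ → Bool → Prop} {x x' : Γ → Bool → ℝ}
    (h : SafeStep a b R x x') : SafeStep a b R x' x := by
  obtain ⟨B, f, hF, htot, hC⟩ := h
  refine ⟨B, fun c y s => (-1) * f c y s, b5_fam_smul hF (-1), fun y s => ?_, fun C y s => ?_⟩
  · rw [b5_tot_smul, htot]
    ring
  · rw [b5_tot_smul, htot, ← b5_tot_compl B f C]
    have := hC Cᶜ y s
    linarith

theorem chain_symm {a b : Γ} {R : Γ → Bool → Prop} {x x' : Γ → Bool → ℝ}
    (h : Chain a b R x x') : Chain a b R x' x := by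
  induction h with
  | refl => exact Relation.ReflTransGen.refl
  | tail _ h ih => exact ih.head (safe_symm h)

/-- a long chain of small steps -/
private theorem b5_line {a b : Γ} {R : Γ → Bool → Prop} {x x1 : Γ → Bool → ℝ} {δ : ℝ} (hδ : 0 < δ)
    (hx : ∀ y s, R y s → δ ≤ x y s) (hx0 : ∀ y s, ¬ R y s → x y s = 0)
    (hx1 : ∀ y s, R y s → δ ≤ x1 y s) (hx10 : ∀ y s, ¬ R y s → x1 y s = 0)
    (hnull : NullW a b R (fun y s => x1 y s - x y s)) : Chain a b R x x1 := by
  obtain ⟨B, f, K, hF, hK, htot⟩ := hnull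
  have hK' : ∀ c y s, |f c y s| ≤ |K| := fun c y s => (hK c y s).trans (le_abs_self K)
  obtain ⟨N, hN⟩ := exists_nat_gt ((B.card * |K|) / δ)
  have hN0 : (0 : ℝ) < N := lt_of_le_of_lt (by positivity) hN
  have hN1 : (B.card * |K|) / N ≤ δ := by
    rw [div_le_iff₀ hN0]
    rw [div_lt_iff₀ hδ] at hN
    linarith
  have key : ∀ i : ℕ, i ≤ N → Chain a b R x (fun y s => x y s + (i / N : ℝ) * (x1 y s - x y s)) := by
    intro i
    induction i with
    | zero =>
      intro _
      have h1 : (fun y s => x y s + ((0 : ℕ) / N : ℝ) * (x1 y s - x y s)) = x := by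
        funext y s
        simp
      rw [h1]
      exact Relation.ReflTransGen.refl
    | succ i ih =>
      intro hi
      refine (ih (by omega)).tail ⟨B, fun c y s => (1 / N : ℝ) * f c y s, b5_fam_smul hF _,
        fun y s => ?_, fun C y s => ?_⟩
      · rw [b5_tot_smul, ← htot]
        push_cast
        ring
      · rw [b5_tot_smul]
        by_cases hR : R y s
        · have h1 := b5_tot_abs B (abs_nonneg K) hK' C y s
          have h2 : |(1 / N : ℝ) * tot B f C y s| ≤ δ := by
            rw [abs_mul, abs_of_nonneg (by positivity : (0 : ℝ) ≤ 1 / N)]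
            calc (1 / N : ℝ) * |tot B f C y s| ≤ (1 / N : ℝ) * (B.card * |K|) :=
                  mul_le_mul_of_nonneg_left h1 (by positivity)
              _ = (B.card * |K|) / N := by ring
              _ ≤ δ := hN1
          have h3 := (abs_le.1 h2).1
          have h4 : δ ≤ x y s + (i / N : ℝ) * (x1 y s - x y s) := by
            have h5 : (0 : ℝ) ≤ i / N := by positivity
            have h6 : (i / N : ℝ) ≤ 1 := by
              rw [div_le_one hN0]
              exact_mod_cast (by omega : i ≤ N)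
            nlinarith [hx y s hR, hx1 y s hR]
          linarith
        · beta_reduce
          rw [b5_tot_zero hF C hR, hx0 y s hR, hx10 y s hR]
          simp
  have h1 := key N le_rfl
  have h2 : (fun y s => x y s + (N / N : ℝ) * (x1 y s - x y s)) = x1 := by
    funext y s
    rw [div_self hN0.ne']
    ring
  rwa [h2] at h1

theorem chain_of_null {a b : Γ}
    (hgr : ∃ C D : ℕ, ∀ n : ℕ, (({1, a, b, a⁻¹, b⁻¹} : Set Γ) ^ n).ncard ≤ C * (n + 1) ^ D)
    {e : Γ → Bool} (he : ∀ s y, e (gen a b s * y) = !(e y))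
    {R : Γ → Bool → Prop} {Q : Γ → Bool → Bool} (hQR : ∀ y s, Q y s = true → R y s)
    (hQ : ∀ y, vs a b (wt Q) y = 1) {x : Γ → Bool → ℝ} {ε : ℝ} (hε : 0 < ε)
    (hx1 : ∀ y, vs a b x y = 1) (hx : ∀ y s, R y s → ε ≤ x y s) (hx0 : ∀ y s, ¬ R y s → x y s = 0)
    (hxQ : ∀ y s, Q y s = true → x y s ≤ 1 - ε)
    (hnull : NullW a b R (fun y s => x y s - wt Q y s)) :
    Chain a b R x (wt Q) := by
  classical
  obtain ⟨B, K, hB, hg⟩ := alt_cycles hgr he hQR hQ hε hx1 hx hx0 hxQ hnull
  have hg' : ∀ y s, ∃ g : Γ → Bool → ℝ,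
      (∀ z t, g z t ≠ 0 → z * y⁻¹ ∈ B ∧ R z t) ∧ (∀ z, vs a b g z = 0) ∧
      (∀ z t, |g z t| ≤ |K|) ∧ (∀ z t, Q z t = false → 0 ≤ g z t) ∧
      (∀ z t, Q z t = true → g z t ≤ 0) ∧ (R y s → Q y s = false → 1 ≤ g y s) := by
    intro y s
    by_cases h : R y s ∧ Q y s = false
    · obtain ⟨g, h1, h2, h3, h4, h5, h6⟩ := hg y s h.1 h.2
      exact ⟨g, h1, h2, fun z t => (h3 z t).trans (le_abs_self K), h4, h5, fun _ _ => h6⟩
    · refine ⟨fun _ _ => 0, fun z t h0 => absurd rfl h0, fun z => ?_, fun z t => ?_, fun z t _ => le_rfl,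
        fun z t _ => le_rfl, fun h1 h2 => absurd ⟨h1, h2⟩ h⟩
      · simp [vs]
      · rw [abs_zero]
        exact abs_nonneg K
  choose g hg1 hg2 hg3 hg4 hg5 hg6 using hg'
  obtain ⟨G, hG⟩ : ∃ G : Γ → Γ → Bool → ℝ, G = fun c z t => g c true z t + g c false z t := ⟨_, rfl⟩
  have hG1 : ∀ c z t, G c z t ≠ 0 → z * c⁻¹ ∈ B ∧ R z t := by
    intro c z t hn
    by_cases h1 : g c true z t = 0
    · by_cases h2 : g c false z t = 0
      · exact absurd (by rw [hG]; beta_reduce; rw [h1, h2, add_zero]) hn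
      · exact hg1 c false z t h2
    · exact hg1 c true z t h1
  have hGF : Fam a b R B G := by
    refine ⟨hB, fun c y s h => (hG1 c y s h).1, fun c y s h => (hG1 c y s h).2, fun c y => ?_⟩
    have h1 : G c = fun z t => g c true z t + g c false z t := by rw [hG]
    rw [h1, b5_vs_add, hg2, hg2, add_zero]
  have hGK : ∀ c z t, |G c z t| ≤ 2 * |K| := by
    intro c z t
    rw [hG]
    have h1 := hg3 c true z t
    have h2 := hg3 c false z t
    refine (abs_add_le _ _).trans ?_
    linarith
  have hG4 : ∀ c z t, Q z t = false → 0 ≤ G c z t := by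
    intro c z t h
    rw [hG]
    exact add_nonneg (hg4 c true z t h) (hg4 c false z t h)
  have hG6 : ∀ y s, R y s → Q y s = false → 1 ≤ G y y s := by
    intro y s h1 h2
    have h3 := hg6 y s h1 h2
    rw [hG]
    beta_reduce
    have h4 := hg4 y true y s h2
    have h5 := hg4 y false y s h2
    cases s
    · linarith
    · linarith
  obtain ⟨K1, hK1⟩ : ∃ K1 : ℝ, K1 = B.card * (2 * |K|) + 1 := ⟨_, rfl⟩
  have hK1p : 0 < K1 := by
    rw [hK1]
    positivity
  obtain ⟨d, hd⟩ : ∃ d : ℝ, d = 1 / (2 * K1) := ⟨_, rfl⟩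
  have hd0 : 0 < d := by
    rw [hd]
    positivity
  have hdK : d * K1 = 1 / 2 := by
    rw [hd]
    field_simp
  have hGt : ∀ C y s, |tot B G C y s| ≤ K1 := by
    intro C y s
    have h1 := b5_tot_abs B (by positivity : (0 : ℝ) ≤ 2 * |K|) hGK C y s
    rw [hK1]
    linarith
  have hGpos : ∀ C y s, Q y s = false → 0 ≤ tot B G C y s := by
    intro C y s h
    unfold tot
    refine Finset.sum_nonneg fun β _ => ?_
    simp only [Set.indicator_apply]
    split_ifs
    · exact hG4 _ _ _ h
    · exact le_rfl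
  have hpart : ∀ C y s, Q y s = true → 1 / 2 ≤ wt Q y s + d * tot B G C y s := by
    intro C y s h
    have h1 : wt Q y s = 1 := by simp [wt, h]
    have h2 := (abs_le.1 (hGt C y s)).1
    have h3 : d * (-K1) ≤ d * tot B G C y s := mul_le_mul_of_nonneg_left h2 hd0.le
    rw [h1]
    linarith
  have hwt0 : ∀ y s, Q y s = false → wt Q y s = 0 := by
    intro y s h
    simp [wt, h]
  obtain ⟨x1, hx1d⟩ : ∃ x1 : Γ → Bool → ℝ, x1 = fun y s => wt Q y s + d * tot B G univ y s := ⟨_, rfl⟩
  have hstep : SafeStep a b R (wt Q) x1 := by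
    refine ⟨B, fun c y s => d * G c y s, b5_fam_smul hGF d, fun y s => ?_, fun C y s => ?_⟩
    · rw [b5_tot_smul, hx1d]
    · rw [b5_tot_smul]
      cases h : Q y s
      · rw [hwt0 y s h, zero_add]
        exact mul_nonneg hd0.le (hGpos C y s h)
      · exact le_trans (by norm_num) (hpart C y s h)
  have hx1R : ∀ y s, R y s → min (1 / 2) d ≤ x1 y s := by
    intro y s hR
    rw [hx1d]
    beta_reduce
    cases h : Q y s
    · refine (min_le_right _ _).trans ?_
      rw [hwt0 y s h, zero_add]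
      have h1 := hG6 y s hR h
      have h2 : (1 : Γ) ∈ B := by
        have h3 := (hG1 y y s (by intro h4; rw [h4] at h1; linarith)).1
        rwa [mul_inv_cancel] at h3
      have h3 : G y y s ≤ tot B G univ y s := by
        unfold tot
        simp only [indicator_univ]
        have h4 := Finset.single_le_sum (f := fun β => G (β⁻¹ * y) y s) (s := B)
          (fun β _ => hG4 _ _ _ h) h2
        simpa using h4
      calc d = d * 1 := (mul_one d).symm
        _ ≤ d * tot B G univ y s := mul_le_mul_of_nonneg_left (h1.trans h3) hd0.le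
    · exact (min_le_left _ _).trans (hpart univ y s h)
  have hx10 : ∀ y s, ¬ R y s → x1 y s = 0 := by
    intro y s hR
    rw [hx1d]
    beta_reduce
    have h1 : Q y s = false := by
      cases h : Q y s
      · rfl
      · exact absurd (hQR y s h) hR
    rw [hwt0 y s h1, b5_tot_zero hGF univ hR, mul_zero, add_zero]
  obtain ⟨B', f', K', hF', hK', htot'⟩ := hnull
  have hnull1 : NullW a b R (fun y s => x1 y s - x y s) := by
    refine ⟨B ∪ B', fun c y s => d * G c y s + (-1) * f' c y s, d * (2 * |K|) + K', ?_, ?_, ?_⟩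
    · have hFa := b5_fam_smul hGF d
      have hFb := b5_fam_smul hF' (-1)
      refine ⟨?_, ?_, ?_, ?_⟩
      · intro β hβ
        rcases Finset.mem_union.1 hβ with hβ | hβ
        · exact hGF.cl β hβ
        · exact hF'.cl β hβ
      · intro c y s hn
        rw [Finset.mem_union]
        by_cases hf : d * G c y s = 0
        · right
          exact hFb.supp c y s fun hf' => hn (by rw [hf, hf', add_zero])
        · left
          exact hFa.supp c y s hf
      · intro c y s hn
        by_cases hf : d * G c y s = 0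
        · exact hFb.mem c y s fun hf' => hn (by rw [hf, hf', add_zero])
        · exact hFa.mem c y s hf
      · intro c y
        have h1 := hFa.vs0 c y
        have h2 := hFb.vs0 c y
        rw [b5_vs_add, h1, h2, add_zero]
    · intro c y s
      refine (abs_add_le _ _).trans (add_le_add ?_ ?_)
      · rw [abs_mul, abs_of_pos hd0]
        exact mul_le_mul_of_nonneg_left (hGK c y s) hd0.le
      · rw [abs_mul, abs_neg, abs_one, one_mul]
        exact hK' c y s
    · intro y s
      have hFa := b5_fam_smul hGF d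
      have hFb := b5_fam_smul hF' (-1)
      rw [b5_tot_add (B ∪ B') (fun c y s => d * G c y s) (fun c y s => (-1) * f' c y s),
        b5_tot_ext Finset.subset_union_left hFa.supp, b5_tot_ext Finset.subset_union_right hFb.supp,
        b5_tot_smul, b5_tot_smul, ← htot', hx1d]
      ring
  have hδ : 0 < min ε (min (1 / 2) d) := lt_min hε (lt_min (by norm_num) hd0)
  have hch : Chain a b R x x1 := b5_line hδ (fun y s h => (min_le_left _ _).trans (hx y s h)) hx0
    (fun y s h => (min_le_right _ _).trans (hx1R y s h)) hx10 hnull1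
  exact hch.tail (safe_symm hstep)

end Pool.Agent.MP1822N
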