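import Pool.Agent.Lib.MP_1822da_lc.NB.B5a
import Pool.Agent.Lib.MP_1822da_lc.NB.B3a
import Pool.Agent.Lib.MP_1822da_lc.NB.B3c
import Pool.Agent.Lib.MP_1822da_lc.NB.B1b
import Pool.Agent.Lib.MP_1822da_lc.NB.A4b

/-!
# The designs (THEOREM D)

PROOF: `κ` from two_factor (with `b := h`). `e y = xor (α y) (β y)`. growth_pair. quad: chain_of_null with `R = RT`,
`x = u4`, `ε = 1/4`, `Q y s = (s && (β y == j))`, `wt Q = MH β j`, null_quad and `NullW.smul (-1)`; `vs (MH β j) = 1` as
`β (h⁻¹*y) = !(β y)`. cub: `R = R3 β`, `x = u3 β`, `ε = 1/3`, `wt Q = MA κ true`, null_cub2. cub': chain from `u3 β` to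
`MH β false` (null_cub1), reversed (chain_symm), and cub. `vs (u3 β) = 1`: three edges of `R3 β` at every vertex.
-/

namespace Pool.Agent.MP1822N

open Set MeasureTheory Pointwise
open Pool.Agent.Lib.MP_1822da_lc Pool.Agent.MP1822T Pool.Agent.MP1822C

universe u v

variable {Γ : Type u} [Group Γ]


private theorem b5_inv {h : Γ} {β : Γ → Bool} (hβ : ∀ y, β (h * y) = !(β y)) (y : Γ) :
    β (h⁻¹ * y) = !(β y) := by
  have h1 := hβ (h⁻¹ * y)
  rw [mul_inv_cancel_left] at h1
  rw [h1, Bool.not_not]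

private theorem b5_vs {a h : Γ} (w : Γ → Bool → ℝ) (y : Γ) :
    vs a h w y = (w y true + w (h⁻¹ * y) true) + (w y false + w (a⁻¹ * y) false) := by
  simp [vs, gen, smul_eq_mul]

omit [Group Γ] in
private theorem b5_wtH (β : Γ → Bool) (j : Bool) :
    wt (fun y s => s && (β y == j)) = MH β j := by
  funext y s
  simp [wt, MH]

omit [Group Γ] in
private theorem b5_wtA (κ : Γ → Bool) : wt (fun y s => !s && κ y) = MA κ true := by
  funext y s
  simp [wt, MA]

private theorem b5_vsH {a h : Γ} {β : Γ → Bool} (hβ : ∀ y, β (h * y) = !(β y)) (j : Bool) (y : Γ) :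
    vs a h (MH β j) y = 1 := by
  rw [b5_vs]
  simp only [MH, b5_inv hβ y]
  cases β y <;> cases j <;> simp

private theorem b5_vsA {a h : Γ} {κ : Γ → Bool} (hκ : ∀ y, κ (a * y) = !(κ y)) (j : Bool) (y : Γ) :
    vs a h (MA κ j) y = 1 := by
  rw [b5_vs]
  simp only [MA, b5_inv hκ y]
  cases κ y <;> cases j <;> simp

private theorem b5_vs3 {a h : Γ} {β : Γ → Bool} (hβ : ∀ y, β (h * y) = !(β y)) (y : Γ) :
    vs a h (u3 β) y = 1 := by
  rw [b5_vs]
  have h1 : ∀ z, u3 β z false = 1 / 3 := fun z => if_pos (Or.inl rfl)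
  rw [h1, h1]
  cases hb : β y
  · have h2 : u3 β y true = 1 / 3 := if_pos (Or.inr hb)
    have h3 : u3 β (h⁻¹ * y) true = 0 := if_neg (by simp [R3, b5_inv hβ, hb])
    rw [h2, h3]
    norm_num
  · have h2 : u3 β y true = 0 := if_neg (by simp [R3, hb])
    have h3 : u3 β (h⁻¹ * y) true = 1 / 3 := if_pos (Or.inr (by rw [b5_inv hβ, hb]; rfl))
    rw [h2, h3]
    norm_num

private theorem b5_neg {a h : Γ} {R : Γ → Bool → Prop} {w x : Γ → Bool → ℝ}
    (hn : NullW a h R (fun y s => w y s - x y s)) : NullW a h R (fun y s => x y s - w y s) := by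
  have h1 := hn.smul (-1)
  have h2 : (fun y s => (-1 : ℝ) * (w y s - x y s)) = fun y s => x y s - w y s := by
    funext y s
    ring
  rwa [h2] at h1

/-- **Theorem D.** -/
theorem designs {a h : Γ} (hnil : Group.IsNilpotent (Subgroup.closure {a, h}))
    (ha : ¬ IsOfFinOrder a) {β α : Γ → Bool} (hβh : ∀ y, β (h * y) = !(β y))
    (hβa : ∀ y, β (a * y) = β y) (hαa : ∀ y, α (a * y) = !(α y)) (hαh : ∀ y, α (h * y) = α y) :
    ∃ κ, Dsg a h β κ := by
  obtain ⟨κ, hκ, hB⟩ := two_factor hnil ha hβh hβa hαa hαh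
  have hgr := growth_pair hnil
  obtain ⟨e, he⟩ : ∃ e : Γ → Bool, ∀ s y, e (gen a h s * y) = !(e y) := by
    refine ⟨fun y => xor (α y) (β y), fun s y => ?_⟩
    cases s
    · simp only [gen, Bool.false_eq_true, if_false, hαa, hβa]
      cases α y <;> cases β y <;> rfl
    · simp only [gen, if_true, hαh, hβh]
      cases α y <;> cases β y <;> rfl
  have hcub : Chain a h (R3 β) (u3 β) (MA κ true) := by
    rw [← b5_wtA]
    refine chain_of_null hgr he (fun y s hq => ?_) (fun y => ?_) (ε := 1 / 3) (by norm_num)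
      (b5_vs3 hβh) (fun y s hr => ?_) (fun y s hr => ?_) (fun y s _ => ?_) ?_
    · left
      revert hq
      cases s <;> simp
    · rw [b5_wtA]
      exact b5_vsA hκ true y
    · unfold u3
      rw [if_pos hr]
    · unfold u3
      rw [if_neg hr]
    · unfold u3
      split_ifs <;> norm_num
    · rw [b5_wtA]
      exact b5_neg (null_cub2 hnil hβh hβa hαa hαh hκ hB)
  have hcub1 : Chain a h (R3 β) (u3 β) (MH β false) := by
    rw [← b5_wtH]
    refine chain_of_null hgr he (fun y s hq => ?_) (fun y => ?_) (ε := 1 / 3) (by norm_num)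
      (b5_vs3 hβh) (fun y s hr => ?_) (fun y s hr => ?_) (fun y s _ => ?_) ?_
    · right
      revert hq
      cases s <;> simp
    · rw [b5_wtH]
      exact b5_vsH hβh false y
    · unfold u3
      rw [if_pos hr]
    · unfold u3
      rw [if_neg hr]
    · unfold u3
      split_ifs <;> norm_num
    · rw [b5_wtH]
      exact b5_neg (null_cub1 hnil hβh hβa hαa hαh)
  refine ⟨κ, ⟨hβh, hβa, hκ, hB, fun j => ?_, hcub, (chain_symm hcub1).trans hcub⟩⟩
  rw [← b5_wtH]
  refine chain_of_null hgr he (fun y s _ => trivial) (fun y => ?_) (ε := 1 / 4) (by norm_num)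
    (fun y => ?_) (fun y s _ => le_rfl) (fun y s hr => absurd trivial hr) (fun y s _ => ?_) ?_
  · rw [b5_wtH]
    exact b5_vsH hβh j y
  · rw [b5_vs]
    norm_num [u4]
  · norm_num [u4]
  · rw [b5_wtH]
    exact b5_neg (null_quad hnil hβh hβa hαa hαh j)

end Pool.Agent.MP1822N
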