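import Pool.Agent.Lib.MP_1822da_lc.NB.Defs

/-!
# Frames and zones

PROOFS.
exists_frd: `F = insert 1 S`; `exists_sep` for `M`, `exists_frame` for `V = zone F U M` (measurable_zone); `Γ` is countable
(finitely generated; see `MP1822C.BC_partners`/`exists_sep` for how this is done there).
Zn_smul: `x ∈ Zn al be`, `γ ∈ F^r`, `r ≤ al` ⇒ `γ • x ∈ Zn (al - r) (be + r)` (zone_of_smul, smul_zone iterated; for
the lower bound use `γ⁻¹ ∈ F^r`).
frame_smul: `x ∈ zone F U m`, `γ ∈ F^r`, `m + r ≤ M` ⇒ `p (γ • x) = γ * p x` (induction on `r`).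
exists_pow: every finite `B ⊆ Γ` is contained in some `F^r` (`closure F = ⊤`, `F` symmetric, `1 ∈ F`).
-/

namespace Pool.Agent.MP1822N

open Set MeasureTheory Pointwise
open Pool.Agent.Lib.MP_1822da_lc Pool.Agent.MP1822T Pool.Agent.MP1822C

universe u v

variable {Γ : Type u} [Group Γ] {X : Type v} [MulAction Γ X]


theorem exists_frd [MeasurableSpace X] [StandardBorelSpace X]
    (hmeas : ∀ γ : Γ, Measurable fun x : X => γ • x)
    (hfree : ∀ (γ : Γ) (x : X), γ • x = x → γ = 1) {S : Finset Γ} (hsymm : ∀ s ∈ S, s⁻¹ ∈ S)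
    (h1 : (1 : Γ) ∉ S) (hgen : Subgroup.closure (S : Set Γ) = ⊤)
    (hasi : BorelAsiLe (schreierGraph S X) 1) (M : ℕ) :
    ∃ (U : Set X) (p : X → Γ), FrD (insert 1 (S : Set Γ)) U M p := by
  have : Countable Γ := countable_of_gen hsymm hgen
  have hinv : ∀ s ∈ (insert 1 (S : Set Γ) : Set Γ), s⁻¹ ∈ (insert 1 (S : Set Γ) : Set Γ) := by
    intro s hs
    rcases hs with rfl | hs
    · rw [inv_one]; exact Set.mem_insert _ _
    · exact Set.mem_insert_of_mem _ (hsymm s hs)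
  have hF : (insert 1 (S : Set Γ) : Set Γ).Finite := (S.finite_toSet).insert 1
  obtain ⟨U, hU, hV, hUc⟩ := exists_sep hsymm h1 hfree hasi M
  obtain ⟨p, hp, heq⟩ := exists_frame hmeas hfree (insert 1 (S : Set Γ)) hinv
    (zone (insert 1 (S : Set Γ)) U M) (measurable_zone hmeas hF hU M) hV
  refine ⟨U, p, ⟨Set.mem_insert _ _, hinv, hF, ?_, hU, hV, hUc, hp, heq⟩⟩
  rw [eq_top_iff, ← hgen]
  exact Subgroup.closure_mono (Set.subset_insert _ _)

theorem zone_pow_smul {F : Set Γ} (hinv : ∀ s ∈ F, s⁻¹ ∈ F) {U : Set X}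
    {m r : ℕ} {γ : Γ} (hγ : γ ∈ F ^ r) {x : X} (hx : x ∈ zone F U m) :
    γ • x ∈ zone F U (m + r) := by
  obtain ⟨δ, hδ, hx⟩ := hx
  refine ⟨δ * γ⁻¹, ?_, ?_⟩
  · rw [pow_add]
    exact Set.mul_mem_mul hδ (inv_mem_pow hinv r hγ)
  · rw [mul_smul, inv_smul_smul]
    exact hx

theorem Zn_smul {F : Set Γ} (h1 : (1 : Γ) ∈ F) (hinv : ∀ s ∈ F, s⁻¹ ∈ F) {U : Set X}
    {al be r : ℕ} (hr : r ≤ al) {γ : Γ} (hγ : γ ∈ F ^ r) {x : X} (hx : x ∈ Zn F U al be) :
    γ • x ∈ Zn F U (al - r) (be + r) := by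
  refine ⟨zone_pow_smul hinv hγ hx.1, fun h => hx.2 ?_⟩
  have h2 := zone_pow_smul hinv (inv_mem_pow hinv r hγ) h
  rw [inv_smul_smul, Nat.sub_add_cancel hr] at h2
  exact h2

theorem measurable_Zn [MeasurableSpace X] (hmeas : ∀ γ : Γ, Measurable fun x : X => γ • x)
    {F : Set Γ} (hF : F.Finite) {U : Set X} (hU : MeasurableSet U) (al be : ℕ) :
    MeasurableSet (Zn F U al be) :=
  (measurable_zone hmeas hF hU be).diff (measurable_zone hmeas hF hU al)

theorem exists_pow {F : Set Γ} (h1 : (1 : Γ) ∈ F) (hinv : ∀ s ∈ F, s⁻¹ ∈ F)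
    (hgen : Subgroup.closure F = ⊤) (B : Finset Γ) : ∃ r : ℕ, ∀ β ∈ B, β ∈ F ^ r := by
  classical
  have hone : ∀ β : Γ, ∃ r : ℕ, β ∈ F ^ r := by
    intro β
    have hβ : β ∈ Subgroup.closure F := by rw [hgen]; trivial
    induction hβ using Subgroup.closure_induction with
    | mem γ hγ => exact ⟨1, by rwa [pow_one]⟩
    | one => exact ⟨0, by rw [pow_zero]; exact Set.mem_one.2 rfl⟩
    | mul γ δ _ _ ih1 ih2 =>
      obtain ⟨r, hr⟩ := ih1
      obtain ⟨t, ht⟩ := ih2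
      exact ⟨r + t, by rw [pow_add]; exact Set.mul_mem_mul hr ht⟩
    | inv γ _ ih =>
      obtain ⟨r, hr⟩ := ih
      exact ⟨r, inv_mem_pow hinv r hr⟩
  have hmono : ∀ {r t : ℕ}, r ≤ t → F ^ r ⊆ F ^ t := by
    intro r t hrt
    exact Set.pow_subset_pow_right h1 hrt
  induction B using Finset.induction_on with
  | empty => exact ⟨0, fun β hβ => absurd hβ (Finset.notMem_empty β)⟩
  | insert β B _ ih =>
    obtain ⟨r, hr⟩ := ih
    obtain ⟨t, ht⟩ := hone β
    refine ⟨max r t, fun γ hγ => ?_⟩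
    rcases Finset.mem_insert.1 hγ with rfl | hγ
    · exact hmono (le_max_right r t) ht
    · exact hmono (le_max_left r t) (hr γ hγ)

theorem frame_smul [MeasurableSpace X] {F : Set Γ} {U : Set X} {M : ℕ} {p : X → Γ}
    (H : FrD F U M p) {m r : ℕ} (hm : m + r ≤ M) {x : X} (hx : x ∈ zone F U m) {γ : Γ}
    (hγ : γ ∈ F ^ r) : p (γ • x) = γ * p x := by
  induction r generalizing m x γ with
  | zero =>
    rw [pow_zero, Set.mem_one] at hγ
    rw [hγ, one_smul, one_mul]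
  | succ r ih =>
    rw [pow_succ] at hγ
    obtain ⟨δ, hδ, s, hs, rfl⟩ := Set.mem_mul.1 hγ
    have h1 : s • x ∈ zone F U (m + 1) := smul_zone H.inv hs hx
    have h2 := ih (m := m + 1) (by omega) h1 hδ
    have hxM : x ∈ zone F U M := zone_mono H.one U (by omega) hx
    have hsM : s • x ∈ zone F U M := zone_mono H.one U (by omega) h1
    rw [mul_smul, h2, H.eqv x hxM s hs hsM, mul_assoc]

end Pool.Agent.MP1822N
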