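import Pool.Agent.Lib.MP_1822da_lc.NB.C1a

/-!
# The barrier lemma

PROOF of barrier: let `x : X`, `C` its `Gr`-component. If `C ⊆ zone F U k`: `C` is contained in the `Stp`-cluster of `x` in
`zone F U M` (`k ≤ M`), finite. If `C ∩ zone F U k = ∅`: `C ⊆ Uᶜ` (`U = zone F U 0`), cluster of `Uᶜ`, finite.
Otherwise there are adjacent `y ∈ C ∩ zone F U k`, `y' ∈ C`, `y' ∉ zone F U k`; `y' = s • y`, `s ∈ F`, so
`y ∉ zone F U (k-1)` and `y ∈ zone F U k ⊆ zone F U (k+1)`: `y ∈ Zn (k-1) (k+1)` and the component of `y`, which is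
`C`, is finite.
-/

namespace Pool.Agent.MP1822N

open Set MeasureTheory Pointwise
open Pool.Agent.Lib.MP_1822da_lc Pool.Agent.MP1822T Pool.Agent.MP1822C

universe u v

variable {Γ : Type u} [Group Γ] {X : Type v} [MulAction Γ X]


private lemma rtg_symm {Gr : X → X → Prop} (hsym : ∀ x y, Gr x y → Gr y x) {x y : X}
    (h : Relation.ReflTransGen Gr x y) : Relation.ReflTransGen Gr y x := by
  induction h with
  | refl => exact Relation.ReflTransGen.refl
  | @tail b c _ hbc ih => exact Relation.ReflTransGen.head (hsym b c hbc) ih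

/-- **Barrier lemma.** -/
theorem barrier [MeasurableSpace X] {F : Set Γ} {U : Set X} {M : ℕ} {p : X → Γ}
    (H : FrD F U M p) {k : ℕ} (hk : 1 ≤ k) (hkM : k ≤ M) {Gr : X → X → Prop}
    (hsym : ∀ x y, Gr x y → Gr y x) (hF : ∀ x y, Gr x y → ∃ s ∈ F, s • x = y)
    (hfin : ∀ x ∈ Zn F U (k - 1) (k + 1), {y | Relation.ReflTransGen Gr x y}.Finite) (x : X) :
    {y | Relation.ReflTransGen Gr x y}.Finite := by
  classical
  have hkey : ∀ b c, Gr b c → b ∈ zone F U k → c ∉ zone F U k → b ∈ Zn F U (k - 1) (k + 1) := by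
    intro b c hbc hb hc
    obtain ⟨s, hs, rfl⟩ := hF b c hbc
    refine ⟨zone_succ H.one U k hb, fun h => hc ?_⟩
    have h2 := smul_zone H.inv hs h
    rwa [Nat.sub_add_cancel hk] at h2
  by_cases hz : ∃ z ∈ Zn F U (k - 1) (k + 1), Relation.ReflTransGen Gr x z
  · obtain ⟨z, hz, hxz⟩ := hz
    refine (hfin z hz).subset fun y hy => ?_
    exact (rtg_symm hsym hxz).trans hy
  · push Not at hz
    by_cases hx : x ∈ zone F U k
    · have hall : ∀ y, Relation.ReflTransGen Gr x y → y ∈ zone F U k ∧
          Relation.ReflTransGen (Stp F (zone F U M)) x y := by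
        intro y hy
        induction hy with
        | refl => exact ⟨hx, Relation.ReflTransGen.refl⟩
        | @tail b c hxb hbc ih =>
          have hc : c ∈ zone F U k := by
            by_contra hc
            exact hz b (hkey b c hbc ih.1 hc) hxb
          exact ⟨hc, ih.2.tail ⟨zone_mono H.one U hkM hc, hF b c hbc⟩⟩
      exact (H.finV x (zone_mono H.one U hkM hx)).subset fun y hy => (hall y hy).2
    · have hU : ∀ y, y ∉ zone F U k → y ∈ Uᶜ := by
        intro y hy hyU
        refine hy (zone_mono H.one U (Nat.zero_le k) ?_)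
        rwa [zone_zero]
      have hall : ∀ y, Relation.ReflTransGen Gr x y → y ∉ zone F U k ∧
          Relation.ReflTransGen (Stp F Uᶜ) x y := by
        intro y hy
        induction hy with
        | refl => exact ⟨hx, Relation.ReflTransGen.refl⟩
        | @tail b c hxb hbc ih =>
          have hc : c ∉ zone F U k := fun hc =>
            hz c (hkey c b (hsym b c hbc) hc ih.1) (hxb.tail hbc)
          exact ⟨hc, ih.2.tail ⟨hU c hc, hF b c hbc⟩⟩
      exact (H.finU x (hU x hx)).subset fun y hy => (hall y hy).2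

end Pool.Agent.MP1822N
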