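import Pool.Agent.Lib.MP_1822da_lc.NB.Defs

/-!
# Finite perfect matchings from fractional ones (HALL in section 6, finite part)

PROOF. Let `V = {γ ∈ K | vs w γ = 1}`, `Bk`, `Wh` its elements with `c = false`, `c = true`. A support edge (`0 < w γ s`) with one endpoint in `K`
has both in `K` and both in `V` (`vs > 0` there, weights are nonnegative); one endpoint is in `Bk`, the other in `Wh`. For `A ⊆ Bk`:
`|A| = ∑_(x ∈ A) vs w x ≤ ∑_(y ∈ N(A)) vs w y = |N(A)|` (`N(A)` = support neighbours; every edge at a point of `A` is counted once on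
the right), so there is an injection `Bk → Wh` along support edges
(`Finset.all_card_le_biUnion_card_iff_exists_injective`), and `|Bk| = |Wh|` (both are the total weight of the edges with base
in `K`), so it is a bijection. Choose for every matched pair one edge `(y, s)` in the support joining them (there may be parallel
edges). `m` = the set of the chosen edges; every `γ ∈ V` is an endpoint of exactly one of them, `γ ∈ K \ V` of none.
(`vs (wt m) γ` counts the `s` with `m γ s` plus the `s` with `m ((gen a b s)⁻¹ * γ) s`; no edge is a loop because of `hc`.)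
-/

namespace Pool.Agent.MP1822N

open Set MeasureTheory Pointwise
open Pool.Agent.Lib.MP_1822da_lc Pool.Agent.MP1822T Pool.Agent.MP1822C

universe u v

variable {Γ : Type u} [Group Γ]

private theorem c2a_vs (a b : Γ) (w : Γ → Bool → ℝ) (y : Γ) :
    vs a b w y = ∑ s : Bool, (w y s + w ((gen a b s)⁻¹ * y) s) := rfl

private theorem c2a_le1 {a b : Γ} {w : Γ → Bool → ℝ} (hw0 : ∀ γ s, 0 ≤ w γ s) (y : Γ) (s : Bool) :
    w y s ≤ vs a b w y := by
  rw [c2a_vs]
  have h1 : w y s ≤ w y s + w ((gen a b s)⁻¹ * y) s := by linarith [hw0 ((gen a b s)⁻¹ * y) s]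
  refine h1.trans ?_
  exact Finset.single_le_sum (f := fun s => w y s + w ((gen a b s)⁻¹ * y) s)
    (fun t _ => add_nonneg (hw0 _ _) (hw0 _ _)) (Finset.mem_univ s)

private theorem c2a_le2 {a b : Γ} {w : Γ → Bool → ℝ} (hw0 : ∀ γ s, 0 ≤ w γ s) (y : Γ) (s : Bool) :
    w ((gen a b s)⁻¹ * y) s ≤ vs a b w y := by
  rw [c2a_vs]
  have h1 : w ((gen a b s)⁻¹ * y) s ≤ w y s + w ((gen a b s)⁻¹ * y) s := by linarith [hw0 y s]
  refine h1.trans ?_
  exact Finset.single_le_sum (f := fun s => w y s + w ((gen a b s)⁻¹ * y) s)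
    (fun t _ => add_nonneg (hw0 _ _) (hw0 _ _)) (Finset.mem_univ s)

/-- both ends of a support edge with one end in `K` are in `K` and have vertex sum `1` -/
private theorem c2a_ends {a b : Γ} {K : Finset Γ} {w : Γ → Bool → ℝ} (hw0 : ∀ γ s, 0 ≤ w γ s)
    (hv : ∀ γ ∈ K, vs a b w γ = 0 ∨ vs a b w γ = 1)
    (hK : ∀ γ s, 0 < w γ s → (γ ∈ K ↔ gen a b s * γ ∈ K)) {γ : Γ} {s : Bool} (h : 0 < w γ s)
    (hm : γ ∈ K ∨ gen a b s * γ ∈ K) :
    (γ ∈ K ∧ vs a b w γ = 1) ∧ (gen a b s * γ ∈ K ∧ vs a b w (gen a b s * γ) = 1) := by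
  have h1 : γ ∈ K := by
    rcases hm with h1 | h1
    · exact h1
    · exact (hK γ s h).2 h1
  have h2 : gen a b s * γ ∈ K := (hK γ s h).1 h1
  have h3 : 0 < vs a b w γ := lt_of_lt_of_le h (c2a_le1 hw0 γ s)
  have h4 : 0 < vs a b w (gen a b s * γ) := by
    have := c2a_le2 (a := a) (b := b) hw0 (gen a b s * γ) s
    rw [inv_mul_cancel_left] at this
    exact lt_of_lt_of_le h this
  refine ⟨⟨h1, ?_⟩, h2, ?_⟩
  · rcases hv γ h1 with h5 | h5
    · rw [h5] at h3; exact absurd h3 (lt_irrefl _)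
    · exact h5
  · rcases hv _ h2 with h5 | h5
    · rw [h5] at h4; exact absurd h4 (lt_irrefl _)
    · exact h5

open Classical in
/-- the weight of the pair `x, y` -/
private noncomputable def c2aW (a b : Γ) (w : Γ → Bool → ℝ) (x y : Γ) : ℝ :=
  ∑ s : Bool, ((if y = gen a b s * x then w x s else 0) + (if x = gen a b s * y then w y s else 0))

private theorem c2aW_symm (a b : Γ) (w : Γ → Bool → ℝ) (x y : Γ) :
    c2aW a b w x y = c2aW a b w y x := by
  unfold c2aW
  exact Finset.sum_congr rfl fun s _ => add_comm _ _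

private theorem c2aW_nonneg {a b : Γ} {w : Γ → Bool → ℝ} (hw0 : ∀ γ s, 0 ≤ w γ s) (x y : Γ) :
    0 ≤ c2aW a b w x y := by
  classical
  unfold c2aW
  refine Finset.sum_nonneg fun s _ => add_nonneg ?_ ?_
  · split_ifs
    · exact hw0 _ _
    · exact le_rfl
  · split_ifs
    · exact hw0 _ _
    · exact le_rfl

private theorem c2aW_pos {a b : Γ} {w : Γ → Bool → ℝ} (x y : Γ)
    (h : 0 < c2aW a b w x y) :
    ∃ s, (y = gen a b s * x ∧ 0 < w x s) ∨ (x = gen a b s * y ∧ 0 < w y s) := by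
  classical
  by_contra hcon
  push Not at hcon
  have : c2aW a b w x y ≤ 0 := by
    unfold c2aW
    refine Finset.sum_nonpos fun s _ => add_nonpos ?_ ?_
    · split_ifs with h1
      · exact (hcon s).1 h1
      · exact le_rfl
    · split_ifs with h1
      · exact (hcon s).2 h1
      · exact le_rfl
  linarith

open Classical in
private theorem c2aW_row {a b : Γ} {K : Finset Γ} {c : Γ → Bool}
    (hc : ∀ s γ, c (gen a b s * γ) = !(c γ)) {w : Γ → Bool → ℝ} (hw0 : ∀ γ s, 0 ≤ w γ s)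
    (hv : ∀ γ ∈ K, vs a b w γ = 0 ∨ vs a b w γ = 1)
    (hK : ∀ γ s, 0 < w γ s → (γ ∈ K ↔ gen a b s * γ ∈ K)) {x : Γ} (hx : x ∈ K)
    (hx1 : vs a b w x = 1) :
    ∑ y ∈ K.filter (fun y => vs a b w y = 1 ∧ c y = !(c x)), c2aW a b w x y = 1 := by
  unfold c2aW
  refine Eq.trans ?_ hx1
  rw [Finset.sum_comm, c2a_vs a b w x]
  refine Finset.sum_congr rfl fun s _ => ?_
  rw [Finset.sum_add_distrib]
  congr 1
  · rw [Finset.sum_ite_eq']
    split_ifs with h
    · rfl
    · by_contra hne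
      have hpos : 0 < w x s := lt_of_le_of_ne (hw0 x s) hne
      obtain ⟨-, h2, h3⟩ := c2a_ends hw0 hv hK hpos (Or.inl hx)
      exact h (Finset.mem_filter.2 ⟨h2, h3, hc s x⟩)
  · have h1 : ∀ y ∈ K.filter (fun y => vs a b w y = 1 ∧ c y = !(c x)),
        (if x = gen a b s * y then w y s else 0)
          = if y = (gen a b s)⁻¹ * x then w y s else 0 := by
      intro y _
      have : (x = gen a b s * y) ↔ (y = (gen a b s)⁻¹ * x) := by
        constructor
        · intro h; rw [h, inv_mul_cancel_left]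
        · intro h; rw [h, mul_inv_cancel_left]
      simp only [this]
    rw [Finset.sum_congr rfl h1, Finset.sum_ite_eq' _ _ (fun y => w y s)]
    split_ifs with h
    · rfl
    · by_contra hne
      have hpos : 0 < w ((gen a b s)⁻¹ * x) s := lt_of_le_of_ne (hw0 _ s) hne
      have hx' : gen a b s * ((gen a b s)⁻¹ * x) ∈ K := by rwa [mul_inv_cancel_left]
      obtain ⟨⟨h2, h3⟩, -⟩ := c2a_ends hw0 hv hK hpos (Or.inr hx')
      have h4 := hc s ((gen a b s)⁻¹ * x)
      rw [mul_inv_cancel_left] at h4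
      exact h (Finset.mem_filter.2 ⟨h2, h3, by rw [h4, Bool.not_not]⟩)

/-- vertex sums of a set of edges: one edge -/
private theorem c2a_one {a b : Γ} {c : Γ → Bool} (hc : ∀ s γ, c (gen a b s * γ) = !(c γ))
    (m : Γ → Bool → Bool) (γ y₀ : Γ) (s₀ : Bool) (hm : m y₀ s₀ = true)
    (hi : y₀ = γ ∨ gen a b s₀ * y₀ = γ)
    (hu : ∀ y s, m y s = true → (y = γ ∨ gen a b s * y = γ) → y = y₀ ∧ s = s₀) :
    vs a b (wt m) γ = 1 := by
  classical
  have hne : ∀ s, (gen a b s)⁻¹ * γ ≠ γ := by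
    intro s h
    have h1 := hc s ((gen a b s)⁻¹ * γ)
    rw [mul_inv_cancel_left, h] at h1
    cases h2 : c γ <;> rw [h2] at h1 <;> simp at h1
  rw [c2a_vs]
  have key : ∀ s : Bool, wt m γ s + wt m ((gen a b s)⁻¹ * γ) s = if s = s₀ then 1 else 0 := by
    intro s
    rcases hi with hi | hi
    · subst hi
      have h1 : wt m ((gen a b s)⁻¹ * y₀) s = 0 := by
        unfold wt
        rw [if_neg]
        intro h
        exact hne s (hu _ s h (Or.inr (mul_inv_cancel_left _ _))).1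
      rw [h1, add_zero]
      unfold wt
      by_cases hs : s = s₀
      · subst hs; rw [if_pos hm, if_pos rfl]
      · rw [if_neg hs, if_neg]
        intro h
        exact hs (hu _ s h (Or.inl rfl)).2
    · have hy : y₀ = (gen a b s₀)⁻¹ * γ := by rw [← hi, inv_mul_cancel_left]
      have h1 : wt m γ s = 0 := by
        unfold wt
        rw [if_neg]
        intro h
        have := (hu _ s h (Or.inl rfl)).1
        rw [hy] at this
        exact hne s₀ this.symm
      rw [h1, zero_add]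
      unfold wt
      by_cases hs : s = s₀
      · subst hs; rw [if_pos (by rw [← hy]; exact hm), if_pos rfl]
      · rw [if_neg hs, if_neg]
        intro h
        exact hs (hu _ s h (Or.inr (mul_inv_cancel_left _ _))).2
  rw [Finset.sum_congr rfl fun s _ => key s]
  simp

/-- vertex sums of a set of edges: no edge -/
private theorem c2a_none {a b : Γ} (m : Γ → Bool → Bool) (γ : Γ)
    (hu : ∀ y s, m y s = true → ¬ (y = γ ∨ gen a b s * y = γ)) :
    vs a b (wt m) γ = 0 := by
  rw [c2a_vs]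
  refine Finset.sum_eq_zero fun s _ => ?_
  unfold wt
  rw [if_neg, if_neg, add_zero]
  · intro h
    exact hu _ s h (Or.inr (mul_inv_cancel_left _ _))
  · intro h
    exact hu _ s h (Or.inl rfl)

open Classical in
/-- Hall: an injection from the black to the white vertices of the support -/
private theorem c2a_hall {a b : Γ} {K : Finset Γ} {c : Γ → Bool}
    (hc : ∀ s γ, c (gen a b s * γ) = !(c γ)) {w : Γ → Bool → ℝ} (hw0 : ∀ γ s, 0 ≤ w γ s)
    (hv : ∀ γ ∈ K, vs a b w γ = 0 ∨ vs a b w γ = 1)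
    (hK : ∀ γ s, 0 < w γ s → (γ ∈ K ↔ gen a b s * γ ∈ K)) :
    ∃ f : {x // x ∈ K.filter (fun y => vs a b w y = 1 ∧ c y = false)} → Γ,
      Function.Injective f ∧
      (∀ x, f x ∈ K.filter (fun y => vs a b w y = 1 ∧ c y = true) ∧ 0 < c2aW a b w x (f x)) ∧
      ∀ y ∈ K.filter (fun y => vs a b w y = 1 ∧ c y = true), ∃ x, f x = y := by
  set Bk := K.filter (fun y => vs a b w y = 1 ∧ c y = false) with hBk
  set Wh := K.filter (fun y => vs a b w y = 1 ∧ c y = true) with hWh
  have hr : ∀ x ∈ Bk, ∑ y ∈ Wh, c2aW a b w x y = 1 := by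
    intro x hx
    obtain ⟨h1, h2, h3⟩ := Finset.mem_filter.1 hx
    have := c2aW_row hc hw0 hv hK h1 h2
    rw [h3] at this
    exact this
  have hl : ∀ y ∈ Wh, ∑ x ∈ Bk, c2aW a b w x y = 1 := by
    intro y hy
    obtain ⟨h1, h2, h3⟩ := Finset.mem_filter.1 hy
    have := c2aW_row hc hw0 hv hK h1 h2
    rw [h3] at this
    rw [← this]
    exact Finset.sum_congr rfl fun x _ => c2aW_symm a b w x y
  have hcard : (Bk.card : ℝ) = Wh.card := by
    have h1 : (Bk.card : ℝ) = ∑ x ∈ Bk, ∑ y ∈ Wh, c2aW a b w x y := by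
      rw [Finset.sum_congr rfl hr]; simp
    have h2 : (Wh.card : ℝ) = ∑ y ∈ Wh, ∑ x ∈ Bk, c2aW a b w x y := by
      rw [Finset.sum_congr rfl hl]; simp
    rw [h1, h2, Finset.sum_comm]
  have hcard' : Bk.card = Wh.card := by exact_mod_cast hcard
  have hH := (Finset.all_card_le_biUnion_card_iff_exists_injective
    (fun x : {x // x ∈ Bk} => Wh.filter (fun y => 0 < c2aW a b w x y))).1 (by
      intro A
      set N := A.biUnion (fun x : {x // x ∈ Bk} => Wh.filter (fun y => 0 < c2aW a b w x y))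
        with hN
      have hNW : N ⊆ Wh := by
        intro y hy
        obtain ⟨x, _, hx⟩ := Finset.mem_biUnion.1 hy
        exact (Finset.mem_filter.1 hx).1
      have h1 : (A.card : ℝ) = ∑ x ∈ A, ∑ y ∈ N, c2aW a b w x y := by
        have h2 : ∀ x ∈ A, ∑ y ∈ N, c2aW a b w x y = 1 := by
          intro x hx
          rw [← hr x x.2]
          refine Finset.sum_subset hNW fun y hy hyN => ?_
          by_contra hne
          have hpos : 0 < c2aW a b w x y := lt_of_le_of_ne (c2aW_nonneg hw0 _ _) (Ne.symm hne)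
          exact hyN (Finset.mem_biUnion.2 ⟨x, hx, Finset.mem_filter.2 ⟨hy, hpos⟩⟩)
        rw [Finset.sum_congr rfl h2]; simp
      have h3 : ∑ x ∈ A, ∑ y ∈ N, c2aW a b w x y ≤ N.card := by
        rw [Finset.sum_comm]
        have h4 : ∀ y ∈ N, ∑ x ∈ A, c2aW a b w x y ≤ 1 := by
          intro y hy
          rw [← hl y (hNW hy), ← Finset.sum_coe_sort Bk]
          exact Finset.sum_le_sum_of_subset_of_nonneg (Finset.subset_univ A)
            fun x _ _ => c2aW_nonneg hw0 _ _
        calc ∑ y ∈ N, ∑ x ∈ A, c2aW a b w x y ≤ ∑ _y ∈ N, (1 : ℝ) := Finset.sum_le_sum h4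
          _ = N.card := by simp
      have h5 : (A.card : ℝ) ≤ N.card := h1 ▸ h3
      exact_mod_cast h5)
  obtain ⟨f, hf, hf2⟩ := hH
  have hf3 : ∀ x, f x ∈ Wh ∧ 0 < c2aW a b w x (f x) := fun x => by
    have := hf2 x
    exact Finset.mem_filter.1 this
  refine ⟨f, hf, hf3, ?_⟩
  have himg : (Finset.univ.image f) = Wh := by
    apply Finset.eq_of_subset_of_card_le
    · intro y hy
      obtain ⟨x, _, rfl⟩ := Finset.mem_image.1 hy
      exact (hf3 x).1
    · rw [Finset.card_image_of_injective _ hf, Finset.card_univ, Fintype.card_coe, hcard']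
  intro y hy
  rw [← himg] at hy
  obtain ⟨x, _, hx⟩ := Finset.mem_image.1 hy
  exact ⟨x, hx⟩

theorem hall_fin {a b : Γ} {K : Finset Γ} {c : Γ → Bool}
    (hc : ∀ s γ, c (gen a b s * γ) = !(c γ)) {w : Γ → Bool → ℝ} (hw0 : ∀ γ s, 0 ≤ w γ s)
    (hv : ∀ γ ∈ K, vs a b w γ = 0 ∨ vs a b w γ = 1)
    (hK : ∀ γ s, 0 < w γ s → (γ ∈ K ↔ gen a b s * γ ∈ K)) :
    ∃ m : Γ → Bool → Bool, (∀ γ s, m γ s = true → γ ∈ K ∧ 0 < w γ s) ∧
      ∀ γ ∈ K, vs a b (wt m) γ = vs a b w γ := by
  classical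
  obtain ⟨f, hf, hf2, hf3⟩ := c2a_hall hc hw0 hv hK
  have hE : ∀ x, ∃ e : Γ × Bool, 0 < w e.1 e.2 ∧
      ((e.1 = x.1 ∧ gen a b e.2 * e.1 = f x) ∨ (e.1 = f x ∧ gen a b e.2 * e.1 = x.1)) := by
    intro x
    obtain ⟨s, hs | hs⟩ := c2aW_pos _ _ (hf2 x).2
    · exact ⟨(x.1, s), hs.2, Or.inl ⟨rfl, hs.1.symm⟩⟩
    · exact ⟨(f x, s), hs.2, Or.inr ⟨rfl, hs.1.symm⟩⟩
  choose e he1 he2 using hE
  have hxK : ∀ x : {x // x ∈ K.filter (fun y => vs a b w y = 1 ∧ c y = false)},
      x.1 ∈ K ∧ vs a b w x.1 = 1 ∧ c x.1 = false := fun x => Finset.mem_filter.1 x.2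
  have hfK : ∀ x, f x ∈ K ∧ vs a b w (f x) = 1 ∧ c (f x) = true :=
    fun x => Finset.mem_filter.1 (hf2 x).1
  have hmem : ∀ y s, decide (∃ x, e x = (y, s)) = true → ∃ x, e x = (y, s) :=
    fun y s h => of_decide_eq_true h
  refine ⟨fun y s => decide (∃ x, e x = (y, s)), ?_, ?_⟩
  · intro y s h
    obtain ⟨x, hx⟩ := hmem y s h
    have h1 := he1 x
    have h2 := he2 x
    rw [hx] at h1 h2
    refine ⟨?_, h1⟩
    rcases h2 with ⟨h2, -⟩ | ⟨h2, -⟩
    · have h2' : y = x.1 := h2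
      rw [h2']; exact (hxK x).1
    · have h2' : y = f x := h2
      rw [h2']; exact (hfK x).1
  · intro γ hγ
    -- an edge of the matching at `γ` is an edge `e x` with `γ = x` or `γ = f x`
    have hinc : ∀ x y s, e x = (y, s) → (y = γ ∨ gen a b s * y = γ) → γ = x.1 ∨ γ = f x := by
      intro x y s hx hi
      have h2 := he2 x
      rw [hx] at h2
      rcases h2 with ⟨h2, h3⟩ | ⟨h2, h3⟩ <;> rcases hi with hi | hi
      · left; rw [← hi]; exact h2
      · right; rw [← hi]; exact h3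
      · right; rw [← hi]; exact h2
      · left; rw [← hi]; exact h3
    have hinc2 : ∀ x, (γ = x.1 ∨ γ = f x) → ((e x).1 = γ ∨ gen a b (e x).2 * (e x).1 = γ) := by
      intro x hx
      rcases he2 x with ⟨h2, h3⟩ | ⟨h2, h3⟩ <;> rcases hx with hx | hx
      · left; rw [hx]; exact h2
      · right; rw [hx]; exact h3
      · right; rw [hx]; exact h3
      · left; rw [hx]; exact h2
    rcases hv γ hγ with h0 | h1
    · rw [h0]
      refine c2a_none _ γ ?_
      intro y s h hi
      obtain ⟨x, hx⟩ := hmem y s h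
      rcases hinc x y s hx hi with h2 | h2
      · rw [h2, (hxK x).2.1] at h0; exact one_ne_zero h0
      · rw [h2, (hfK x).2.1] at h0; exact one_ne_zero h0
    · rw [h1]
      obtain ⟨x₀, hx₀⟩ : ∃ x₀, (γ = x₀.1 ∨ γ = f x₀) := by
        cases hcγ : c γ
        · exact ⟨⟨γ, Finset.mem_filter.2 ⟨hγ, h1, hcγ⟩⟩, Or.inl rfl⟩
        · obtain ⟨x, hx⟩ := hf3 γ (Finset.mem_filter.2 ⟨hγ, h1, hcγ⟩)
          exact ⟨x, Or.inr hx.symm⟩
      have huniq : ∀ x, (γ = x.1 ∨ γ = f x) → x = x₀ := by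
        intro x hx
        rcases hx with hx | hx <;> rcases hx₀ with hx₀ | hx₀
        · exact Subtype.ext (hx.symm.trans hx₀)
        · have h3 := (hxK x).2.2
          have h4 := (hfK x₀).2.2
          rw [← hx] at h3; rw [← hx₀, h3] at h4; exact absurd h4 (by decide)
        · have h3 := (hfK x).2.2
          have h4 := (hxK x₀).2.2
          rw [← hx] at h3; rw [← hx₀, h3] at h4; exact absurd h4 (by decide)
        · exact hf (hx.symm.trans hx₀)
      refine c2a_one hc _ γ (e x₀).1 (e x₀).2 ?_ (hinc2 x₀ hx₀) ?_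
      · exact decide_eq_true ⟨x₀, rfl⟩
      · intro y s h hi
        obtain ⟨x, hx⟩ := hmem y s h
        have h2 := huniq x (hinc x y s hx hi)
        rw [← h2, hx]
        exact ⟨rfl, rfl⟩

end Pool.Agent.MP1822N
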