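import Pool.Agent.Lib.MP_1822da_lc.NB.C2a

/-!
# Borel perfect matchings from fractional ones with finite components (HALL in section 6)

PROOF of hallB. Let `Rr x y = ReflTransGen (SG a b w) x y` (an equivalence relation with finite classes).
(1) Borel root and coordinates: there is `p : X → Γ` with `FM p` such that with `ρ x = (p x)⁻¹ • x`: `Rr x (ρ x)` and
`Rr x y → ρ x = ρ y` (the point of the class with the smallest `embeddingReal`).
(2) A finite set `M` of pairs `(γ, s)` is a solution at `z` if `Rr z (γ • z)` and `0 < w (γ • z) s` for all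
`(γ, s) ∈ M` and `vs a b (wt M) γ = vs a b w (γ • z)` for all `γ` with `Rr z (γ • z)`. Every `z` has a solution by
hall_fin. There are only countably many `M`, so one can choose a solution `sel z` with `FM sel`.
(3) Put `m x s = true` iff `(p x, s) ∈ sel (ρ x)`.
(The hypothesis `hc` only says that the graph is bipartite; `c` need not be Borel.)
-/

namespace Pool.Agent.MP1822N

open Set MeasureTheory Pointwise
open Pool.Agent.Lib.MP_1822da_lc Pool.Agent.MP1822T Pool.Agent.MP1822C

universe u v

variable {Γ : Type u} [Group Γ] {X : Type v} [MulAction Γ X]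

/-- points reachable in `n` steps -/
private def Dq (Q : X → X → Prop) : ℕ → Γ → Set X
  | 0, γ => {_x | γ = 1}
  | n + 1, γ => ⋃ δ : Γ, {x | x ∈ Dq Q n δ ∧ Q (δ • x) (γ • x)}

private lemma Dq_sound {Q : X → X → Prop} : ∀ (n : ℕ) (γ : Γ) (x : X), x ∈ Dq Q n γ →
    Relation.ReflTransGen Q x (γ • x)
  | 0, γ, x, h => by
    have h1 : γ = 1 := h
    rw [h1, one_smul]
  | n + 1, γ, x, h => by
    simp only [Dq, mem_iUnion] at h
    obtain ⟨δ, h1, h2⟩ := h
    exact (Dq_sound n _ x h1).tail h2

private lemma Dq_complete {Q : X → X → Prop} (hQ : ∀ x y, Q x y → ∃ γ : Γ, y = γ • x) {x y : X}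
    (h : Relation.ReflTransGen Q x y) : ∃ (γ : Γ) (n : ℕ), y = γ • x ∧ x ∈ Dq Q n γ := by
  induction h with
  | refl => exact ⟨1, 0, (one_smul _ _).symm, rfl⟩
  | @tail b c _ hbc ih =>
    obtain ⟨γ, n, rfl, h⟩ := ih
    obtain ⟨δ, rfl⟩ := hQ _ _ hbc
    refine ⟨δ * γ, n + 1, (mul_smul _ _ _).symm, ?_⟩
    simp only [Dq, mem_iUnion]
    refine ⟨γ, h, ?_⟩
    rwa [mul_smul]

private lemma meas_rtg [Countable Γ] [MeasurableSpace X]
    (hmeas : ∀ γ : Γ, Measurable fun x : X => γ • x)
    (hfree : ∀ (γ : Γ) (x : X), γ • x = x → γ = 1) {Q : X → X → Prop}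
    (hQ : ∀ x y, Q x y → ∃ γ : Γ, y = γ • x)
    (hQm : ∀ γ : Γ, MeasurableSet {x : X | Q x (γ • x)}) (γ : Γ) :
    MeasurableSet {x : X | Relation.ReflTransGen Q x (γ • x)} := by
  have hDm : ∀ n (γ : Γ), MeasurableSet (Dq (X := X) Q n γ) := by
    intro n
    induction n with
    | zero => intro γ; exact MeasurableSet.const _
    | succ n ih =>
      intro γ
      refine MeasurableSet.iUnion fun δ => ?_
      have : {x : X | Q (δ • x) (γ • x)} =
          (fun x : X => δ • x) ⁻¹' {y : X | Q y ((γ * δ⁻¹) • y)} := by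
        ext x
        simp only [mem_ofPred_eq, mem_preimage, ← mul_smul, inv_mul_cancel_right]
      have h2 : MeasurableSet {x : X | Q (δ • x) (γ • x)} := by
        rw [this]
        exact hmeas δ (hQm _)
      exact (ih δ).inter h2
  have hR : {x : X | Relation.ReflTransGen Q x (γ • x)} = ⋃ n, Dq Q n γ := by
    ext x
    simp only [mem_ofPred_eq, mem_iUnion]
    constructor
    · intro h
      obtain ⟨γ', n, h1, h2⟩ := Dq_complete hQ h
      have : γ = γ' := smul_left_cancel_free hfree h1
      exact ⟨n, this ▸ h2⟩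
    · rintro ⟨n, h⟩
      exact Dq_sound n γ x h
  rw [hR]
  exact MeasurableSet.iUnion fun n => hDm n γ

/-- Borel roots of an equivalence relation with finite classes. -/
private lemma exists_root [Countable Γ] [MeasurableSpace X] [StandardBorelSpace X]
    (hmeas : ∀ γ : Γ, Measurable fun x : X => γ • x)
    (hfree : ∀ (γ : Γ) (x : X), γ • x = x → γ = 1) {R : X → X → Prop}
    (hR : Equivalence R) (hRo : ∀ x y, R x y → ∃ γ : Γ, y = γ • x)
    (hRm : ∀ γ : Γ, MeasurableSet {x : X | R x (γ • x)}) (hfin : ∀ x, {y | R x y}.Finite) :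
    ∃ p : X → Γ, FM p ∧ (∀ x, R x ((p x)⁻¹ • x)) ∧
      ∀ x y, R x y → (p x)⁻¹ • x = (p y)⁻¹ • y := by
  have hι := measurableEmbedding_embeddingReal X
  let Mm : Γ → Set X := fun γ => {x | R x (γ • x) ∧
    ∀ δ : Γ, R x (δ • x) → embeddingReal X (γ • x) ≤ embeddingReal X (δ • x)}
  have hMm : ∀ γ, MeasurableSet (Mm γ) := by
    intro γ
    have : Mm γ = {x : X | R x (γ • x)} ∩ ⋂ δ : Γ,
        ({x : X | R x (δ • x)}ᶜ ∪
          {x : X | embeddingReal X (γ • x) ≤ embeddingReal X (δ • x)}) := by
      ext x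
      simp only [Mm, mem_ofPred_eq, mem_inter_iff, mem_iInter, mem_union, mem_compl_iff]
      refine and_congr_right fun _ => forall_congr' fun δ => ?_
      tauto
    rw [this]
    exact (hRm γ).inter (MeasurableSet.iInter fun δ => (hRm δ).compl.union
      (measurableSet_le (hι.measurable.comp (hmeas _)) (hι.measurable.comp (hmeas _))))
  have hex : ∀ x, ∃ γ, x ∈ Mm γ := by
    intro x
    obtain ⟨y, hy, hmin⟩ := Set.exists_min_image _ (embeddingReal X) (hfin x) ⟨x, hR.refl x⟩
    obtain ⟨γ, rfl⟩ := hRo _ _ hy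
    exact ⟨γ, hy, fun δ hδ => hmin _ hδ⟩
  have huni : ∀ x y γ γ', R x y → x ∈ Mm γ → y ∈ Mm γ' → γ • x = γ' • y := by
    intro x y γ γ' hxy h h'
    obtain ⟨δ, rfl⟩ := hRo _ _ hxy
    have h1 : R x ((γ' * δ) • x) := by rw [mul_smul]; exact hR.trans hxy h'.1
    have h2 : R (δ • x) ((γ * δ⁻¹) • δ • x) := by
      rw [← mul_smul, inv_mul_cancel_right]; exact hR.trans (hR.symm hxy) h.1
    have h3 := h.2 _ h1
    have h4 := h'.2 _ h2
    have e1 : (γ * δ⁻¹) • δ • x = γ • x := by rw [← mul_smul, inv_mul_cancel_right]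
    rw [e1] at h4
    rw [mul_smul] at h3
    exact hι.injective (le_antisymm h3 h4)
  choose m hm using hex
  refine ⟨fun x => (m x)⁻¹, ?_, ?_, ?_⟩
  · intro k
    have : {x | (m x)⁻¹ = k} = Mm k⁻¹ := by
      ext x
      simp only [mem_ofPred_eq]
      constructor
      · intro h
        rw [← h, inv_inv]
        exact hm x
      · intro h
        have h1 := huni x x _ _ (hR.refl x) (hm x) h
        rw [smul_left_cancel_free hfree h1, inv_inv]
    rw [this]
    exact hMm _
  · intro x
    rw [inv_inv]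
    exact (hm x).1
  · intro x y hxy
    rw [inv_inv, inv_inv]
    exact huni x y _ _ hxy (hm x) (hm y)

/-- Measurable choice from a countable set. -/
private lemma exists_sel {κ : Type*} [Countable κ] [MeasurableSpace X] {P : X → κ → Prop}
    (hP : ∀ k, MeasurableSet {x | P x k}) (hex : ∀ x, ∃ k, P x k) :
    ∃ f : X → κ, FM f ∧ ∀ x, P x (f x) := by
  classical
  rcases isEmpty_or_nonempty X with hX | ⟨⟨x0⟩⟩
  · exact ⟨fun x => (hX.false x).elim, fun k => by
      rw [Set.eq_empty_of_isEmpty {x : X | (hX.false x).elim = k}]; exact MeasurableSet.empty,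
      fun x => (hX.false x).elim⟩
  have : Nonempty κ := ⟨(hex x0).choose⟩
  obtain ⟨e, he⟩ := exists_surjective_nat κ
  have hex' : ∀ x, ∃ n, P x (e n) := by
    intro x
    obtain ⟨k, hk⟩ := hex x
    obtain ⟨n, rfl⟩ := he k
    exact ⟨n, hk⟩
  have hn : FM fun x => Nat.find (hex' x) := by
    intro n
    have : {x | Nat.find (hex' x) = n} = {x | P x (e n)} ∩ ⋂ i ∈ Finset.range n,
        {x | P x (e i)}ᶜ := by
      ext x
      simp only [mem_ofPred_eq, mem_inter_iff, mem_iInter, mem_compl_iff, Finset.mem_range,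
        Nat.find_eq_iff]
    rw [this]
    exact (hP _).inter (MeasurableSet.biInter (Finset.countable_toSet _) fun i _ => (hP _).compl)
  exact ⟨fun x => e (Nat.find (hex' x)), hn.comp e, fun x => Nat.find_spec (hex' x)⟩

open Classical in
/-- the set of edges given by a finite set of coordinates -/
private noncomputable def fm (M : Finset (Γ × Bool)) (γ : Γ) (s : Bool) : Bool :=
  decide ((γ, s) ∈ M)

/-- solutions at `z` -/
private def Val (a b : Γ) (w : X → Bool → ℝ) (R : X → X → Prop) (z : X)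
    (M : Finset (Γ × Bool)) : Prop :=
  (∀ γ s, (γ, s) ∈ M → R z (γ • z) ∧ 0 < w (γ • z) s) ∧
    ∀ γ : Γ, R z (γ • z) → vs a b (wt (fm M)) γ = vs a b w (γ • z)

private lemma vs_smul (a b : Γ) (w : X → Bool → ℝ) (z : X) (γ : Γ) :
    vs a b (fun δ s => w (δ • z) s) γ = vs a b w (γ • z) := by
  simp only [vs, smul_eq_mul, mul_smul]

/-- **Hall, Borel version.** -/
theorem hallB [Countable Γ] [MeasurableSpace X] [StandardBorelSpace X]
    (hmeas : ∀ γ : Γ, Measurable fun x : X => γ • x)
    (hfree : ∀ (γ : Γ) (x : X), γ • x = x → γ = 1) {a b : Γ} {c : X → Bool}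
    (hc : ∀ s x, c (gen a b s • x) = !(c x)) {w : X → Bool → ℝ}
    (hw : ∀ s, Measurable fun x => w x s) (hw0 : ∀ x s, 0 ≤ w x s)
    (hv : ∀ x, vs a b w x = 0 ∨ vs a b w x = 1)
    (hfin : ∀ x, {y | Relation.ReflTransGen (SG a b w) x y}.Finite) :
    ∃ m : X → Bool → Bool, (∀ s, MeasurableSet {x | m x s = true}) ∧
      (∀ x s, m x s = true → 0 < w x s) ∧ ∀ x, vs a b (wt m) x = vs a b w x := by
  classical
  set Q : X → X → Prop := SG a b w with hQdef
  set R : X → X → Prop := Relation.ReflTransGen Q with hRdef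
  have hpos : ∀ s, MeasurableSet {x | 0 < w x s} := fun s => measurableSet_lt measurable_const (hw s)
  have hQo : ∀ x y, Q x y → ∃ γ : Γ, y = γ • x := by
    rintro x y ⟨s, ⟨-, h⟩ | ⟨-, h⟩⟩
    · exact ⟨_, h⟩
    · exact ⟨(gen a b s)⁻¹, by rw [h, inv_smul_smul]⟩
  have hQs : ∀ x y, Q x y → Q y x := by
    rintro x y ⟨s, h⟩
    exact ⟨s, h.symm⟩
  have hQm : ∀ γ : Γ, MeasurableSet {x : X | Q x (γ • x)} := by
    intro γ
    have : {x : X | Q x (γ • x)} = ⋃ s : Bool, ({x | 0 < w x s} ∩ {_x | γ = gen a b s}) ∪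
        ((fun x : X => γ • x) ⁻¹' {x | 0 < w x s} ∩ {_x | gen a b s * γ = 1}) := by
      ext x
      simp only [hQdef, SG, mem_ofPred_eq, mem_iUnion, mem_union, mem_inter_iff, mem_preimage]
      refine exists_congr fun s => or_congr (and_congr_right fun _ => ?_)
        (and_congr_right fun _ => ?_)
      · exact ⟨fun h => smul_left_cancel_free hfree h, fun h => by rw [h]⟩
      · constructor
        · intro h
          apply hfree _ x
          rw [mul_smul, ← h]
        · intro h
          rw [← mul_smul, h, one_smul]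
    rw [this]
    refine MeasurableSet.iUnion fun s => ?_
    exact ((hpos s).inter (MeasurableSet.const _)).union
      ((hmeas γ (hpos s)).inter (MeasurableSet.const _))
  have hRm := meas_rtg hmeas hfree hQo hQm
  have hRe : Equivalence R := ⟨fun _ => Relation.ReflTransGen.refl,
    fun {x y} h => by
      induction h with
      | refl => exact Relation.ReflTransGen.refl
      | tail _ h2 ih => exact Relation.ReflTransGen.head (hQs _ _ h2) ih,
    fun h h' => h.trans h'⟩
  have hRo : ∀ x y, R x y → ∃ γ : Γ, y = γ • x := by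
    intro x y h
    obtain ⟨γ, n, h1, -⟩ := Dq_complete (Γ := Γ) hQo h
    exact ⟨γ, h1⟩
  obtain ⟨p, hp, hpR, hpe⟩ := exists_root hmeas hfree hRe hRo hRm hfin
  -- edges
  have hedge : ∀ x s, 0 < w x s → R x (gen a b s • x) := fun x s h =>
    Relation.ReflTransGen.single ⟨s, Or.inl ⟨h, rfl⟩⟩
  -- solutions
  have hVm : ∀ M, MeasurableSet {z | Val a b w R z M} := by
    intro M
    have h1 : MeasurableSet {z : X | ∀ γ s, (γ, s) ∈ M → R z (γ • z) ∧ 0 < w (γ • z) s} := by
      have : {z : X | ∀ γ s, (γ, s) ∈ M → R z (γ • z) ∧ 0 < w (γ • z) s} =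
          ⋂ q ∈ M, ({z | R z (q.1 • z)} ∩ (fun z : X => q.1 • z) ⁻¹' {x | 0 < w x q.2}) := by
        ext z
        simp only [mem_ofPred_eq, mem_iInter, mem_inter_iff, mem_preimage, Prod.forall]
      rw [this]
      exact MeasurableSet.biInter (Finset.countable_toSet _) fun q _ =>
        (hRm _).inter (hmeas _ (hpos _))
    have h2 : MeasurableSet {z : X | ∀ γ : Γ, R z (γ • z) →
        vs a b (wt (fm M)) γ = vs a b w (γ • z)} := by
      have : {z : X | ∀ γ : Γ, R z (γ • z) → vs a b (wt (fm M)) γ = vs a b w (γ • z)} =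
          ⋂ γ : Γ, ({z | R z (γ • z)}ᶜ ∪ {z | vs a b (wt (fm M)) γ = vs a b w (γ • z)}) := by
        ext z
        simp only [mem_ofPred_eq, mem_iInter, mem_union, mem_compl_iff]
        refine forall_congr' fun γ => ?_
        tauto
      rw [this]
      refine MeasurableSet.iInter fun γ => (hRm γ).compl.union ?_
      refine measurableSet_eq_fun measurable_const ?_
      simp only [vs]
      refine Finset.measurable_sum _ fun s _ => ?_
      refine ((hw s).comp (hmeas γ)).add ((hw s).comp ?_)
      exact (hmeas _).comp (hmeas γ)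
    exact h1.inter h2
  have hVex : ∀ z, ∃ M, Val a b w R z M := by
    intro z
    have hKf : {γ : Γ | R z (γ • z)}.Finite := by
      refine Set.Finite.of_finite_image (f := fun γ : Γ => γ • z) ((hfin z).subset ?_) ?_
      · rintro _ ⟨γ, hγ, rfl⟩
        exact hγ
      · intro γ _ δ _ h
        exact smul_left_cancel_free hfree h
    obtain ⟨m, hm1, hm2⟩ := hall_fin (a := a) (b := b) (K := hKf.toFinset)
      (c := fun γ => c (γ • z)) (w := fun γ s => w (γ • z) s)
      (fun s γ => by rw [mul_smul]; exact hc s _) (fun γ s => hw0 _ _)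
      (fun γ _ => by rw [vs_smul]; exact hv _) (by
        intro γ s h
        simp only [Finite.mem_toFinset, mem_ofPred_eq, mul_smul]
        have := hedge _ _ h
        exact ⟨fun h' => hRe.trans h' this, fun h' => hRe.trans h' (hRe.symm this)⟩)
    refine ⟨(hKf.toFinset ×ˢ Finset.univ).filter fun q => m q.1 q.2 = true, ?_, ?_⟩
    · intro γ s h
      rw [Finset.mem_filter, Finset.mem_product, Finite.mem_toFinset] at h
      exact ⟨h.1.1, (hm1 γ s h.2).2⟩
    · intro γ hγ
      rw [← vs_smul, ← hm2 γ (by rwa [Finite.mem_toFinset])]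
      congr 1
      funext δ s
      unfold wt fm
      have : (decide ((δ, s) ∈ (hKf.toFinset ×ˢ Finset.univ).filter
          fun q => m q.1 q.2 = true) = true) ↔ m δ s = true := by
        rw [decide_eq_true_iff, Finset.mem_filter, Finset.mem_product]
        constructor
        · exact fun h => h.2
        · exact fun h => ⟨⟨(hm1 δ s h).1, Finset.mem_univ _⟩, h⟩
      by_cases h : m δ s = true
      · rw [if_pos h, if_pos (this.2 h)]
      · rw [if_neg h, if_neg (fun h' => h (this.1 h'))]
  obtain ⟨sel, hsel, hsV⟩ := exists_sel hVm hVex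
  refine ⟨fun x s => fm (sel ((p x)⁻¹ • x)) (p x) s, ?_, ?_, ?_⟩
  · intro s
    have : {x : X | fm (sel ((p x)⁻¹ • x)) (p x) s = true} =
        ⋃ γ : Γ, ({x | p x = γ} ∩ (fun x : X => γ⁻¹ • x) ⁻¹' {y | sel y ∈ {M | (γ, s) ∈ M}}) := by
      ext x
      simp only [fm, decide_eq_true_eq, mem_ofPred_eq, mem_iUnion, mem_inter_iff, mem_preimage]
      constructor
      · intro h
        exact ⟨p x, rfl, h⟩
      · rintro ⟨γ, rfl, h⟩
        exact h
    rw [this]
    exact MeasurableSet.iUnion fun γ => (hp γ).inter (hmeas _ (hsel.set _))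
  · intro x s h
    have h1 : (p x, s) ∈ sel ((p x)⁻¹ • x) := by simpa [fm] using h
    have h2 := ((hsV ((p x)⁻¹ • x)).1 _ _ h1).2
    rwa [smul_inv_smul] at h2
  · intro x
    set z : X := (p x)⁻¹ • x with hz
    have hxz : p x • z = x := by rw [hz, smul_inv_smul]
    have hRz : R z (p x • z) := by rw [hxz]; exact hRe.symm (hpR x)
    have h1 := (hsV z).2 (p x) hRz
    rw [hxz] at h1
    rw [← h1]
    unfold vs
    refine Finset.sum_congr rfl fun s _ => ?_
    congr 1
    have key : fm (sel ((p ((gen a b s)⁻¹ • x))⁻¹ • (gen a b s)⁻¹ • x))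
        (p ((gen a b s)⁻¹ • x)) s = fm (sel z) ((gen a b s)⁻¹ • p x) s := by
      set y : X := (gen a b s)⁻¹ • x with hy
      by_cases hxy : R x y
      · have h2 := hpe x y hxy
        rw [← h2, ← hz]
        have h3 : p y • z = y := by rw [hz, h2, smul_inv_smul]
        have h4 : p y = (gen a b s)⁻¹ * p x := by
          refine smul_left_cancel_free hfree (x := z) ?_
          rw [h3, mul_smul, hxz]
        rw [h4, smul_eq_mul]
      · have h2 : ¬ (p y, s) ∈ sel ((p y)⁻¹ • y) := by
          intro h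
          have h3 := ((hsV ((p y)⁻¹ • y)).1 _ _ h).2
          rw [smul_inv_smul] at h3
          have h4 := hedge _ _ h3
          rw [hy, smul_inv_smul] at h4
          exact hxy (hRe.symm h4)
        have h5 : ¬ ((gen a b s)⁻¹ • p x, s) ∈ sel z := by
          intro h
          have h3 := ((hsV z).1 _ _ h).1
          rw [smul_eq_mul, mul_smul, hxz, ← hy] at h3
          exact hxy (hRe.trans (hpR x) h3)
        unfold fm
        rw [decide_eq_false h2, decide_eq_false h5]
    exact congrArg (fun q : Bool => if q = true then (1 : ℝ) else 0) key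

end Pool.Agent.MP1822N
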