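import Pool.Agent.Lib.MP_1822da_lc.NB.C1a

/-!
# Localisation of one safe step (section 6)

PROOF. `B`, `f` from `SafeStep`; `B ⊆ F^r0` (exists_pow), `r = 2 * r0 + 1`, `Z = Zn (al + r0) (be - r0)`,
`w' y s = w y s + ∑_(β ∈ B) if β⁻¹ • y ∈ Z then f (p (β⁻¹ • y)) (β * p (β⁻¹ • y)) s else 0`.
If `z = β⁻¹ • y ∈ Z` then `y = β • z ∈ Zn al be` (Zn_smul) and `p y = β * p z` (frame_smul; `be ≤ M`). So
`w' y s = w y s` for `y ∉ Zn al be`, and for `y ∈ Zn al be`: `w' y s - w y s = tot B f C (p y) s` with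
`C = {c | ∃ β ∈ B, c = β⁻¹ * p y ∧ β⁻¹ • y ∈ Z}`: nonnegativity from the safe step and `w y s = x (p y) s`.
`vs`: `vs w' y - vs w y` is a finite sum over `z ∈ Z` near `y` of `vs a b (f (p z)) (p y) = 0`: for fixed `z ∈ Z` the edges
`(y, s)` and `((gen a b s)⁻¹ • y, s)` at `y` get from `z` the values of `f (p z)` at the edges at `p y`
(`p ((gen a b s)⁻¹ • y) = (gen a b s)⁻¹ * p y` whenever one of the two terms is not zero: then `y` or its neighbour is in `F^r0 • Z`,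
`be + 1 ≤ M`). Technically: write `∑_(β ∈ B)` as a sum over `β ∈ B' = B ∪ ⋃_s gen s * B` of functions of `z = β⁻¹ • y`
(the edge `((gen a b s)⁻¹ • y, s)` and `β₀ ∈ B`: `z = β₀⁻¹ • (gen a b s)⁻¹ • y = (gen s * β₀)⁻¹ • y`), extended by zero
(`f c y s ≠ 0 → y * c⁻¹ ∈ B`), exchange the sums, and use `Fam.vs0`.
On `Zn (al + r) (be - r)` all `β⁻¹ • y` are in `Z`, so `w' y s = x (p y) s + tot B f univ (p y) s = x' (p y) s`.
Measurability: `w'` is a finite sum of functions `y ↦ (f γ (β*γ) s, γ = p (β⁻¹ • y), p` is `FM`, `Γ` countable) times the indicator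
of the measurable set `{y | β⁻¹ • y ∈ Z}`. `w' y s ≠ w y s` gives `f c (p y) s ≠ 0` for some `c`, so `R (p y) s`.
-/

namespace Pool.Agent.MP1822N

open Set MeasureTheory Pointwise
open Pool.Agent.Lib.MP_1822da_lc Pool.Agent.MP1822T Pool.Agent.MP1822C

universe u v

variable {Γ : Type u} [Group Γ]


omit [Group Γ] in
private lemma fm_measurable [Countable Γ] {X : Type v} [MeasurableSpace X] {p : X → Γ}
    (hp : FM p) (g : Γ → ℝ) : Measurable fun x => g (p x) := by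
  intro S _
  exact hp.set (g ⁻¹' S)

private lemma Zn_mono {X : Type v} [MulAction Γ X] {F : Set Γ} (h1 : (1 : Γ) ∈ F) {U : Set X}
    {al be al' be' : ℕ} (ha : al' ≤ al) (hb : be ≤ be') {y : X} (hy : y ∈ Zn F U al be) :
    y ∈ Zn F U al' be' :=
  ⟨zone_mono h1 U hb hy.1, fun h => hy.2 (zone_mono h1 U ha h)⟩

open Classical in
/-- the change of the weight -/
private noncomputable def dl {X : Type v} [MulAction Γ X] (B : Finset Γ)
    (f : Γ → Γ → Bool → ℝ) (Z : Set X) (p : X → Γ) (y : X) (s : Bool) : ℝ :=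
  ∑ β ∈ B, if β⁻¹ • y ∈ Z then f (p (β⁻¹ • y)) (β * p (β⁻¹ • y)) s else 0

private lemma dl_vs {X : Type v} [MulAction Γ X] {a b : Γ} {R : Γ → Bool → Prop} {B : Finset Γ}
    {f : Γ → Γ → Bool → ℝ} (hf : Fam a b R B f) (Z : Set X) (p : X → Γ) (y : X) :
    ∑ s : Bool, (dl B f Z p y s + dl B f Z p ((gen a b s)⁻¹ • y) s) = 0 := by
  classical
  let B' : Finset Γ := B ∪ (B.image (fun β => gen a b false * β)
    ∪ B.image (fun β => gen a b true * β))
  have h1 : ∀ s, dl B f Z p y s = ∑ g ∈ B', if g⁻¹ • y ∈ Z then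
      f (p (g⁻¹ • y)) (g * p (g⁻¹ • y)) s else 0 := by
    intro s
    rw [dl]
    refine Finset.sum_subset Finset.subset_union_left ?_
    intro g _ hg
    split_ifs with hZ
    · by_contra hne
      have := hf.supp _ _ _ hne
      rw [mul_inv_cancel_right] at this
      exact hg this
    · rfl
  have h2 : ∀ s, dl B f Z p ((gen a b s)⁻¹ • y) s = ∑ g ∈ B', if g⁻¹ • y ∈ Z then
      f (p (g⁻¹ • y)) ((gen a b s)⁻¹ * (g * p (g⁻¹ • y))) s else 0 := by
    intro s
    have h3 : dl B f Z p ((gen a b s)⁻¹ • y) s = ∑ g ∈ B.image (fun β => gen a b s * β),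
        if g⁻¹ • y ∈ Z then f (p (g⁻¹ • y)) ((gen a b s)⁻¹ * (g * p (g⁻¹ • y))) s else 0 := by
      rw [dl, Finset.sum_image (fun x _ y _ h => mul_left_cancel h)]
      refine Finset.sum_congr rfl ?_
      intro β _
      have h4 : (gen a b s * β)⁻¹ • y = β⁻¹ • (gen a b s)⁻¹ • y := by
        rw [mul_inv_rev, mul_smul]
      rw [h4]
      have h5 : (gen a b s)⁻¹ * (gen a b s * β * p (β⁻¹ • (gen a b s)⁻¹ • y))
          = β * p (β⁻¹ • (gen a b s)⁻¹ • y) := by
        rw [mul_assoc, inv_mul_cancel_left]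
      rw [h5]
    rw [h3]
    refine Finset.sum_subset ?_ ?_
    · cases s
      · exact Finset.subset_union_left.trans Finset.subset_union_right
      · exact Finset.subset_union_right.trans Finset.subset_union_right
    · intro g _ hg
      split_ifs with hZ
      · by_contra hne
        have := hf.supp _ _ _ hne
        rw [← mul_assoc, mul_inv_cancel_right] at this
        exact hg (Finset.mem_image.mpr ⟨_, this, by rw [mul_inv_cancel_left]⟩)
      · rfl
  have h3 : ∀ g ∈ B', ∑ s : Bool, ((if g⁻¹ • y ∈ Z then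
      f (p (g⁻¹ • y)) (g * p (g⁻¹ • y)) s else 0) + (if g⁻¹ • y ∈ Z then
      f (p (g⁻¹ • y)) ((gen a b s)⁻¹ * (g * p (g⁻¹ • y))) s else 0)) = 0 := by
    intro g _
    by_cases hZ : g⁻¹ • y ∈ Z
    · have h4 := hf.vs0 (p (g⁻¹ • y)) (g * p (g⁻¹ • y))
      simp only [if_pos hZ]
      exact h4
    · simp [if_neg hZ]
  calc ∑ s : Bool, (dl B f Z p y s + dl B f Z p ((gen a b s)⁻¹ • y) s)
      = ∑ s : Bool, ∑ g ∈ B', ((if g⁻¹ • y ∈ Z then
      f (p (g⁻¹ • y)) (g * p (g⁻¹ • y)) s else 0) + (if g⁻¹ • y ∈ Z then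
      f (p (g⁻¹ • y)) ((gen a b s)⁻¹ * (g * p (g⁻¹ • y))) s else 0)) := by
        refine Finset.sum_congr rfl ?_
        intro s _
        rw [h1, h2, Finset.sum_add_distrib]
    _ = 0 := by
        rw [Finset.sum_comm]
        exact Finset.sum_eq_zero h3

theorem localise_step [Countable Γ] {F : Set Γ} (h1 : (1 : Γ) ∈ F) (hinv : ∀ s ∈ F, s⁻¹ ∈ F)
    (hgen : Subgroup.closure F = ⊤) {a b : Γ} (ha : a ∈ F) (hb : b ∈ F)
    {R : Γ → Bool → Prop} {x x' : Γ → Bool → ℝ} (hch : SafeStep a b R x x') :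
    ∃ r : ℕ, ∀ {X : Type v} [MulAction Γ X] [MeasurableSpace X]
      (_ : ∀ γ : Γ, Measurable fun x : X => γ • x) {U : Set X} {M : ℕ} {p : X → Γ}
      (_ : FrD F U M p) {al be : ℕ} (_ : r ≤ al) (_ : al + 2 * r ≤ be) (_ : be + r ≤ M)
      {w : X → Bool → ℝ} (_ : ∀ s, Measurable fun x => w x s) (_ : ∀ y s, 0 ≤ w y s)
      (_ : ∀ y ∈ Zn F U al be, ∀ s, w y s = x (p y) s),
      ∃ w' : X → Bool → ℝ, (∀ s, Measurable fun x => w' x s) ∧ (∀ y s, 0 ≤ w' y s) ∧
        (∀ y, vs a b w' y = vs a b w y) ∧ (∀ y, y ∉ Zn F U al be → ∀ s, w' y s = w y s) ∧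
        (∀ y ∈ Zn F U (al + r) (be - r), ∀ s, w' y s = x' (p y) s) ∧
        ∀ y s, w' y s ≠ w y s → R (p y) s := by
  classical
  obtain ⟨B, f, hf, hx', hpos⟩ := hch
  obtain ⟨r0, hr0⟩ := exists_pow h1 hinv hgen B
  refine ⟨2 * r0, ?_⟩
  intro X _ _ hmeas U M p H al be hal hbe hM w hwm hw0 hwx
  set Z : Set X := Zn F U (al + r0) (be - r0) with hZ
  have hinv' : ∀ β ∈ B, β⁻¹ ∈ F ^ r0 := fun β hβ => inv_mem_pow hinv r0 (hr0 β hβ)
  have hzn : ∀ β ∈ B, ∀ y : X, β⁻¹ • y ∈ Z → y ∈ Zn F U al be ∧ p (β⁻¹ • y) = β⁻¹ * p y := by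
    intro β hβ y hy
    have h2 := Zn_smul h1 hinv (by omega : r0 ≤ al + r0) (hr0 β hβ) hy
    rw [smul_inv_smul] at h2
    refine ⟨Zn_mono h1 (by omega) (by omega) h2, ?_⟩
    have h3 := frame_smul H (by omega : (be - r0) + r0 ≤ M) hy.1 (hr0 β hβ)
    rw [smul_inv_smul] at h3
    rw [h3, inv_mul_cancel_left]
  have hdl : ∀ y s, dl B f Z p y s
      = tot B f {c | ∃ β ∈ B, c = β⁻¹ * p y ∧ β⁻¹ • y ∈ Z} (p y) s := by
    intro y s
    rw [dl, tot]
    refine Finset.sum_congr rfl ?_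
    intro β hβ
    by_cases hy : β⁻¹ • y ∈ Z
    · rw [if_pos hy, indicator_of_mem, (hzn β hβ y hy).2, mul_inv_cancel_left]
      exact ⟨β, hβ, rfl, hy⟩
    · rw [if_neg hy, indicator_of_notMem]
      rintro ⟨β', hβ', h2, h3⟩
      have h4 : β = β' := inv_injective (mul_right_cancel h2)
      rw [h4] at hy
      exact hy h3
  have hdl0 : ∀ y, y ∉ Zn F U al be → ∀ s, dl B f Z p y s = 0 := by
    intro y hy s
    rw [dl]
    refine Finset.sum_eq_zero ?_
    intro β hβ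
    rw [if_neg]
    intro h2
    exact hy (hzn β hβ y h2).1
  refine ⟨fun y s => w y s + dl B f Z p y s, ?_, ?_, ?_, ?_, ?_, ?_⟩
  · intro s
    refine (hwm s).add ?_
    unfold dl
    refine Finset.measurable_sum _ ?_
    intro β _
    have hm : Measurable fun y : X => β⁻¹ • y := hmeas β⁻¹
    refine Measurable.ite ?_ ?_ measurable_const
    · exact hm (measurable_Zn hmeas H.fin H.meas _ _)
    · exact fm_measurable (H.fm.comp_meas hm) (fun γ => f γ (β * γ) s)
  · intro y s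
    by_cases hy : y ∈ Zn F U al be
    · have h2 := hpos {c | ∃ β ∈ B, c = β⁻¹ * p y ∧ β⁻¹ • y ∈ Z} (p y) s
      change 0 ≤ w y s + dl B f Z p y s
      rw [hwx y hy, hdl]
      exact h2
    · change 0 ≤ w y s + dl B f Z p y s
      rw [hdl0 y hy, add_zero]
      exact hw0 y s
  · intro y
    have h2 := dl_vs hf Z p y
    simp only [vs]
    have h3 : ∀ s, (w y s + dl B f Z p y s + (w ((gen a b s)⁻¹ • y) s
        + dl B f Z p ((gen a b s)⁻¹ • y) s)) = (w y s + w ((gen a b s)⁻¹ • y) s)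
        + (dl B f Z p y s + dl B f Z p ((gen a b s)⁻¹ • y) s) := by
      intro s
      ring
    simp only [h3]
    rw [Finset.sum_add_distrib, h2, add_zero]
  · intro y hy s
    change w y s + dl B f Z p y s = w y s
    rw [hdl0 y hy, add_zero]
  · intro y hy s
    change w y s + dl B f Z p y s = x' (p y) s
    have hy' : y ∈ Zn F U al be := Zn_mono h1 (by omega) (by omega) hy
    rw [hwx y hy', hx', hdl]
    congr 1
    rw [tot, tot]
    refine Finset.sum_congr rfl ?_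
    intro β hβ
    rw [indicator_of_mem (mem_univ _), indicator_of_mem]
    refine ⟨β, hβ, rfl, ?_⟩
    have h2 := Zn_smul h1 hinv (by omega : r0 ≤ al + 2 * r0) (hinv' β hβ) hy
    exact Zn_mono h1 (by omega) (by omega) h2
  · intro y s hne
    have h2 : dl B f Z p y s ≠ 0 := by
      intro h3
      apply hne
      change w y s + dl B f Z p y s = w y s
      rw [h3, add_zero]
    rw [hdl, tot] at h2
    obtain ⟨β, hβ, h3⟩ := Finset.exists_ne_zero_of_sum_ne_zero h2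
    have h4 : f (β⁻¹ * p y) (p y) s ≠ 0 := by
      intro h5
      apply h3
      by_cases h6 : β⁻¹ * p y ∈ {c | ∃ β ∈ B, c = β⁻¹ * p y ∧ β⁻¹ • y ∈ Z}
      · rw [indicator_of_mem h6]
        exact h5
      · rw [indicator_of_notMem h6]
    exact hf.mem _ _ _ h4

end Pool.Agent.MP1822N
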