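import Pool.Agent.Lib.MP_1822da_lc.NB.C3a

/-!
# Localisation of chains, in one zone and in finitely many zones (section 6)

PROOF of localise: induction over the chain, the radii add up: `r = r1 + r2`; the first part gives `w1 = x1 ∘ p` on
`Zn (al + r1) (be - r1)`, localise_step is applied to `w1` on this zone.
PROOF of localise_many: induction over the zones (state it for a finset `I` of indices, `w' = w` outside the zones with index in `I`);
`localise` for zone `i` is applied to the weight obtained so far, which is still `x ∘ p` on zone `i` (the zones are disjoint: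
`y ∈ Zn (al i) (be i)` and `be i ≤ al j` ⇒ `y ∉ Zn (al j) (be j)`, zone_mono).
-/

namespace Pool.Agent.MP1822N

open Set MeasureTheory Pointwise
open Pool.Agent.Lib.MP_1822da_lc Pool.Agent.MP1822T Pool.Agent.MP1822C

universe u v

variable {Γ : Type u} [Group Γ]


private lemma Zn_mono {F : Set Γ} (h1 : (1 : Γ) ∈ F) {X : Type v} [MulAction Γ X] {U : Set X}
    {al be al' be' : ℕ} (ha : al ≤ al') (hb : be' ≤ be) : Zn F U al' be' ⊆ Zn F U al be :=
  fun _ hy => ⟨zone_mono h1 U hb hy.1, fun h => hy.2 (zone_mono h1 U ha h)⟩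

private lemma Zn_disj {F : Set Γ} (h1 : (1 : Γ) ∈ F) {X : Type v} [MulAction Γ X] {U : Set X}
    {al be al' be' : ℕ} (h : be ≤ al' ∨ be' ≤ al) {y : X} (hy : y ∈ Zn F U al be) :
    y ∉ Zn F U al' be' := by
  intro hy'
  rcases h with h | h
  · exact hy'.2 (zone_mono h1 U h hy.1)
  · exact hy.2 (zone_mono h1 U h hy'.1)

/-- **Localisation.** -/
theorem localise [Countable Γ] {F : Set Γ} (h1 : (1 : Γ) ∈ F) (hinv : ∀ s ∈ F, s⁻¹ ∈ F)
    (hgen : Subgroup.closure F = ⊤) {a b : Γ} (ha : a ∈ F) (hb : b ∈ F)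
    {R : Γ → Bool → Prop} {x x' : Γ → Bool → ℝ} (hch : Chain a b R x x') :
    ∃ r : ℕ, ∀ {X : Type v} [MulAction Γ X] [MeasurableSpace X]
      (_ : ∀ γ : Γ, Measurable fun x : X => γ • x) {U : Set X} {M : ℕ} {p : X → Γ}
      (_ : FrD F U M p) {al be : ℕ} (_ : r ≤ al) (_ : al + 2 * r ≤ be) (_ : be + r ≤ M)
      {w : X → Bool → ℝ} (_ : ∀ s, Measurable fun x => w x s) (_ : ∀ y s, 0 ≤ w y s)
      (_ : ∀ y ∈ Zn F U al be, ∀ s, w y s = x (p y) s),
      ∃ w' : X → Bool → ℝ, (∀ s, Measurable fun x => w' x s) ∧ (∀ y s, 0 ≤ w' y s) ∧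
        (∀ y, vs a b w' y = vs a b w y) ∧ (∀ y, y ∉ Zn F U al be → ∀ s, w' y s = w y s) ∧
        (∀ y ∈ Zn F U (al + r) (be - r), ∀ s, w' y s = x' (p y) s) ∧
        ∀ y s, w' y s ≠ w y s → R (p y) s := by
  unfold Chain at hch
  induction hch with
  | refl =>
    refine ⟨0, ?_⟩
    intro X _ _ hm U M p hp al be _ _ _ w hw1 hw2 hw3
    exact ⟨w, hw1, hw2, fun _ => rfl, fun _ _ _ => rfl, hw3, fun y s h => absurd rfl h⟩
  | @tail x1 x2 _ hstep ih =>
    obtain ⟨r1, ih⟩ := ih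
    obtain ⟨r2, hr2⟩ := localise_step.{u, v} h1 hinv hgen ha hb hstep
    refine ⟨r1 + r2, ?_⟩
    intro X _ _ hm U M p hp al be hal hbe hM w hw1 hw2 hw3
    obtain ⟨w1, g1, g2, g3, g4, g5, g6⟩ := ih hm hp (al := al) (be := be) (by omega) (by omega)
      (by omega) hw1 hw2 hw3
    obtain ⟨w2, k1, k2, k3, k4, k5, k6⟩ := hr2 hm hp (al := al + r1) (be := be - r1) (by omega)
      (by omega) (by omega) g1 g2 g5
    refine ⟨w2, k1, k2, fun y => (k3 y).trans (g3 y), fun y hy s => ?_, fun y hy s => ?_,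
      fun y s h => ?_⟩
    · rw [k4 y (fun h => hy (Zn_mono h1 (by omega) (by omega) h)) s, g4 y hy s]
    · refine k5 y ?_ s
      have e1 : al + (r1 + r2) = al + r1 + r2 := by omega
      have e2 : be - (r1 + r2) = be - r1 - r2 := by omega
      rw [e1, e2] at hy
      exact hy
    · by_cases h2 : w2 y s = w1 y s
      · exact g6 y s (h2 ▸ h)
      · exact k6 y s h2

/-- **Localisation in finitely many zones.** -/
theorem localise_many [Countable Γ] {F : Set Γ} (h1 : (1 : Γ) ∈ F) (hinv : ∀ s ∈ F, s⁻¹ ∈ F)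
    (hgen : Subgroup.closure F = ⊤) {a b : Γ} (ha : a ∈ F) (hb : b ∈ F)
    {R : Γ → Bool → Prop} {x x' : Γ → Bool → ℝ} (hch : Chain a b R x x') :
    ∃ r : ℕ, ∀ {X : Type v} [MulAction Γ X] [MeasurableSpace X]
      (_ : ∀ γ : Γ, Measurable fun x : X => γ • x) {U : Set X} {M : ℕ} {p : X → Γ}
      (_ : FrD F U M p) {ι : Type} [Finite ι] {al be : ι → ℕ} (_ : ∀ i, r ≤ al i)
      (_ : ∀ i, al i + 2 * r ≤ be i) (_ : ∀ i, be i + r ≤ M)
      (_ : ∀ i j, i ≠ j → be i ≤ al j ∨ be j ≤ al i)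
      {w : X → Bool → ℝ} (_ : ∀ s, Measurable fun x => w x s) (_ : ∀ y s, 0 ≤ w y s)
      (_ : ∀ i, ∀ y ∈ Zn F U (al i) (be i), ∀ s, w y s = x (p y) s),
      ∃ w' : X → Bool → ℝ, (∀ s, Measurable fun x => w' x s) ∧ (∀ y s, 0 ≤ w' y s) ∧
        (∀ y, vs a b w' y = vs a b w y) ∧
        (∀ y, (∀ i, y ∉ Zn F U (al i) (be i)) → ∀ s, w' y s = w y s) ∧
        ∀ i, ∀ y ∈ Zn F U (al i + r) (be i - r), ∀ s, w' y s = x' (p y) s := by
  obtain ⟨r, hr⟩ := localise.{u, v} h1 hinv hgen ha hb hch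
  refine ⟨r, ?_⟩
  intro X _ _ hm U M p hp ι _ al be hal hbe hM hdis w hw1 hw2 hw3
  classical
  have hfin : Fintype ι := Fintype.ofFinite ι
  have key : ∀ I : Finset ι, ∃ w' : X → Bool → ℝ, (∀ s, Measurable fun x => w' x s) ∧
      (∀ y s, 0 ≤ w' y s) ∧ (∀ y, vs a b w' y = vs a b w y) ∧
      (∀ y, (∀ i ∈ I, y ∉ Zn F U (al i) (be i)) → ∀ s, w' y s = w y s) ∧
      ∀ i ∈ I, ∀ y ∈ Zn F U (al i + r) (be i - r), ∀ s, w' y s = x' (p y) s := by
    intro I
    induction I using Finset.induction_on with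
    | empty =>
      refine ⟨w, hw1, hw2, fun _ => rfl, fun _ _ _ => rfl, fun i hi => ?_⟩
      simp at hi
    | @insert j I hj ih =>
      obtain ⟨w1, g1, g2, g3, g4, g5⟩ := ih
      obtain ⟨w2, k1, k2, k3, k4, k5, -⟩ := hr hm hp (hal j) (hbe j) (hM j) g1 g2 (by
        intro y hy s
        rw [g4 y (fun i hi => ?_) s]
        · exact hw3 j y hy s
        · have hij : j ≠ i := fun h => hj (h ▸ hi)
          exact Zn_disj h1 (hdis j i hij) hy)
      refine ⟨w2, k1, k2, fun y => (k3 y).trans (g3 y), fun y hy s => ?_, fun i hi y hy s => ?_⟩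
      · rw [k4 y (hy j (Finset.mem_insert_self _ _)) s]
        exact g4 y (fun i hi => hy i (Finset.mem_insert_of_mem hi)) s
      · rcases Finset.mem_insert.1 hi with rfl | hi
        · exact k5 y hy s
        · have hy2 : y ∈ Zn F U (al i) (be i) := Zn_mono h1 (by omega) (by omega) hy
          have hij : i ≠ j := fun h => hj (h ▸ hi)
          rw [k4 y (Zn_disj h1 (hdis i j hij) hy2) s]
          exact g5 i hi y hy s
  obtain ⟨w', g1, g2, g3, g4, g5⟩ := key Finset.univ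
  exact ⟨w', g1, g2, g3, fun y hy => g4 y fun i _ => hy i, fun i => g5 i (Finset.mem_univ i)⟩

end Pool.Agent.MP1822N
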