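import Pool.Agent.Lib.MP_1822da_lc.NB.Defs

/-!
# Bounded components on the group, and bipartitions

PROOFS.
bd_MH, bd_MA: the components of the support of `MH β j` are the pairs `{y, h * y}`, `β y = j` (`β (h * y) = !(β y)`: the point `y` is on the
edge `(y, h)` if `β y = j` and on `(h⁻¹ * y, h)` otherwise): `B = {1, h, h⁻¹}`. Same for `MA κ j`.
bd_xF: the support of `xF`: `SG a h (xF β κ) y y' → TS a h κ β y y'`; use `Dsg.bdd`.
vs_MH, vs_MA, vs_u3, …: the sums at a vertex.
single_edge: at a vertex where `w` is `0/1` ... (see the statement) `m` is determined by `w`: if `w y s = 0` then `m y s = false`; if `w y s = 1`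
then, as `vs w y = 1` and the weights are `≥ 0`, all other edges at `y` have weight `0`, so they are not in `m`; `vs (wt m) y = 1`.
bip: choose a point `x₀` in every `Γ`-orbit, `c (γ • x₀) = xor (α γ) (β γ)`.
-/

namespace Pool.Agent.MP1822N

open Set MeasureTheory Pointwise
open Pool.Agent.Lib.MP_1822da_lc Pool.Agent.MP1822T Pool.Agent.MP1822C

universe u v

variable {Γ : Type u} [Group Γ] {X : Type v} [MulAction Γ X]


/-- the weight `1/2` on the 2-factor -/
noncomputable def xF (β κ : Γ → Bool) (y : Γ) (s : Bool) : ℝ :=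
  if (s = true ∧ β y = false) ∨ (s = false ∧ κ y = false) then 1 / 2 else 0

/-- bounded components -/
def Bdd (a b : Γ) (w : Γ → Bool → ℝ) : Prop :=
  ∃ B : Finset Γ, ∀ y y', Relation.ReflTransGen (SG a b w) y y' → y' * y⁻¹ ∈ B

private theorem inv_reach {α : Type*} {r : α → α → Prop} {τ : α → α} (hτ : ∀ y, τ (τ y) = y)
    (hr : ∀ y y', r y y' → y' = τ y) {y y' : α} (h : Relation.ReflTransGen r y y') :
    y' = y ∨ y' = τ y := by
  induction h with
  | refl => exact Or.inl rfl
  | tail _ h2 ih =>
    have h3 := hr _ _ h2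
    rcases ih with ih | ih
    · right; rw [h3, ih]
    · left; rw [h3, ih, hτ]

private theorem bd_inv {a b g : Γ} {w : Γ → Bool → ℝ} {β : Γ → Bool} {j : Bool}
    (hβ : ∀ y, β (g * y) = !(β y))
    (hs : ∀ y y', SG a b w y y' → (β y = j ∧ y' = g * y) ∨ (β y' = j ∧ y = g * y')) :
    Bdd a b w := by
  classical
  have hβ' : ∀ y, β (g⁻¹ * y) = !(β y) := by
    intro y
    have h := hβ (g⁻¹ * y)
    rw [mul_inv_cancel_left] at h
    rw [h, Bool.not_not]
  refine ⟨{1, g, g⁻¹}, fun y y' h => ?_⟩
  have key := inv_reach (r := SG a b w) (τ := fun y => if β y = j then g * y else g⁻¹ * y)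
    (by
      intro y
      by_cases hy : β y = j
      · have h1 : ¬ β (g * y) = j := by rw [hβ, hy]; cases j <;> simp
        simp only [hy, if_true, if_neg h1, inv_mul_cancel_left]
      · have h1 : β (g⁻¹ * y) = j := by
          rw [hβ']
          cases j <;> cases hb : β y <;> simp_all
        simp only [if_neg hy, h1, if_true, mul_inv_cancel_left])
    (by
      intro y y' h
      rcases hs y y' h with ⟨h1, h2⟩ | ⟨h1, h2⟩
      · simp only [h1, if_true, h2]
      · have h3 : ¬ β y = j := by rw [h2, hβ, h1]; cases j <;> simp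
        simp only [if_neg h3]
        rw [h2, inv_mul_cancel_left]) h
  rcases key with h | h
  · simp [h]
  · rw [h]
    by_cases hy : β y = j
    · simp [hy]
    · simp [hy]

theorem bd_MH {a h : Γ} {β : Γ → Bool} (hβh : ∀ y, β (h * y) = !(β y)) (j : Bool) :
    Bdd a h (MH β j) := by
  refine bd_inv (g := h) (β := β) (j := j) hβh ?_
  rintro y y' ⟨s, ⟨h1, h2⟩ | ⟨h1, h2⟩⟩
  · left
    by_cases hc : s = true ∧ β y = j
    · refine ⟨hc.2, ?_⟩
      rw [h2, hc.1]
      simp [gen]
    · simp [MH, hc] at h1
  · right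
    by_cases hc : s = true ∧ β y' = j
    · refine ⟨hc.2, ?_⟩
      rw [h2, hc.1]
      simp [gen]
    · simp [MH, hc] at h1

theorem bd_MA {a h : Γ} {κ : Γ → Bool} (hκa : ∀ y, κ (a * y) = !(κ y)) (j : Bool) :
    Bdd a h (MA κ j) := by
  refine bd_inv (g := a) (β := κ) (j := j) hκa ?_
  rintro y y' ⟨s, ⟨h1, h2⟩ | ⟨h1, h2⟩⟩
  · left
    by_cases hc : s = false ∧ κ y = j
    · refine ⟨hc.2, ?_⟩
      rw [h2, hc.1]
      simp [gen]
    · simp [MA, hc] at h1
  · right
    by_cases hc : s = false ∧ κ y' = j
    · refine ⟨hc.2, ?_⟩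
      rw [h2, hc.1]
      simp [gen]
    · simp [MA, hc] at h1

theorem bd_xF {a h : Γ} {β κ : Γ → Bool} (hD : Dsg a h β κ) : Bdd a h (xF β κ) := by
  obtain ⟨B, hB⟩ := hD.bdd
  refine ⟨B, fun y y' hr => hB y y' (Relation.ReflTransGen.mono ?_ _ _ hr)⟩
  rintro y y' ⟨s, ⟨h1, h2⟩ | ⟨h1, h2⟩⟩
  · cases s
    · have hk : κ y = false := by
        by_contra hc
        simp [xF, hc] at h1
      left
      simp [sg, hk, h2, gen]
    · have hk : β y = false := by
        by_contra hc
        simp [xF, hc] at h1
      right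
      simp [sg, hk, h2, gen]
  · cases s
    · have hk : κ y' = false := by
        by_contra hc
        simp [xF, hc] at h1
      left
      have h3 : κ y = true := by
        rw [h2]
        simp [gen, hD.κa, hk]
      simp only [sg, h3, if_true]
      rw [h2]
      simp [gen]
    · have hk : β y' = false := by
        by_contra hc
        simp [xF, hc] at h1
      right
      have h3 : β y = true := by
        rw [h2]
        simp [gen, hD.βh, hk]
      simp only [sg, h3, if_true]
      rw [h2]
      simp [gen]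

theorem single_edge {a b : Γ} {w : X → Bool → ℝ} (hw0 : ∀ x s, 0 ≤ w x s) {m : X → Bool → Bool}
    (hm : ∀ x s, m x s = true → 0 < w x s) {y : X} (hv : vs a b (wt m) y = vs a b w y)
    (h1 : vs a b w y = 1) {s : Bool} (hw : w y s = 0 ∨ w y s = 1) : m y s = true ↔ w y s = 1 := by
  have hz : ∀ x t, w x t = 0 → wt m x t = 0 := by
    intro x t h
    by_cases hc : m x t = true
    · have := hm x t hc
      rw [h] at this
      exact absurd this (lt_irrefl _)
    · simp [wt, hc]
  rcases hw with hw | hw
  · constructor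
    · intro h
      have := hm y s h
      rw [hw] at this
      exact absurd this (lt_irrefl _)
    · intro h
      rw [hw] at h
      exact absurd h zero_ne_one
  · refine ⟨fun _ => hw, fun _ => ?_⟩
    by_contra hc
    have h2 : vs a b (wt m) y = 1 := by rw [hv, h1]
    have hs0 : wt m y s = 0 := by simp [wt, hc]
    simp only [vs, Fintype.sum_bool] at h1 h2
    have p1 := hw0 y true
    have p2 := hw0 y false
    have p3 := hw0 ((gen a b true)⁻¹ • y) true
    have p4 := hw0 ((gen a b false)⁻¹ • y) false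
    have q3 : w ((gen a b true)⁻¹ • y) true = 0 := by
      cases s <;> linarith
    have q4 : w ((gen a b false)⁻¹ • y) false = 0 := by
      cases s <;> linarith
    rw [hz _ _ q3, hz _ _ q4] at h2
    cases s
    · have q1 : w y true = 0 := by linarith
      rw [hz _ _ q1, hs0] at h2
      norm_num at h2
    · have q1 : w y false = 0 := by linarith
      rw [hz _ _ q1, hs0] at h2
      norm_num at h2

theorem bip (hfree : ∀ (γ : Γ) (x : X), γ • x = x → γ = 1)
    {a h : Γ} {β α : Γ → Bool} (hβh : ∀ y, β (h * y) = !(β y)) (hβa : ∀ y, β (a * y) = β y)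
    (hαa : ∀ y, α (a * y) = !(α y)) (hαh : ∀ y, α (h * y) = α y) :
    ∃ c : X → Bool, ∀ s x, c (gen a h s • x) = !(c x) := by
  classical
  have hex : ∀ x : X, ∃ γ : Γ, γ • (Quotient.out (s := MulAction.orbitRel Γ X)
      (Quotient.mk (MulAction.orbitRel Γ X) x)) = x := by
    intro x
    have h1 := Quotient.mk_out (s := MulAction.orbitRel Γ X) x
    have h2 : (Quotient.out (s := MulAction.orbitRel Γ X)
      (Quotient.mk (MulAction.orbitRel Γ X) x)) ∈ MulAction.orbit Γ x := h1
    have h3 := MulAction.mem_orbit_symm.1 h2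
    obtain ⟨γ, hγ⟩ := h3
    exact ⟨γ, hγ⟩
  choose p hp using hex
  have hpe : ∀ (g : Γ) (x : X), p (g • x) = g * p x := by
    intro g x
    have h1 : Quotient.mk (MulAction.orbitRel Γ X) (g • x) =
        Quotient.mk (MulAction.orbitRel Γ X) x :=
      Quotient.sound (MulAction.mem_orbit x g)
    have h2 := hp (g • x)
    rw [h1] at h2
    have h3 : (g * p x) • (Quotient.out (s := MulAction.orbitRel Γ X)
      (Quotient.mk (MulAction.orbitRel Γ X) x)) = g • x := by
      rw [mul_smul, hp x]
    have h4 : ((g * p x)⁻¹ * p (g • x)) • (Quotient.out (s := MulAction.orbitRel Γ X)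
      (Quotient.mk (MulAction.orbitRel Γ X) x)) = (Quotient.out (s := MulAction.orbitRel Γ X)
      (Quotient.mk (MulAction.orbitRel Γ X) x)) := by
      rw [mul_smul, h2, ← h3, inv_smul_smul]
    have h5 := hfree _ _ h4
    rw [inv_mul_eq_one] at h5
    exact h5.symm
  refine ⟨fun x => xor (α (p x)) (β (p x)), fun s x => ?_⟩
  simp only [hpe]
  cases s
  · simp only [gen, Bool.false_eq_true, if_false, hαa, hβa]
    cases α (p x) <;> cases β (p x) <;> rfl
  · simp only [gen, if_true, hαh, hβh]
    cases α (p x) <;> cases β (p x) <;> rfl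

end Pool.Agent.MP1822N
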