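import Pool.Agent.Lib.MP_1822da_lc.NB.C1b
import Pool.Agent.Lib.MP_1822da_lc.NB.C2b
import Pool.Agent.Lib.MP_1822da_lc.NB.C3b
import Pool.Agent.Lib.MP_1822da_lc.NB.C4a

/-!
# Localisation followed by a Borel matching

PROOF of loc_hall. `r1` from localise, `B` from `Bdd a b x'`, `B ⊆ F^rb` (exists_pow). `r = r1 + rb + 2`, `L = 2 * r + 2 * rb + 10`. `w'` from localise
on `Zn al be`. `k = al + L / 2` or so: `Zn (k-1-rb-1) (k+1+rb+1) ⊆ Zn (al + r1) (be - r1)`. For `x ∈ Zn (k-1) (k+1)` the `SG a b w'`-component of `x`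
is contained in `{β • x : β ∈ B}`: by induction along the path, every point of it is `γ • x` with `ReflTransGen (SG a b x') (p x) (γ * p x)`, so
`γ ∈ B`, `γ • x ∈ Zn (k-1-rb) (k+1+rb)`, `p (γ • x) = γ * p x` (frame_smul), and the weights of the edges at this point are those of
`x'` at `γ * p x` (also for the edges `((gen a b s)⁻¹ • y, s)`: their base point is in the inner zone). So it is finite; barrier for
`Gr = SG a b w'` (`a, b ∈ F`, symmetric): all components are finite; hallB (`vs w' = vs w ∈ {0, 1}`).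
-/

namespace Pool.Agent.MP1822N

open Set MeasureTheory Pointwise
open Pool.Agent.Lib.MP_1822da_lc Pool.Agent.MP1822T Pool.Agent.MP1822C

universe u v

variable {Γ : Type u} [Group Γ]


private lemma lh_gen {F : Set Γ} {a b : Γ} (ha : a ∈ F) (hb : b ∈ F) (s : Bool) :
    gen a b s ∈ F := by
  cases s
  · simpa [gen] using ha
  · simpa [gen] using hb

private lemma lh_symm {X : Type v} [MulAction Γ X] {a b : Γ} {w : X → Bool → ℝ} (x y : X)
    (h : SG a b w x y) : SG a b w y x := by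
  obtain ⟨s, h | h⟩ := h
  · exact ⟨s, Or.inr h⟩
  · exact ⟨s, Or.inl h⟩

private lemma lh_step {X : Type v} [MulAction Γ X] {F : Set Γ} (hinv : ∀ s ∈ F, s⁻¹ ∈ F)
    {a b : Γ} (ha : a ∈ F) (hb : b ∈ F) {w : X → Bool → ℝ} (x y : X) (h : SG a b w x y) :
    ∃ s ∈ F, s • x = y := by
  obtain ⟨s, h | h⟩ := h
  · exact ⟨gen a b s, lh_gen ha hb s, h.2.symm⟩
  · refine ⟨(gen a b s)⁻¹, hinv _ (lh_gen ha hb s), ?_⟩
    rw [h.2, inv_smul_smul]

private lemma lh_Zn_mono {X : Type v} [MulAction Γ X] {F : Set Γ} (h1 : (1 : Γ) ∈ F) {U : Set X}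
    {al be al' be' : ℕ} (h : al' ≤ al) (h' : be ≤ be') : Zn F U al be ⊆ Zn F U al' be' :=
  fun _ hx => ⟨zone_mono h1 U h' hx.1, fun h2 => hx.2 (zone_mono h1 U h h2)⟩

private lemma lh_comp {X : Type v} [MulAction Γ X] [MeasurableSpace X] {F : Set Γ}
    (h1 : (1 : Γ) ∈ F) (hinv : ∀ s ∈ F, s⁻¹ ∈ F) {a b : Γ} (ha : a ∈ F) (hb : b ∈ F)
    {x' : Γ → Bool → ℝ} {B : Finset Γ}
    (hB : ∀ y y', Relation.ReflTransGen (SG a b x') y y' → y' * y⁻¹ ∈ B) {rb : ℕ}
    (hrb : ∀ β ∈ B, β ∈ F ^ rb) {U : Set X} {M : ℕ} {p : X → Γ} (H : FrD F U M p)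
    {al be k : ℕ} (hk : al + rb + 2 ≤ k) (hk' : k + rb + 2 ≤ be) (hM : be ≤ M)
    {w' : X → Bool → ℝ} (hw' : ∀ y ∈ Zn F U al be, ∀ s, w' y s = x' (p y) s)
    {x : X} (hx : x ∈ Zn F U (k - 1) (k + 1)) :
    {y | Relation.ReflTransGen (SG a b w') x y}.Finite := by
  have key : ∀ y, Relation.ReflTransGen (SG a b w') x y →
      ∃ γ : Γ, y = γ • x ∧ Relation.ReflTransGen (SG a b x') (p x) (γ * p x) := by
    intro y hy
    induction hy with
    | refl => exact ⟨1, (one_smul _ _).symm, by rw [one_mul]⟩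
    | @tail y z _ hyz ih =>
      obtain ⟨γ, rfl, hγ⟩ := ih
      have hγB : γ ∈ B := by
        have := hB _ _ hγ
        rwa [mul_inv_cancel_right] at this
      have hγF : γ ∈ F ^ rb := hrb γ hγB
      obtain ⟨s, ⟨h2, h3⟩ | ⟨h2, h3⟩⟩ := hyz
      · have h4 : γ • x ∈ Zn F U al be :=
          lh_Zn_mono h1 (by omega) (by omega) (Zn_smul h1 hinv (by omega) hγF hx)
        have h5 : p (γ • x) = γ * p x := frame_smul H (by omega) hx.1 hγF
        rw [hw' _ h4 s, h5] at h2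
        refine ⟨gen a b s * γ, by rw [h3, mul_smul], ?_⟩
        refine hγ.tail ⟨s, Or.inl ⟨h2, ?_⟩⟩
        rw [smul_eq_mul, mul_assoc]
      · have h6 : (gen a b s)⁻¹ * γ ∈ F ^ (rb + 1) := by
          rw [pow_succ']
          exact Set.mul_mem_mul (hinv _ (lh_gen ha hb s)) hγF
        have h7 : z = ((gen a b s)⁻¹ * γ) • x := by
          rw [mul_smul, h3, inv_smul_smul]
        have h4 : ((gen a b s)⁻¹ * γ) • x ∈ Zn F U al be :=
          lh_Zn_mono h1 (by omega) (by omega) (Zn_smul h1 hinv (by omega) h6 hx)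
        have h5 : p (((gen a b s)⁻¹ * γ) • x) = ((gen a b s)⁻¹ * γ) * p x :=
          frame_smul H (by omega) hx.1 h6
        rw [h7, hw' _ h4 s, h5] at h2
        refine ⟨(gen a b s)⁻¹ * γ, h7, ?_⟩
        refine hγ.tail ⟨s, Or.inr ⟨h2, ?_⟩⟩
        rw [smul_eq_mul, mul_assoc, mul_inv_cancel_left]
  refine ((B : Set Γ).toFinite.image fun β => β • x).subset ?_
  intro y hy
  obtain ⟨γ, rfl, hγ⟩ := key y hy
  refine ⟨γ, ?_, rfl⟩
  have := hB _ _ hγ
  rwa [mul_inv_cancel_right] at this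

/-- **Localisation followed by a Borel matching.** -/
theorem loc_hall [Countable Γ] {F : Set Γ} (h1 : (1 : Γ) ∈ F) (hinv : ∀ s ∈ F, s⁻¹ ∈ F)
    (hgen : Subgroup.closure F = ⊤) {a b : Γ} (ha : a ∈ F) (hb : b ∈ F)
    {R : Γ → Bool → Prop} {x x' : Γ → Bool → ℝ} (hch : Chain a b R x x') (hbd : Bdd a b x') :
    ∃ r L : ℕ, 2 * r ≤ L ∧ ∀ {X : Type v} [MulAction Γ X] [MeasurableSpace X]
      [StandardBorelSpace X] (_ : ∀ γ : Γ, Measurable fun x : X => γ • x)
      (_ : ∀ (γ : Γ) (x : X), γ • x = x → γ = 1)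
      {c : X → Bool} (_ : ∀ s x, c (gen a b s • x) = !(c x)) {U : Set X} {M : ℕ} {p : X → Γ}
      (_ : FrD F U M p) {al be : ℕ} (_ : r ≤ al) (_ : al + L ≤ be) (_ : be + r ≤ M)
      {w : X → Bool → ℝ} (_ : ∀ s, Measurable fun x => w x s) (_ : ∀ y s, 0 ≤ w y s)
      (_ : ∀ y, vs a b w y = 0 ∨ vs a b w y = 1)
      (_ : ∀ y ∈ Zn F U al be, ∀ s, w y s = x (p y) s),
      ∃ (w' : X → Bool → ℝ) (m : X → Bool → Bool), (∀ s, Measurable fun x => w' x s) ∧
        (∀ y s, 0 ≤ w' y s) ∧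
        (∀ y, vs a b w' y = vs a b w y) ∧ (∀ y, y ∉ Zn F U al be → ∀ s, w' y s = w y s) ∧
        (∀ y ∈ Zn F U (al + r) (be - r), ∀ s, w' y s = x' (p y) s) ∧
        (∀ y s, w' y s ≠ w y s → R (p y) s) ∧
        (∀ s, MeasurableSet {x | m x s = true}) ∧
        (∀ x s, m x s = true → 0 < w' x s) ∧ ∀ x, vs a b (wt m) x = vs a b w x := by
  obtain ⟨r1, hr1⟩ := localise.{u, v} h1 hinv hgen ha hb hch
  obtain ⟨B, hB⟩ := hbd
  obtain ⟨rb, hrb⟩ := exists_pow h1 hinv hgen B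
  refine ⟨r1 + rb + 2, 2 * (r1 + rb + 2) + 2 * rb + 10, by omega, ?_⟩
  intro X _ _ _ hmeas hfree c hc U M p H al be hal hbe hM w hw hw0 hv hwx
  obtain ⟨w', hw', hw'0, hvs, hout, hin, hR⟩ := hr1 hmeas H (al := al) (be := be) (by omega)
    (by omega) (by omega) hw hw0 hwx
  have hfin : ∀ x, {y | Relation.ReflTransGen (SG a b w') x y}.Finite := by
    intro x
    refine barrier H (k := al + r1 + rb + 2) (by omega) (by omega) (fun x y h => lh_symm x y h)
      (fun x y h => lh_step hinv ha hb x y h) ?_ x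
    intro x hx
    exact lh_comp h1 hinv ha hb hB hrb H (al := al + r1) (be := be - r1) (by omega) (by omega)
      (by omega) hin hx
  obtain ⟨m, hm1, hm2, hm3⟩ := hallB hmeas hfree hc hw' hw'0
    (fun x => by rw [hvs x]; exact hv x) hfin
  refine ⟨w', m, hw', hw'0, hvs, hout, ?_, hR, hm1, hm2, ?_⟩
  · intro y hy s
    exact hin y (lh_Zn_mono h1 (by omega) (by omega) hy) s
  · intro x
    rw [hm3 x, hvs x]

end Pool.Agent.MP1822N
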