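import Pool.Agent.Lib.MP_1822da_lc.NB.C4b

/-!
# The base pair (sections 7.1, 7.2)

PROOF. loc_hall for `quad true` (`R = RT`, bd_MH): `r1, L1`; for `cub` (`R = R3 β`, bd_MA): `r2, L2`; for the empty chain from `xF β κ` to itself
(`Relation.ReflTransGen.refl`, bd_xF): `r3, L3`; localise_many for `quad false`: `r0`. `r ≥ r0, r1, r2, r3`, also `r ≥ 2 * (r1 + r2 + r3)`; `L ≥ 2 * r1 + 2 * r2 + L1 + L2 + L3`.
(7.1) `w = 1/4`; localise_many on the zones `Zn (al i) (be i)`: `w0`, `= MH β false ∘ p` on the inner zones, `= 1/4` on the barrier zone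
`Zn al0 be0`, `be0 = al0 + L` (disjoint from the others: `be0 ≤ al i`). loc_hall (quad true) on the barrier zone: `w1`, `m3`, `vs = 1`. single_edge:
`m3 y s ↔ s = true ∧ β (p y) = true` on `Zn (al0 + r1) (be0 - r1)`, `m3 y s ↔ s = true ∧ β (p y) = false` on `Zn (al i + r) (be i - r)`
(`w1 = w0` off the barrier zone).
(7.2) `w2 y s = if m3 y s then 0 else 1/3`, `vs w2 = 1` (4 edges at every vertex, exactly one in `m3`). On
`Zn (al0 + r1) (be0 - r1)` this is `u3 β (p y) s` (`R3 β (p y) s ↔ not m3 y s`). loc_hall (cub) on this zone: `w3`, `m1`; `m1 y s` and `m3 y s` never both: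
`0 < w3 y s`, `w2 y s = 0`, so `w3 y s ≠ w2 y s`, `y` is in the zone and `R3 β (p y) s`, i.e. not `m3 y s`. On
`Zn (al0 + r1 + r2) (be0 - r1 - r2)`: `m1 y s ↔ s = false ∧ κ (p y) = true` (single_edge).
(7.3) `w4 y s = if m3 y s ∨ m1 y s then 0 else 1/2`, `vs = 1`; on the last zone `= xF β κ (p y) s`. loc_hall (empty chain) : `m0 y s → 0 < w4' y s`,
and `w4' = w4`: choose `R` for the empty chain as `fun _ _ => False` (a chain `refl` exists for every `R`), then `w4' y s ≠ w4 y s` is impossible.
`q y s = 3` on `m3`, `1` on `m1`, `0` on `m0`, `2` otherwise. At every vertex each of `m3, m1, m0` has exactly one of the 4 edges and they are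
disjoint, so the four values are different. (A way to do this: the four `d : Bool × Bool` at `x`; `vs (wt m) x = 1` says that exactly one
`d` has `m (…) = true`.) Measurability (`FM`): Boolean combinations.
-/

namespace Pool.Agent.MP1822N

open Set MeasureTheory Pointwise
open Pool.Agent.Lib.MP_1822da_lc Pool.Agent.MP1822T Pool.Agent.MP1822C

universe u v

variable {Γ : Type u} [Group Γ]


private theorem c4c_one {f : Bool × Bool → Bool}
    (h : (∑ s : Bool, ((if f (s, false) = true then (1 : ℝ) else 0) +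
      (if f (s, true) = true then (1 : ℝ) else 0))) = 1) :
    ∃ d0, ∀ d, f d = true ↔ d = d0 := by
  rw [Fintype.sum_bool] at h
  have key : ∀ a b c d : Bool, ((if a = true then (1 : ℝ) else 0) +
      (if b = true then (1 : ℝ) else 0) + ((if c = true then (1 : ℝ) else 0) +
      (if d = true then (1 : ℝ) else 0))) = 1 →
      (a = true ∧ b = false ∧ c = false ∧ d = false) ∨
      (a = false ∧ b = true ∧ c = false ∧ d = false) ∨
      (a = false ∧ b = false ∧ c = true ∧ d = false) ∨
      (a = false ∧ b = false ∧ c = false ∧ d = true) := by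
    intro a b c d
    cases a <;> cases b <;> cases c <;> cases d <;> norm_num
  rcases key _ _ _ _ h with ⟨h1, h2, h3, h4⟩ | ⟨h1, h2, h3, h4⟩ | ⟨h1, h2, h3, h4⟩ |
    ⟨h1, h2, h3, h4⟩
  · refine ⟨(true, false), ?_⟩
    rintro ⟨s, t⟩
    cases s <;> cases t <;> simp [h1, h2, h3, h4]
  · refine ⟨(true, true), ?_⟩
    rintro ⟨s, t⟩
    cases s <;> cases t <;> simp [h1, h2, h3, h4]
  · refine ⟨(false, false), ?_⟩
    rintro ⟨s, t⟩
    cases s <;> cases t <;> simp [h1, h2, h3, h4]
  · refine ⟨(false, true), ?_⟩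
    rintro ⟨s, t⟩
    cases s <;> cases t <;> simp [h1, h2, h3, h4]

private theorem c4c_dec : ∀ d3 d1 d0 : Bool × Bool, d3 ≠ d1 → d3 ≠ d0 → d1 ≠ d0 →
    ∀ a b : Bool × Bool,
      (if a = d3 then (3 : Fin 4) else if a = d1 then 1 else if a = d0 then 0 else 2) =
      (if b = d3 then (3 : Fin 4) else if b = d1 then 1 else if b = d0 then 0 else 2) →
      a = b := by
  decide

private theorem c4c_inj {M3 M1 M0 : Bool × Bool → Bool} {d3 d1 d0 : Bool × Bool}
    (h3 : ∀ d, M3 d = true ↔ d = d3) (h1 : ∀ d, M1 d = true ↔ d = d1)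
    (h0 : ∀ d, M0 d = true ↔ d = d0) (h31 : ∀ d, M3 d = true → M1 d = true → False)
    (h30 : ∀ d, M3 d = true → M0 d = true → False)
    (h10 : ∀ d, M1 d = true → M0 d = true → False) :
    Function.Injective fun d : Bool × Bool =>
      (if M3 d = true then (3 : Fin 4) else if M1 d = true then 1 else
        if M0 d = true then 0 else 2) := by
  have e31 : d3 ≠ d1 := fun e => h31 d3 ((h3 d3).2 rfl) ((h1 d3).2 e)
  have e30 : d3 ≠ d0 := fun e => h30 d3 ((h3 d3).2 rfl) ((h0 d3).2 e)
  have e10 : d1 ≠ d0 := fun e => h10 d1 ((h1 d1).2 rfl) ((h0 d1).2 e)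
  intro a b hab
  apply c4c_dec d3 d1 d0 e31 e30 e10 a b
  simp only [h3, h1, h0] at hab
  exact hab

variable {X : Type v} [MulAction Γ X]

/-- the point of the edge `d` at `x` -/
private def c4c_pt (a h : Γ) (x : X) (d : Bool × Bool) : X :=
  if d.2 then (gen a h d.1)⁻¹ • x else x

private theorem c4c_one' {a h : Γ} {m : X → Bool → Bool} {x : X}
    (hv : vs a h (wt m) x = 1) :
    ∃ d0, ∀ d : Bool × Bool, m (c4c_pt a h x d) d.1 = true ↔ d = d0 := by
  have e : (∑ s : Bool, ((if m (c4c_pt a h x (s, false)) s = true then (1 : ℝ) else 0) +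
      (if m (c4c_pt a h x (s, true)) s = true then (1 : ℝ) else 0))) = vs a h (wt m) x := by
    rw [vs]
    apply Finset.sum_congr rfl
    intro s _
    simp [c4c_pt, wt]
  exact c4c_one (f := fun d => m (c4c_pt a h x d) d.1) (e.trans hv)

private theorem c4c_vs1 (a h : Γ) (m : X → Bool → Bool) (x : X) :
    vs a h (fun y s => if m y s = true then (0 : ℝ) else 1 / 3) x
      = (4 - vs a h (wt m) x) / 3 := by
  simp only [vs, wt, Fintype.sum_bool]
  split_ifs <;> norm_num

private theorem c4c_vs2 (a h : Γ) (m m' : X → Bool → Bool)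
    (hd : ∀ y s, m y s = true → m' y s = true → False) (x : X) :
    vs a h (fun y s => if m y s = true ∨ m' y s = true then (0 : ℝ) else 1 / 2) x
      = (4 - vs a h (wt m) x - vs a h (wt m') x) / 2 := by
  have key : ∀ y s, (if m y s = true ∨ m' y s = true then (0 : ℝ) else 1 / 2)
      = (1 - wt m y s - wt m' y s) / 2 := by
    intro y s
    have h1 := hd y s
    unfold wt
    cases e1 : m y s <;> cases e2 : m' y s
    · norm_num
    · norm_num
    · norm_num
    · exact (h1 e1 e2).elim
  simp only [vs, Fintype.sum_bool, key]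
  ring

private theorem c4c_meas [MeasurableSpace X] {m : X → Prop} (hm : MeasurableSet {x | m x})
    [DecidablePred m] (c d : ℝ) : Measurable fun x => if m x then c else d :=
  Measurable.ite hm measurable_const measurable_const

private theorem c4c_ge {F : Set Γ} (h1 : (1 : Γ) ∈ F) {U : Set X} {al be al' be' : ℕ}
    (ha : al' ≤ al) (hb : be ≤ be') {y : X} (hy : y ∈ Zn F U al be) : y ∈ Zn F U al' be' :=
  ⟨zone_mono h1 U hb hy.1, fun h => hy.2 (zone_mono h1 U ha h)⟩

private theorem c4c_disj {F : Set Γ} (h1 : (1 : Γ) ∈ F) {U : Set X} {al be al' be' : ℕ}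
    (h : be ≤ al') {y : X} (hy : y ∈ Zn F U al be) : y ∉ Zn F U al' be' :=
  fun hy' => hy'.2 (zone_mono h1 U h hy.1)

/-- **The base pair.** Four Borel perfect matchings; number 3 is prescribed in the zones `i`. -/
theorem base [Countable Γ] {F : Set Γ} (h1 : (1 : Γ) ∈ F) (hinv : ∀ s ∈ F, s⁻¹ ∈ F)
    (hgen : Subgroup.closure F = ⊤) {a h : Γ} (ha : a ∈ F) (hh : h ∈ F) {β κ : Γ → Bool}
    (hD : Dsg a h β κ) :
    ∃ r L : ℕ, ∀ {X : Type v} [MulAction Γ X] [MeasurableSpace X] [StandardBorelSpace X]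
      (_ : ∀ γ : Γ, Measurable fun x : X => γ • x)
      (_ : ∀ (γ : Γ) (x : X), γ • x = x → γ = 1)
      {c : X → Bool} (_ : ∀ s x, c (gen a h s • x) = !(c x))
      {U : Set X} {M : ℕ} {p : X → Γ} (_ : FrD F U M p)
      {ι : Type} [Finite ι] {al be : ι → ℕ} {al0 : ℕ} (_ : r ≤ al0) (_ : al0 + L + r ≤ M)
      (_ : ∀ i, al0 + L ≤ al i) (_ : ∀ i, al i + 2 * r ≤ be i) (_ : ∀ i, be i + r ≤ M)
      (_ : ∀ i j, i ≠ j → be i ≤ al j ∨ be j ≤ al i),
      ∃ q : X → Bool → Fin 4, (∀ s, FM fun x => q x s) ∧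
        (∀ x, Function.Injective fun d : Bool × Bool =>
          q (if d.2 then (gen a h d.1)⁻¹ • x else x) d.1) ∧
        ∀ i, ∀ y ∈ Zn F U (al i + r) (be i - r), ∀ s,
          q y s = 3 ↔ (s = true ∧ β (p y) = false) := by
  obtain ⟨r0, H0⟩ := localise_many.{u, v} h1 hinv hgen ha hh (hD.quad false)
  obtain ⟨r1, L1, hL1, H1⟩ := loc_hall.{u, v} h1 hinv hgen ha hh (hD.quad true) (bd_MH hD.βh true)
  obtain ⟨r2, L2, hL2, H2⟩ := loc_hall.{u, v} h1 hinv hgen ha hh hD.cub (bd_MA hD.κa true)
  obtain ⟨r3, L3, hL3, H3⟩ := loc_hall.{u, v} h1 hinv hgen ha hh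
    (R := fun _ _ => False) (x := xF β κ) (x' := xF β κ) Relation.ReflTransGen.refl (bd_xF hD)
  refine ⟨r0 + 2 * (r1 + r2 + r3), 2 * r1 + 2 * r2 + L1 + L2 + L3, ?_⟩
  intro X _ _ _ hmeas hfree c hc U M p hF ι _ al be al0 k1 k2 k3 k4 k5 k6
  set be0 : ℕ := al0 + (2 * r1 + 2 * r2 + L1 + L2 + L3) with hbe0
  have hbe : ∀ i, be0 ≤ al i := k3
  -- the prescribed zones
  obtain ⟨w0, m0m, m0n, m0v, m0o, m0i⟩ := H0 hmeas hF (ι := ι) (al := al) (be := be)
    (fun i => by have := k3 i; omega) (fun i => by have := k4 i; omega)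
    (fun i => by have := k5 i; omega) k6 (w := fun _ _ => 1 / 4)
    (fun s => measurable_const) (fun y s => by norm_num) (fun i y _ s => rfl)
  have v0 : ∀ y, vs a h w0 y = 1 := by
    intro y
    rw [m0v y]
    simp only [vs, Fintype.sum_bool]
    norm_num
  -- the barrier zone, quad
  obtain ⟨w1, m3, w1m, w1n, w1v, w1o, w1i, w1R, m3m, m3p, m3v⟩ := H1 hmeas hfree hc hF
    (al := al0) (be := be0) (by omega) (by omega) (by omega) (w := w0) m0m m0n
    (fun y => Or.inr (v0 y)) (fun y hy s => by
      rw [m0o y (fun i => c4c_disj h1 (hbe i) hy) s]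
      rfl)
  have v1 : ∀ y, vs a h w1 y = 1 := fun y => (w1v y).trans (v0 y)
  have m3v' : ∀ y, vs a h (wt m3) y = 1 := fun y => (m3v y).trans (v0 y)
  have c3 : ∀ y ∈ Zn F U (al0 + r1) (be0 - r1), ∀ s,
      m3 y s = true ↔ (s = true ∧ β (p y) = true) := by
    intro y hy s
    have e := w1i y hy s
    rw [single_edge w1n m3p ((m3v y).trans (w1v y).symm) (v1 y), e, MH]
    · by_cases hc : s = true ∧ β (p y) = true
      · simp [hc]
      · simp [hc]
    · rw [e, MH]
      split_ifs
      · right; rfl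
      · left; rfl
  have c3' : ∀ i, ∀ y ∈ Zn F U (al i + (r0 + 2 * (r1 + r2 + r3)))
      (be i - (r0 + 2 * (r1 + r2 + r3))), ∀ s,
      m3 y s = true ↔ (s = true ∧ β (p y) = false) := by
    intro i y hy s
    have hy0 : y ∉ Zn F U al0 be0 := fun hy' =>
      c4c_disj h1 (by have := hbe i; omega) hy' hy
    have e : w1 y s = MH β false (p y) s := by
      rw [w1o y hy0 s]
      exact m0i i y (c4c_ge h1 (by omega) (by omega) hy) s
    rw [single_edge w1n m3p ((m3v y).trans (w1v y).symm) (v1 y), e, MH]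
    · by_cases hc : s = true ∧ β (p y) = false
      · simp [hc]
      · simp [hc]
    · rw [e, MH]
      split_ifs
      · right; rfl
      · left; rfl
  -- cub
  have w2v : ∀ y, vs a h (fun y s => if m3 y s = true then (0 : ℝ) else 1 / 3) y = 1 := by
    intro y
    rw [c4c_vs1, m3v' y]
    norm_num
  obtain ⟨w3, m1, w3m, w3n, w3v, w3o, w3i, w3R, m1m, m1p, m1v⟩ := H2 hmeas hfree hc hF
    (al := al0 + r1) (be := be0 - r1) (by omega) (by omega) (by omega)
    (w := fun y s => if m3 y s = true then (0 : ℝ) else 1 / 3)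
    (fun s => c4c_meas (m3m s) 0 (1 / 3))
    (fun y s => by split_ifs <;> norm_num)
    (fun y => Or.inr (w2v y)) (fun y hy s => by
      have h3 := c3 y hy s
      simp only [u3, R3]
      cases s
      · have : ¬ (m3 y false = true) := fun h' => by simpa using (h3.1 h').1
        simp [this]
      · rcases Bool.eq_false_or_eq_true (β (p y)) with e | e
        · have : m3 y true = true := h3.2 ⟨rfl, e⟩
          simp [this, e]
        · have : ¬ (m3 y true = true) := fun h' => by simpa [e] using (h3.1 h').2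
          simp [this, e])
  have v3 : ∀ y, vs a h w3 y = 1 := fun y => (w3v y).trans (w2v y)
  have m1v' : ∀ y, vs a h (wt m1) y = 1 := fun y => (m1v y).trans (w2v y)
  have d31 : ∀ y s, m3 y s = true → m1 y s = true → False := by
    intro y s e3 e1
    have p1 := m1p y s e1
    have hne : w3 y s ≠ (if m3 y s = true then (0 : ℝ) else 1 / 3) := by
      rw [if_pos e3]
      exact ne_of_gt p1
    have hy : y ∈ Zn F U (al0 + r1) (be0 - r1) := by
      by_contra hy
      exact hne (w3o y hy s)
    have h3 := (c3 y hy s).1 e3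
    rcases w3R y s hne with h' | h'
    · rw [h3.1] at h'
      exact absurd h' (by simp)
    · rw [h3.2] at h'
      exact absurd h' (by simp)
  have c1 : ∀ y ∈ Zn F U (al0 + r1 + r2) (be0 - r1 - r2), ∀ s,
      m1 y s = true ↔ (s = false ∧ κ (p y) = true) := by
    intro y hy s
    have e := w3i y hy s
    rw [single_edge w3n m1p ((m1v y).trans (w3v y).symm) (v3 y), e, MA]
    · by_cases hc : s = false ∧ κ (p y) = true
      · simp [hc]
      · simp [hc]
    · rw [e, MA]
      split_ifs
      · right; rfl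
      · left; rfl
  -- the 2-factor
  have w4v : ∀ y, vs a h (fun y s => if m3 y s = true ∨ m1 y s = true then (0 : ℝ) else 1 / 2) y
      = 1 := by
    intro y
    rw [c4c_vs2 a h m3 m1 d31, m3v' y, m1v' y]
    norm_num
  obtain ⟨w5, m0, w5m, w5n, w5v, w5o, w5i, w5R, m0m', m0p, m0v'⟩ := H3 hmeas hfree hc hF
    (al := al0 + r1 + r2) (be := be0 - r1 - r2) (by omega) (by omega) (by omega)
    (w := fun y s => if m3 y s = true ∨ m1 y s = true then (0 : ℝ) else 1 / 2)
    (fun s => c4c_meas (m := fun x => m3 x s = true ∨ m1 x s = true)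
      ((m3m s).union (m1m s)) 0 (1 / 2))
    (fun y s => by split_ifs <;> norm_num)
    (fun y => Or.inr (w4v y)) (fun y hy s => by
      have h3 := c3 y (c4c_ge h1 (by omega) (by omega) hy) s
      have h1' := c1 y hy s
      simp only [xF]
      cases s
      · have n3 : ¬ (m3 y false = true) := fun h' => by simpa using (h3.1 h').1
        rcases Bool.eq_false_or_eq_true (κ (p y)) with e | e
        · have : m1 y false = true := h1'.2 ⟨rfl, e⟩
          simp [this, e]
        · have : ¬ (m1 y false = true) := fun h' => by simpa [e] using (h1'.1 h').2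
          simp [this, n3, e]
      · have n1 : ¬ (m1 y true = true) := fun h' => by simpa using (h1'.1 h').1
        rcases Bool.eq_false_or_eq_true (β (p y)) with e | e
        · have : m3 y true = true := h3.2 ⟨rfl, e⟩
          simp [this, e]
        · have : ¬ (m3 y true = true) := fun h' => by simpa [e] using (h3.1 h').2
          simp [this, n1, e])
  have m0v1 : ∀ y, vs a h (wt m0) y = 1 := fun y => (m0v' y).trans (w4v y)
  have w5e : ∀ y s, w5 y s = (if m3 y s = true ∨ m1 y s = true then (0 : ℝ) else 1 / 2) := by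
    intro y s
    by_contra hne
    exact w5R y s hne
  have d30 : ∀ y s, m3 y s = true → m0 y s = true → False := by
    intro y s e3 e0
    have := m0p y s e0
    rw [w5e, if_pos (Or.inl e3)] at this
    exact lt_irrefl _ this
  have d10 : ∀ y s, m1 y s = true → m0 y s = true → False := by
    intro y s e1 e0
    have := m0p y s e0
    rw [w5e, if_pos (Or.inr e1)] at this
    exact lt_irrefl _ this
  refine ⟨fun y s => if m3 y s = true then (3 : Fin 4) else if m1 y s = true then 1 else
      if m0 y s = true then 0 else 2, ?_, ?_, ?_⟩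
  · intro s
    exact FM.ite (m3m s) (FM.const _) (FM.ite (m1m s) (FM.const _)
      (FM.ite (m0m' s) (FM.const _) (FM.const _)))
  · intro x
    obtain ⟨d3, hd3⟩ := c4c_one' (m3v' x)
    obtain ⟨d1, hd1⟩ := c4c_one' (m1v' x)
    obtain ⟨d0, hd0⟩ := c4c_one' (m0v1 x)
    exact c4c_inj (M3 := fun d => m3 (c4c_pt a h x d) d.1)
      (M1 := fun d => m1 (c4c_pt a h x d) d.1) (M0 := fun d => m0 (c4c_pt a h x d) d.1)
      hd3 hd1 hd0 (fun d => d31 _ _) (fun d => d30 _ _) (fun d => d10 _ _)
  · intro i y hy s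
    rw [← c3' i y hy s]
    by_cases e3 : m3 y s = true
    · simp [e3]
    · constructor
      · intro h'
        exfalso
        have h'' : (if m3 y s = true then (3 : Fin 4) else if m1 y s = true then 1 else
            if m0 y s = true then 0 else 2) = 3 := h'
        rw [if_neg e3] at h''
        revert h''
        split_ifs <;> decide
      · intro h'
        exact absurd h' e3

end Pool.Agent.MP1822N
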