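import Pool.Agent.Lib.MP_1822da_lc.NB.C4b

/-!
# The clients (section 7.3)

PROOF. loc_hall for `cub'` (`R = R3 β`, bd_MA): `r2, L2`; for the empty chain from `xF β κ` to itself, with `R = fun _ _ => False` (bd_xF): `r3, L3`.
`w y true = if m3 y then 1 else 0`, `w y false = 0`. `vs w ∈ {0, 1}`. On `Zn al be`: `w y s = MH β false (p y) s`. loc_hall (cub'): `w'`, `m`, `vs m = vs w`.
`m y true → m3 y` (`0 < w' y true`; if `w' y true = w y true` clear, otherwise `R3 β (p y) true`, `β (p y) = false`, `y ∈ Zn al be`, so `m3 y` by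
hypothesis). For `y ∉ Zn al be`: `w' y = w y`, so `m y false = false`, and `m3 y → m y true` (single_edge: `w' y true = 1 = vs w y`).
`w5 y true = if m3 y ∧ ¬ m y true then 1/2 else 0`, `w5 y false = if m y false then 0 else 1/2`: `vs w5 = 1`
(`vs` of `m3|h + a-edges - m` is `σ + 2 - σ`, `σ = vs w`). On `Zn (al + r2) (be - r2)`: `m y s ↔ s = false ∧ κ (p y) = true`; single_edge needs
`vs w y = 1`: there `m3 = !β ∘ p` at `y` and `h⁻¹ • y`, one of them is true; shrink the zone by one. So `w5 = xF β κ ∘ p` there. loc_hall (empty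
chain, `w5' = w5`): `m'`, `m' y s → 0 < w5 y s`, `vs m' = 1`.
`q y s = 2` if `m y s`, else `1` if `m' y s`, else `0`. At `x` the edges of the client graph (the two `a`-edges, and the `h`-edge with `m3` if there
is one): `m` has exactly one of them if there is an `m3`-edge, none otherwise; `m'` has exactly one, not in `m`; there are `2 + σ`
edges, so the remaining one has colour `0`.
-/

namespace Pool.Agent.MP1822N

open Set MeasureTheory Pointwise
open Pool.Agent.Lib.MP_1822da_lc Pool.Agent.MP1822T Pool.Agent.MP1822C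

universe u v

variable {Γ : Type u} [Group Γ]


section Priv

variable {X : Type v} [MulAction Γ X]

private lemma wt_eq (m : X → Bool → Bool) (y : X) (s : Bool) :
    wt m y s = ((m y s).toNat : ℝ) := by
  unfold wt
  cases m y s <;> simp

private lemma vs_wt (a h : Γ) (m : X → Bool → Bool) (y : X) :
    vs a h (wt m) y = ((((m y true).toNat + (m (h⁻¹ • y) true).toNat)
      + ((m y false).toNat + (m (a⁻¹ • y) false).toNat) : ℕ) : ℝ) := by
  simp only [vs, wt_eq, Fintype.sum_bool, gen, Bool.false_eq_true, if_true, if_false]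
  push_cast
  ring

set_option synthInstance.maxSize 4000 in
set_option maxRecDepth 10000 in
private lemma fin_case : ∀ t0 t1 : Bool, ∀ qA0 qA1 qH0 qH1 : Fin 3,
    (t0 = true → t1 = false) →
    ((if qH0 = 2 then 1 else 0) + (if qH1 = 2 then 1 else 0)
      + ((if qA0 = 2 then 1 else 0) + (if qA1 = 2 then 1 else 0)) = t0.toNat + t1.toNat) →
    ((if qH0 = 1 then 1 else 0) + (if qH1 = 1 then 1 else 0)
      + ((if qA0 = 1 then 1 else 0) + (if qA1 = 1 then 1 else 0)) = 1) →
    (qH0 ≠ 0 → t0 = true) → (qH1 ≠ 0 → t1 = true) →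
    (qA0 ≠ qA1 ∧ (t0 = true → qH0 ≠ qA0 ∧ qH0 ≠ qA1) ∧ (t1 = true → qH1 ≠ qA0 ∧ qH1 ≠ qA1) ∧
      (t0 = false → t1 = false → qA0 ≠ 2 ∧ qA1 ≠ 2)) := by
  decide

/-- the colour of an edge -/
private def qc (m m' : Bool) : Fin 3 := if m then 2 else if m' then 1 else 0

private lemma qc_two (m m' : Bool) : (if qc m m' = 2 then 1 else 0) = m.toNat := by
  revert m m'; decide

private lemma qc_one {m m' : Bool} (h : m' = true → m = false) :
    (if qc m m' = 1 then 1 else 0) = m'.toNat := by
  revert h; revert m m'; decide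

private lemma qc_zero {m m' t : Bool} (h : m = true → t = true) (h' : m' = true → t = true) :
    qc m m' ≠ 0 → t = true := by
  revert h h'; revert m m' t; decide

end Priv

/-- **The clients.** `m3` is the set of the `h`-edges of a matching, prescribed on `Zn al be`. The
edges `(y, a)` and the edges `(y, h)` with `m3 y` are coloured with three colours; colour 2 replaces
the colour of `m3`. -/
theorem client [Countable Γ] {F : Set Γ} (h1 : (1 : Γ) ∈ F) (hinv : ∀ s ∈ F, s⁻¹ ∈ F)
    (hgen : Subgroup.closure F = ⊤) {a h : Γ} (ha : a ∈ F) (hh : h ∈ F) {β κ : Γ → Bool}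
    (hD : Dsg a h β κ) :
    ∃ r L : ℕ, ∀ {X : Type v} [MulAction Γ X] [MeasurableSpace X] [StandardBorelSpace X]
      (_ : ∀ γ : Γ, Measurable fun x : X => γ • x)
      (_ : ∀ (γ : Γ) (x : X), γ • x = x → γ = 1)
      {c : X → Bool} (_ : ∀ s x, c (gen a h s • x) = !(c x))
      {U : Set X} {M : ℕ} {p : X → Γ} (_ : FrD F U M p)
      {al be : ℕ} (_ : r ≤ al) (_ : al + L ≤ be) (_ : be + r ≤ M)
      {m3 : X → Bool} (_ : MeasurableSet {x | m3 x = true})
      (_ : ∀ x, m3 x = true → m3 (h⁻¹ • x) = false)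
      (_ : ∀ y ∈ Zn F U al be, m3 y = !(β (p y))),
      ∃ q : X → Bool → Fin 3, (∀ s, FM fun x => q x s) ∧
        (∀ x, q x false ≠ q (a⁻¹ • x) false) ∧
        (∀ x, m3 x = true → q x true ≠ q x false ∧ q x true ≠ q (a⁻¹ • x) false) ∧
        (∀ x, m3 (h⁻¹ • x) = true →
          q (h⁻¹ • x) true ≠ q x false ∧ q (h⁻¹ • x) true ≠ q (a⁻¹ • x) false) ∧
        (∀ x, m3 x = false → m3 (h⁻¹ • x) = false → q x false ≠ 2 ∧ q (a⁻¹ • x) false ≠ 2) ∧
        ∀ x, x ∉ Zn F U al be → q x false ≠ 2 ∧ (m3 x = true → q x true = 2) := by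
  obtain ⟨r2, L2, hL2, H2⟩ := loc_hall.{u, v} h1 hinv hgen ha hh hD.cub' (bd_MA hD.κa true)
  obtain ⟨r3, L3, hL3, H3⟩ := loc_hall.{u, v} h1 hinv hgen ha hh
    (Relation.ReflTransGen.refl : Chain a h (fun _ _ => False) (xF β κ) (xF β κ)) (bd_xF hD)
  refine ⟨r2 + r3 + 1, L2 + L3 + 2 * r2 + 2, ?_⟩
  intro X _ _ _ hmeas hfree c hc U M p H al be hal hbe hM m3 hm3 hm3h hm3z
  have hmh : Measurable fun x : X => h⁻¹ • x := hmeas h⁻¹
  -- first weight
  set t : X → Bool → Bool := fun y s => s && m3 y with ht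
  have hw0 : ∀ y s, 0 ≤ wt t y s := by
    intro y s
    rw [wt_eq]
    exact Nat.cast_nonneg _
  have hvt : ∀ y, vs a h (wt t) y = (((m3 y).toNat + (m3 (h⁻¹ • y)).toNat : ℕ) : ℝ) := by
    intro y
    rw [vs_wt]
    simp [ht]
  have hvt01 : ∀ y, vs a h (wt t) y = 0 ∨ vs a h (wt t) y = 1 := by
    intro y
    rw [hvt]
    have h2 := hm3h y
    cases h3 : m3 y with
    | false => cases m3 (h⁻¹ • y) <;> simp
    | true => rw [h2 h3]; simp
  have hwm : ∀ s, Measurable fun x => wt t x s := by
    intro s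
    unfold wt
    refine Measurable.ite ?_ measurable_const measurable_const
    cases s
    · simp [ht]
    · simpa [ht] using hm3
  have hwz : ∀ y ∈ Zn F U al be, ∀ s, wt t y s = MH β false (p y) s := by
    intro y hy s
    unfold wt MH
    have h2 := hm3z y hy
    cases s
    · simp [ht]
    · simp [ht, h2]
  obtain ⟨w', m, hw'm, hw'0, hw'v, hw'o, hw'z, hw'R, hmm, hmw, hmv⟩ :=
    H2 hmeas hfree hc H (by omega : r2 ≤ al) (by omega : al + L2 ≤ be) (by omega : be + r2 ≤ M)
      hwm hw0 hvt01 hwz
  -- (P1)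
  have P1 : ∀ y, m y true = true → m3 y = true := by
    intro y hy
    have h2 := hmw y true hy
    by_cases h3 : w' y true = wt t y true
    · rw [h3, wt_eq] at h2
      have h4 : t y true = true := by
        by_contra h5
        rw [Bool.not_eq_true] at h5
        rw [h5] at h2
        simp at h2
      simpa [ht] using h4
    · have h4 : y ∈ Zn F U al be := by
        by_contra h5
        exact h3 (hw'o y h5 true)
      have h5 := hw'R y true h3
      rcases h5 with h5 | h5
      · exact absurd h5 (by simp)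
      · rw [hm3z y h4, h5]; rfl
  have P2 : ∀ y, y ∉ Zn F U al be → m y false = false ∧ (m3 y = true → m y true = true) := by
    intro y hy
    refine ⟨?_, ?_⟩
    · by_contra h2
      rw [Bool.not_eq_false] at h2
      have h3 := hmw y false h2
      rw [hw'o y hy, wt_eq] at h3
      simp [ht] at h3
    · intro h2
      have h3 : w' y true = 1 := by
        rw [hw'o y hy, wt_eq]
        simp [ht, h2]
      have h4 : vs a h (wt t) y = 1 := by
        rw [hvt, hm3h y h2, h2]; simp
      exact (single_edge hw'0 hmw (y := y) ((hmv y).trans (hw'v y).symm)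
        ((hw'v y).trans h4) (Or.inr h3)).2 h3
  -- inside
  have hZ : ∀ y ∈ Zn F U (al + r2 + 1) (be - r2 - 1),
      y ∈ Zn F U (al + r2) (be - r2) ∧ y ∈ Zn F U al be ∧ h⁻¹ • y ∈ Zn F U al be
        ∧ p (h⁻¹ • y) = h⁻¹ * p y := by
    intro y hy
    have hF : h⁻¹ ∈ F ^ 1 := by rw [pow_one]; exact hinv h hh
    have h2 := Zn_smul h1 hinv (by omega : 1 ≤ al + r2 + 1) hF hy
    refine ⟨⟨zone_mono h1 U (by omega) hy.1, fun h3 => hy.2 (zone_mono h1 U (by omega) h3)⟩,
      ⟨zone_mono h1 U (by omega) hy.1, fun h3 => hy.2 (zone_mono h1 U (by omega) h3)⟩,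
      ⟨zone_mono h1 U (by omega) h2.1, fun h3 => h2.2 (zone_mono h1 U (by omega) h3)⟩, ?_⟩
    exact frame_smul H (by omega : (be - r2 - 1) + 1 ≤ M) hy.1 hF
  have hβi : ∀ z, β (h⁻¹ * z) = !(β z) := by
    intro z
    have h2 := hD.βh (h⁻¹ * z)
    rw [mul_inv_cancel_left] at h2
    rw [h2, Bool.not_not]
  have hin : ∀ y ∈ Zn F U (al + r2 + 1) (be - r2 - 1), ∀ s,
      (m y s = true ↔ s = false ∧ κ (p y) = true) := by
    intro y hy s
    obtain ⟨h2, h3, h4, h5⟩ := hZ y hy
    have h6 : vs a h (wt t) y = 1 := by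
      rw [hvt, hm3z y h3, hm3z _ h4, h5, hβi]
      cases β (p y) <;> simp
    have h7 := hw'z y h2 s
    have h8 : w' y s = 0 ∨ w' y s = 1 := by
      rw [h7]
      unfold MA
      split_ifs
      · exact Or.inr rfl
      · exact Or.inl rfl
    have h9 := single_edge hw'0 hmw (y := y) ((hmv y).trans (hw'v y).symm)
        ((hw'v y).trans h6) h8
    rw [h9, h7]
    unfold MA
    split_ifs with h10
    · simp [h10]
    · simp only [zero_ne_one, false_iff]
      exact h10
  -- second weight
  set w5 : X → Bool → ℝ := fun y s =>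
    (((if s then m3 y else true).toNat : ℝ) - ((m y s).toNat : ℝ)) / 2 with hw5
  have hsub : ∀ y s, m y s = true → (if s then m3 y else true) = true := by
    intro y s hy
    cases s
    · rfl
    · exact P1 y hy
  have hw50 : ∀ y s, 0 ≤ w5 y s := by
    intro y s
    have h2 := hsub y s
    simp only [hw5]
    cases h3 : m y s with
    | false =>
      rw [Bool.toNat_false, Nat.cast_zero, sub_zero]
      positivity
    | true => rw [h2 h3]; simp
  have hw5pos : ∀ y s, 0 < w5 y s → m y s = false ∧ (s = true → m3 y = true) := by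
    intro y s h4
    simp only [hw5] at h4
    cases h3 : m y s with
    | true => rw [h3, hsub y s h3] at h4; simp at h4
    | false =>
      refine ⟨rfl, ?_⟩
      intro h5
      rw [h3, h5] at h4
      by_contra h6
      rw [Bool.not_eq_true] at h6
      simp [h6] at h4
  have hv5 : ∀ y, vs a h w5 y = 1 := by
    intro y
    have h2 := hmv y
    rw [vs_wt, hvt] at h2
    have h3 := Nat.cast_injective (R := ℝ) h2
    have h4 : (((m y true).toNat + (m (h⁻¹ • y) true).toNat
      + ((m y false).toNat + (m (a⁻¹ • y) false).toNat) : ℕ) : ℝ)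
      = (((m3 y).toNat + (m3 (h⁻¹ • y)).toNat : ℕ) : ℝ) := h2
    push_cast at h4
    simp only [vs, hw5, Fintype.sum_bool, gen, Bool.false_eq_true, if_true, if_false,
      Bool.toNat_true]
    push_cast
    linarith
  have hw5m : ∀ s, Measurable fun x => w5 x s := by
    intro s
    have e : ∀ {g : X → Bool}, MeasurableSet {x | g x = true} →
        Measurable fun x => ((g x).toNat : ℝ) := by
      intro g hg
      have e2 : (fun x => ((g x).toNat : ℝ)) = fun x => if g x = true then 1 else 0 := by
        funext x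
        cases g x <;> simp
      rw [e2]
      exact Measurable.ite hg measurable_const measurable_const
    simp only [hw5]
    refine Measurable.div_const (Measurable.sub ?_ (e (hmm s))) 2
    cases s
    · simp
    · simpa using e hm3
  have hw5z : ∀ y ∈ Zn F U (al + r2 + 1) (be - r2 - 1), ∀ s, w5 y s = xF β κ (p y) s := by
    intro y hy s
    have h2 := hin y hy s
    have h3 := hm3z y (hZ y hy).2.1
    simp only [hw5, xF]
    cases s
    · cases h4 : κ (p y) with
      | false =>
        have h5 : m y false = false := by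
          by_contra h6
          rw [Bool.not_eq_false] at h6
          have := (h2.1 h6).2
          rw [h4] at this
          exact absurd this (by simp)
        simp [h5]
      | true =>
        have h5 : m y false = true := h2.2 ⟨rfl, h4⟩
        simp [h5]
    · have h5 : m y true = false := by
        by_contra h6
        rw [Bool.not_eq_false] at h6
        exact absurd (h2.1 h6).1 (by simp)
      cases h4 : β (p y) <;> simp [h5, h3, h4]
  obtain ⟨w5', m', _, _, _, _, _, hw5R, hm'm, hm'w, hm'v⟩ :=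
    H3 hmeas hfree hc H (by omega : r3 ≤ al + r2 + 1) (by omega : al + r2 + 1 + L3 ≤ be - r2 - 1)
      (by omega : be - r2 - 1 + r3 ≤ M) hw5m hw50 (fun y => Or.inr (hv5 y)) hw5z
  have hw55 : ∀ y s, w5' y s = w5 y s := by
    intro y s
    by_contra h2
    exact hw5R y s h2
  have hm'1 : ∀ y s, m' y s = true → m y s = false := fun y s hy =>
    (hw5pos y s (hw55 y s ▸ hm'w y s hy)).1
  have hm'2 : ∀ y, m' y true = true → m3 y = true := fun y hy =>
    (hw5pos y true (hw55 y true ▸ hm'w y true hy)).2 rfl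
  have key : ∀ x, _ := fun x => fin_case (m3 x) (m3 (h⁻¹ • x))
    (qc (m x false) (m' x false)) (qc (m (a⁻¹ • x) false) (m' (a⁻¹ • x) false))
    (qc (m x true) (m' x true)) (qc (m (h⁻¹ • x) true) (m' (h⁻¹ • x) true))
    (hm3h x)
    (by
      have h2 := hmv x
      rw [vs_wt, hvt] at h2
      rw [qc_two, qc_two, qc_two, qc_two]
      exact_mod_cast h2)
    (by
      have h2 := hm'v x
      rw [vs_wt, hv5] at h2
      rw [qc_one (hm'1 _ _), qc_one (hm'1 _ _), qc_one (hm'1 _ _), qc_one (hm'1 _ _)]
      exact_mod_cast h2)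
    (qc_zero (P1 _) (hm'2 _)) (qc_zero (P1 _) (hm'2 _))
  refine ⟨fun y s => qc (m y s) (m' y s), ?_, fun x => (key x).1, fun x => (key x).2.1,
    fun x => (key x).2.2.1, fun x => (key x).2.2.2, ?_⟩
  · intro s
    exact FM.ite (hmm s) (FM.const 2) (FM.ite (hm'm s) (FM.const 1) (FM.const 0))
  · intro x hx
    obtain ⟨h2, h3⟩ := P2 x hx
    refine ⟨?_, ?_⟩
    · simp only [h2]
      cases m' x false <;> decide
    · intro h4
      simp only [h3 h4]
      cases m' x true <;> decide

end Pool.Agent.MP1822N
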