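import Pool.Agent.Lib.MP_1822da_lc.NB.Defs

/-!
# From edge colourings to `BC`

PROOF of BC_of_colouring: `q` is a proper edge colouring (edge `(x, i)` joins `x` and `g i • x`) with
`|K| = 2 |I| = |T|` colours (`T` is the disjoint union of the images of `g` and of `g⁻¹`, by `hgi`, `hne`); take a bijection `K ≃ T` and `col γ x = q x i` if
`γ = g i`, `q ((g i)⁻¹ • x) i` if `γ = (g i)⁻¹` (unique `i` and sign by `hgi`, `hne`). See the definition of `BC` in TreeD.lean.
-/

namespace Pool.Agent.MP1822N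

open Set MeasureTheory Pointwise
open Pool.Agent.Lib.MP_1822da_lc Pool.Agent.MP1822T Pool.Agent.MP1822C

universe u v

variable {Γ : Type u} [Group Γ] {X : Type v} [MulAction Γ X]


theorem BC_of_colouring [MeasurableSpace X] (hmeas : ∀ γ : Γ, Measurable fun x : X => γ • x)
    {I K : Type} [Fintype I] [Fintype K] (g : I → Γ)
    (hgi : Function.Injective g) (hne : ∀ i j, g i ≠ (g j)⁻¹)
    (hcard : Fintype.card K = 2 * Fintype.card I) (q : X → I → K) (hq : ∀ i, FM fun x => q x i)
    (hinj : ∀ x, Function.Injective fun d : I × Bool =>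
      q (if d.2 then (g d.1)⁻¹ • x else x) d.1)
    (T : Finset Γ) (hT : ∀ γ, γ ∈ T ↔ ∃ i, γ = g i ∨ γ = (g i)⁻¹) : BC X T := by
  classical
  let e : I × Bool → Γ := fun d => if d.2 then (g d.1)⁻¹ else g d.1
  have he : Function.Injective e := by
    rintro ⟨i, s⟩ ⟨j, t⟩ h
    cases s <;> cases t
    · exact Prod.ext (hgi h) rfl
    · exact absurd h (hne i j)
    · exact absurd h.symm (hne j i)
    · exact Prod.ext (hgi (inv_injective h)) rfl
  have hTe : ∀ γ, γ ∈ T ↔ ∃ d, e d = γ := by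
    intro γ
    rw [hT]
    constructor
    · rintro ⟨i, rfl | rfl⟩
      · exact ⟨(i, false), rfl⟩
      · exact ⟨(i, true), rfl⟩
    · rintro ⟨⟨i, s⟩, rfl⟩
      cases s
      · exact ⟨i, Or.inl rfl⟩
      · exact ⟨i, Or.inr rfl⟩
  have hTc : T.card = 2 * Fintype.card I := by
    have h1 : T = Finset.univ.image e := by
      ext γ
      rw [hTe, Finset.mem_image]
      simp
    rw [h1, Finset.card_image_of_injective _ he, Finset.card_univ, Fintype.card_prod,
      Fintype.card_bool, mul_comm]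
  have hK : Fintype.card K = Fintype.card T := by
    rw [hcard, Fintype.card_coe, hTc]
  let ψ : K ≃ T := Fintype.equivOfCardEq hK
  let c : I × Bool → X → K := fun d x => q (if d.2 then (g d.1)⁻¹ • x else x) d.1
  let col : Γ → X → Γ := fun γ x =>
    if h : ∃ d, e d = γ then (ψ (c h.choose x) : Γ) else 1
  have hcol : ∀ d x, col (e d) x = (ψ (c d x) : Γ) := by
    intro d x
    have h : ∃ d', e d' = e d := ⟨d, rfl⟩
    show (if h : ∃ d', e d' = e d then (ψ (c h.choose x) : Γ) else 1) = _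
    rw [dif_pos h, he h.choose_spec]
  refine ⟨col, ?_, ?_, ?_, ?_⟩
  · intro γ hγ
    obtain ⟨d, rfl⟩ := (hTe γ).1 hγ
    have h1 : FM (c d) := by
      obtain ⟨i, s⟩ := d
      cases s
      · exact hq i
      · exact (hq i).comp_meas (hmeas _)
    have h2 := h1.comp (fun k => (ψ k : Γ))
    have h3 : col (e d) = fun x => (ψ (c d x) : Γ) := funext (hcol d)
    rw [h3]
    exact h2
  · intro γ hγ x
    obtain ⟨d, rfl⟩ := (hTe γ).1 hγ
    rw [hcol]
    exact (ψ (c d x)).2
  · intro γ hγ x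
    obtain ⟨⟨i, s⟩, rfl⟩ := (hTe γ).1 hγ
    cases s
    · have h1 : (e (i, false))⁻¹ = e (i, true) := rfl
      rw [h1, hcol, hcol]
      show (ψ (q ((g i)⁻¹ • g i • x) i) : Γ) = ψ (q x i)
      rw [inv_smul_smul]
    · have h1 : (e (i, true))⁻¹ = e (i, false) := inv_inv _
      rw [h1, hcol, hcol]
      rfl
  · intro x γ hγ δ hδ h
    obtain ⟨d, rfl⟩ := (hTe γ).1 hγ
    obtain ⟨d', rfl⟩ := (hTe δ).1 hδ
    rw [hcol, hcol] at h
    have h1 := ψ.injective (Subtype.ext h)
    rw [hinj x h1]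

end Pool.Agent.MP1822N
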