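import Pool.Agent.Lib.MP_1822da_lc.NB.C5a

/-!
# The colouring of a star (section 7.4)

`q0` colours the edges of the base pair `(a0, h)` with 4 colours, `m3 y = (q0 y true = 3)`; `qi i` colours the `a i`-edges and the `h`-edges with
`m3` with 3 colours.
PROOF. BC_of_colouring with `K = Fin 4 ⊕ (ι × Bool)`, `I = Option (Option ι)` (`none` = `h`, `some none` = `a0`,
`some (some i)` = `a i`), `|K| = 4 + 2 |ι|`. Colours:
 edge `(y, a i)`: `inl 3` if `qi i y false = 2`, else `inr (i, qi i y false = 1)`;
 edge `(y, a0)`: `inl (q0 y false)`;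
 edge `(y, h)`: if `m3 y = false`: `inl (q0 y true)`; if `m3 y` and `qi i y true ≠ 2` for some `i` (then `y ∈ Z i`, so `i` is unique by `hfar`):
 `inr (i, qi i y true = 1)`; otherwise `inl 3`.
Injectivity at `x`: colours `inl 0, inl 1, inl 2`: only from `q0`, which is injective at `x`. Colours `inr (i, b)`: from `qi i` at
`x` (edges `(x, a i)`, `((a i)⁻¹ x, a i)`, and the `h`-edge with `m3`), different by `hq1`–`hq3`. Colour `inl 3`: if no `h`-edge at `x` has `m3`
(`m3 x = m3 (h⁻¹ x) = false`), no `qi` has colour 2 at `x` (`hq4`), and `q0 = 3` at most once. If there is an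
`h`-edge `E` with `m3` at `x` (only one, and no `a0`-edge with `q0 = 3`, by injectivity of `q0`): for every `i` exactly one of the three edges
`E`, `(x, a i)`, `((a i)⁻¹ x, a i)` has `qi = 2` (three different values in `Fin 3`). If it is not `E` then the base
point of `E` (where `qi i _ true ≠ 2`) is in `Z i` by `hq5`; so this happens for at most one `i` (`hfar`). If for none: `inl 3` only at `E`. If for
`i`: `E` has colour `inr (i, _)`, and the only edge of colour `inl 3` at `x` is the `a i`-edge with `qi = 2`.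
-/

namespace Pool.Agent.MP1822N

open Set MeasureTheory Pointwise
open Pool.Agent.Lib.MP_1822da_lc Pool.Agent.MP1822T Pool.Agent.MP1822C

universe u v

variable {Γ : Type u} [Group Γ] {X : Type v} [MulAction Γ X]


/-- the generators of a star -/
def sgen (h a0 : Γ) {ι : Type} (a : ι → Γ) : Option (Option ι) → Γ
  | none => h
  | some none => a0
  | some (some i) => a i

open Classical in
/-- the colour of the `h`-edge -/
noncomputable def hcol {ι : Type} (u : Fin 4) (w : ι → Fin 3) : Fin 4 ⊕ (ι × Bool) :=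
  if u ≠ 3 then Sum.inl u
  else if hw : ∃ i, w i ≠ 2 then Sum.inr (hw.choose, decide (w hw.choose = 1)) else Sum.inl 3

/-- the colour of a leaf edge -/
def lcol {ι : Type} (i : ι) (e : Fin 3) : Fin 4 ⊕ (ι × Bool) :=
  if e = 2 then Sum.inl 3 else Sum.inr (i, decide (e = 1))

lemma hcol_inl {ι : Type} {u : Fin 4} {w : ι → Fin 3} {k : Fin 4}
    (H : hcol u w = Sum.inl k) : k = u ∧ (u = 3 → ∀ i, w i = 2) := by
  unfold hcol at H
  by_cases h1 : u ≠ 3
  · rw [if_pos h1] at H
    exact ⟨(Sum.inl.inj H).symm, fun h2 => absurd h2 h1⟩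
  · rw [if_neg h1] at H
    by_cases hw : ∃ i, w i ≠ 2
    · rw [dif_pos hw] at H
      exact absurd H (by simp)
    · rw [dif_neg hw] at H
      refine ⟨?_, fun _ i => ?_⟩
      · rw [← Sum.inl.inj H]; exact (not_not.1 h1).symm
      · by_contra hi
        exact hw ⟨i, hi⟩

lemma hcol_inr {ι : Type} {u : Fin 4} {w : ι → Fin 3} {i : ι} {b : Bool}
    (H : hcol u w = Sum.inr (i, b)) : u = 3 ∧ w i ≠ 2 ∧ b = decide (w i = 1) := by
  unfold hcol at H
  by_cases h1 : u ≠ 3
  · rw [if_pos h1] at H
    exact absurd H (by simp)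
  · rw [if_neg h1] at H
    by_cases hw : ∃ i, w i ≠ 2
    · rw [dif_pos hw] at H
      have h2 := Sum.inr.inj H
      have h3 : hw.choose = i := congrArg Prod.fst h2
      have h4 : decide (w hw.choose = 1) = b := congrArg Prod.snd h2
      have h5 := hw.choose_spec
      rw [h3] at h4 h5
      exact ⟨not_not.1 h1, h5, h4.symm⟩
    · rw [dif_neg hw] at H
      exact absurd H (by simp)

lemma lcol_inl {ι : Type} {i : ι} {e : Fin 3} {k : Fin 4}
    (H : lcol i e = Sum.inl k) : k = 3 ∧ e = 2 := by
  unfold lcol at H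
  by_cases h1 : e = 2
  · rw [if_pos h1] at H
    exact ⟨(Sum.inl.inj H).symm, h1⟩
  · rw [if_neg h1] at H
    exact absurd H (by simp)

lemma lcol_inr {ι : Type} {i j : ι} {e : Fin 3} {b : Bool}
    (H : lcol i e = Sum.inr (j, b)) : i = j ∧ e ≠ 2 ∧ b = decide (e = 1) := by
  unfold lcol at H
  by_cases h1 : e = 2
  · rw [if_pos h1] at H
    exact absurd H (by simp)
  · rw [if_neg h1] at H
    have h2 := Sum.inr.inj H
    exact ⟨congrArg Prod.fst h2, h1, (congrArg Prod.snd h2).symm⟩

lemma fin3_eq {e f : Fin 3} (he : e ≠ 2) (hf : f ≠ 2) (h : decide (e = 1) = decide (f = 1)) :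
    e = f := by
  revert e f; decide

lemma hcol_ne_hcol {ι : Type} {u u' : Fin 4} {w w' : ι → Fin 3} (h : u ≠ u') :
    hcol u w ≠ hcol u' w' := by
  intro H
  rcases h1 : hcol u w with k | ⟨i, b⟩
  · have h2 := hcol_inl h1
    have h3 := hcol_inl (H ▸ h1)
    exact h (h2.1.symm.trans h3.1)
  · have h2 := hcol_inr h1
    have h3 := hcol_inr (H ▸ h1)
    exact h (h2.1.trans h3.1.symm)

lemma hcol_ne_inl {ι : Type} {u v : Fin 4} {w : ι → Fin 3} (h : u ≠ v) :
    hcol u w ≠ Sum.inl v := fun H => h (hcol_inl H).1.symm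

lemma hcol_ne_lcol {ι : Type} {u : Fin 4} {w : ι → Fin 3} {i : ι} {e : Fin 3}
    (h : u = 3 → w i ≠ e) : hcol u w ≠ lcol i e := by
  intro H
  rcases h1 : lcol i e with k | ⟨j, b⟩
  · have h2 := lcol_inl h1
    have h3 := hcol_inl (H.trans h1)
    have h4 : u = 3 := h3.1.symm.trans h2.1
    exact h h4 ((h3.2 h4 i).trans h2.2.symm)
  · have h2 := lcol_inr h1
    have h3 := hcol_inr (H.trans h1)
    rw [← h2.1] at h3
    exact h h3.1 (fin3_eq h3.2.1 h2.2.1 (h3.2.2.symm.trans h2.2.2))

lemma inl_ne_lcol {ι : Type} {v : Fin 4} {i : ι} {e : Fin 3}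
    (h : v = 3 → e ≠ 2) : (Sum.inl v : Fin 4 ⊕ (ι × Bool)) ≠ lcol i e := by
  intro H
  have h2 := lcol_inl H.symm
  exact h h2.1 h2.2

lemma lcol_ne_lcol {ι : Type} {i j : ι} {e f : Fin 3}
    (h : e = 2 → f = 2 → False) (hij : i = j → e ≠ f) : lcol i e ≠ lcol j f := by
  intro H
  rcases h1 : lcol i e with k | ⟨l, b⟩
  · exact h (lcol_inl h1).2 (lcol_inl (H.symm.trans h1)).2
  · have h2 := lcol_inr h1
    have h3 := lcol_inr (H.symm.trans h1)
    exact hij (h2.1.trans h3.1.symm) (fin3_eq h2.2.1 h3.2.1 (h2.2.2.symm.trans h3.2.2))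

/-- the colour of an edge -/
noncomputable def scol {ι : Type} (q0 : X → Bool → Fin 4) (qi : ι → X → Bool → Fin 3) (x : X) :
    Option (Option ι) → Fin 4 ⊕ (ι × Bool)
  | none => hcol (q0 x true) fun i => qi i x true
  | some none => Sum.inl (q0 x false)
  | some (some i) => lcol i (qi i x false)


theorem star_colour [MeasurableSpace X] (hmeas : ∀ γ : Γ, Measurable fun x : X => γ • x)
    {h a0 : Γ} {ι : Type} [Finite ι] {a : ι → Γ} (hai : Function.Injective a)
    (hha : ∀ i, h ≠ a i) (hha' : ∀ i, h ≠ (a i)⁻¹) (h0 : h ≠ a0) (h0' : h ≠ a0⁻¹)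
    (ha0 : ∀ i, a0 ≠ a i) (ha0' : ∀ i, a0 ≠ (a i)⁻¹) (haa : ∀ i j, a i ≠ (a j)⁻¹)
    (hh : h ≠ h⁻¹) (h00 : a0 ≠ a0⁻¹)
    {q0 : X → Bool → Fin 4} (hq0 : ∀ s, FM fun x => q0 x s)
    (hinj : ∀ x, Function.Injective fun d : Bool × Bool =>
      q0 (if d.2 then (gen a0 h d.1)⁻¹ • x else x) d.1)
    {qi : ι → X → Bool → Fin 3} (hqi : ∀ i s, FM fun x => qi i x s)
    (hq1 : ∀ i x, qi i x false ≠ qi i ((a i)⁻¹ • x) false)
    (hq2 : ∀ i x, q0 x true = 3 →
      qi i x true ≠ qi i x false ∧ qi i x true ≠ qi i ((a i)⁻¹ • x) false)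
    (hq3 : ∀ i x, q0 (h⁻¹ • x) true = 3 → qi i (h⁻¹ • x) true ≠ qi i x false ∧
      qi i (h⁻¹ • x) true ≠ qi i ((a i)⁻¹ • x) false)
    (hq4 : ∀ i x, q0 x true ≠ 3 → q0 (h⁻¹ • x) true ≠ 3 →
      qi i x false ≠ 2 ∧ qi i ((a i)⁻¹ • x) false ≠ 2)
    {Z : ι → Set X} (hq5 : ∀ i x, x ∉ Z i → q0 x true = 3 → qi i x true = 2)
    (hfar : ∀ i j, i ≠ j → Disjoint (Z i) (Z j))
    {T : Finset Γ} (hT : ∀ γ, γ ∈ T ↔ (γ = h ∨ γ = a0 ∨ ∃ i, γ = a i) ∨
      (γ⁻¹ = h ∨ γ⁻¹ = a0 ∨ ∃ i, γ⁻¹ = a i)) : BC X T := by
  classical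
  have := Fintype.ofFinite ι
  have hflip : ∀ {b c : Γ}, b ≠ c⁻¹ → c ≠ b⁻¹ := by
    intro b c hbc hcb
    exact hbc (by rw [hcb, inv_inv])
  refine BC_of_colouring hmeas (I := Option (Option ι)) (K := Fin 4 ⊕ (ι × Bool))
    (sgen h a0 a) ?_ ?_ ?_ (scol q0 qi) ?_ ?_ T ?_
  · rintro (_ | _ | i) (_ | _ | j) hij
    · rfl
    · exact absurd hij h0
    · exact absurd hij (hha j)
    · exact absurd hij.symm h0
    · rfl
    · exact absurd hij (ha0 j)
    · exact absurd hij.symm (hha i)
    · exact absurd hij.symm (ha0 i)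
    · rw [hai hij]
  · rintro (_ | _ | i) (_ | _ | j)
    · exact hh
    · exact h0'
    · exact hha' j
    · exact hflip h0'
    · exact h00
    · exact ha0' j
    · exact hflip (hha' i)
    · exact hflip (ha0' i)
    · exact haa i j
  · simp only [Fintype.card_sum, Fintype.card_fin, Fintype.card_prod, Fintype.card_bool,
      Fintype.card_option]
    omega
  · rintro (_ | _ | i)
    · exact ((hq0 true).pair (FM.pi fun i => hqi i true)).comp
        (fun z : Fin 4 × (ι → Fin 3) => hcol z.1 z.2)
    · exact (hq0 false).comp (fun z : Fin 4 => (Sum.inl z : Fin 4 ⊕ (ι × Bool)))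
    · exact (hqi i false).comp (fun z : Fin 3 => lcol i z)
  · intro x
    have I := hinj x
    have i1 : q0 x true ≠ q0 (h⁻¹ • x) true := fun H => by
      have := @I (true, false) (true, true) (by simpa [gen] using H)
      simp at this
    have i2 : q0 x true ≠ q0 x false := fun H => by
      have := @I (true, false) (false, false) (by simpa [gen] using H)
      simp at this
    have i3 : q0 x true ≠ q0 (a0⁻¹ • x) false := fun H => by
      have := @I (true, false) (false, true) (by simpa [gen] using H)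
      simp at this
    have i4 : q0 (h⁻¹ • x) true ≠ q0 x false := fun H => by
      have := @I (true, true) (false, false) (by simpa [gen] using H)
      simp at this
    have i5 : q0 (h⁻¹ • x) true ≠ q0 (a0⁻¹ • x) false := fun H => by
      have := @I (true, true) (false, true) (by simpa [gen] using H)
      simp at this
    have i6 : q0 x false ≠ q0 (a0⁻¹ • x) false := fun H => by
      have := @I (false, false) (false, true) (by simpa [gen] using H)
      simp at this
    -- leaf edges of colour 2
    have key : ∀ i j, i ≠ j → (qi i x false = 2 ∨ qi i ((a i)⁻¹ • x) false = 2) →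
        (qi j x false = 2 ∨ qi j ((a j)⁻¹ • x) false = 2) → False := by
      intro i j hij hi hj
      by_cases hu : q0 x true = 3
      · have w : ∀ l, (qi l x false = 2 ∨ qi l ((a l)⁻¹ • x) false = 2) → x ∈ Z l := by
          intro l hl
          by_contra hxl
          have h5 := hq5 l x hxl hu
          have h2 := hq2 l x hu
          rw [h5] at h2
          rcases hl with hl | hl
          · exact h2.1 hl.symm
          · exact h2.2 hl.symm
        exact Set.disjoint_left.1 (hfar i j hij) (w i hi) (w j hj)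
      · by_cases hu' : q0 (h⁻¹ • x) true = 3
        · have w : ∀ l, (qi l x false = 2 ∨ qi l ((a l)⁻¹ • x) false = 2) →
              h⁻¹ • x ∈ Z l := by
            intro l hl
            by_contra hxl
            have h5 := hq5 l (h⁻¹ • x) hxl hu'
            have h2 := hq3 l x hu'
            rw [h5] at h2
            rcases hl with hl | hl
            · exact h2.1 hl.symm
            · exact h2.2 hl.symm
          exact Set.disjoint_left.1 (hfar i j hij) (w i hi) (w j hj)
        · have h4 := hq4 i x hu hu'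
          rcases hi with hi | hi
          · exact h4.1 hi
          · exact h4.2 hi
    have k3 : ∀ i, q0 x false = 3 ∨ q0 (a0⁻¹ • x) false = 3 →
        qi i x false ≠ 2 ∧ qi i ((a i)⁻¹ • x) false ≠ 2 := by
      intro i hv
      refine hq4 i x ?_ ?_
      · rintro hu
        rcases hv with hv | hv
        · exact i2 (hu.trans hv.symm)
        · exact i3 (hu.trans hv.symm)
      · rintro hu
        rcases hv with hv | hv
        · exact i4 (hu.trans hv.symm)
        · exact i5 (hu.trans hv.symm)
    -- the colours at `x`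
    let P : Option (Option ι) × Bool → Fin 4 ⊕ (ι × Bool) := fun d =>
      scol q0 qi (if d.2 then (sgen h a0 a d.1)⁻¹ • x else x) d.1
    have c1 : P (none, false) = hcol (q0 x true) fun i => qi i x true := rfl
    have c2 : P (none, true) = hcol (q0 (h⁻¹ • x) true) fun i => qi i (h⁻¹ • x) true := rfl
    have c3 : P (some none, false) = Sum.inl (q0 x false) := rfl
    have c4 : P (some none, true) = Sum.inl (q0 (a0⁻¹ • x) false) := rfl
    have c5 : ∀ i, P (some (some i), false) = lcol i (qi i x false) := fun _ => rfl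
    have c6 : ∀ i, P (some (some i), true) = lcol i (qi i ((a i)⁻¹ • x) false) := fun _ => rfl
    have n1 : P (none, false) ≠ P (none, true) := by rw [c1, c2]; exact hcol_ne_hcol i1
    have n2 : P (none, false) ≠ P (some none, false) := by rw [c1, c3]; exact hcol_ne_inl i2
    have n3 : P (none, false) ≠ P (some none, true) := by rw [c1, c4]; exact hcol_ne_inl i3
    have n4 : P (none, true) ≠ P (some none, false) := by rw [c2, c3]; exact hcol_ne_inl i4
    have n5 : P (none, true) ≠ P (some none, true) := by rw [c2, c4]; exact hcol_ne_inl i5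
    have n6 : P (some none, false) ≠ P (some none, true) := by
      rw [c3, c4]; exact fun H => i6 (Sum.inl.inj H)
    have n7 : ∀ i, P (none, false) ≠ P (some (some i), false) := fun i => by
      rw [c1, c5]; exact hcol_ne_lcol fun hu => (hq2 i x hu).1
    have n8 : ∀ i, P (none, false) ≠ P (some (some i), true) := fun i => by
      rw [c1, c6]; exact hcol_ne_lcol fun hu => (hq2 i x hu).2
    have n9 : ∀ i, P (none, true) ≠ P (some (some i), false) := fun i => by
      rw [c2, c5]; exact hcol_ne_lcol fun hu => (hq3 i x hu).1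
    have n10 : ∀ i, P (none, true) ≠ P (some (some i), true) := fun i => by
      rw [c2, c6]; exact hcol_ne_lcol fun hu => (hq3 i x hu).2
    have n11 : ∀ i, P (some none, false) ≠ P (some (some i), false) := fun i => by
      rw [c3, c5]; exact inl_ne_lcol fun hv => (k3 i (Or.inl hv)).1
    have n12 : ∀ i, P (some none, false) ≠ P (some (some i), true) := fun i => by
      rw [c3, c6]; exact inl_ne_lcol fun hv => (k3 i (Or.inl hv)).2
    have n13 : ∀ i, P (some none, true) ≠ P (some (some i), false) := fun i => by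
      rw [c4, c5]; exact inl_ne_lcol fun hv => (k3 i (Or.inr hv)).1
    have n14 : ∀ i, P (some none, true) ≠ P (some (some i), true) := fun i => by
      rw [c4, c6]; exact inl_ne_lcol fun hv => (k3 i (Or.inr hv)).2
    have n15 : ∀ i j, i ≠ j → P (some (some i), false) ≠ P (some (some j), false) :=
      fun i j hij => by
        rw [c5, c5]
        exact lcol_ne_lcol (fun e f => key i j hij (Or.inl e) (Or.inl f)) (fun e => absurd e hij)
    have n16 : ∀ i j, P (some (some i), false) ≠ P (some (some j), true) :=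
      fun i j => by
        rw [c5, c6]
        refine lcol_ne_lcol (fun e f => ?_) ?_
        · by_cases hij : i = j
          · subst hij; exact hq1 i x (e.trans f.symm)
          · exact key i j hij (Or.inl e) (Or.inr f)
        · rintro rfl; exact hq1 i x
    have n17 : ∀ i j, i ≠ j → P (some (some i), true) ≠ P (some (some j), true) :=
      fun i j hij => by
        rw [c6, c6]
        exact lcol_ne_lcol (fun e f => key i j hij (Or.inr e) (Or.inr f)) (fun e => absurd e hij)
    change Function.Injective P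
    rintro ⟨_ | _ | i, _ | _⟩ ⟨_ | _ | j, _ | _⟩ H
    · rfl
    · exact absurd H n1
    · exact absurd H n2
    · exact absurd H n3
    · exact absurd H (n7 j)
    · exact absurd H (n8 j)
    · exact absurd H n1.symm
    · rfl
    · exact absurd H n4
    · exact absurd H n5
    · exact absurd H (n9 j)
    · exact absurd H (n10 j)
    · exact absurd H n2.symm
    · exact absurd H n4.symm
    · rfl
    · exact absurd H n6
    · exact absurd H (n11 j)
    · exact absurd H (n12 j)
    · exact absurd H n3.symm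
    · exact absurd H n5.symm
    · exact absurd H n6.symm
    · rfl
    · exact absurd H (n13 j)
    · exact absurd H (n14 j)
    · exact absurd H (n7 i).symm
    · exact absurd H (n9 i).symm
    · exact absurd H (n11 i).symm
    · exact absurd H (n13 i).symm
    · by_cases hij : i = j
      · rw [hij]
      · exact absurd H (n15 i j hij)
    · exact absurd H (n16 i j)
    · exact absurd H (n8 i).symm
    · exact absurd H (n10 i).symm
    · exact absurd H (n12 i).symm
    · exact absurd H (n14 i).symm
    · exact absurd H (n16 j i).symm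
    · by_cases hij : i = j
      · rw [hij]
      · exact absurd H (n17 i j hij)
  · intro γ
    rw [hT]
    constructor
    · rintro ((h1 | h1 | ⟨i, h1⟩) | (h1 | h1 | ⟨i, h1⟩))
      · exact ⟨none, Or.inl h1⟩
      · exact ⟨some none, Or.inl h1⟩
      · exact ⟨some (some i), Or.inl h1⟩
      · exact ⟨none, Or.inr (by rw [← inv_inv γ, h1]; rfl)⟩
      · exact ⟨some none, Or.inr (by rw [← inv_inv γ, h1]; rfl)⟩
      · exact ⟨some (some i), Or.inr (by rw [← inv_inv γ, h1]; rfl)⟩
    · rintro ⟨_ | _ | i, h1 | h1⟩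
      · exact Or.inl (Or.inl h1)
      · exact Or.inr (Or.inl (by rw [h1, inv_inv]; rfl))
      · exact Or.inl (Or.inr (Or.inl h1))
      · exact Or.inr (Or.inr (Or.inl (by rw [h1, inv_inv]; rfl)))
      · exact Or.inl (Or.inr (Or.inr ⟨i, h1⟩))
      · exact Or.inr (Or.inr (Or.inr ⟨i, by rw [h1, inv_inv]; rfl⟩))

end Pool.Agent.MP1822N
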