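import Pool.Agent.Lib.MP_1822da_lc.NB.C5b
import Pool.Agent.Lib.MP_1822da_lc.NB.C4c
import Pool.Agent.Lib.MP_1822da_lc.NB.C4d
import Pool.Agent.Lib.MP_1822da_lc.NB.B5b

/-!
# The star theorem (section 7)

PROOF. Leaves: choose `a0 ∈ A`; `ι` = `Fin n` with a bijection to
`A \ {a0}`; `a i`. `F = insert 1 S`, `Γ` countable. `β` from `hst.β`, `α` for `a0` and for every `a i` from `hst.α`; `designs` gives `κ0` for `(a0, h)`, `κ i` for `(a i, h)`.
`base` for `(a0, h)`: `r, L`; `client` for `(a i, h)`: `r i, L i`. `R` = a number larger than all the radii, `L'` = larger than all lengths.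
`al0 = R`; zone `i` (`i : Fin n`): `al i = al0 + L' + i * (L' + 4 R + 10)`, `be i = al i + L' + 2 R`;
`M` large. `exists_frd M` gives `U`, `p`. `base` with the zones `(al i, be i)`: `q0`. `m3 y = (q0 y true = 3)`:
for `y ∈ Zn (al i + r) (be i - r)`: `m3 y = !(β (p y))`. `client` for every `i` with the zone
`Z i = Zn (al i + r) (be i - r)` (length `≥ L i`): `qi`. (`m3 x → m3 (h⁻¹ x) = false`: injectivity of `q0` at `x`.) The zones are disjoint.
`c` from bip for each pair. star_colour.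
-/

namespace Pool.Agent.MP1822N

open Set MeasureTheory Pointwise
open Pool.Agent.Lib.MP_1822da_lc Pool.Agent.MP1822T Pool.Agent.MP1822C

universe u v

variable {Γ : Type u} [Group Γ] {X : Type v} [MulAction Γ X]


private theorem c5c_subset {F : Set Γ} (h1 : (1 : Γ) ∈ F) {U : Set X} {al be al' be' : ℕ}
    (hsep : be ≤ al' ∨ be' ≤ al) : Disjoint (Zn F U al be) (Zn F U al' be') := by
  rw [Set.disjoint_left]
  intro x hx hx'
  rcases hsep with h | h
  · exact hx'.2 (zone_mono h1 U h hx.1)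
  · exact hx.2 (zone_mono h1 U h hx'.1)

omit [Group Γ] in
private theorem c5c_enum {A : Finset Γ} {a0 : Γ} (ha0 : a0 ∈ A) :
    ∃ (n : ℕ) (a : Fin n → Γ), Function.Injective a ∧ (∀ i, a i ∈ A) ∧ (∀ i, a0 ≠ a i) ∧
      ∀ γ, γ ∈ A ↔ γ = a0 ∨ ∃ i, γ = a i := by
  classical
  refine ⟨(A.erase a0).card, fun i => ((A.erase a0).equivFin.symm i : Γ), ?_, ?_, ?_, ?_⟩
  · intro i j hij
    exact (A.erase a0).equivFin.symm.injective (Subtype.ext hij)
  · intro i
    exact Finset.mem_of_mem_erase ((A.erase a0).equivFin.symm i).2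
  · intro i h
    exact (Finset.ne_of_mem_erase ((A.erase a0).equivFin.symm i).2) h.symm
  · intro γ
    constructor
    · intro hγ
      by_cases h : γ = a0
      · exact Or.inl h
      · right
        have hm : γ ∈ A.erase a0 := Finset.mem_erase.2 ⟨h, hγ⟩
        refine ⟨(A.erase a0).equivFin ⟨γ, hm⟩, ?_⟩
        simp
    · rintro (h | ⟨i, h⟩)
      · rw [h]
        exact ha0
      · rw [h]
        exact Finset.mem_of_mem_erase ((A.erase a0).equivFin.symm i).2

private theorem c5c_ne_inv {g : Γ} (hg : ¬ IsOfFinOrder g) : g ≠ g⁻¹ := by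
  intro h
  apply hg
  rw [isOfFinOrder_iff_pow_eq_one]
  refine ⟨2, by norm_num, ?_⟩
  rw [pow_two]
  nth_rewrite 2 [h]
  exact mul_inv_cancel g

private theorem c5c_T {h a0 : Γ} {A T : Finset Γ} {n : ℕ} {a : Fin n → Γ}
    (hA : ∀ γ, γ ∈ A ↔ γ = a0 ∨ ∃ i, γ = a i)
    (hT : ∀ γ, γ ∈ T ↔ (γ = h ∨ γ ∈ A) ∨ (γ⁻¹ = h ∨ γ⁻¹ ∈ A)) (γ : Γ) :
    γ ∈ T ↔ (γ = h ∨ γ = a0 ∨ ∃ i, γ = a i) ∨ (γ⁻¹ = h ∨ γ⁻¹ = a0 ∨ ∃ i, γ⁻¹ = a i) := by
  rw [hT, hA, hA]

/-- **Theorem S (stars).** -/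
theorem star_BC [MeasurableSpace X] [StandardBorelSpace X]
    (hmeas : ∀ γ : Γ, Measurable fun x : X => γ • x)
    (hfree : ∀ (γ : Γ) (x : X), γ • x = x → γ = 1) {S : Finset Γ} (hsymm : ∀ s ∈ S, s⁻¹ ∈ S)
    (h1 : (1 : Γ) ∉ S) (hgen : Subgroup.closure (S : Set Γ) = ⊤)
    (hasi : BorelAsiLe (schreierGraph S X) 1) {h : Γ} {A : Finset Γ} (hst : Star S h A)
    {T : Finset Γ} (hT : ∀ γ, γ ∈ T ↔ (γ = h ∨ γ ∈ A) ∨ (γ⁻¹ = h ∨ γ⁻¹ ∈ A)) : BC X T := by
  have hcount : Countable Γ := countable_of_gen hsymm hgen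
  obtain ⟨a0, ha0⟩ := hst.ne
  obtain ⟨n, a, hai, haA, ha0a, hA⟩ := c5c_enum ha0
  obtain ⟨β, hβh, hβA⟩ := hst.β
  -- the set `F`
  have h1F : (1 : Γ) ∈ (insert 1 (S : Set Γ)) := Set.mem_insert _ _
  have hinvF : ∀ s ∈ (insert 1 (S : Set Γ)), s⁻¹ ∈ (insert 1 (S : Set Γ)) := by
    intro s hs
    rcases Set.mem_insert_iff.1 hs with h | h
    · rw [h, inv_one]
      exact h1F
    · exact Set.mem_insert_of_mem _ (hsymm s h)
  have hgenF : Subgroup.closure (insert 1 (S : Set Γ)) = ⊤ := by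
    apply top_le_iff.1
    rw [← hgen]
    exact Subgroup.closure_mono (Set.subset_insert _ _)
  have hhF : h ∈ (insert 1 (S : Set Γ)) := Set.mem_insert_of_mem _ hst.hS
  have haF : ∀ g ∈ A, g ∈ (insert 1 (S : Set Γ)) := fun g hg =>
    Set.mem_insert_of_mem _ (hst.AS hg)
  -- designs
  obtain ⟨α0, hα0a, hα0h⟩ := hst.α a0 ha0
  obtain ⟨κ0, D0⟩ := designs (hst.nil a0 ha0) (hst.Ao a0 ha0) hβh (hβA a0 ha0) hα0a hα0h
  have hα : ∀ i, ∃ α : Γ → Bool, (∀ y, α (a i * y) = !(α y)) ∧ ∀ y, α (h * y) = α y :=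
    fun i => hst.α (a i) (haA i)
  choose α hαa hαh using hα
  have hD : ∀ i, ∃ κ, Dsg (a i) h β κ := fun i =>
    designs (hst.nil (a i) (haA i)) (hst.Ao (a i) (haA i)) hβh (hβA (a i) (haA i)) (hαa i) (hαh i)
  choose κ D using hD
  obtain ⟨r0, L0, hbase⟩ := base.{u, v} h1F hinvF hgenF (haF a0 ha0) hhF D0
  have hcl := fun i => client.{u, v} h1F hinvF hgenF (haF (a i) (haA i)) hhF (D i)
  choose r1 L1 hcl using hcl
  -- the parameters
  obtain ⟨R, hR0, hR1⟩ : ∃ R : ℕ, r0 ≤ R ∧ ∀ i, r1 i ≤ R :=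
    ⟨r0 + ∑ i, r1 i, Nat.le_add_right _ _, fun i =>
      (Finset.single_le_sum (f := r1) (fun _ _ => Nat.zero_le _) (Finset.mem_univ i)).trans
        (Nat.le_add_left _ _)⟩
  obtain ⟨L, hL0, hL1⟩ : ∃ L : ℕ, L0 ≤ L ∧ ∀ i, L1 i ≤ L :=
    ⟨L0 + ∑ i, L1 i, Nat.le_add_right _ _, fun i =>
      (Finset.single_le_sum (f := L1) (fun _ _ => Nat.zero_le _) (Finset.mem_univ i)).trans
        (Nat.le_add_left _ _)⟩
  set W : ℕ := L + 4 * R + 10 with hW
  set al : Fin n → ℕ := fun i => R + L + i.val * W with hal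
  set be : Fin n → ℕ := fun i => al i + L + 2 * R with hbe
  set M : ℕ := R + L + n * W + L + 3 * R with hM
  have hsepc : ∀ i j : Fin n, i.val < j.val → be i ≤ al j := by
    intro i j hij
    have h2 : (i.val + 1) * W ≤ j.val * W := Nat.mul_le_mul_right W hij
    rw [Nat.add_mul, one_mul] at h2
    show R + L + i.val * W + L + 2 * R ≤ R + L + j.val * W
    omega
  have hsep : ∀ i j : Fin n, i ≠ j → be i ≤ al j ∨ be j ≤ al i := by
    intro i j hij
    rcases lt_or_gt_of_ne (fun h' => hij (Fin.ext h')) with h2 | h2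
    · exact Or.inl (hsepc i j h2)
    · exact Or.inr (hsepc j i h2)
  have hbM : ∀ i : Fin n, be i + R ≤ M := by
    intro i
    have h2 : i.val * W ≤ n * W := Nat.mul_le_mul_right W i.isLt.le
    show R + L + i.val * W + L + 2 * R + R ≤ R + L + n * W + L + 3 * R
    omega
  obtain ⟨U, p, HF⟩ := exists_frd hmeas hfree hsymm h1 hgen hasi M
  obtain ⟨c0, hc0⟩ := bip (X := X) hfree hβh (hβA a0 ha0) hα0a hα0h
  obtain ⟨q0, hq0, hinj, hq0z⟩ := hbase hmeas hfree hc0 HF (ι := Fin n) (al := al) (be := be)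
    (al0 := R) hR0 (by
      show R + L0 + r0 ≤ R + L + n * W + L + 3 * R
      omega) (by
      intro i
      show R + L0 ≤ R + L + i.val * W
      omega) (by
      intro i
      show al i + 2 * r0 ≤ al i + L + 2 * R
      omega) (by
      intro i
      have := hbM i
      omega) hsep
  set m3 : X → Bool := fun y => decide (q0 y true = 3) with hm3
  have hm3t : ∀ y, m3 y = true ↔ q0 y true = 3 := fun y => decide_eq_true_iff
  have hm3f : ∀ y, m3 y = false ↔ q0 y true ≠ 3 := fun y => decide_eq_false_iff_not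
  have hm3m : MeasurableSet {x | m3 x = true} := by
    have h2 : {x | m3 x = true} = {x | q0 x true = 3} := by
      ext x
      exact hm3t x
    rw [h2]
    exact hq0 true 3
  have hm3i : ∀ x, m3 x = true → m3 (h⁻¹ • x) = false := by
    intro x hx
    rw [hm3f]
    intro h2
    have h3 := hinj x (a₁ := (true, false)) (a₂ := (true, true)) (by
      show q0 x true = q0 ((gen a0 h true)⁻¹ • x) true
      rw [(hm3t x).1 hx]
      exact h2.symm)
    exact absurd (congrArg Prod.snd h3) (by decide)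
  have hm3z : ∀ i, ∀ y ∈ Zn (insert 1 (S : Set Γ)) U (al i + r0) (be i - r0),
      m3 y = !(β (p y)) := by
    intro i y hy
    have h2 := hq0z i y hy true
    cases h3 : β (p y) with
    | false =>
      exact (hm3t y).2 (h2.2 ⟨rfl, h3⟩)
    | true =>
      refine (hm3f y).2 fun h4 => ?_
      have h5 := (h2.1 h4).2
      rw [h3] at h5
      exact absurd h5 (by decide)
  have hq : ∀ i, ∃ q : X → Bool → Fin 3, (∀ s, FM fun x => q x s) ∧
        (∀ x, q x false ≠ q ((a i)⁻¹ • x) false) ∧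
        (∀ x, m3 x = true → q x true ≠ q x false ∧ q x true ≠ q ((a i)⁻¹ • x) false) ∧
        (∀ x, m3 (h⁻¹ • x) = true →
          q (h⁻¹ • x) true ≠ q x false ∧ q (h⁻¹ • x) true ≠ q ((a i)⁻¹ • x) false) ∧
        (∀ x, m3 x = false → m3 (h⁻¹ • x) = false →
          q x false ≠ 2 ∧ q ((a i)⁻¹ • x) false ≠ 2) ∧
        ∀ x, x ∉ Zn (insert 1 (S : Set Γ)) U (al i + r0) (be i - r0) →
          q x false ≠ 2 ∧ (m3 x = true → q x true = 2) := by
    intro i
    obtain ⟨c, hc⟩ := bip (X := X) hfree hβh (hβA (a i) (haA i)) (hαa i) (hαh i)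
    have hr := hR1 i
    have hL := hL1 i
    have hb := hbM i
    have hbe' : be i = al i + L + 2 * R := rfl
    have hal' : al i = R + L + i.val * W := rfl
    exact hcl i hmeas hfree hc HF (al := al i + r0) (be := be i - r0) (by omega) (by omega)
      (by omega) hm3m hm3i (hm3z i)
  choose qi hqi hq1 hq2 hq3 hq4 hq5 using hq
  exact star_colour hmeas (h := h) (a0 := a0) (ι := Fin n) (a := a) hai
    (fun i h2 => hst.hA (h2 ▸ haA i))
    (fun i h2 => hst.hA' (by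
      rw [h2, inv_inv]
      exact haA i))
    (fun h2 => hst.hA (h2 ▸ ha0))
    (fun h2 => hst.hA' (by
      rw [h2, inv_inv]
      exact ha0))
    ha0a
    (fun i h2 => hst.AA (a i) (haA i) (h2 ▸ ha0))
    (fun i j h2 => hst.AA (a j) (haA j) (h2 ▸ haA i))
    (c5c_ne_inv hst.ho) (c5c_ne_inv (hst.Ao a0 ha0)) hq0 hinj hqi hq1
    (fun i x h2 => hq2 i x ((hm3t x).2 h2))
    (fun i x h2 => hq3 i x ((hm3t _).2 h2))
    (fun i x h2 h3 => hq4 i x ((hm3f x).2 h2) ((hm3f _).2 h3))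
    (Z := fun i => Zn (insert 1 (S : Set Γ)) U (al i + r0) (be i - r0))
    (fun i x h2 h3 => (hq5 i x h2).2 ((hm3t x).2 h3))
    (fun i j hij => c5c_subset h1F (by
      rcases hsep i j hij with h2 | h2
      · left
        omega
      · right
        omega))
    (c5c_T hA hT)

end Pool.Agent.MP1822N
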