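import Pool.Agent.Lib.MP_1822da_lc.NB.C5c
import Pool.Agent.Lib.MP_1822da_lc.NB.A5c

/-!
# Blocks

PROOF of BC_block: `cov_block` gives `T`; for `Cov S T` with `x ∈ T → x⁻¹ ∉ T` (passes to the parts) prove `BC X T±`,
`T± = {x | x ∈ T ∨ x⁻¹ ∈ T}`, by induction over `Cov` with `star_BC` and `BC_union` (the sets `±` of disjoint parts of `T` are
disjoint because of `x ∈ T → x⁻¹ ∉ T`). (State the induction for: `Cov S T → (∀ x ∈ T, x⁻¹ ∉ T) → ∀ T', (∀ γ, γ ∈ T' ↔ γ ∈ T ∨ γ⁻¹ ∈ T)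
→ BC X T'`.)
PROOF of blocks_index: BC for every block, BC_union over the pairwise disjoint blocks (Finset induction), and for the
remaining elements `S \ ⋃ blocks` the theorem `MP1822V.upper_bound` with `MP1822V.twist_of_pairing` (see the end of the
proof of `MP1822C.BC_partners`: the partner `s` of finite order is not in a block as blocks consist of elements of infinite
order). Then `borelChromaticIndex_le`, `card_le_borelChromaticIndex` as in Results/MP_1822da_lc/Partners.lean.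
-/

namespace Pool.Agent.MP1822N

open Set MeasureTheory Pointwise
open Pool.Agent.Lib.MP_1822da_lc Pool.Agent.MP1822T Pool.Agent.MP1822C

universe u v

variable {Γ : Type u} [Group Γ] {X : Type v} [MulAction Γ X]


private lemma cov_BC [MeasurableSpace X] [StandardBorelSpace X]
    (hmeas : ∀ γ : Γ, Measurable fun x : X => γ • x)
    (hfree : ∀ (γ : Γ) (x : X), γ • x = x → γ = 1) {S : Finset Γ} (hsymm : ∀ s ∈ S, s⁻¹ ∈ S)
    (h1 : (1 : Γ) ∉ S) (hgen : Subgroup.closure (S : Set Γ) = ⊤)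
    (hasi : BorelAsiLe (schreierGraph S X) 1) {T : Finset Γ} (hc : Cov S T) :
    (∀ x ∈ T, x⁻¹ ∉ T) → ∀ T' : Finset Γ, (∀ γ, γ ∈ T' ↔ γ ∈ T ∨ γ⁻¹ ∈ T) → BC X T' := by
  classical
  induction hc with
  | nil =>
    intro _ T' hT'
    have h2 : T' = ∅ := by
      rw [Finset.eq_empty_iff_forall_notMem]
      intro γ hγ
      rcases (hT' γ).1 hγ with h | h
      · simp at h
      · simp at h
    rw [h2]
    exact BC_empty
  | @star T₀ h A hst hh hd _ ih =>
    intro hinv T' hT'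
    have hsub : ∀ γ, (γ = h ∨ γ ∈ A) → γ ∈ insert h (A ∪ T₀) := by
      intro γ hγ
      rw [Finset.mem_insert, Finset.mem_union]
      tauto
    have hsub0 : ∀ γ, γ ∈ T₀ → γ ∈ insert h (A ∪ T₀) := by
      intro γ hγ
      rw [Finset.mem_insert, Finset.mem_union]
      tauto
    have hdis : ∀ γ, (γ = h ∨ γ ∈ A) → γ ∉ T₀ := by
      rintro γ (rfl | hA) hT₀
      · exact hh hT₀
      · exact Finset.disjoint_left.1 hd hA hT₀
    have hT'' : ∀ γ, γ ∈ T' ↔ ((γ = h ∨ γ ∈ A) ∨ (γ⁻¹ = h ∨ γ⁻¹ ∈ A)) ∨ (γ ∈ T₀ ∨ γ⁻¹ ∈ T₀) := by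
      intro γ
      rw [hT' γ, Finset.mem_insert, Finset.mem_union, Finset.mem_insert, Finset.mem_union]
      tauto
    have hB1 : BC X (T'.filter fun γ => (γ = h ∨ γ ∈ A) ∨ (γ⁻¹ = h ∨ γ⁻¹ ∈ A)) := by
      refine star_BC hmeas hfree hsymm h1 hgen hasi hst ?_
      intro γ
      rw [Finset.mem_filter, hT'' γ]
      tauto
    have hB2 : BC X (T'.filter fun γ => γ ∈ T₀ ∨ γ⁻¹ ∈ T₀) := by
      refine ih (fun x hx hx' => hinv x (hsub0 x hx) (hsub0 _ hx')) _ ?_
      intro γ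
      rw [Finset.mem_filter, hT'' γ]
      tauto
    have hB3 := BC_union hB1 hB2 (by
      rw [Finset.disjoint_left]
      intro γ hγ1 hγ2
      rw [Finset.mem_filter] at hγ1 hγ2
      rcases hγ1.2 with ha | ha
      · rcases hγ2.2 with hb | hb
        · exact hdis γ ha hb
        · exact hinv γ (hsub γ ha) (hsub0 _ hb)
      · rcases hγ2.2 with hb | hb
        · exact hinv γ (hsub0 γ hb) (hsub _ ha)
        · exact hdis _ ha hb) (by
      intro g hg
      rw [Finset.mem_filter, hT''] at hg ⊢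
      rw [inv_inv]
      tauto)
    have h3 : (T'.filter fun γ => (γ = h ∨ γ ∈ A) ∨ (γ⁻¹ = h ∨ γ⁻¹ ∈ A)) ∪
        (T'.filter fun γ => γ ∈ T₀ ∨ γ⁻¹ ∈ T₀) = T' := by
      ext γ
      rw [Finset.mem_union, Finset.mem_filter, Finset.mem_filter, hT'' γ]
      tauto
    rwa [h3] at hB3

theorem BC_block [MeasurableSpace X] [StandardBorelSpace X]
    (hmeas : ∀ γ : Γ, Measurable fun x : X => γ • x)
    (hfree : ∀ (γ : Γ) (x : X), γ • x = x → γ = 1) {S : Finset Γ} (hsymm : ∀ s ∈ S, s⁻¹ ∈ S)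
    (h1 : (1 : Γ) ∉ S) (hgen : Subgroup.closure (S : Set Γ) = ⊤)
    (hasi : BorelAsiLe (schreierGraph S X) 1) {B : Finset Γ} (hBS : B ⊆ S) (hB : NilBlock B) :
    BC X B := by
  obtain ⟨T, hc, hinv, hT⟩ := cov_block hBS hB
  exact cov_BC hmeas hfree hsymm h1 hgen hasi hc hinv B hT

theorem blocks_index [MeasurableSpace X] [StandardBorelSpace X] [Nonempty X]
    (hmeas : ∀ γ : Γ, Measurable fun x : X => γ • x)
    (hfree : ∀ (γ : Γ) (x : X), γ • x = x → γ = 1) {S : Finset Γ} (hsymm : ∀ s ∈ S, s⁻¹ ∈ S)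
    (h1 : (1 : Γ) ∉ S) (hgen : Subgroup.closure (S : Set Γ) = ⊤)
    (hodd : ∀ g ∈ S, ¬ Odd (orderOf g)) (hasi : BorelAsiLe (schreierGraph S X) 1)
    (𝓑 : Finset (Finset Γ)) (hB : ∀ B ∈ 𝓑, B ⊆ S ∧ NilBlock B)
    (hd : ∀ B ∈ 𝓑, ∀ B' ∈ 𝓑, B ≠ B' → Disjoint B B')
    (hcov : ∀ g ∈ S, ¬ IsOfFinOrder g → (∃ B ∈ 𝓑, g ∈ B) ∨
      ∃ s ∈ S, IsOfFinOrder s ∧ IsVirtuallyCyclic (Subgroup.closure {g, s})) :
    borelChromaticIndex (schreierGraph S X) = (S.card : ℕ∞) := by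
  classical
  have hBC : BC X S := by
    have hBT : BC X (𝓑.biUnion id) := by
      refine BC_biUnion 𝓑 ?_ ?_ ?_
      · intro B hB1 B' hB2 hne
        exact hd B hB1 B' hB2 hne
      · intro B hB1 g hg
        exact (hB B hB1).2.symm g hg
      · intro B hB1
        exact BC_block hmeas hfree hsymm h1 hgen hasi (hB B hB1).1 (hB B hB1).2
    have hTmem : ∀ g, g ∈ 𝓑.biUnion id ↔ ∃ B ∈ 𝓑, g ∈ B := by
      intro g
      simp only [Finset.mem_biUnion, id_eq]
    have hTsymm : ∀ g ∈ 𝓑.biUnion id, g⁻¹ ∈ 𝓑.biUnion id := by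
      intro g hg
      obtain ⟨B, hB1, hgB⟩ := (hTmem g).1 hg
      exact (hTmem _).2 ⟨B, hB1, (hB B hB1).2.symm g hgB⟩
    have hTS : 𝓑.biUnion id ⊆ S := by
      intro g hg
      obtain ⟨B, hB1, hgB⟩ := (hTmem g).1 hg
      exact (hB B hB1).1 hgB
    have hBS : BC X (S \ 𝓑.biUnion id) := by
      refine MP1822V.upper_bound hsymm hgen ?_ ?_ hmeas hfree hasi ?_
      · intro g hg
        rw [Finset.mem_sdiff] at hg ⊢
        refine ⟨hsymm g hg.1, fun h => hg.2 ?_⟩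
        have := hTsymm _ h
        rwa [inv_inv] at this
      · intro g hg
        exact hodd g (Finset.mem_sdiff.1 hg).1
      · intro g hg hgo
        rw [Finset.mem_sdiff] at hg
        rcases hcov g hg.1 hgo with hgB | ⟨s, hs, hso, hv⟩
        · exact absurd ((hTmem g).2 hgB) hg.2
        · obtain ⟨K, hKf, hK, hsK⟩ := MP1822V.twist_of_pairing hgo hso hv
          refine ⟨K, hKf, hK, s, ?_, hsK⟩
          rw [Finset.mem_sdiff]
          refine ⟨hs, fun hsT => ?_⟩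
          obtain ⟨B, hB1, hsB⟩ := (hTmem s).1 hsT
          exact (hB B hB1).2.ord s hsB hso
    have h3 := BC_union hBT hBS Finset.disjoint_sdiff hTsymm
    rwa [Finset.union_sdiff_of_subset hTS] at h3
  refine le_antisymm ?_ (card_le_borelChromaticIndex hsymm h1 hfree)
  obtain ⟨col, c1, c2, c3, c4⟩ := hBC
  exact borelChromaticIndex_le hsymm hmeas hfree col (fun γ hγ δ => c1 γ hγ δ) c2 c3 c4

end Pool.Agent.MP1822N
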