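import Pool.Agent.Lib.MP_1822da_lc.NB.C6a

/-!
# Nilpotent groups

PROOF of nilpotent_index: if `Γ` is virtually cyclic: `Results.MP_1822da_lc.TwoEnded.result` (copy its proof).
Otherwise, if some `s ∈ S` has finite order: every `g ∈ S` of infinite order has the partner `s` (vc_of_fin): blocks_index with
`𝓑 = ∅`. If all
elements of `S` have infinite order: `𝓑 = {S}`, `NilBlock S`: `closure S = ⊤` is nilpotent, not virtually cyclic (transfer
along `Subgroup.topEquiv`), `six` from the hypothesis (otherwise the second alternative holds).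
-/

namespace Pool.Agent.MP1822N

open Set MeasureTheory Pointwise
open Pool.Agent.Lib.MP_1822da_lc Pool.Agent.MP1822T Pool.Agent.MP1822C

universe u v

variable {Γ : Type u} [Group Γ] {X : Type v} [MulAction Γ X]


private theorem not_vc_top [hv : Fact (¬ IsVirtuallyCyclic Γ)] {S : Finset Γ}
    (hgen : Subgroup.closure (S : Set Γ) = ⊤) :
    ¬ IsVirtuallyCyclic (Subgroup.closure (S : Set Γ)) := by
  rintro ⟨z, hz⟩
  apply hv.out
  refine ⟨(z : Γ), ?_⟩
  have hmap : (Subgroup.zpowers z).map (Subgroup.closure (S : Set Γ)).subtype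
      = Subgroup.zpowers (z : Γ) := by
    rw [MonoidHom.map_zpowers]
    rfl
  rw [← hmap]
  constructor
  rw [Subgroup.index_map_subtype]
  refine mul_ne_zero hz.index_ne_zero ?_
  rw [hgen, Subgroup.index_top]
  exact one_ne_zero

theorem nilpotent_index [MeasurableSpace X] [StandardBorelSpace X] [Nonempty X]
    [Group.IsNilpotent Γ]
    (hmeas : ∀ γ : Γ, Measurable fun x : X => γ • x)
    (hfree : ∀ (γ : Γ) (x : X), γ • x = x → γ = 1) {S : Finset Γ} (hsymm : ∀ s ∈ S, s⁻¹ ∈ S)
    (h1 : (1 : Γ) ∉ S) (hgen : Subgroup.closure (S : Set Γ) = ⊤)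
    (hodd : ∀ g ∈ S, ¬ Odd (orderOf g)) (hasi : BorelAsiLe (schreierGraph S X) 1)
    (hchi : borelChromaticIndex (schreierGraph S X) ≠ (S.card : ℕ∞)) :
    IsFiniteExtensionOfInt Γ ∨ (S.card = 6 ∧ (∀ g ∈ S, ¬ IsOfFinOrder g) ∧
      ∀ h ∈ S, ∀ φ : Γ →* Multiplicative (ZMod 2), φ h ≠ 1 →
        ∃ x ∈ S, x ≠ h ∧ x ≠ h⁻¹ ∧ φ x ≠ 1) := by
  by_cases hv : IsVirtuallyCyclic Γ
  · left
    by_contra hno
    apply hchi
    have hBC : BC X S := by
      refine MP1822V.upper_bound hsymm hgen hsymm hodd hmeas hfree hasi fun g hg hgo => ?_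
      obtain ⟨c, hco, hfi, hconj⟩ := MP1822V.exists_core hv hgo
      have hex : ∃ s ∈ S, s * c * s⁻¹ = c⁻¹ := by
        by_contra hcon
        push Not at hcon
        apply hno
        refine MP1822V.finiteExtension_of_central hco hfi ?_
        have hle : (⊤ : Subgroup Γ) ≤ Subgroup.centralizer {c} := by
          rw [← hgen, Subgroup.closure_le]
          intro s hs
          rw [SetLike.mem_coe, Subgroup.mem_centralizer_singleton_iff]
          exact mul_inv_eq_iff_eq_mul.1 ((hconj s).resolve_right (hcon s hs))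
        intro h
        exact Subgroup.mem_centralizer_singleton_iff.1 (hle (Subgroup.mem_top h))
      obtain ⟨s, hs, hsc⟩ := hex
      obtain ⟨K, hKf, hK, hsK⟩ :=
        MP1822V.exists_twist hv hgo (MP1822V.finite_of_reverse hco hfi hsc)
      exact ⟨K, hKf, hK, s, hs, hsK⟩
    refine le_antisymm ?_ (card_le_borelChromaticIndex hsymm h1 hfree)
    obtain ⟨col, c1, c2, c3, c4⟩ := hBC
    exact borelChromaticIndex_le hsymm hmeas hfree col (fun γ hγ δ => c1 γ hγ δ) c2 c3 c4
  · by_cases hfin : ∃ s ∈ S, IsOfFinOrder s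
    · exfalso
      apply hchi
      refine blocks_index hmeas hfree hsymm h1 hgen hodd hasi ∅ (by simp) (by simp) ?_
      intro g hg hgo
      obtain ⟨s, hs, hso⟩ := hfin
      exact Or.inr ⟨s, hs, hso, vc_of_fin inferInstance hso⟩
    · push Not at hfin
      right
      by_contra hcon
      apply hchi
      have : Fact (¬ IsVirtuallyCyclic Γ) := ⟨hv⟩
      have hB : NilBlock S := by
        refine ⟨hsymm, hfin, inferInstance, not_vc_top hgen, fun h6 => ?_⟩
        by_contra hno
        apply hcon
        refine ⟨h6, hfin, fun h hh φ hφ => ?_⟩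
        by_contra hx
        push Not at hx
        apply hno
        refine ⟨h, hh, φ.comp (Subgroup.closure (S : Set Γ)).subtype, hφ, ?_⟩
        intro x hxS hxh hxh'
        exact hx x hxS hxh hxh'
      refine blocks_index hmeas hfree hsymm h1 hgen hodd hasi {S} ?_ ?_ ?_
      · intro B hBm
        rw [Finset.mem_singleton] at hBm
        subst hBm
        exact ⟨Finset.Subset.refl _, hB⟩
      · intro B hBm B' hBm' hne
        rw [Finset.mem_singleton] at hBm hBm'
        exact absurd (hBm.trans hBm'.symm) hne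
      · intro g hg _
        exact Or.inl ⟨S, Finset.mem_singleton_self S, hg⟩

end Pool.Agent.MP1822N
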