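import Pool.Agent.Lib.MP_1822da_lc.CP.Fin

/-!
# Nilpotent blocks: definitions

`Γ` is a group, `a`, `b` two elements (the pair), the edge `(y, s)` joins `y` and `gen a b s • y`.
-/

namespace Pool.Agent.MP1822N

open Set MeasureTheory Pointwise
open Pool.Agent.Lib.MP_1822da_lc Pool.Agent.MP1822T Pool.Agent.MP1822C

universe u v

section Weights

variable {Γ : Type u} [Group Γ]

/-- the two generators of a pair: `false ↦ a`, `true ↦ b` -/
def gen (a b : Γ) (s : Bool) : Γ := if s then b else a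

/-- the sum of the weights of the four edges of the pair `(a, b)` at `y` -/
noncomputable def vs (a b : Γ) {Y : Type v} [MulAction Γ Y] (w : Y → Bool → ℝ) (y : Y) : ℝ :=
  ∑ s : Bool, (w y s + w ((gen a b s)⁻¹ • y) s)

/-- a family of weights `f c`, `c : Γ`, supported on edges of `R` near `c`, without vertex sums -/
structure Fam (a b : Γ) (R : Γ → Bool → Prop) (B : Finset Γ) (f : Γ → Γ → Bool → ℝ) : Prop where
  cl : ∀ β ∈ B, β ∈ Subgroup.closure {a, b}
  supp : ∀ c y s, f c y s ≠ 0 → y * c⁻¹ ∈ B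
  mem : ∀ c y s, f c y s ≠ 0 → R y s
  vs0 : ∀ c y, vs a b (f c) y = 0

/-- the sum of the `f c`, `c ∈ C` (the sum is over the `c` of the form `β⁻¹ * y`, `β ∈ B`) -/
noncomputable def tot (B : Finset Γ) (f : Γ → Γ → Bool → ℝ) (C : Set Γ) (y : Γ) (s : Bool) : ℝ :=
  ∑ β ∈ B, C.indicator (fun c => f c y s) (β⁻¹ * y)

/-- a safe step from `x` to `x'` on the edges of `R` -/
def SafeStep (a b : Γ) (R : Γ → Bool → Prop) (x x' : Γ → Bool → ℝ) : Prop :=
  ∃ (B : Finset Γ) (f : Γ → Γ → Bool → ℝ), Fam a b R B f ∧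
    (∀ y s, x' y s = x y s + tot B f univ y s) ∧ ∀ (C : Set Γ) (y : Γ) (s : Bool),
      0 ≤ x y s + tot B f C y s

/-- a finite chain of safe steps -/
def Chain (a b : Γ) (R : Γ → Bool → Prop) : (Γ → Bool → ℝ) → (Γ → Bool → ℝ) → Prop :=
  Relation.ReflTransGen (SafeStep a b R)

/-- `w` is a locally finite bounded sum of finitely supported weights without vertex sums -/
def NullW (a b : Γ) (R : Γ → Bool → Prop) (w : Γ → Bool → ℝ) : Prop :=
  ∃ (B : Finset Γ) (f : Γ → Γ → Bool → ℝ) (K : ℝ), Fam a b R B f ∧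
    (∀ c y s, |f c y s| ≤ K) ∧ ∀ y s, w y s = tot B f univ y s

/-- the matching `{(y, b) : β y = j}` -/
noncomputable def MH (β : Γ → Bool) (j : Bool) (y : Γ) (s : Bool) : ℝ :=
  if s = true ∧ β y = j then 1 else 0

/-- the matching `{(y, a) : κ y = j}` -/
noncomputable def MA (κ : Γ → Bool) (j : Bool) (y : Γ) (s : Bool) : ℝ :=
  if s = false ∧ κ y = j then 1 else 0

/-- the uniform weight of the 4-regular graph -/
noncomputable def u4 (_ : Γ) (_ : Bool) : ℝ := 1 / 4

/-- no restriction -/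
def RT (_ : Γ) (_ : Bool) : Prop := True

/-- the cubic graph: all `a`-edges and the matching `MH β false` -/
def R3 (β : Γ → Bool) (y : Γ) (s : Bool) : Prop := s = false ∨ β y = false

open Classical in
/-- the uniform weight of the cubic graph `R3 β` -/
noncomputable def u3 (β : Γ → Bool) (y : Γ) (s : Bool) : ℝ := if R3 β y s then 1 / 3 else 0

/-- the involution of a phase: `y ↦ g • y` if `κ y = false`, `y ↦ g⁻¹ • y` if `κ y = true` -/
def sg (g : Γ) {Y : Type v} [MulAction Γ Y] (κ : Y → Bool) (y : Y) : Y :=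
  if κ y then g⁻¹ • y else g • y

/-- one step along the 2-factor `{(y, a) : κ y = false} ∪ {(y, b) : β y = false}` -/
def TS (a b : Γ) (κ β : Γ → Bool) (y y' : Γ) : Prop := y' = sg a κ y ∨ y' = sg b β y

/-- **Designs** for the pair `(a, h)`. -/
structure Dsg (a h : Γ) (β κ : Γ → Bool) : Prop where
  βh : ∀ y, β (h * y) = !(β y)
  βa : ∀ y, β (a * y) = β y
  κa : ∀ y, κ (a * y) = !(κ y)
  bdd : ∃ B : Finset Γ, ∀ y y', Relation.ReflTransGen (TS a h κ β) y y' → y' * y⁻¹ ∈ B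
  quad : ∀ j, Chain a h RT u4 (MH β j)
  cub : Chain a h (R3 β) (u3 β) (MA κ true)
  cub' : Chain a h (R3 β) (MH β false) (MA κ true)

end Weights

section Frames

variable {Γ : Type u} [Group Γ] {X : Type v} [MulAction Γ X]

/-- the points of depth in `(al, be]` -/
def Zn (F : Set Γ) (U : Set X) (al be : ℕ) : Set X := zone F U be \ zone F U al

/-- a separating set with its frame -/
structure FrD (F : Set Γ) [MeasurableSpace X] (U : Set X) (M : ℕ) (p : X → Γ) : Prop where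
  one : (1 : Γ) ∈ F
  inv : ∀ s ∈ F, s⁻¹ ∈ F
  fin : F.Finite
  gen : Subgroup.closure F = ⊤
  meas : MeasurableSet U
  finV : ∀ x ∈ zone F U M, {y | Relation.ReflTransGen (Stp F (zone F U M)) x y}.Finite
  finU : ∀ x ∈ Uᶜ, {y | Relation.ReflTransGen (Stp F Uᶜ) x y}.Finite
  fm : FM p
  eqv : ∀ x ∈ zone F U M, ∀ s ∈ F, s • x ∈ zone F U M → p (s • x) = s * p x

/-- adjacency in the support of a weight of the pair `(a, b)` -/
def SG (a b : Γ) (w : X → Bool → ℝ) (x y : X) : Prop :=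
  ∃ s, (0 < w x s ∧ y = gen a b s • x) ∨ (0 < w y s ∧ x = gen a b s • y)

/-- the weight of a set of edges -/
noncomputable def wt {Y : Type v} (m : Y → Bool → Bool) (y : Y) (s : Bool) : ℝ :=
  if m y s then 1 else 0

end Frames

section Stars

variable {Γ : Type u} [Group Γ]

/-- A star: centre `h`, finite nonempty set of leaves `A`; the pairs `(a, h)` generate nilpotent
groups; `β` changes along `h` and not along the leaves; for every leaf there is a function which
changes along `a` and not along `h`. -/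
structure Star (S : Finset Γ) (h : Γ) (A : Finset Γ) : Prop where
  hS : h ∈ S
  AS : A ⊆ S
  ne : A.Nonempty
  ho : ¬ IsOfFinOrder h
  Ao : ∀ a ∈ A, ¬ IsOfFinOrder a
  hA : h ∉ A
  hA' : h⁻¹ ∉ A
  AA : ∀ a ∈ A, a⁻¹ ∉ A
  nil : ∀ a ∈ A, Group.IsNilpotent (Subgroup.closure {a, h} : Subgroup Γ)
  β : ∃ β : Γ → Bool, (∀ y, β (h * y) = !(β y)) ∧ ∀ a ∈ A, ∀ y, β (a * y) = β y
  α : ∀ a ∈ A, ∃ α : Γ → Bool, (∀ y, α (a * y) = !(α y)) ∧ ∀ y, α (h * y) = α y

/-- commensurable elements -/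
def Cm (g h : Γ) : Prop := ∃ m n : ℤ, m ≠ 0 ∧ n ≠ 0 ∧ g ^ m = h ^ n

/-- `B ⊆ S` is a nilpotent block. -/
structure NilBlock (B : Finset Γ) : Prop where
  symm : ∀ g ∈ B, g⁻¹ ∈ B
  ord : ∀ g ∈ B, ¬ IsOfFinOrder g
  nil : Group.IsNilpotent (Subgroup.closure (B : Set Γ))
  nvc : ¬ IsVirtuallyCyclic (Subgroup.closure (B : Set Γ))
  six : B.card = 6 → ∃ h, ∃ hh : h ∈ B,
    ∃ φ : Subgroup.closure (B : Set Γ) →* Multiplicative (ZMod 2),
      φ ⟨h, Subgroup.subset_closure hh⟩ ≠ 1 ∧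
      ∀ x, ∀ hx : x ∈ B, x ≠ h → x ≠ h⁻¹ → φ ⟨x, Subgroup.subset_closure hx⟩ = 1

end Stars

end Pool.Agent.MP1822N
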