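import Pool.Agent.Lib.MP_1822da_lc.NB.Defs

/-!
# Twisted patterns and triples: definitions (section 8, NB1822_T.md)

`ψ = α + 2 β : Γ → ℤ/4` with `ψ (a * y) = ψ y + 1`, `ψ (h * y) = ψ y + 2`: along an `a`-line the values of
`β` are `0, 0, 1, 1, 0, 0, …`; the matching `MH β j` has flux zero for the pair `(a, h)`.
-/

namespace Pool.Agent.MP1822N

open Set MeasureTheory Pointwise
open Pool.Agent.Lib.MP_1822da_lc Pool.Agent.MP1822T Pool.Agent.MP1822C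

universe u v

variable {Γ : Type u} [Group Γ]

/-- a twisted pattern of the pair `(a, h)` -/
structure Twd (a h : Γ) (α β : Γ → Bool) : Prop where
  αa : ∀ y, α (a * y) = !(α y)
  αh : ∀ y, α (h * y) = α y
  βh : ∀ y, β (h * y) = !(β y)
  βa : ∀ y, β (a * y) = xor (β y) (α y)

/-- the chains which belong to a twisted pattern -/
structure TDsg (a h : Γ) (β : Γ → Bool) : Prop where
  βh : ∀ y, β (h * y) = !(β y)
  quad : ∀ j, Chain a h RT u4 (MH β j)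
  cub : Chain a h (R3 fun y => !(β y)) (u3 fun y => !(β y)) (MH β true)

/-- A triple: the pairs `(a₀, h)`, `(a₁, h)` generate nilpotent groups and have their own `β`
(changes along `h`, not along `aᵢ`), and there is a common `β` which is twisted for both pairs. -/
structure Trip (S : Finset Γ) (h a₀ a₁ : Γ) : Prop where
  hS : h ∈ S
  a₀S : a₀ ∈ S
  a₁S : a₁ ∈ S
  ho : ¬ IsOfFinOrder h
  a₀o : ¬ IsOfFinOrder a₀
  a₁o : ¬ IsOfFinOrder a₁
  ha₀ : h ≠ a₀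
  ha₀' : h ≠ a₀⁻¹
  ha₁ : h ≠ a₁
  ha₁' : h ≠ a₁⁻¹
  aa : a₀ ≠ a₁
  aa' : a₀ ≠ a₁⁻¹
  nil₀ : Group.IsNilpotent (Subgroup.closure {a₀, h} : Subgroup Γ)
  nil₁ : Group.IsNilpotent (Subgroup.closure {a₁, h} : Subgroup Γ)
  β₀ : ∃ β : Γ → Bool, (∀ y, β (h * y) = !(β y)) ∧ ∀ y, β (a₀ * y) = β y
  β₁ : ∃ β : Γ → Bool, (∀ y, β (h * y) = !(β y)) ∧ ∀ y, β (a₁ * y) = β y
  tw : ∃ β α₀ α₁ : Γ → Bool, Twd a₀ h α₀ β ∧ Twd a₁ h α₁ β

/-- `B` is a nilpotent block. -/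
structure NilBlk (B : Finset Γ) : Prop where
  symm : ∀ g ∈ B, g⁻¹ ∈ B
  ord : ∀ g ∈ B, ¬ IsOfFinOrder g
  nil : Group.IsNilpotent (Subgroup.closure (B : Set Γ))
  nvc : ¬ IsVirtuallyCyclic (Subgroup.closure (B : Set Γ))

open Classical in
/-- disjoint unions of stars and triples -/
inductive Cov2 (S : Finset Γ) : Finset Γ → Prop
  | nil : Cov2 S ∅
  | star {T : Finset Γ} {h : Γ} {A : Finset Γ} (hst : Star S h A) (hh : h ∉ T)
      (hd : Disjoint A T) (hT : Cov2 S T) : Cov2 S (insert h (A ∪ T))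
  | trip {T : Finset Γ} {h a₀ a₁ : Γ} (ht : Trip S h a₀ a₁) (hh : h ∉ T) (h0 : a₀ ∉ T)
      (h1 : a₁ ∉ T) (hT : Cov2 S T) : Cov2 S (insert h (insert a₀ (insert a₁ T)))

end Pool.Agent.MP1822N
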