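import Pool.Agent.Lib.MP_1822da_lc.NB.B3a
import Pool.Agent.Lib.MP_1822da_lc.NB.TDefs

/-!
# Null weights on the 4-regular graph for twisted patterns (TN1, section 8, NB1822_T.md)

`e y = (-1)^(α y + β0 y)` (as a real number): `e (a*y) = e (h*y) = - e y`.
PROOF. `Om = univ`, `R = RT`. `φ y = (-1)^(β y) * e y`: `φ (h*y) = φ y` (both signs change); `β (a*a*y) = !(β y)`
(`xor (xor (β y) (α y)) (!(α y))`), so `φ (a*a*y) = - φ y`. lemmaN with `v = h` (flow `1` on `(y, true)`) and `n = a*a`
(PathS.comp of the path system of `a` with itself: flow `1` on `(y, false)` and on `(a*y, false)`);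
`closure {h, a*a} ≤ closure {a, h}` is nilpotent. So the flow `φ` on the edges `(·, true)`, `0` on `(·, false)` is `NullF`, and
(null_of_flow) the weight `W1 = (-1)^β` on `(·, true)`, `0` on `(·, false)` is `NullW`.
The weight `W2 = 1` on `(·, false)`, `-1` on `(·, true)` is `NullW`: it is
`-2 * ((MH β0 false - u4) + (MH β0 true - u4))` (null_quad for `β0`, `NullW.add`, `NullW.smul`).
`MH β false - u4 = 1/2 * W1 - 1/4 * W2`, `MH β true - u4 = -1/2 * W1 - 1/4 * W2`.
-/

namespace Pool.Agent.MP1822N

open Set MeasureTheory Pointwise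
open Pool.Agent.Lib.MP_1822da_lc Pool.Agent.MP1822T Pool.Agent.MP1822C

universe u v

variable {Γ : Type u} [Group Γ]

open Classical in
/-- the unit flow on the edge `(g * y, s0)` -/
private noncomputable def t1E (g : Γ) (s0 : Bool) (y z : Γ) (s : Bool) : ℝ :=
  if z = g * y ∧ s = s0 then 1 else 0

open Classical in
private theorem dv_t1E (a b g : Γ) (s0 : Bool) (y z : Γ) :
    ∑ s : Bool, (t1E g s0 y z s - t1E g s0 y ((gen a b s)⁻¹ * z) s) =
      (if z = g * y then 1 else 0) - (if z = gen a b s0 * g * y then 1 else 0) := by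
  have h1 : ∀ s, ((gen a b s)⁻¹ * z = g * y ↔ z = gen a b s * g * y) := by
    intro s
    rw [inv_mul_eq_iff_eq_mul, mul_assoc]
  rw [Fintype.sum_bool]
  unfold t1E
  cases s0 <;> simp [h1]

/-- the path system of a generator -/
private theorem t1_gen (a b : Γ) (s0 : Bool) :
    PathS a b RT univ (gen a b s0) ({1} : Finset Γ) 1 (fun y z s => t1E 1 s0 y z s) := by
  refine ⟨?_, ?_, ?_, ?_, ?_, ?_, ?_⟩
  · cases s0
    · exact Subgroup.subset_closure (Or.inl rfl)
    · exact Subgroup.subset_closure (Or.inr rfl)
  · intro x hx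
    rw [Finset.mem_singleton] at hx
    rw [hx]
    exact Subgroup.one_mem _
  · intro y
    simp
  · intro y _ z s hne
    rw [Finset.mem_singleton]
    unfold t1E at hne
    have h1 : z = 1 * y ∧ s = s0 := by
      by_contra h2
      exact hne (if_neg h2)
    rw [h1.1, one_mul, mul_inv_cancel]
  · intro y _ z s _
    trivial
  · intro y _ z s
    unfold t1E
    split_ifs <;> norm_num
  · intro y _ z
    have h1 := dv_t1E a b 1 s0 y z
    rw [one_mul, mul_one] at h1
    unfold dv
    exact h1

private theorem t1_Phi (s0 : Bool) (φ : Γ → ℝ) (z : Γ) (s : Bool) :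
    Phi ({1} : Finset Γ) univ (fun y z s => t1E 1 s0 y z s) φ z s =
      if s = s0 then φ z else 0 := by
  unfold Phi t1E
  rw [Finset.sum_singleton]
  simp

theorem null_quad_tw {a h : Γ} (hnil : Group.IsNilpotent (Subgroup.closure {a, h}))
    {β0 α β : Γ → Bool} (hβh : ∀ y, β0 (h * y) = !(β0 y)) (hβa : ∀ y, β0 (a * y) = β0 y)
    (H : Twd a h α β) (j : Bool) :
    NullW a h RT (fun y s => MH β j y s - u4 y s) := by
  classical
  -- the signs
  set e : Γ → ℝ := fun y => (if α y then -1 else 1) * (if β0 y then -1 else 1) with he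
  set p : Γ → ℝ := fun y => (if β y then -1 else 1) * e y with hp
  have hea : ∀ y, e (a * y) = - e y := by
    intro y
    simp only [he, H.αa, hβa]
    cases α y <;> cases β0 y <;> norm_num
  have heh : ∀ y, e (h * y) = - e y := by
    intro y
    simp only [he, H.αh, hβh]
    cases α y <;> cases β0 y <;> norm_num
  have he1 : ∀ y, |e y| = 1 := by
    intro y
    simp only [he]
    cases α y <;> cases β0 y <;> norm_num
  have hee : ∀ y, e y * e y = 1 := by
    intro y
    simp only [he]
    cases α y <;> cases β0 y <;> norm_num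
  have hep : ∀ y, e y * p y = if β y then -1 else 1 := by
    intro y
    simp only [hp]
    have h1 := hee y
    have h2 : e y * ((if β y then -1 else 1) * e y) = (if β y then -1 else 1) * (e y * e y) := by ring
    rw [h2, h1, mul_one]
  have hp1 : ∀ y, |p y| = 1 := by
    intro y
    simp only [hp]
    rw [abs_mul, he1 y, mul_one]
    cases β y <;> norm_num
  have hpa : ∀ y, p (a * a * y) = - p y := by
    intro y
    have hb : β (a * (a * y)) = !(β y) := by
      rw [H.βa, H.βa, H.αa]
      cases α y <;> cases β y <;> rfl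
    simp only [hp]
    rw [mul_assoc, hb, hea, hea]
    cases β y <;> simp
  have hph : ∀ y, p (h * y) = p y := by
    intro y
    simp only [hp]
    rw [heh, H.βh]
    cases β y <;> simp
  have hca : a ∈ Subgroup.closure {a, h} := Subgroup.subset_closure (Or.inl rfl)
  have hch : h ∈ Subgroup.closure {a, h} := Subgroup.subset_closure (Or.inr rfl)
  have hnilx : Group.IsNilpotent (Subgroup.closure {h, a * a}) := by
    have hle : Subgroup.closure {h, a * a} ≤ Subgroup.closure {a, h} := by
      rw [Subgroup.closure_le]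
      intro x hx
      rcases hx with rfl | rfl
      · exact hch
      · exact Subgroup.mul_mem _ hca hca
    have h1 : Group.IsNilpotent ((Subgroup.closure {h, a * a}).subgroupOf
        (Subgroup.closure {a, h})) := Subgroup.isNilpotent _
    exact (Group.isNilpotent_congr (Subgroup.subgroupOfEquivOfLe hle)).mp h1
  have hPa : PathS a h RT univ a ({1} : Finset Γ) 1 (fun y z s => t1E 1 false y z s) :=
    t1_gen a h false
  have hPh : PathS a h RT univ h ({1} : Finset Γ) 1 (fun y z s => t1E 1 true y z s) :=
    t1_gen a h true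
  have hes : ∀ s y, e (gen a h s * y) = - e y := by
    intro s y
    cases s
    · exact hea y
    · exact heh y
  have hN1 := lemmaN hPh (hPa.comp hPa) hnilx (φ := p) (Kφ := 1) (fun y _ => (hp1 y).le)
    (fun y _ => hph y) (fun y _ => hpa y)
  have hW1 := null_of_flow hN1 he1 hes
  have hQ := (null_quad hnil hβh hβa H.αa H.αh false).add (null_quad hnil hβh hβa H.αa H.αh true)
  have hW := (hW1.smul (if j then -(1 / 2) else 1 / 2)).add (hQ.smul (1 / 2))
  refine (congrArg (NullW a h RT) ?_).mp hW
  funext z s
  rw [t1_Phi]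
  have h8 := hep z
  unfold MH u4
  have h7 : e z * (if s = true then p z else 0) = if s = true then (if β z then -1 else 1) else 0 := by
    split_ifs with h1 h2
    · rw [h8, if_pos h2]
    · rw [h8, if_neg h2]
    · ring
  rw [h7]
  cases s <;> cases hb : β z <;> cases hb0 : β0 z <;> cases j <;> simp <;> norm_num

end Pool.Agent.MP1822N
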