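import Pool.Agent.Lib.MP_1822da_lc.NB.T9b
import Pool.Agent.Lib.MP_1822da_lc.NB.A5a

/-!
# The partition into stars and triples (section 8.3, NB1822_T.md)

PROOF of cov2. Strong induction on `T.card` for all `T ⊆ S` with the hypotheses. `x, y` from `h2`, `x ≠ y` (`Cm x x`).
`card = 2`: star (x; {y}) (star_pair: note its argument order `¬ Cm a h`; `a ∈ A` the leaf, `h` the centre; Cm.symm).
`card = 3`: if two different elements `a, b` of `T` are `Cm`, the third `c` is not `Cm` to either of them (Cm.trans, `h2`): star (c; {a, b}) (star_cm).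
Otherwise trip_or_star: first alternative: star_fun with `h` and `A = T.erase h`; second: `T = {h, a, b}`, Cov2.trip with `Trip S h a b`: `nil₀, nil₁` by nil_mono;
`β₀`: a function which changes along `h` and not along `a`: fun1 with the roles `(h, a)` (`closure {h, a} = closure {a, h}`, `¬ Cm h a`); `β₁` the same for `b`.
`h ≠ a⁻¹` etc. from `hinv`.
`card ≥ 4`: `T' = T \ {x, y}`, `card T' ≥ 2`.
(i) all elements of `T'` are `Cm` to each other: if neither `x` nor `y` is `Cm` to them: split `T'` into two nonempty parts `A₁, A₂`: stars (x; A₁), (y; A₂);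
if `x` is `Cm` to them (then `y` is not: `Cm x y` otherwise): star (y; T.erase y), all leaves `Cm` to each other; if `y` is: star (x; T.erase x).
(ii) otherwise: star (x; {y}) and induction for `T'`.
(Cov2.star with `T := ∅` and Cov2.nil for a single star: `insert h (A ∪ ∅) = T`.)
-/

namespace Pool.Agent.MP1822N

open Set MeasureTheory Pointwise
open Pool.Agent.Lib.MP_1822da_lc Pool.Agent.MP1822T Pool.Agent.MP1822C

universe u v

variable {Γ : Type u} [Group Γ]

section Abstract

variable {α : Type u} [DecidableEq α]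

private theorem covB_two {C : Finset α → Prop} {R : α → α → Prop} {T₀ : Finset α}
    {P : α → Finset α → Prop} (hC0 : C ∅)
    (hC1 : ∀ T ⊆ T₀, ∀ h ∈ T, ∀ A ⊆ T, h ∉ A → P h A → C (T \ insert h A) → C T)
    (P1 : ∀ x ∈ T₀, ∀ y ∈ T₀, ¬ R x y → P x {y})
    {x y : α} (hx : x ∈ T₀) (hy : y ∈ T₀) (hne : x ≠ y) (hxy : ¬ R x y) : C {x, y} := by
  refine hC1 {x, y} ?_ x (by simp) {y} (by simp) (by simpa using hne) (P1 x hx y hy hxy) ?_
  · intro z hz
    simp only [Finset.mem_insert, Finset.mem_singleton] at hz
    rcases hz with rfl | rfl <;> assumption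
  · simpa using hC0

private theorem covB {C : Finset α → Prop} {R : α → α → Prop} (hs : ∀ x y, R x y → R y x)
    (ht : ∀ x y z, R x y → R y z → R x z) (hr : ∀ x, R x x) {T₀ : Finset α}
    {P : α → Finset α → Prop} (hC0 : C ∅)
    (hC1 : ∀ T ⊆ T₀, ∀ h ∈ T, ∀ A ⊆ T, h ∉ A → P h A → C (T \ insert h A) → C T)
    (hC3 : ∀ T ⊆ T₀, T.card = 3 → (∀ a ∈ T, ∀ b ∈ T, a ≠ b → ¬ R a b) → C T)
    (P1 : ∀ x ∈ T₀, ∀ y ∈ T₀, ¬ R x y → P x {y})
    (P2 : ∀ h ∈ T₀, ∀ A ⊆ T₀, A.Nonempty → (∀ a ∈ A, ∀ a' ∈ A, R a a') → (∀ a ∈ A, ¬ R h a) →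
      P h A) :
    ∀ n : ℕ, ∀ T ⊆ T₀, T.card = n → (∃ x ∈ T, ∃ y ∈ T, ¬ R x y) → C T := by
  intro n
  induction n using Nat.strong_induction_on with
  | _ n ih =>
  intro T hT hn ⟨x, hx, y, hy, hxy⟩
  have xy : x ≠ y := fun h => hxy (h ▸ hr x)
  obtain ⟨T', hT'⟩ : ∃ T', T' = T \ {x, y} := ⟨_, rfl⟩
  have hcard : T.card = T'.card + 2 := by
    have h1 : ({x, y} : Finset α) ⊆ T := by
      intro z hz
      simp only [Finset.mem_insert, Finset.mem_singleton] at hz
      rcases hz with rfl | rfl <;> assumption
    have h2 := Finset.card_sdiff_add_card_eq_card h1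
    rw [Finset.card_pair xy, ← hT'] at h2
    exact h2.symm
  have hmem : ∀ z, z ∈ T' ↔ z ∈ T ∧ z ≠ x ∧ z ≠ y := by
    intro z
    rw [hT']
    simp only [Finset.mem_sdiff, Finset.mem_insert, Finset.mem_singleton, not_or]
  have hT'T : T' ⊆ T := fun z hz => ((hmem z).1 hz).1
  by_cases hall : ∀ a ∈ T', ∀ b ∈ T', R a b
  · -- case (i)
    rcases T'.eq_empty_or_nonempty with he | ⟨t, htT⟩
    · -- T = {x, y}
      have hTe : T = {x, y} := by
        ext z
        simp only [Finset.mem_insert, Finset.mem_singleton]
        constructor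
        · intro hz
          by_contra hc
          rw [not_or] at hc
          have : z ∈ T' := (hmem z).2 ⟨hz, hc⟩
          rw [he] at this
          simp at this
        · rintro (rfl | rfl) <;> assumption
      rw [hTe]
      exact covB_two hC0 hC1 P1 (hT hx) (hT hy) xy hxy
    · by_cases hxt : R x t
      · -- star (y; T \ {y})
        have hyt : ∀ a ∈ T.erase y, R x a := by
          intro a ha
          rw [Finset.mem_erase] at ha
          by_cases hax : a = x
          · rw [hax]; exact hr x
          · exact ht _ _ _ hxt (hall t htT a ((hmem a).2 ⟨ha.2, hax, ha.1⟩))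
        refine hC1 T hT y hy (T.erase y) (Finset.erase_subset _ _) (by simp) ?_ ?_
        · refine P2 y (hT hy) _ (fun z hz => hT (Finset.mem_of_mem_erase hz))
            ⟨x, Finset.mem_erase.2 ⟨xy, hx⟩⟩ ?_ ?_
          · intro a ha a' ha'
            exact ht _ _ _ (hs _ _ (hyt a ha)) (hyt a' ha')
          · intro a ha h
            exact hxy (hs _ _ (ht _ _ _ h (hs _ _ (hyt a ha))))
        · rw [Finset.insert_erase hy, Finset.sdiff_self]
          exact hC0
      · by_cases hyt : R y t
        · -- star (x; T \ {x})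
          have hyt' : ∀ a ∈ T.erase x, R y a := by
            intro a ha
            rw [Finset.mem_erase] at ha
            by_cases hax : a = y
            · rw [hax]; exact hr y
            · exact ht _ _ _ hyt (hall t htT a ((hmem a).2 ⟨ha.2, ha.1, hax⟩))
          refine hC1 T hT x hx (T.erase x) (Finset.erase_subset _ _) (by simp) ?_ ?_
          · refine P2 x (hT hx) _ (fun z hz => hT (Finset.mem_of_mem_erase hz))
              ⟨y, Finset.mem_erase.2 ⟨xy.symm, hy⟩⟩ ?_ ?_
            · intro a ha a' ha'
              exact ht _ _ _ (hs _ _ (hyt' a ha)) (hyt' a' ha')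
            · intro a ha h
              exact hxy (ht _ _ _ h (hs _ _ (hyt' a ha)))
          · rw [Finset.insert_erase hx, Finset.sdiff_self]
            exact hC0
        · -- neither
          have hxa : ∀ a ∈ T', ¬ R x a := fun a ha h => hxt (ht _ _ _ h (hall a ha t htT))
          have hya : ∀ a ∈ T', ¬ R y a := fun a ha h => hyt (ht _ _ _ h (hall a ha t htT))
          rcases (T'.erase t).eq_empty_or_nonempty with he | hne
          · -- T' = {t}
            have hT't : T' = {t} := by
              rw [← Finset.insert_erase htT, he]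
              simp
            have hc3 : T.card = 3 := by
              rw [hcard, hT't, Finset.card_singleton]
            apply hC3 T hT hc3
            have hz : ∀ z ∈ T, z = x ∨ z = y ∨ z = t := by
              intro z hz
              by_cases h1 : z = x
              · exact Or.inl h1
              by_cases h2 : z = y
              · exact Or.inr (Or.inl h2)
              have : z ∈ T' := (hmem z).2 ⟨hz, h1, h2⟩
              rw [hT't, Finset.mem_singleton] at this
              exact Or.inr (Or.inr this)
            intro a ha b hb hab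
            rcases hz a ha with rfl | rfl | rfl <;> rcases hz b hb with rfl | rfl | rfl
            · exact absurd rfl hab
            · exact hxy
            · exact hxt
            · exact fun h => hxy (hs _ _ h)
            · exact absurd rfl hab
            · exact hyt
            · exact fun h => hxt (hs _ _ h)
            · exact fun h => hyt (hs _ _ h)
            · exact absurd rfl hab
          · -- stars (x; {t}), (y; rest)
            have htm := (hmem t).1 htT
            refine hC1 T hT x hx {t} (by simpa using htm.1)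
              (by simpa using fun h : x = t => htm.2.1 h.symm)
              (P1 x (hT hx) t (hT htm.1) hxt) ?_
            have hsub : T \ insert x {t} ⊆ T := Finset.sdiff_subset
            have he : T \ insert x {t} = insert y (T'.erase t) := by
              ext z
              simp only [Finset.mem_sdiff, Finset.mem_insert, Finset.mem_singleton, not_or,
                Finset.mem_erase, hmem z]
              constructor
              · rintro ⟨h1, h2, h4⟩
                by_cases h5 : z = y
                · exact Or.inl h5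
                · exact Or.inr ⟨h4, h1, h2, h5⟩
              · rintro (rfl | ⟨h1, h2, h4, h5⟩)
                · exact ⟨hy, xy.symm, fun h => htm.2.2 h.symm⟩
                · exact ⟨h2, h4, h1⟩
            rw [he] at hsub ⊢
            have hyn : y ∉ T'.erase t := by
              intro h
              exact ((hmem y).1 (Finset.mem_of_mem_erase h)).2.2 rfl
            refine hC1 _ (hsub.trans hT) y (by simp) (T'.erase t) (Finset.subset_insert _ _) hyn
              ?_ ?_
            · refine P2 y (hT hy) _ (fun z hz => hT (hT'T (Finset.mem_of_mem_erase hz))) hne ?_ ?_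
              · intro a ha a' ha'
                exact hall a (Finset.mem_of_mem_erase ha) a' (Finset.mem_of_mem_erase ha')
              · intro a ha
                exact hya a (Finset.mem_of_mem_erase ha)
            · rw [Finset.sdiff_self]
              exact hC0
  · -- case (ii)
    have hall' : ∃ p ∈ T', ∃ q ∈ T', ¬ R p q := by
      by_contra hcon
      apply hall
      intro a ha b hb
      by_contra h
      exact hcon ⟨a, ha, b, hb, h⟩
    have hlt : T'.card < n := by omega
    have hCT' : C T' := ih T'.card hlt T' (hT'T.trans hT) rfl hall'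
    refine hC1 T hT x hx {y} (by simpa using hy) (by simpa using xy)
      (P1 x (hT hx) y (hT hy) hxy) ?_
    rw [show (insert x {y} : Finset α) = {x, y} from rfl, ← hT']
    exact hCT'

end Abstract

theorem cov2 {S T : Finset Γ} (hTS : T ⊆ S) (hinv : ∀ x ∈ T, x⁻¹ ∉ T)
    (ho : ∀ x ∈ T, ¬ IsOfFinOrder x)
    (hnil : Group.IsNilpotent (Subgroup.closure (T : Set Γ)))
    (h2 : ∃ x ∈ T, ∃ y ∈ T, ¬ Cm x y) : Cov2 S T := by
  classical
  have hrefl : ∀ x : Γ, Cm x x := fun x => ⟨1, 1, one_ne_zero, one_ne_zero, rfl⟩
  have hC1 : ∀ U ⊆ T, ∀ h ∈ U, ∀ A ⊆ U, h ∉ A → Star S h A → Cov2 S (U \ insert h A) →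
      Cov2 S U := by
    intro U hU h hh A hA hhA hst hc
    have he : insert h (A ∪ (U \ insert h A)) = U := by
      ext z
      simp only [Finset.mem_insert, Finset.mem_union, Finset.mem_sdiff, not_or]
      constructor
      · rintro (rfl | h1 | h1)
        · exact hh
        · exact hA h1
        · exact h1.1
      · intro hz
        by_cases h1 : z = h
        · exact Or.inl h1
        · by_cases h4 : z ∈ A
          · exact Or.inr (Or.inl h4)
          · exact Or.inr (Or.inr ⟨hz, h1, h4⟩)
    have hres := Cov2.star (S := S) (T := U \ insert h A) (h := h) (A := A) hst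
      (by simp) (Finset.disjoint_left.2 (fun z hz hz' => by
        rw [Finset.mem_sdiff, Finset.mem_insert, not_or] at hz'
        exact hz'.2.2 hz)) hc
    have he' := he
    rw [← he']
    exact hres
  have hsf : ∀ h ∈ T, ∀ A ⊆ T, A.Nonempty → (∀ a ∈ A, ¬ Cm h a) →
      (∃ β : Γ → Bool, (∀ y, β (h * y) = !(β y)) ∧ ∀ a ∈ A, ∀ y, β (a * y) = β y) →
      Star S h A := by
    intro h hh A hA hne hc hβ
    refine star_fun (hTS hh) (hA.trans hTS) hne (ho h hh) (fun a ha => ho a (hA ha)) ?_
      (fun a ha ha' => hinv a (hA ha) (hA ha')) hc hβ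
    refine nil_mono ?_ hnil
    intro z hz
    rcases hz with rfl | hz
    · exact hh
    · exact hA hz
  have hpair : ∀ x ∈ T, ∀ y ∈ T, Group.IsNilpotent (Subgroup.closure ({x, y} : Set Γ)) := by
    intro x hx y hy
    refine nil_mono ?_ hnil
    intro z hz
    rcases hz with rfl | hz
    · exact hx
    · rw [Set.mem_singleton_iff] at hz
      rw [hz]
      exact hy
  have hni : ∀ x ∈ T, ∀ y ∈ T, x ≠ y⁻¹ := by
    intro x hx y hy h
    exact hinv y hy (h ▸ hx)
  refine covB (C := Cov2 S) (R := Cm) (T₀ := T) (P := Star S) (fun x y h => h.symm)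
    (fun x y z h h' => h.trans h') hrefl Cov2.nil hC1 ?_ ?_ ?_ T.card T (Finset.Subset.refl _) rfl
    h2
  · intro U hU hUc hpw
    rcases trip_or_star hUc (nil_mono (fun z hz => hU hz) hnil) (fun a ha => ho a (hU ha)) hpw with
      ⟨h, hh, β, hβ1, hβ2⟩ | ⟨h, hh, a, ha, b, hb, hha, hhb, hab, β, α₀, α₁, ht₀, ht₁⟩
    · refine hC1 U hU h hh (U.erase h) (Finset.erase_subset _ _) (by simp)
        (hsf h (hU hh) (U.erase h) ((Finset.erase_subset _ _).trans hU) ?_ ?_ ⟨β, hβ1, ?_⟩) ?_
      · rw [← Finset.card_pos, Finset.card_erase_of_mem hh]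
        omega
      · intro a ha
        rw [Finset.mem_erase] at ha
        exact hpw h hh a ha.2 (Ne.symm ha.1)
      · intro a ha
        rw [Finset.mem_erase] at ha
        exact hβ2 a ha.2 ha.1
      · rw [Finset.insert_erase hh, Finset.sdiff_self]
        exact Cov2.nil
    · have htrip : Trip S h a b :=
        { hS := hTS (hU hh)
          a₀S := hTS (hU ha)
          a₁S := hTS (hU hb)
          ho := ho h (hU hh)
          a₀o := ho a (hU ha)
          a₁o := ho b (hU hb)
          ha₀ := hha
          ha₀' := hni h (hU hh) a (hU ha)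
          ha₁ := hhb
          ha₁' := hni h (hU hh) b (hU hb)
          aa := hab
          aa' := hni a (hU ha) b (hU hb)
          nil₀ := hpair a (hU ha) h (hU hh)
          nil₁ := hpair b (hU hb) h (hU hh)
          β₀ := fun1 (hpair h (hU hh) a (hU ha)) (ho h (hU hh)) (hpw h hh a ha hha)
          β₁ := fun1 (hpair h (hU hh) b (hU hb)) (ho h (hU hh)) (hpw h hh b hb hhb)
          tw := ⟨β, α₀, α₁, ht₀, ht₁⟩ }
      have hres := Cov2.trip (S := S) (T := ∅) htrip (by simp) (by simp) (by simp) Cov2.nil
      have he : insert h (insert a (insert b ∅)) = U := by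
        have hsub : ({h, a, b} : Finset Γ) ⊆ U := by
          intro z hz
          simp only [Finset.mem_insert, Finset.mem_singleton] at hz
          rcases hz with rfl | rfl | rfl <;> assumption
        have hc3 : ({h, a, b} : Finset Γ).card = 3 := Finset.card_eq_three.2
          ⟨h, a, b, hha, hhb, hab, rfl⟩
        exact Finset.eq_of_subset_of_card_le hsub (by rw [hUc]; exact hc3.ge)
      have he' := he
      rw [← he']
      exact hres
  · intro x hx y hy hxy
    exact star_pair (hTS hx) (hTS hy) (ho x hx) (ho y hy) (hpair y hy x hx)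
      (fun h => hxy h.symm)
  · intro h hh A hA hne hAA hhA
    refine star_cm (hTS hh) (hA.trans hTS) hne (ho h hh) (fun a ha => ho a (hA ha))
      (nil_mono ?_ hnil) (fun a ha ha' => hinv a (hA ha) (hA ha')) hAA hhA
    intro z hz
    rcases hz with rfl | hz
    · exact hh
    · exact hA hz

/-- blocks are disjoint unions of stars and triples, and their inverses -/
theorem cov_block2 {S B : Finset Γ} (hBS : B ⊆ S) (hB : NilBlk B) :
    ∃ T : Finset Γ, Cov2 S T ∧ (∀ x ∈ T, x⁻¹ ∉ T) ∧ ∀ x, x ∈ B ↔ x ∈ T ∨ x⁻¹ ∈ T := by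
  classical
  obtain ⟨r, hr1, hr2⟩ := MP1822V.exists_rep Γ
  have hrefl : ∀ x : Γ, Cm x x := fun x => ⟨1, 1, one_ne_zero, one_ne_zero, rfl⟩
  obtain ⟨T, hT⟩ : ∃ T : Finset Γ, ∀ x, x ∈ T ↔ x ∈ B ∧ r x = x :=
    ⟨B.filter fun g => r g = g, fun x => by rw [Finset.mem_filter]⟩
  have hTB : T ⊆ B := fun x hx => ((hT x).1 hx).1
  have hmem : ∀ x, x ∈ B ↔ x ∈ T ∨ x⁻¹ ∈ T := by
    intro x
    constructor
    · intro hx
      rcases hr1 x with h | h
      · exact Or.inl ((hT x).2 ⟨hx, h⟩)
      · exact Or.inr ((hT _).2 ⟨hB.symm x hx, by rw [hr2, h]⟩)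
    · rintro (hx | hx)
      · exact hTB hx
      · have h1 := hB.symm _ (hTB hx)
        rwa [inv_inv] at h1
  have hinv : ∀ x ∈ T, x⁻¹ ∉ T := by
    intro x hx hx'
    have h1 := ((hT x).1 hx).2
    have h2 := ((hT _).1 hx').2
    rw [hr2, h1] at h2
    exact MP1822V.ne_inv_of_infinite (hB.ord x (hTB hx)) h2
  refine ⟨T, ?_, hinv, hmem⟩
  refine cov2 (hTB.trans hBS) hinv (fun x hx => hB.ord x (hTB hx))
    (nil_mono (fun z hz => hTB hz) hB.nil) ?_
  by_contra hcon
  have hall : ∀ x ∈ T, ∀ y ∈ T, Cm x y := by
    intro x hx y hy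
    by_contra h
    exact hcon ⟨x, hx, y, hy, h⟩
  have hrep : ∀ b ∈ B, ∃ t ∈ T, Cm b t := by
    intro b hb
    rcases (hmem b).1 hb with h | h
    · exact ⟨b, h, hrefl b⟩
    · exact ⟨b⁻¹, h, (hrefl b).inv_right⟩
  rcases B.eq_empty_or_nonempty with he | ⟨g, hg⟩
  · apply hB.nvc
    rw [he, Finset.coe_empty, Subgroup.closure_empty]
    exact ⟨1, inferInstance⟩
  · refine hB.nvc (vc_of_Cm hB.nil hg fun b hb => ?_)
    obtain ⟨t, ht, hbt⟩ := hrep b hb
    obtain ⟨u, hu, hgu⟩ := hrep g hg
    exact (hbt.trans (hall t ht u hu)).trans hgu.symm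

end Pool.Agent.MP1822N
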