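import Pool.Agent.Lib.MP_1822da_lc.NB.T7
import Pool.Agent.Lib.MP_1822da_lc.NB.T10
import Pool.Agent.Lib.MP_1822da_lc.NB.C5c
import Pool.Agent.Lib.MP_1822da_lc.TreeD

/-!
# Blocks

PROOF of BC_block2: `cov_block2` gives `T`; induction over `Cov2`: for `Cov2 S T` with `∀ x ∈ T, x⁻¹ ∉ T` (passes to the parts) and every
`T'` with `∀ γ, γ ∈ T' ↔ γ ∈ T ∨ γ⁻¹ ∈ T`: `BC X T'`, by star_BC, triple_BC and BC_union (compare C6a BC_block).
PROOF of BC_rest: this is `MP1822C.BC_partners` (CP/Fin.lean; copy its proof) with `S` replaced by the symmetric subset `S'` in everything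
except `hgen` (used for countable_of_gen only), `hasi` and the `S` of BC_commuting and MP1822V.upper_bound (`S₀ := S`).
PROOF of blocks_index2: `A = 𝓑.biUnion id`, symmetric, `⊆ S`; BC_biUnion with BC_block2, BC_freeBlock (`heven` from `hodd`); `S' = S \ A`, BC_rest with
`MP1822V.twist_of_pairing`; BC_union; `borelChromaticIndex_le`, `card_le_borelChromaticIndex` as in Results/MP_1822da_lc/FreeBlocks.lean and
Partners.lean.
-/

namespace Pool.Agent.MP1822N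

open Set MeasureTheory Pointwise
open Pool.Agent.Lib.MP_1822da_lc Pool.Agent.MP1822T Pool.Agent.MP1822C

universe u v

variable {Γ : Type u} [Group Γ] {X : Type v} [MulAction Γ X]

private lemma glue [MeasurableSpace X] {P : Γ → Prop} {T₀ T T' : Finset Γ}
    (hP : ∀ γ, γ ∈ T ↔ P γ ∨ γ ∈ T₀) (hdis : ∀ γ, P γ → γ ∉ T₀) (hinv : ∀ x ∈ T, x⁻¹ ∉ T)
    (hT' : ∀ γ, γ ∈ T' ↔ γ ∈ T ∨ γ⁻¹ ∈ T)
    (h1 : ∀ A : Finset Γ, (∀ γ, γ ∈ A ↔ P γ ∨ P γ⁻¹) → BC X A)
    (h2 : (∀ x ∈ T₀, x⁻¹ ∉ T₀) → ∀ A : Finset Γ, (∀ γ, γ ∈ A ↔ γ ∈ T₀ ∨ γ⁻¹ ∈ T₀) → BC X A) :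
    BC X T' := by
  classical
  have hT'' : ∀ γ, γ ∈ T' ↔ (P γ ∨ P γ⁻¹) ∨ (γ ∈ T₀ ∨ γ⁻¹ ∈ T₀) := by
    intro γ
    rw [hT' γ, hP, hP]
    tauto
  have hB1 : BC X (T'.filter fun γ => P γ ∨ P γ⁻¹) := by
    refine h1 _ ?_
    intro γ
    rw [Finset.mem_filter, hT'' γ]
    tauto
  have hB2 : BC X (T'.filter fun γ => γ ∈ T₀ ∨ γ⁻¹ ∈ T₀) := by
    refine h2 (fun x hx hx' => hinv x ((hP x).2 (Or.inr hx)) ((hP _).2 (Or.inr hx'))) _ ?_
    intro γ
    rw [Finset.mem_filter, hT'' γ]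
    tauto
  have hB3 := BC_union hB1 hB2 (by
    rw [Finset.disjoint_left]
    intro γ hγ1 hγ2
    rw [Finset.mem_filter] at hγ1 hγ2
    rcases hγ1.2 with ha | ha
    · rcases hγ2.2 with hb | hb
      · exact hdis γ ha hb
      · exact hinv γ ((hP _).2 (Or.inl ha)) ((hP _).2 (Or.inr hb))
    · rcases hγ2.2 with hb | hb
      · exact hinv γ ((hP _).2 (Or.inr hb)) ((hP _).2 (Or.inl ha))
      · exact hdis _ ha hb) (by
    intro g hg
    rw [Finset.mem_filter, hT''] at hg ⊢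
    rw [inv_inv]
    tauto)
  have h3 : (T'.filter fun γ => P γ ∨ P γ⁻¹) ∪
      (T'.filter fun γ => γ ∈ T₀ ∨ γ⁻¹ ∈ T₀) = T' := by
    ext γ
    rw [Finset.mem_union, Finset.mem_filter, Finset.mem_filter, hT'' γ]
    tauto
  rwa [h3] at hB3

private lemma cov2_BC [MeasurableSpace X] [StandardBorelSpace X]
    (hmeas : ∀ γ : Γ, Measurable fun x : X => γ • x)
    (hfree : ∀ (γ : Γ) (x : X), γ • x = x → γ = 1) {S : Finset Γ} (hsymm : ∀ s ∈ S, s⁻¹ ∈ S)
    (h1 : (1 : Γ) ∉ S) (hgen : Subgroup.closure (S : Set Γ) = ⊤)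
    (hasi : BorelAsiLe (schreierGraph S X) 1) {T : Finset Γ} (hc : Cov2 S T) :
    (∀ x ∈ T, x⁻¹ ∉ T) → ∀ T' : Finset Γ, (∀ γ, γ ∈ T' ↔ γ ∈ T ∨ γ⁻¹ ∈ T) → BC X T' := by
  classical
  induction hc with
  | nil =>
    intro _ T' hT'
    have h2 : T' = ∅ := by
      rw [Finset.eq_empty_iff_forall_notMem]
      intro γ hγ
      rcases (hT' γ).1 hγ with h | h
      · simp at h
      · simp at h
    rw [h2]
    exact BC_empty
  | @star T₀ h A hst hh hd _ ih =>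
    intro hinv T' hT'
    refine glue (P := fun γ => γ = h ∨ γ ∈ A) (T₀ := T₀) ?_ ?_ hinv hT' ?_ ih
    · intro γ
      rw [Finset.mem_insert, Finset.mem_union]
      tauto
    · rintro γ (rfl | hA) hT₀
      · exact hh hT₀
      · exact Finset.disjoint_left.1 hd hA hT₀
    · intro B hB
      exact star_BC hmeas hfree hsymm h1 hgen hasi hst hB
  | @trip T₀ h a₀ a₁ ht hh h0 h1' _ ih =>
    intro hinv T' hT'
    refine glue (P := fun γ => γ = h ∨ γ = a₀ ∨ γ = a₁) (T₀ := T₀) ?_ ?_ hinv hT' ?_ ih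
    · intro γ
      rw [Finset.mem_insert, Finset.mem_insert, Finset.mem_insert]
      tauto
    · rintro γ (rfl | rfl | rfl) hT₀
      · exact hh hT₀
      · exact h0 hT₀
      · exact h1' hT₀
    · intro B hB
      exact triple_BC hmeas hfree hsymm h1 hgen hasi ht hB

theorem BC_block2 [MeasurableSpace X] [StandardBorelSpace X]
    (hmeas : ∀ γ : Γ, Measurable fun x : X => γ • x)
    (hfree : ∀ (γ : Γ) (x : X), γ • x = x → γ = 1) {S : Finset Γ} (hsymm : ∀ s ∈ S, s⁻¹ ∈ S)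
    (h1 : (1 : Γ) ∉ S) (hgen : Subgroup.closure (S : Set Γ) = ⊤)
    (hasi : BorelAsiLe (schreierGraph S X) 1) {B : Finset Γ} (hBS : B ⊆ S) (hB : NilBlk B) :
    BC X B := by
  obtain ⟨T, hc, hinv, hT⟩ := cov_block2 hBS hB
  exact cov2_BC hmeas hfree hsymm h1 hgen hasi hc hinv B hT

/-- `MP1822C.BC_partners` for a symmetric subset of the generating set -/
theorem BC_rest [MeasurableSpace X] [StandardBorelSpace X] {S S' : Finset Γ}
    (hsymm : ∀ g ∈ S, g⁻¹ ∈ S) (h1 : (1 : Γ) ∉ S)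
    (hgen : Subgroup.closure (S : Set Γ) = ⊤) (hS' : S' ⊆ S) (hsymm' : ∀ g ∈ S', g⁻¹ ∈ S')
    (hodd : ∀ g ∈ S', ¬ Odd (orderOf g))
    (hmeas : ∀ γ : Γ, Measurable fun x : X => γ • x)
    (hfree : ∀ (γ : Γ) (x : X), γ • x = x → γ = 1) (hasi : BorelAsiLe (schreierGraph S X) 1)
    (hL : ∀ g ∈ S', ¬ IsOfFinOrder g → (∃ h ∈ S', Prt g h) ∨
      ∃ K : Subgroup Γ, Finite K ∧ MP1822V.Twist g K ∧ ∃ s ∈ S', s ∈ K) : BC X S' := by
  classical
  have hcount := countable_of_gen hsymm hgen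
  obtain ⟨r, hr, hr'⟩ := exists_rep Γ
  set T : Finset Γ := S'.filter fun g => ∃ h ∈ S', Prt g h with hT
  have hTmem : ∀ g, g ∈ T ↔ g ∈ S' ∧ ∃ h ∈ S', Prt g h := fun g => by simp [hT]
  have hTsymm : ∀ g ∈ T, g⁻¹ ∈ T := by
    intro g hg
    obtain ⟨hgS, h, hh, hP⟩ := (hTmem g).1 hg
    exact (hTmem _).2 ⟨hsymm' g hgS, h, hh, hP.inv_left⟩
  -- the commuting part
  have hBT : BC X T := by
    let I := {g : Γ // g ∈ T ∧ r g = g}
    have hIfin : Finite I := Finite.of_injective (fun i : I => (⟨i.1, i.2.1⟩ : T))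
      (fun i j hij => Subtype.ext (congrArg (fun t : T => (t : Γ)) hij))
    have hrr : ∀ γ, r (r γ) = r γ := by
      intro γ
      rcases hr γ with h | h
      · rw [h, h]
      · rw [h, hr', h]
    have hrT : ∀ γ ∈ T, r γ ∈ T := by
      intro γ hγ
      rcases hr γ with h | h
      · rwa [h]
      · rw [h]; exact hTsymm γ hγ
    obtain ⟨p, hp1, hp2⟩ := exists_helper (fun i j : I => Prt i.1 j.1)
      (fun i j H => H.symm) (fun i => Prt.irrefl) (by
        rintro ⟨g, hg, hgr⟩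
        obtain ⟨hgS, h, hh, hP⟩ := (hTmem g).1 hg
        have hhT : h ∈ T := (hTmem h).2 ⟨hh, g, hgS, hP.symm⟩
        refine ⟨⟨r h, hrT h hhT, hrr h⟩, ?_⟩
        rcases hr h with h' | h'
        · simp only [h']; exact hP
        · simp only [h']; exact hP.inv_right)
    refine BC_commuting hmeas hfree hsymm h1 hasi (fun i : I => i.1)
      (fun i => hS' ((hTmem _).1 i.2.1).1) Subtype.val_injective ?_ p ?_ hp2
      (fun i => (hp1 i).2.2.1) (fun i => (hp1 i).indep) T ?_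
    · intro i j hij
      have h2 : r i.1 = r j.1 := by rw [hij, hr']
      rw [i.2.2, j.2.2] at h2
      rw [← h2] at hij
      have hgo := (hp1 i).1
      apply hgo
      rw [isOfFinOrder_iff_pow_eq_one]
      refine ⟨2, by norm_num, ?_⟩
      rw [pow_two]
      nth_rewrite 1 [hij]
      exact inv_mul_cancel _
    · intro i h
      have := hp1 i
      rw [h] at this
      exact Prt.irrefl this
    · intro γ
      constructor
      · intro hγ
        refine ⟨⟨r γ, hrT γ hγ, hrr γ⟩, ?_⟩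
        rcases hr γ with h | h
        · left; exact h.symm
        · right; simp only [h, inv_inv]
      · rintro ⟨i, h | h⟩
        · rw [h]; exact i.2.1
        · rw [h]; exact hTsymm _ i.2.1
  -- the rest
  have hBS : BC X (S' \ T) := by
    refine MP1822V.upper_bound hsymm hgen ?_ ?_ hmeas hfree hasi ?_
    · intro g hg
      rw [Finset.mem_sdiff] at hg ⊢
      refine ⟨hsymm' g hg.1, fun h => hg.2 ?_⟩
      have := hTsymm _ h
      rwa [inv_inv] at this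
    · intro g hg
      exact hodd g (Finset.mem_sdiff.1 hg).1
    · intro g hg hgo
      rw [Finset.mem_sdiff] at hg
      rcases hL g hg.1 hgo with ⟨h, hh, hP⟩ | ⟨K, hK, hK', s, hs, hsK⟩
      · exact absurd ((hTmem g).2 ⟨hg.1, h, hh, hP⟩) hg.2
      · refine ⟨K, hK, hK', s, ?_, hsK⟩
        rw [Finset.mem_sdiff]
        refine ⟨hs, fun hsT => ?_⟩
        obtain ⟨-, h, -, hP⟩ := (hTmem s).1 hsT
        apply hP.1
        have h2 : IsOfFinOrder (⟨s, hsK⟩ : K) := isOfFinOrder_of_finite _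
        exact Submonoid.isOfFinOrder_coe.2 h2
  have h3 := BC_union hBT hBS Finset.disjoint_sdiff hTsymm
  rwa [Finset.union_sdiff_of_subset (Finset.filter_subset _ _)] at h3

theorem blocks_index2 [MeasurableSpace X] [StandardBorelSpace X] [Nonempty X]
    (hmeas : ∀ γ : Γ, Measurable fun x : X => γ • x)
    (hfree : ∀ (γ : Γ) (x : X), γ • x = x → γ = 1) {S : Finset Γ} (hsymm : ∀ s ∈ S, s⁻¹ ∈ S)
    (h1 : (1 : Γ) ∉ S) (hgen : Subgroup.closure (S : Set Γ) = ⊤)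
    (hodd : ∀ g ∈ S, ¬ Odd (orderOf g)) (hasi : BorelAsiLe (schreierGraph S X) 1)
    (𝓑 : Finset (Finset Γ)) (hB : ∀ B ∈ 𝓑, B ⊆ S ∧ (NilBlk B ∨ FreeBlock B))
    (hd : (𝓑 : Set (Finset Γ)).PairwiseDisjoint id)
    (hcov : ∀ g ∈ S, ¬ IsOfFinOrder g → (∃ B ∈ 𝓑, g ∈ B) ∨
      (∃ h ∈ S, (∀ B ∈ 𝓑, h ∉ B) ∧ Prt g h) ∨
      ∃ s ∈ S, (∀ B ∈ 𝓑, s ∉ B) ∧ IsOfFinOrder s ∧
        IsVirtuallyCyclic (Subgroup.closure {g, s})) :
    borelChromaticIndex (schreierGraph S X) = (S.card : ℕ∞) := by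
  classical
  have hTmem : ∀ g, g ∈ 𝓑.biUnion id ↔ ∃ B ∈ 𝓑, g ∈ B := by
    intro g
    simp only [Finset.mem_biUnion, id_eq]
  have hBsymm : ∀ B ∈ 𝓑, ∀ g ∈ B, g⁻¹ ∈ B := by
    intro B hB1 g hg
    rcases (hB B hB1).2 with h | h
    · exact h.symm g hg
    · exact h.1 g hg
  have hTsymm : ∀ g ∈ 𝓑.biUnion id, g⁻¹ ∈ 𝓑.biUnion id := by
    intro g hg
    obtain ⟨B, hB1, hgB⟩ := (hTmem g).1 hg
    exact (hTmem _).2 ⟨B, hB1, hBsymm B hB1 g hgB⟩
  have hTS : 𝓑.biUnion id ⊆ S := by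
    intro g hg
    obtain ⟨B, hB1, hgB⟩ := (hTmem g).1 hg
    exact (hB B hB1).1 hgB
  have hBC : BC X S := by
    have hBT : BC X (𝓑.biUnion id) := by
      refine BC_biUnion 𝓑 hd hBsymm ?_
      intro B hB1
      rcases (hB B hB1).2 with h | h
      · exact BC_block2 hmeas hfree hsymm h1 hgen hasi (hB B hB1).1 h
      · exact BC_freeBlock hmeas hfree (hB B hB1).1 h1 hsymm
          (fun g hg _ => Nat.not_odd_iff_even.1 (hodd g ((hB B hB1).1 hg))) h hasi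
    have hBS : BC X (S \ 𝓑.biUnion id) := by
      refine BC_rest hsymm h1 hgen Finset.sdiff_subset ?_ ?_ hmeas hfree hasi ?_
      · intro g hg
        rw [Finset.mem_sdiff] at hg ⊢
        refine ⟨hsymm g hg.1, fun h => hg.2 ?_⟩
        have := hTsymm _ h
        rwa [inv_inv] at this
      · intro g hg
        exact hodd g (Finset.mem_sdiff.1 hg).1
      · intro g hg hgo
        rw [Finset.mem_sdiff] at hg
        rcases hcov g hg.1 hgo with hgB | ⟨h, hh, hhB, hP⟩ | ⟨s, hs, hsB, hso, hv⟩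
        · exact absurd ((hTmem g).2 hgB) hg.2
        · refine Or.inl ⟨h, ?_, hP⟩
          rw [Finset.mem_sdiff]
          refine ⟨hh, fun hhT => ?_⟩
          obtain ⟨B, hB1, hhB'⟩ := (hTmem h).1 hhT
          exact hhB B hB1 hhB'
        · obtain ⟨K, hKf, hK, hsK⟩ := MP1822V.twist_of_pairing hgo hso hv
          refine Or.inr ⟨K, hKf, hK, s, ?_, hsK⟩
          rw [Finset.mem_sdiff]
          refine ⟨hs, fun hsT => ?_⟩
          obtain ⟨B, hB1, hsB'⟩ := (hTmem s).1 hsT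
          exact hsB B hB1 hsB'
    have h3 := BC_union hBT hBS Finset.disjoint_sdiff hTsymm
    rwa [Finset.union_sdiff_of_subset hTS] at h3
  refine le_antisymm ?_ (card_le_borelChromaticIndex hsymm h1 hfree)
  obtain ⟨col, c1, c2, c3, c4⟩ := hBC
  exact borelChromaticIndex_le hsymm hmeas hfree col (fun γ hγ δ => c1 γ hγ δ) c2 c3 c4

end Pool.Agent.MP1822N
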