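import Pool.Agent.Lib.MP_1822da_lc.NB.T11
import Pool.Agent.Lib.MP_1822da_lc.NB.A3a
import Pool.Agent.Lib.MP_1822da_lc.VC

/-!
# Nilpotent groups

PROOF of nilpotent_index2. If `Γ` is virtually cyclic: two_ended. Otherwise the index is `|S|` by blocks_index2: if some `s ∈ S` has finite order: `𝓑 = ∅`,
every `g ∈ S` of infinite order has the partner `s` (vc_of_fin; `closure {g, s}` is nilpotent as a subgroup of `Γ`). If all elements of `S` have
infinite order: `𝓑 = {S}`, `NilBlk S`: `closure S = ⊤` is nilpotent and not virtually cyclic (transfer along `Subgroup.topEquiv`; `IsVirtuallyCyclic`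
is invariant under isomorphisms).
-/

namespace Pool.Agent.MP1822N

open Set MeasureTheory Pointwise
open Pool.Agent.Lib.MP_1822da_lc Pool.Agent.MP1822T Pool.Agent.MP1822C

universe u v

variable {Γ : Type u} [Group Γ] {X : Type v} [MulAction Γ X]

theorem two_ended (hv : IsVirtuallyCyclic Γ)
    (S : Finset Γ) (hsymm : ∀ g ∈ S, g⁻¹ ∈ S)
    (h1 : (1 : Γ) ∉ S) (hgen : Subgroup.closure (S : Set Γ) = ⊤)
    (hodd : ∀ g ∈ S, ¬ Odd (orderOf g))
    [Nonempty X] [MeasurableSpace X] [StandardBorelSpace X]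
    (hmeas : ∀ γ : Γ, Measurable fun x : X => γ • x)
    (hfree : ∀ (γ : Γ) (x : X), γ • x = x → γ = 1)
    (hasi : BorelAsiLe (schreierGraph S X) 1)
    (hchi : borelChromaticIndex (schreierGraph S X) ≠ (S.card : ℕ∞)) :
    IsFiniteExtensionOfInt Γ := by
  by_contra hno
  apply hchi
  have hBC : MP1822T.BC X S := by
    refine MP1822V.upper_bound hsymm hgen hsymm hodd hmeas hfree hasi fun g hg hgo => ?_
    obtain ⟨c, hco, hfi, hconj⟩ := MP1822V.exists_core hv hgo
    have hex : ∃ s ∈ S, s * c * s⁻¹ = c⁻¹ := by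
      by_contra hcon
      push Not at hcon
      apply hno
      refine MP1822V.finiteExtension_of_central hco hfi ?_
      have hle : (⊤ : Subgroup Γ) ≤ Subgroup.centralizer {c} := by
        rw [← hgen, Subgroup.closure_le]
        intro s hs
        rw [SetLike.mem_coe, Subgroup.mem_centralizer_singleton_iff]
        exact mul_inv_eq_iff_eq_mul.1 ((hconj s).resolve_right (hcon s hs))
      intro h
      exact Subgroup.mem_centralizer_singleton_iff.1 (hle (Subgroup.mem_top h))
    obtain ⟨s, hs, hsc⟩ := hex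
    obtain ⟨K, hKf, hK, hsK⟩ := MP1822V.exists_twist hv hgo (MP1822V.finite_of_reverse hco hfi hsc)
    exact ⟨K, hKf, hK, s, hs, hsK⟩
  refine le_antisymm ?_ (card_le_borelChromaticIndex hsymm h1 hfree)
  obtain ⟨col, c1, c2, c3, c4⟩ := hBC
  exact borelChromaticIndex_le hsymm hmeas hfree col (fun γ hγ δ => c1 γ hγ δ) c2 c3 c4

private theorem not_vc_top2 (hv : ¬ IsVirtuallyCyclic Γ) {S : Finset Γ}
    (hgen : Subgroup.closure (S : Set Γ) = ⊤) :
    ¬ IsVirtuallyCyclic (Subgroup.closure (S : Set Γ)) := by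
  rintro ⟨z, hz⟩
  apply hv
  refine ⟨(z : Γ), ?_⟩
  have hmap : (Subgroup.zpowers z).map (Subgroup.closure (S : Set Γ)).subtype
      = Subgroup.zpowers (z : Γ) := by
    rw [MonoidHom.map_zpowers]
    rfl
  rw [← hmap]
  constructor
  rw [Subgroup.index_map_subtype]
  refine mul_ne_zero hz.index_ne_zero ?_
  rw [hgen, Subgroup.index_top]
  exact one_ne_zero

theorem nilpotent_index2 [MeasurableSpace X] [StandardBorelSpace X] [Nonempty X]
    [Group.IsNilpotent Γ]
    (hmeas : ∀ γ : Γ, Measurable fun x : X => γ • x)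
    (hfree : ∀ (γ : Γ) (x : X), γ • x = x → γ = 1) {S : Finset Γ} (hsymm : ∀ s ∈ S, s⁻¹ ∈ S)
    (h1 : (1 : Γ) ∉ S) (hgen : Subgroup.closure (S : Set Γ) = ⊤)
    (hodd : ∀ g ∈ S, ¬ Odd (orderOf g)) (hasi : BorelAsiLe (schreierGraph S X) 1)
    (hchi : borelChromaticIndex (schreierGraph S X) ≠ (S.card : ℕ∞)) :
    IsFiniteExtensionOfInt Γ := by
  by_contra hno
  have hv : ¬ IsVirtuallyCyclic Γ := fun hv =>
    hno (two_ended hv S hsymm h1 hgen hodd hmeas hfree hasi hchi)
  apply hchi
  by_cases hfin : ∃ s ∈ S, IsOfFinOrder s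
  · refine blocks_index2 hmeas hfree hsymm h1 hgen hodd hasi ∅ (by simp) (by simp) ?_
    intro g hg hgo
    obtain ⟨s, hs, hso⟩ := hfin
    exact Or.inr (Or.inr ⟨s, hs, by simp, hso, vc_of_fin inferInstance hso⟩)
  · push Not at hfin
    have hB : NilBlk S := ⟨hsymm, hfin, inferInstance, not_vc_top2 hv hgen⟩
    refine blocks_index2 hmeas hfree hsymm h1 hgen hodd hasi {S} ?_ ?_ ?_
    · intro B hBm
      rw [Finset.mem_singleton] at hBm
      subst hBm
      exact ⟨Finset.Subset.refl _, Or.inl hB⟩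
    · intro B hBm B' hBm' hne
      have e1 : B = S := by simpa using hBm
      have e2 : B' = S := by simpa using hBm'
      exact absurd (e1.trans e2.symm) hne
    · intro g hg _
      exact Or.inl ⟨S, Finset.mem_singleton_self S, hg⟩

end Pool.Agent.MP1822N
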