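import Pool.Agent.Lib.MP_1822da_lc.NB.B2b
import Pool.Agent.Lib.MP_1822da_lc.NB.B3b
import Pool.Agent.Lib.MP_1822da_lc.NB.TDefs

/-!
# Null weights on the cubic graph for twisted patterns (TN2, section 8, NB1822_T.md)

`e y = (-1)^(α y + β0 y)` (as a real number): `e (a*y) = e (h*y) = - e y`. `R = R3 β`.
PROOF. `Om = {y | α y = false ∧ β y = false}`. Three elements with path systems on `Om` inside `R3 β` (flows `±1` on the
edges of the path; all three map `Om` onto `Om` and change the sign of `e`):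
 `u1 = a*a*h`   : `y → h*y → a*h*y → a*a*h*y`: `+(y, true)`, `+(h*y, false)`, `+(a*h*y, false)`;
 `u2 = h⁻¹*a*a` : `y → a*y → a*a*y → h⁻¹*a*a*y`: `+(y, false)`, `+(a*y, false)`, `-(h⁻¹*a*a*y, true)`;
 `u3 = a*h*a`   : `y → a*y → h*a*y → a*h*a*y`: `+(y, false)`, `+(a*y, true)`, `+(h*a*y, false)`.
(`β` along the paths: `u1: 0,1,1,0`; `u2: 0,0,1,0`; `u3: 0,0,1,0`; `α`: `u1: 0,0,1,0`; `u2: 0,1,0,0`; `u3: 0,1,1,0`. The `h`-edges
used start at `y`, `h⁻¹*a*a*y`, `a*y`, where `β` is `false`.)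
For `i ≠ j`: `v = u_i * u_j⁻¹` has the path system PathS.comp (hP_i) (PathS.inv' hP_j), `n = u_j`, `φ = e` on `Om`:
`e (v*y) = e y`, `e (n*y) = - e y`, `closure {v, n} ≤ closure {a, h}` nilpotent; lemmaN: `Phi` is `NullF`, and by Phi_comp and
reindexing (`c ↦ u_j * c`, `e (u_j * c) = - e c`) it is `-(Phi P_i e - Phi P_j e)`. So `D_ij = Phi P_i e - Phi P_j e` is `NullF` and
`e * D_ij` is `NullW` (null_of_flow). Values of `e * Phi P_i e`:
 `i = 1`: `+1` on `(z, true)`, `α z = false`, `β z = false`; `-1` on `(z, false)`, `α z = false`, `β z = true`; `+1` on `(z, false)`, `α z = true`, `β z = true`;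
 `i = 2`: `+1` on `(z, true)`, `α z = false`, `β z = false`; `+1` on `(z, false)`, `α z = false`, `β z = false`; `-1` on `(z, false)`, `α z = true`, `β z = false`;
 `i = 3`: `-1` on `(z, true)`, `α z = true`, `β z = false`; `+1` on `(z, false)`, `α z = false`, `β z = false`; `+1` on `(z, false)`, `α z = true`, `β z = true`;
 `0` elsewhere. So `e*D_12`: `-1` on `(z, false)`, `α z = false`; `+1` on `(z, false)`, `α z = true`; `0` on `(·, true)`.
 `e*D_13`: `-1` on `(z, false)`, `α z = false`; `0` on `(z, false)`, `α z = true`; `+1` on `(z, true)`, `β z = false`.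
 `2 * e*D_13 - e*D_12 = 2 * MH β false - 1_(·, false) = 3 * (MH β false - u3 β)`.
(Checked by program in the Heisenberg group mod 8.)
-/

namespace Pool.Agent.MP1822N

open Set MeasureTheory Pointwise
open Pool.Agent.Lib.MP_1822da_lc Pool.Agent.MP1822T Pool.Agent.MP1822C

universe u v

variable {Γ : Type u} [Group Γ]

open Classical in
private theorem t2_three {a h : Γ} {R : Γ → Bool → Prop} {Om : Set Γ} {u g1 g2 g3 : Γ}
    {s1 s2 s3 : Bool} {c1 c2 c3 : ℝ} (hc1 : |c1| = 1) (hc2 : |c2| = 1) (hc3 : |c3| = 1)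
    (hg1 : g1 ∈ Subgroup.closure {a, h}) (hg2 : g2 ∈ Subgroup.closure {a, h})
    (hg3 : g3 ∈ Subgroup.closure {a, h}) (hu : u ∈ Subgroup.closure {a, h})
    (hinv : ∀ y, u * y ∈ Om ↔ y ∈ Om) (hR1 : ∀ y ∈ Om, R (g1 * y) s1)
    (hR2 : ∀ y ∈ Om, R (g2 * y) s2) (hR3 : ∀ y ∈ Om, R (g3 * y) s3)
    (hdiv : ∀ y z : Γ,
      c1 * ((if z = g1 * y then 1 else 0) - (if z = gen a h s1 * g1 * y then 1 else 0)) +
      c2 * ((if z = g2 * y then 1 else 0) - (if z = gen a h s2 * g2 * y then 1 else 0)) +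
      c3 * ((if z = g3 * y then 1 else 0) - (if z = gen a h s3 * g3 * y then 1 else 0)) =
      (if z = y then 1 else 0) - (if z = u * y then (1 : ℝ) else 0)) :
    PathS a h R Om u ({g1, g2, g3} : Finset Γ) 3
      (fun y z s => c1 * cubE g1 s1 y z s + c2 * cubE g2 s2 y z s + c3 * cubE g3 s3 y z s) := by
  have hz : ∀ (y z : Γ) (s : Bool) (g : Γ) (s0 : Bool), cubE g s0 y z s ≠ 0 → z = g * y ∧ s = s0 := by
    intro y z s g s0 hne
    by_contra h2
    exact hne (if_neg h2)
  have hor : ∀ (y z : Γ) (s : Bool),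
      c1 * cubE g1 s1 y z s + c2 * cubE g2 s2 y z s + c3 * cubE g3 s3 y z s ≠ 0 →
      (z = g1 * y ∧ s = s1) ∨ (z = g2 * y ∧ s = s2) ∨ (z = g3 * y ∧ s = s3) := by
    intro y z s hne
    by_cases k1 : cubE g1 s1 y z s = 0
    · by_cases k2 : cubE g2 s2 y z s = 0
      · by_cases k3 : cubE g3 s3 y z s = 0
        · rw [k1, k2, k3] at hne
          simp at hne
        · exact Or.inr (Or.inr (hz y z s g3 s3 k3))
      · exact Or.inr (Or.inl (hz y z s g2 s2 k2))
    · exact Or.inl (hz y z s g1 s1 k1)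
  refine ⟨hu, ?_, hinv, ?_, ?_, ?_, ?_⟩
  · intro x hx
    simp only [Finset.mem_insert, Finset.mem_singleton] at hx
    rcases hx with rfl | rfl | rfl
    · exact hg1
    · exact hg2
    · exact hg3
  · intro y _ z s hne
    simp only [Finset.mem_insert, Finset.mem_singleton]
    rcases hor y z s hne with ⟨k, -⟩ | ⟨k, -⟩ | ⟨k, -⟩
    · left; rw [k, mul_inv_cancel_right]
    · right; left; rw [k, mul_inv_cancel_right]
    · right; right; rw [k, mul_inv_cancel_right]
  · intro y hy z s hne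
    rcases hor y z s hne with ⟨k, k'⟩ | ⟨k, k'⟩ | ⟨k, k'⟩
    · rw [k, k']; exact hR1 y hy
    · rw [k, k']; exact hR2 y hy
    · rw [k, k']; exact hR3 y hy
  · intro y _ z s
    have hb : ∀ (g : Γ) (s0 : Bool), |cubE g s0 y z s| ≤ 1 := by
      intro g s0
      unfold cubE
      split_ifs <;> norm_num
    have e1 : |c1 * cubE g1 s1 y z s| ≤ 1 := by rw [abs_mul, hc1, one_mul]; exact hb _ _
    have e2 : |c2 * cubE g2 s2 y z s| ≤ 1 := by rw [abs_mul, hc2, one_mul]; exact hb _ _
    have e3 : |c3 * cubE g3 s3 y z s| ≤ 1 := by rw [abs_mul, hc3, one_mul]; exact hb _ _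
    have e4 := abs_add_three (c1 * cubE g1 s1 y z s) (c2 * cubE g2 s2 y z s) (c3 * cubE g3 s3 y z s)
    linarith
  · intro y _ z
    have d1 := dv_cubE a h g1 s1 y z
    have d2 := dv_cubE a h g2 s2 y z
    have d3 := dv_cubE a h g3 s3 y z
    have d4 := hdiv y z
    rw [Fintype.sum_bool] at d1 d2 d3
    unfold dv
    rw [Fintype.sum_bool]
    rw [← d4, ← d1, ← d2, ← d3]
    ring

open Classical in
private theorem t2_phi {Om : Set Γ} {g1 g2 g3 : Γ} {s1 s2 s3 : Bool} {c1 c2 c3 : ℝ} (e : Γ → ℝ)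
    (z : Γ) (s : Bool) :
    Phi ({g1, g2, g3} : Finset Γ) Om
      (fun y z s => c1 * cubE g1 s1 y z s + c2 * cubE g2 s2 y z s + c3 * cubE g3 s3 y z s) e z s =
      c1 * (if g1⁻¹ * z ∈ Om ∧ s = s1 then e (g1⁻¹ * z) else 0) +
      c2 * (if g2⁻¹ * z ∈ Om ∧ s = s2 then e (g2⁻¹ * z) else 0) +
      c3 * (if g3⁻¹ * z ∈ Om ∧ s = s3 then e (g3⁻¹ * z) else 0) := by
  have q1 := sum_cubE (B := ({g1, g2, g3} : Finset Γ)) (g := g1) (by simp) s1 Om e z s
  have q2 := sum_cubE (B := ({g1, g2, g3} : Finset Γ)) (g := g2) (by simp) s2 Om e z s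
  have q3 := sum_cubE (B := ({g1, g2, g3} : Finset Γ)) (g := g3) (by simp) s3 Om e z s
  rw [← q1, ← q2, ← q3, Finset.mul_sum, Finset.mul_sum, Finset.mul_sum, ← Finset.sum_add_distrib,
    ← Finset.sum_add_distrib]
  unfold Phi
  refine Finset.sum_congr rfl fun γ _ => ?_
  by_cases h1 : γ⁻¹ * z ∈ Om
  · simp only [if_pos h1]
    ring
  · simp only [if_neg h1]
    ring

private theorem t2_phi_neg {B : Finset Γ} {Om : Set Γ} {P : Γ → Γ → Bool → ℝ} {φ : Γ → ℝ}
    (z : Γ) (s : Bool) : Phi B Om P (fun y => - φ y) z s = - Phi B Om P φ z s := by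
  unfold Phi
  rw [← Finset.sum_neg_distrib]
  refine Finset.sum_congr rfl fun β _ => ?_
  split_ifs with hm
  · ring
  · ring

private theorem t2_diff {a h : Γ} {R : Γ → Bool → Prop} {Om : Set Γ} {u u' : Γ}
    {B B' : Finset Γ} {K K' : ℝ} {P P' : Γ → Γ → Bool → ℝ} (hP : PathS a h R Om u B K P)
    (hP' : PathS a h R Om u' B' K' P') (hnil : Group.IsNilpotent (Subgroup.closure {a, h}))
    {e : Γ → ℝ} (he : ∀ y, |e y| = 1) (hu : ∀ y, e (u * y) = - e y)
    (hu' : ∀ y, e (u' * y) = - e y) :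
    NullF a h R (fun z s => Phi B Om P e z s - Phi B' Om P' e z s) := by
  classical
  have hui : ∀ y, e (u'⁻¹ * y) = - e y := by
    intro y
    have h1 := hu' (u'⁻¹ * y)
    rw [mul_inv_cancel_left] at h1
    linarith
  have hV := hP.comp hP'.inv'
  have hnil' : Group.IsNilpotent (Subgroup.closure {u * u'⁻¹, u'}) := by
    have hle : Subgroup.closure {u * u'⁻¹, u'} ≤ Subgroup.closure {a, h} := by
      rw [Subgroup.closure_le]
      intro x hx
      rcases hx with rfl | rfl
      · exact Subgroup.mul_mem _ hP.vcl (Subgroup.inv_mem _ hP'.vcl)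
      · exact hP'.vcl
    have h1 : Group.IsNilpotent ((Subgroup.closure {u * u'⁻¹, u'}).subgroupOf
        (Subgroup.closure {a, h})) := Subgroup.isNilpotent _
    exact (Group.isNilpotent_congr (Subgroup.subgroupOfEquivOfLe hle)).mp h1
  have hN := lemmaN hV hP' hnil' (φ := e) (Kφ := 1) (fun y _ => (he y).le)
    (fun y _ => by rw [mul_assoc, hu, hui, neg_neg]) (fun y _ => hu' y)
  have h2 := hV.comp hP'
  rw [inv_mul_cancel_right] at h2
  have h3 := Phi_diff h2 hP (φ := e) (Kφ := 1) (fun y _ => (he y).le)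
  have h4 := (h3.smul (-1)).add (hN.smul (-1))
  refine (congrArg (NullF a h R) ?_).mp h4
  funext z s
  rw [Phi_comp hV hP']
  have h5 : (fun y => e (u'⁻¹ * y)) = fun y => - e y := funext hui
  rw [h5, t2_phi_neg]
  ring

theorem null_cub_tw {a h : Γ} (hnil : Group.IsNilpotent (Subgroup.closure {a, h}))
    {β0 α β : Γ → Bool} (hβh : ∀ y, β0 (h * y) = !(β0 y)) (hβa : ∀ y, β0 (a * y) = β0 y)
    (H : Twd a h α β) : NullW a h (R3 β) (fun y s => MH β false y s - u3 β y s) := by
  classical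
  -- the sign
  set e : Γ → ℝ := fun y => (if α y then -1 else 1) * (if β0 y then -1 else 1) with he
  have hea : ∀ y, e (a * y) = - e y := by
    intro y
    simp only [he, H.αa, hβa]
    cases α y <;> cases β0 y <;> norm_num
  have heh : ∀ y, e (h * y) = - e y := by
    intro y
    simp only [he, H.αh, hβh]
    cases α y <;> cases β0 y <;> norm_num
  have he1 : ∀ y, |e y| = 1 := by
    intro y
    simp only [he]
    cases α y <;> cases β0 y <;> norm_num
  have hee : ∀ y, e y * e y = 1 := by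
    intro y
    simp only [he]
    cases α y <;> cases β0 y <;> norm_num
  have heai : ∀ y, e (a⁻¹ * y) = - e y := by
    intro y
    have h1 := hea (a⁻¹ * y)
    rw [mul_inv_cancel_left] at h1
    linarith
  have hehi : ∀ y, e (h⁻¹ * y) = - e y := by
    intro y
    have h1 := heh (h⁻¹ * y)
    rw [mul_inv_cancel_left] at h1
    linarith
  -- the values of the pattern
  have hαai : ∀ y, α (a⁻¹ * y) = !(α y) := by
    intro y
    have h1 := H.αa (a⁻¹ * y)
    rw [mul_inv_cancel_left] at h1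
    rw [h1, Bool.not_not]
  have hαhi : ∀ y, α (h⁻¹ * y) = α y := by
    intro y
    have h1 := H.αh (h⁻¹ * y)
    rw [mul_inv_cancel_left] at h1
    exact h1.symm
  have hβhi : ∀ y, β (h⁻¹ * y) = !(β y) := by
    intro y
    have h1 := H.βh (h⁻¹ * y)
    rw [mul_inv_cancel_left] at h1
    rw [h1, Bool.not_not]
  have hβai : ∀ y, β (a⁻¹ * y) = xor (β y) (!(α y)) := by
    intro y
    have h1 := H.βa (a⁻¹ * y)
    rw [mul_inv_cancel_left, hαai] at h1
    rw [h1]
    cases β (a⁻¹ * y) <;> cases α y <;> rfl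
  have hca : a ∈ Subgroup.closure {a, h} := Subgroup.subset_closure (Or.inl rfl)
  have hch : h ∈ Subgroup.closure {a, h} := Subgroup.subset_closure (Or.inr rfl)
  obtain ⟨Om, hOm⟩ : ∃ Om : Set Γ, Om = {y | α y = false ∧ β y = false} := ⟨_, rfl⟩
  have hmem : ∀ y, y ∈ Om ↔ α y = false ∧ β y = false := fun y => by rw [hOm]; exact Iff.rfl
  have g1 : gen a h true = h := rfl
  have g2 : gen a h false = a := rfl
  -- the three path systems
  have hP1 : PathS a h (R3 β) Om (a * a * h) ({1, h, a * h} : Finset Γ) 3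
      (fun y z s => 1 * cubE 1 true y z s + 1 * cubE h false y z s +
        1 * cubE (a * h) false y z s) := by
    refine t2_three (by norm_num) (by norm_num) (by norm_num) (Subgroup.one_mem _) hch
      (Subgroup.mul_mem _ hca hch) (Subgroup.mul_mem _ (Subgroup.mul_mem _ hca hca) hch)
      ?_ ?_ ?_ ?_ ?_
    · intro y
      rw [hmem, hmem, mul_assoc, mul_assoc, H.αa, H.αa, H.αh, H.βa, H.βa, H.βh, H.αa, H.αh]
      cases α y <;> cases β y <;> simp
    · intro y hy
      right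
      rw [one_mul]
      exact ((hmem y).1 hy).2
    · intro y _
      exact Or.inl rfl
    · intro y _
      exact Or.inl rfl
    · intro y z
      rw [g1, g2, one_mul y, mul_one, ← mul_assoc a a h]
      ring
  have hP2 : PathS a h (R3 β) Om (h⁻¹ * a * a) ({1, a, h⁻¹ * a * a} : Finset Γ) 3
      (fun y z s => 1 * cubE 1 false y z s + 1 * cubE a false y z s +
        (-1) * cubE (h⁻¹ * a * a) true y z s) := by
    have hi : ∀ y, h⁻¹ * a * a * y ∈ Om ↔ y ∈ Om := by
      intro y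
      rw [hmem, hmem, mul_assoc, mul_assoc, hαhi, hβhi, H.αa, H.αa, H.βa, H.βa, H.αa]
      cases α y <;> cases β y <;> simp
    refine t2_three (by norm_num) (by norm_num) (by norm_num) (Subgroup.one_mem _) hca
      (Subgroup.mul_mem _ (Subgroup.mul_mem _ (Subgroup.inv_mem _ hch) hca) hca)
      (Subgroup.mul_mem _ (Subgroup.mul_mem _ (Subgroup.inv_mem _ hch) hca) hca)
      hi ?_ ?_ ?_ ?_
    · intro y _
      exact Or.inl rfl
    · intro y _
      exact Or.inl rfl
    · intro y hy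
      right
      exact ((hmem _).1 ((hi y).2 hy)).2
    · intro y z
      have h1 : h * (h⁻¹ * a * a) * y = a * a * y := by
        rw [mul_assoc h⁻¹ a a, mul_inv_cancel_left]
      rw [g1, g2, one_mul y, mul_one, h1]
      ring
  have hP3 : PathS a h (R3 β) Om (a * h * a) ({1, a, h * a} : Finset Γ) 3
      (fun y z s => 1 * cubE 1 false y z s + 1 * cubE a true y z s +
        1 * cubE (h * a) false y z s) := by
    refine t2_three (by norm_num) (by norm_num) (by norm_num) (Subgroup.one_mem _) hca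
      (Subgroup.mul_mem _ hch hca) (Subgroup.mul_mem _ (Subgroup.mul_mem _ hca hch) hca)
      ?_ ?_ ?_ ?_ ?_
    · intro y
      rw [hmem, hmem, mul_assoc, mul_assoc, H.αa, H.αh, H.αa, H.βa, H.βh, H.βa, H.αh, H.αa]
      cases α y <;> cases β y <;> simp
    · intro y _
      exact Or.inl rfl
    · intro y hy
      right
      rw [H.βa, ((hmem y).1 hy).1, ((hmem y).1 hy).2]
      rfl
    · intro y _
      exact Or.inl rfl
    · intro y z
      rw [g1, g2, one_mul y, mul_one, ← mul_assoc a h a]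
      ring
  have hu1 : ∀ y, e (a * a * h * y) = - e y := by
    intro y
    rw [mul_assoc, mul_assoc, hea, hea, heh, neg_neg]
  have hu2 : ∀ y, e (h⁻¹ * a * a * y) = - e y := by
    intro y
    rw [mul_assoc, mul_assoc, hehi, hea, hea, neg_neg]
  have hu3 : ∀ y, e (a * h * a * y) = - e y := by
    intro y
    rw [mul_assoc, mul_assoc, hea, heh, hea, neg_neg]
  have hes : ∀ s y, e (gen a h s * y) = - e y := by
    intro s y
    cases s
    · exact hea y
    · exact heh y
  have hD12 := null_of_flow (t2_diff hP1 hP2 hnil he1 hu1 hu2) he1 hes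
  have hD13 := null_of_flow (t2_diff hP1 hP3 hnil he1 hu1 hu3) he1 hes
  have hW := (hD13.smul (2 / 3)).add (hD12.smul (-1 / 3))
  refine (congrArg (NullW a h (R3 β)) ?_).mp hW
  funext z s
  rw [t2_phi, t2_phi, t2_phi]
  have k1 : (1 : Γ)⁻¹ * z ∈ Om ↔ α z = false ∧ β z = false := by rw [inv_one, one_mul, hmem]
  have k2 : h⁻¹ * z ∈ Om ↔ α z = false ∧ β z = true := by
    rw [hmem, hαhi, hβhi]
    cases β z <;> simp
  have k3 : (a * h)⁻¹ * z ∈ Om ↔ α z = true ∧ β z = true := by
    rw [hmem, mul_inv_rev, mul_assoc, hαhi, hβhi, hαai, hβai]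
    cases α z <;> cases β z <;> simp
  have k4 : a⁻¹ * z ∈ Om ↔ α z = true ∧ β z = false := by
    rw [hmem, hαai, hβai]
    cases α z <;> cases β z <;> simp
  have k5 : (h⁻¹ * a * a)⁻¹ * z ∈ Om ↔ α z = false ∧ β z = false := by
    rw [← hP2.inv, mul_inv_cancel_left, hmem]
  have k6 : (h * a)⁻¹ * z ∈ Om ↔ α z = true ∧ β z = true := by
    rw [hmem, mul_inv_rev, mul_assoc, hαai, hβai, hαhi, hβhi]
    cases α z <;> cases β z <;> simp
  have l1 : e ((1 : Γ)⁻¹ * z) = e z := by rw [inv_one, one_mul]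
  have l3 : e ((a * h)⁻¹ * z) = e z := by rw [mul_inv_rev, mul_assoc, hehi, heai, neg_neg]
  have l5 : e ((h⁻¹ * a * a)⁻¹ * z) = - e z := by
    have h1 := hu2 ((h⁻¹ * a * a)⁻¹ * z)
    rw [mul_inv_cancel_left] at h1
    linarith
  have l6 : e ((h * a)⁻¹ * z) = e z := by rw [mul_inv_rev, mul_assoc, heai, hehi, neg_neg]
  simp only [k1, k2, k3, k4, k5, k6, l1, hehi z, heai z, l3, l5, l6]
  have h9 := hee z
  clear_value e
  unfold MH u3 R3
  cases s <;> cases hb : β z <;> cases ha : α z <;> simp <;> linarith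

end Pool.Agent.MP1822N
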