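import Pool.Agent.Lib.MP_1822da_lc.NB.B5a
import Pool.Agent.Lib.MP_1822da_lc.NB.A4b
import Pool.Agent.Lib.MP_1822da_lc.NB.T1
import Pool.Agent.Lib.MP_1822da_lc.NB.T2

/-!
# The chains of a twisted pattern (TC, section 8, NB1822_T.md)

PROOF of designs_tw (compare B5b): `e y = xor (α y) (β0 y)`, growth_pair. quad: chain_of_null with `R = RT`, `x = u4`,
`ε = 1/4`, `Q y s = (s && (β y == j))`, `wt Q = MH β j`, null_quad_tw and `NullW.smul (-1)`. cub: `Twd a h α (fun y => !(β y))`
(twd_not), null_cub_tw for it, chain_of_null with `R = R3 (!β)`, `x = u3 (!β)`, `ε = 1/3`, `Q y s = (s && β y)`, `wt Q = MH β true`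
(`= MH (!β) false`); `vs (u3 (!β)) = 1`: three edges at every vertex.
-/

namespace Pool.Agent.MP1822N

open Set MeasureTheory Pointwise
open Pool.Agent.Lib.MP_1822da_lc Pool.Agent.MP1822T Pool.Agent.MP1822C

universe u v

variable {Γ : Type u} [Group Γ]

private theorem t3_inv {h : Γ} {β : Γ → Bool} (hβ : ∀ y, β (h * y) = !(β y)) (y : Γ) :
    β (h⁻¹ * y) = !(β y) := by
  have h1 := hβ (h⁻¹ * y)
  rw [mul_inv_cancel_left] at h1
  rw [h1, Bool.not_not]

private theorem t3_vs {a h : Γ} (w : Γ → Bool → ℝ) (y : Γ) :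
    vs a h w y = (w y true + w (h⁻¹ * y) true) + (w y false + w (a⁻¹ * y) false) := by
  simp [vs, gen, smul_eq_mul]

omit [Group Γ] in
private theorem t3_wtH (β : Γ → Bool) (j : Bool) :
    wt (fun y s => s && (β y == j)) = MH β j := by
  funext y s
  simp [wt, MH]

private theorem t3_vsH {a h : Γ} {β : Γ → Bool} (hβ : ∀ y, β (h * y) = !(β y)) (j : Bool) (y : Γ) :
    vs a h (MH β j) y = 1 := by
  rw [t3_vs]
  simp only [MH, t3_inv hβ y]
  cases β y <;> cases j <;> simp

private theorem t3_vs3 {a h : Γ} {β : Γ → Bool} (hβ : ∀ y, β (h * y) = !(β y)) (y : Γ) :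
    vs a h (u3 β) y = 1 := by
  rw [t3_vs]
  have h1 : ∀ z, u3 β z false = 1 / 3 := fun z => if_pos (Or.inl rfl)
  rw [h1, h1]
  cases hb : β y
  · have h2 : u3 β y true = 1 / 3 := if_pos (Or.inr hb)
    have h3 : u3 β (h⁻¹ * y) true = 0 := if_neg (by simp [R3, t3_inv hβ, hb])
    rw [h2, h3]
    norm_num
  · have h2 : u3 β y true = 0 := if_neg (by simp [R3, hb])
    have h3 : u3 β (h⁻¹ * y) true = 1 / 3 := if_pos (Or.inr (by rw [t3_inv hβ, hb]; rfl))
    rw [h2, h3]
    norm_num

private theorem t3_neg {a h : Γ} {R : Γ → Bool → Prop} {w x : Γ → Bool → ℝ}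
    (hn : NullW a h R (fun y s => w y s - x y s)) : NullW a h R (fun y s => x y s - w y s) := by
  have h1 := hn.smul (-1)
  have h2 : (fun y s => (-1 : ℝ) * (w y s - x y s)) = fun y s => x y s - w y s := by
    funext y s
    ring
  rwa [h2] at h1

theorem twd_not {a h : Γ} {α β : Γ → Bool} (H : Twd a h α β) :
    Twd a h α (fun y => !(β y)) := by
  refine ⟨H.αa, H.αh, fun y => ?_, fun y => ?_⟩
  · simp [H.βh y]
  · simp only [H.βa y]
    cases β y <;> cases α y <;> rfl

theorem designs_tw {a h : Γ} (hnil : Group.IsNilpotent (Subgroup.closure {a, h}))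
    {β0 α β : Γ → Bool} (hβh : ∀ y, β0 (h * y) = !(β0 y)) (hβa : ∀ y, β0 (a * y) = β0 y)
    (H : Twd a h α β) : TDsg a h β := by
  have hgr := growth_pair hnil
  obtain ⟨e, he⟩ : ∃ e : Γ → Bool, ∀ s y, e (gen a h s * y) = !(e y) := by
    refine ⟨fun y => xor (α y) (β0 y), fun s y => ?_⟩
    cases s
    · simp only [gen, Bool.false_eq_true, if_false, H.αa, hβa]
      cases α y <;> cases β0 y <;> rfl
    · simp only [gen, if_true, H.αh, hβh]
      cases α y <;> cases β0 y <;> rfl
  have H' := twd_not H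
  refine ⟨H.βh, fun j => ?_, ?_⟩
  · rw [← t3_wtH]
    refine chain_of_null hgr he (fun y s _ => trivial) (fun y => ?_) (ε := 1 / 4) (by norm_num)
      (fun y => ?_) (fun y s _ => le_rfl) (fun y s hr => absurd trivial hr) (fun y s _ => ?_) ?_
    · rw [t3_wtH]
      exact t3_vsH H.βh j y
    · rw [t3_vs]
      norm_num [u4]
    · norm_num [u4]
    · rw [t3_wtH]
      exact t3_neg (null_quad_tw hnil hβh hβa H j)
  · have hMH : MH β true = MH (fun y => !(β y)) false := by
      funext y s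
      simp [MH]
    rw [hMH, ← t3_wtH]
    refine chain_of_null hgr he (fun y s hq => ?_) (fun y => ?_) (ε := 1 / 3) (by norm_num)
      (t3_vs3 H'.βh) (fun y s hr => ?_) (fun y s hr => ?_) (fun y s _ => ?_) ?_
    · right
      revert hq
      cases s <;> simp
    · rw [t3_wtH]
      exact t3_vsH H'.βh false y
    · unfold u3
      rw [if_pos hr]
    · unfold u3
      rw [if_neg hr]
    · unfold u3
      split_ifs <;> norm_num
    · rw [t3_wtH]
      exact t3_neg (null_cub_tw hnil hβh hβa H')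

end Pool.Agent.MP1822N
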