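import Pool.Agent.Lib.MP_1822da_lc.NB.C4b
import Pool.Agent.Lib.MP_1822da_lc.NB.TDefs

/-!
# The base pair with a twisted zone (section 8.2, NB1822_T.md)

Compare C4c (`base`): the same proof with one zone `Zn al be` in which TWO matchings are prescribed: colour 3 = the `h`-edges
with `β' = false`, colour 1 = the `h`-edges with `β' = true`.
PROOF. loc_hall for `hD.quad true` (`R = RT`, bd_MH): `r1, L1`; for `hD.cub` (`R = R3 β`, bd_MA): `r2, L2`; for the empty chain from
`xF β κ` to itself (`R = fun _ _ => False`, bd_xF): `r3, L3`; localise for `hT.quad false`: `r0`; localise for `hT.cub`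
(`R = R3 (!β')`): `r4`. `r = 2 * (r0 + r1 + r2 + r3 + r4) + 5`, `L = 4 * r + L1 + L2 + L3`.
First matching: `w = 1/4`; localise (`hT.quad false`) on `Zn al be`: `w0 = MH β' false ∘ p` on `Zn (al + r0) (be - r0)`, `= 1/4` on the barrier zone
`Zn al0 (al0 + L)` (disjoint, `al0 + L ≤ al`). loc_hall (`hD.quad true`) on the barrier zone: `w1`, `m3`. single_edge: `m3 y s ↔ s = true ∧ β (p y) = true` on
`Zn (al0 + r1) (al0 + L - r1)`, `m3 y s ↔ s = true ∧ β' (p y) = false` on `Zn (al + r0) (be - r0)`.
Second matching: `w2 y s = if m3 y s then 0 else 1/3`, `vs w2 = 1`. On `Zn (al + r0) (be - r0)` this is `u3 (!β') (p y) s`: localise with `hT.cub` there: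
`w3 = MH β' true ∘ p` on `Zn (al + r0 + r4) (be - r0 - r4)`, still `w3 y s = 0` if `m3 y s` (a change needs `R3 (!β') (p y) s`, i.e. `s = false` or
`β' (p y) = true`, not `m3`). On `Zn (al0 + r1) (al0 + L - r1)`: `w3 = w2 = u3 β ∘ p`: loc_hall (`hD.cub`): `w4`, `m1` (disjoint from `m3` for the same reason),
`m1 y s ↔ s = false ∧ κ (p y) = true` in the middle of the barrier zone, `m1 y s ↔ s = true ∧ β' (p y) = true` on
`Zn (al + r) (be - r)`.
Rest: `w5 y s = if m3 y s ∨ m1 y s then 0 else 1/2`, `vs = 1`, `= xF β κ ∘ p` in the middle of the barrier zone; loc_hall (empty chain): `m0`.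
`q y s = 3` on `m3`, `1` on `m1`, `0` on `m0`, `2` otherwise.
-/

namespace Pool.Agent.MP1822N

open Set MeasureTheory Pointwise
open Pool.Agent.Lib.MP_1822da_lc Pool.Agent.MP1822T Pool.Agent.MP1822C

universe u v

variable {Γ : Type u} [Group Γ]

private theorem t4_one {f : Bool × Bool → Bool}
    (h : (∑ s : Bool, ((if f (s, false) = true then (1 : ℝ) else 0) +
      (if f (s, true) = true then (1 : ℝ) else 0))) = 1) :
    ∃ d0, ∀ d, f d = true ↔ d = d0 := by
  rw [Fintype.sum_bool] at h
  have key : ∀ a b c d : Bool, ((if a = true then (1 : ℝ) else 0) +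
      (if b = true then (1 : ℝ) else 0) + ((if c = true then (1 : ℝ) else 0) +
      (if d = true then (1 : ℝ) else 0))) = 1 →
      (a = true ∧ b = false ∧ c = false ∧ d = false) ∨
      (a = false ∧ b = true ∧ c = false ∧ d = false) ∨
      (a = false ∧ b = false ∧ c = true ∧ d = false) ∨
      (a = false ∧ b = false ∧ c = false ∧ d = true) := by
    intro a b c d
    cases a <;> cases b <;> cases c <;> cases d <;> norm_num
  rcases key _ _ _ _ h with ⟨h1, h2, h3, h4⟩ | ⟨h1, h2, h3, h4⟩ | ⟨h1, h2, h3, h4⟩ |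
    ⟨h1, h2, h3, h4⟩
  · refine ⟨(true, false), ?_⟩
    rintro ⟨s, t⟩
    cases s <;> cases t <;> simp [h1, h2, h3, h4]
  · refine ⟨(true, true), ?_⟩
    rintro ⟨s, t⟩
    cases s <;> cases t <;> simp [h1, h2, h3, h4]
  · refine ⟨(false, false), ?_⟩
    rintro ⟨s, t⟩
    cases s <;> cases t <;> simp [h1, h2, h3, h4]
  · refine ⟨(false, true), ?_⟩
    rintro ⟨s, t⟩
    cases s <;> cases t <;> simp [h1, h2, h3, h4]

private theorem t4_dec : ∀ d3 d1 d0 : Bool × Bool, d3 ≠ d1 → d3 ≠ d0 → d1 ≠ d0 →
    ∀ a b : Bool × Bool,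
      (if a = d3 then (3 : Fin 4) else if a = d1 then 1 else if a = d0 then 0 else 2) =
      (if b = d3 then (3 : Fin 4) else if b = d1 then 1 else if b = d0 then 0 else 2) →
      a = b := by
  decide

private theorem t4_inj {M3 M1 M0 : Bool × Bool → Bool} {d3 d1 d0 : Bool × Bool}
    (h3 : ∀ d, M3 d = true ↔ d = d3) (h1 : ∀ d, M1 d = true ↔ d = d1)
    (h0 : ∀ d, M0 d = true ↔ d = d0) (h31 : ∀ d, M3 d = true → M1 d = true → False)
    (h30 : ∀ d, M3 d = true → M0 d = true → False)
    (h10 : ∀ d, M1 d = true → M0 d = true → False) :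
    Function.Injective fun d : Bool × Bool =>
      (if M3 d = true then (3 : Fin 4) else if M1 d = true then 1 else
        if M0 d = true then 0 else 2) := by
  have e31 : d3 ≠ d1 := fun e => h31 d3 ((h3 d3).2 rfl) ((h1 d3).2 e)
  have e30 : d3 ≠ d0 := fun e => h30 d3 ((h3 d3).2 rfl) ((h0 d3).2 e)
  have e10 : d1 ≠ d0 := fun e => h10 d1 ((h1 d1).2 rfl) ((h0 d1).2 e)
  intro a b hab
  apply t4_dec d3 d1 d0 e31 e30 e10 a b
  simp only [h3, h1, h0] at hab
  exact hab

variable {X : Type v} [MulAction Γ X]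

/-- the point of the edge `d` at `x` -/
private def t4_pt (a h : Γ) (x : X) (d : Bool × Bool) : X :=
  if d.2 then (gen a h d.1)⁻¹ • x else x

private theorem t4_one' {a h : Γ} {m : X → Bool → Bool} {x : X}
    (hv : vs a h (wt m) x = 1) :
    ∃ d0, ∀ d : Bool × Bool, m (t4_pt a h x d) d.1 = true ↔ d = d0 := by
  have e : (∑ s : Bool, ((if m (t4_pt a h x (s, false)) s = true then (1 : ℝ) else 0) +
      (if m (t4_pt a h x (s, true)) s = true then (1 : ℝ) else 0))) = vs a h (wt m) x := by
    rw [vs]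
    apply Finset.sum_congr rfl
    intro s _
    simp [t4_pt, wt]
  exact t4_one (f := fun d => m (t4_pt a h x d) d.1) (e.trans hv)

private theorem t4_vs1 (a h : Γ) (m : X → Bool → Bool) (x : X) :
    vs a h (fun y s => if m y s = true then (0 : ℝ) else 1 / 3) x
      = (4 - vs a h (wt m) x) / 3 := by
  simp only [vs, wt, Fintype.sum_bool]
  split_ifs <;> norm_num

private theorem t4_vs2 (a h : Γ) (m m' : X → Bool → Bool)
    (hd : ∀ y s, m y s = true → m' y s = true → False) (x : X) :
    vs a h (fun y s => if m y s = true ∨ m' y s = true then (0 : ℝ) else 1 / 2) x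
      = (4 - vs a h (wt m) x - vs a h (wt m') x) / 2 := by
  have key : ∀ y s, (if m y s = true ∨ m' y s = true then (0 : ℝ) else 1 / 2)
      = (1 - wt m y s - wt m' y s) / 2 := by
    intro y s
    have h1 := hd y s
    unfold wt
    cases e1 : m y s <;> cases e2 : m' y s
    · norm_num
    · norm_num
    · norm_num
    · exact (h1 e1 e2).elim
  simp only [vs, Fintype.sum_bool, key]
  ring

private theorem t4_meas [MeasurableSpace X] {m : X → Prop} (hm : MeasurableSet {x | m x})
    [DecidablePred m] (c d : ℝ) : Measurable fun x => if m x then c else d :=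
  Measurable.ite hm measurable_const measurable_const

private theorem t4_ge {F : Set Γ} (h1 : (1 : Γ) ∈ F) {U : Set X} {al be al' be' : ℕ}
    (ha : al' ≤ al) (hb : be ≤ be') {y : X} (hy : y ∈ Zn F U al be) : y ∈ Zn F U al' be' :=
  ⟨zone_mono h1 U hb hy.1, fun h => hy.2 (zone_mono h1 U ha h)⟩

private theorem t4_disj {F : Set Γ} (h1 : (1 : Γ) ∈ F) {U : Set X} {al be al' be' : ℕ}
    (h : be ≤ al') {y : X} (hy : y ∈ Zn F U al be) : y ∉ Zn F U al' be' :=
  fun hy' => hy'.2 (zone_mono h1 U h hy.1)

private theorem t4_val {m3 m1 m0 : Bool} (hd : m3 = true → m1 = true → False) :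
    ((if m3 = true then (3 : Fin 4) else if m1 = true then 1 else
      if m0 = true then 0 else 2) = 3 ↔ m3 = true) ∧
    ((if m3 = true then (3 : Fin 4) else if m1 = true then 1 else
      if m0 = true then 0 else 2) = 1 ↔ m1 = true) := by
  revert hd
  cases m3 <;> cases m1 <;> cases m0 <;> decide

/-- **The base pair, twisted version.** Four Borel perfect matchings; numbers 3 and 1 are
prescribed in one zone. -/
theorem base2 [Countable Γ] {F : Set Γ} (h1 : (1 : Γ) ∈ F) (hinv : ∀ s ∈ F, s⁻¹ ∈ F)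
    (hgen : Subgroup.closure F = ⊤) {a h : Γ} (ha : a ∈ F) (hh : h ∈ F) {β κ : Γ → Bool}
    (hD : Dsg a h β κ) {β' : Γ → Bool} (hT : TDsg a h β') :
    ∃ r L : ℕ, ∀ {X : Type v} [MulAction Γ X] [MeasurableSpace X] [StandardBorelSpace X]
      (_ : ∀ γ : Γ, Measurable fun x : X => γ • x)
      (_ : ∀ (γ : Γ) (x : X), γ • x = x → γ = 1)
      {c : X → Bool} (_ : ∀ s x, c (gen a h s • x) = !(c x))
      {U : Set X} {M : ℕ} {p : X → Γ} (_ : FrD F U M p)
      {al be al0 : ℕ} (_ : r ≤ al0) (_ : al0 + L ≤ al) (_ : al + 2 * r ≤ be) (_ : be + r ≤ M),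
      ∃ q : X → Bool → Fin 4, (∀ s, FM fun x => q x s) ∧
        (∀ x, Function.Injective fun d : Bool × Bool =>
          q (if d.2 then (gen a h d.1)⁻¹ • x else x) d.1) ∧
        ∀ y ∈ Zn F U (al + r) (be - r), ∀ s,
          (q y s = 3 ↔ (s = true ∧ β' (p y) = false)) ∧
          (q y s = 1 ↔ (s = true ∧ β' (p y) = true)) := by
  obtain ⟨r0, H0⟩ := localise.{u, v} h1 hinv hgen ha hh (hT.quad false)
  obtain ⟨r1, L1, hL1, H1⟩ := loc_hall.{u, v} h1 hinv hgen ha hh (hD.quad true) (bd_MH hD.βh true)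
  obtain ⟨r2, L2, hL2, H2⟩ := loc_hall.{u, v} h1 hinv hgen ha hh hD.cub (bd_MA hD.κa true)
  obtain ⟨r3, L3, hL3, H3⟩ := loc_hall.{u, v} h1 hinv hgen ha hh
    (R := fun _ _ => False) (x := xF β κ) (x' := xF β κ) Relation.ReflTransGen.refl (bd_xF hD)
  obtain ⟨r4, H4⟩ := localise.{u, v} h1 hinv hgen ha hh hT.cub
  obtain ⟨r, hr⟩ : ∃ r, r = 2 * (r0 + r1 + r2 + r3 + r4) + 5 := ⟨_, rfl⟩
  refine ⟨r, 4 * r + L1 + L2 + L3, ?_⟩
  intro X _ _ _ hmeas hfree c hc U M p hF al be al0 k1 k2 k3 k4
  obtain ⟨be0, hbe0⟩ : ∃ be0, be0 = al0 + (4 * r + L1 + L2 + L3) := ⟨_, rfl⟩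
  have hbe : be0 ≤ al := by omega
  -- the prescribed zone, first matching
  obtain ⟨w0, m0m, m0n, m0v, m0o, m0i, -⟩ := H0 hmeas hF (al := al) (be := be)
    (by omega) (by omega) (by omega) (w := fun _ _ => 1 / 4)
    (fun s => measurable_const) (fun y s => by norm_num) (fun y _ s => rfl)
  have v0 : ∀ y, vs a h w0 y = 1 := by
    intro y
    rw [m0v y]
    simp only [vs, Fintype.sum_bool]
    norm_num
  -- the barrier zone, quad
  obtain ⟨w1, m3, w1m, w1n, w1v, w1o, w1i, w1R, m3m, m3p, m3v⟩ := H1 hmeas hfree hc hF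
    (al := al0) (be := be0) (by omega) (by omega) (by omega) (w := w0) m0m m0n
    (fun y => Or.inr (v0 y)) (fun y hy s => by
      rw [m0o y (t4_disj h1 hbe hy) s]
      rfl)
  have v1 : ∀ y, vs a h w1 y = 1 := fun y => (w1v y).trans (v0 y)
  have m3v' : ∀ y, vs a h (wt m3) y = 1 := fun y => (m3v y).trans (v0 y)
  have c3 : ∀ y ∈ Zn F U (al0 + r1) (be0 - r1), ∀ s,
      m3 y s = true ↔ (s = true ∧ β (p y) = true) := by
    intro y hy s
    have e := w1i y hy s
    rw [single_edge w1n m3p ((m3v y).trans (w1v y).symm) (v1 y), e, MH]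
    · by_cases hc : s = true ∧ β (p y) = true
      · simp [hc]
      · simp [hc]
    · rw [e, MH]
      split_ifs
      · right; rfl
      · left; rfl
  have c3' : ∀ y ∈ Zn F U (al + r0) (be - r0), ∀ s,
      m3 y s = true ↔ (s = true ∧ β' (p y) = false) := by
    intro y hy s
    have hy0 : y ∉ Zn F U al0 be0 := fun hy' =>
      t4_disj h1 (by omega) hy' hy
    have e : w1 y s = MH β' false (p y) s := by
      rw [w1o y hy0 s]
      exact m0i y hy s
    rw [single_edge w1n m3p ((m3v y).trans (w1v y).symm) (v1 y), e, MH]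
    · by_cases hc : s = true ∧ β' (p y) = false
      · simp [hc]
      · simp [hc]
    · rw [e, MH]
      split_ifs
      · right; rfl
      · left; rfl
  -- the cubic graph
  have w2v : ∀ y, vs a h (fun y s => if m3 y s = true then (0 : ℝ) else 1 / 3) y = 1 := by
    intro y
    rw [t4_vs1, m3v' y]
    norm_num
  -- the prescribed zone, second matching
  obtain ⟨w3, w3m, w3n, w3v, w3o, w3i, w3R⟩ := H4 hmeas hF (al := al + r0) (be := be - r0)
    (by omega) (by omega) (by omega)
    (w := fun y s => if m3 y s = true then (0 : ℝ) else 1 / 3)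
    (fun s => t4_meas (m3m s) 0 (1 / 3))
    (fun y s => by split_ifs <;> norm_num)
    (fun y hy s => by
      have h3 := c3' y hy s
      simp only [u3, R3]
      cases s
      · have : ¬ (m3 y false = true) := fun h' => by simpa using (h3.1 h').1
        simp [this]
      · rcases Bool.eq_false_or_eq_true (β' (p y)) with e | e
        · have : ¬ (m3 y true = true) := fun h' => by simpa [e] using (h3.1 h').2
          simp [this, e]
        · have : m3 y true = true := h3.2 ⟨rfl, e⟩
          simp [this, e])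
  have v3 : ∀ y, vs a h w3 y = 1 := fun y => (w3v y).trans (w2v y)
  have z3 : ∀ y s, m3 y s = true → w3 y s = 0 := by
    intro y s e3
    by_contra hne'
    have hne : w3 y s ≠ (if m3 y s = true then (0 : ℝ) else 1 / 3) := by
      rw [if_pos e3]
      exact hne'
    have hy : y ∈ Zn F U (al + r0) (be - r0) := by
      by_contra hy
      exact hne (w3o y hy s)
    have h3 := (c3' y hy s).1 e3
    rcases w3R y s hne with h' | h'
    · rw [h3.1] at h'
      exact absurd h' (by simp)
    · simp [h3.2] at h'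
  -- the barrier zone, cub
  obtain ⟨w4, m1, w4m, w4n, w4v, w4o, w4i, w4R, m1m, m1p, m1v⟩ := H2 hmeas hfree hc hF
    (al := al0 + r1) (be := be0 - r1) (by omega) (by omega) (by omega)
    (w := w3) w3m w3n
    (fun y => Or.inr (v3 y)) (fun y hy s => by
      have h3 := c3 y hy s
      rw [w3o y (t4_disj h1 (by omega) hy) s]
      simp only [u3, R3]
      cases s
      · have : ¬ (m3 y false = true) := fun h' => by simpa using (h3.1 h').1
        simp [this]
      · rcases Bool.eq_false_or_eq_true (β (p y)) with e | e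
        · have : m3 y true = true := h3.2 ⟨rfl, e⟩
          simp [this, e]
        · have : ¬ (m3 y true = true) := fun h' => by simpa [e] using (h3.1 h').2
          simp [this, e])
  have v4 : ∀ y, vs a h w4 y = 1 := fun y => (w4v y).trans (v3 y)
  have m1v' : ∀ y, vs a h (wt m1) y = 1 := fun y => (m1v y).trans (v3 y)
  have d31 : ∀ y s, m3 y s = true → m1 y s = true → False := by
    intro y s e3 e1
    have p1 := m1p y s e1
    have hne : w4 y s ≠ w3 y s := by
      rw [z3 y s e3]
      exact ne_of_gt p1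
    have hy : y ∈ Zn F U (al0 + r1) (be0 - r1) := by
      by_contra hy
      exact hne (w4o y hy s)
    have h3 := (c3 y hy s).1 e3
    rcases w4R y s hne with h' | h'
    · rw [h3.1] at h'
      exact absurd h' (by simp)
    · rw [h3.2] at h'
      exact absurd h' (by simp)
  have c1 : ∀ y ∈ Zn F U (al0 + r1 + r2) (be0 - r1 - r2), ∀ s,
      m1 y s = true ↔ (s = false ∧ κ (p y) = true) := by
    intro y hy s
    have e := w4i y hy s
    rw [single_edge w4n m1p ((m1v y).trans (w4v y).symm) (v4 y), e, MA]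
    · by_cases hc : s = false ∧ κ (p y) = true
      · simp [hc]
      · simp [hc]
    · rw [e, MA]
      split_ifs
      · right; rfl
      · left; rfl
  have c1' : ∀ y ∈ Zn F U (al + r0 + r4) (be - r0 - r4), ∀ s,
      m1 y s = true ↔ (s = true ∧ β' (p y) = true) := by
    intro y hy s
    have hy0 : y ∉ Zn F U (al0 + r1) (be0 - r1) := fun hy' =>
      t4_disj h1 (by omega) hy' hy
    have e : w4 y s = MH β' true (p y) s := by
      rw [w4o y hy0 s]
      exact w3i y hy s
    rw [single_edge w4n m1p ((m1v y).trans (w4v y).symm) (v4 y), e, MH]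
    · by_cases hc : s = true ∧ β' (p y) = true
      · simp [hc]
      · simp [hc]
    · rw [e, MH]
      split_ifs
      · right; rfl
      · left; rfl
  -- the 2-factor
  have w5v : ∀ y, vs a h (fun y s => if m3 y s = true ∨ m1 y s = true then (0 : ℝ) else 1 / 2) y
      = 1 := by
    intro y
    rw [t4_vs2 a h m3 m1 d31, m3v' y, m1v' y]
    norm_num
  obtain ⟨w6, m0, w6m, w6n, w6v, w6o, w6i, w6R, m0m', m0p, m0v'⟩ := H3 hmeas hfree hc hF
    (al := al0 + r1 + r2) (be := be0 - r1 - r2) (by omega) (by omega) (by omega)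
    (w := fun y s => if m3 y s = true ∨ m1 y s = true then (0 : ℝ) else 1 / 2)
    (fun s => t4_meas (m := fun x => m3 x s = true ∨ m1 x s = true)
      ((m3m s).union (m1m s)) 0 (1 / 2))
    (fun y s => by split_ifs <;> norm_num)
    (fun y => Or.inr (w5v y)) (fun y hy s => by
      have h3 := c3 y (t4_ge h1 (by omega) (by omega) hy) s
      have h1' := c1 y hy s
      simp only [xF]
      cases s
      · have n3 : ¬ (m3 y false = true) := fun h' => by simpa using (h3.1 h').1
        rcases Bool.eq_false_or_eq_true (κ (p y)) with e | e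
        · have : m1 y false = true := h1'.2 ⟨rfl, e⟩
          simp [this, e]
        · have : ¬ (m1 y false = true) := fun h' => by simpa [e] using (h1'.1 h').2
          simp [this, n3, e]
      · have n1 : ¬ (m1 y true = true) := fun h' => by simpa using (h1'.1 h').1
        rcases Bool.eq_false_or_eq_true (β (p y)) with e | e
        · have : m3 y true = true := h3.2 ⟨rfl, e⟩
          simp [this, e]
        · have : ¬ (m3 y true = true) := fun h' => by simpa [e] using (h3.1 h').2
          simp [this, n1, e])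
  have m0v1 : ∀ y, vs a h (wt m0) y = 1 := fun y => (m0v' y).trans (w5v y)
  have w6e : ∀ y s, w6 y s = (if m3 y s = true ∨ m1 y s = true then (0 : ℝ) else 1 / 2) := by
    intro y s
    by_contra hne
    exact w6R y s hne
  have d30 : ∀ y s, m3 y s = true → m0 y s = true → False := by
    intro y s e3 e0
    have := m0p y s e0
    rw [w6e, if_pos (Or.inl e3)] at this
    exact lt_irrefl _ this
  have d10 : ∀ y s, m1 y s = true → m0 y s = true → False := by
    intro y s e1 e0
    have := m0p y s e0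
    rw [w6e, if_pos (Or.inr e1)] at this
    exact lt_irrefl _ this
  refine ⟨fun y s => if m3 y s = true then (3 : Fin 4) else if m1 y s = true then 1 else
      if m0 y s = true then 0 else 2, ?_, ?_, ?_⟩
  · intro s
    exact FM.ite (m3m s) (FM.const _) (FM.ite (m1m s) (FM.const _)
      (FM.ite (m0m' s) (FM.const _) (FM.const _)))
  · intro x
    obtain ⟨d3, hd3⟩ := t4_one' (m3v' x)
    obtain ⟨d1, hd1⟩ := t4_one' (m1v' x)
    obtain ⟨d0, hd0⟩ := t4_one' (m0v1 x)
    exact t4_inj (M3 := fun d => m3 (t4_pt a h x d) d.1)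
      (M1 := fun d => m1 (t4_pt a h x d) d.1) (M0 := fun d => m0 (t4_pt a h x d) d.1)
      hd3 hd1 hd0 (fun d => d31 _ _) (fun d => d30 _ _) (fun d => d10 _ _)
  · intro y hy s
    rw [← c3' y (t4_ge h1 (by omega) (by omega) hy) s,
      ← c1' y (t4_ge h1 (by omega) (by omega) hy) s]
    exact t4_val (d31 y s)

end Pool.Agent.MP1822N
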