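import Pool.Agent.Lib.MP_1822da_lc.NB.C4b
import Pool.Agent.Lib.MP_1822da_lc.NB.TDefs
import Pool.Agent.Lib.MP_1822da_lc.NB.B5a

/-!
# The client with two matchings (section 8.2, NB1822_T.md)

`m3`, `m1`: the `h`-edges of two disjoint matchings, prescribed on `Zn al be` (there they are all `h`-edges). The client graph
consists of all `a`-edges and of the `h`-edges with `m3` or `m1`; it is coloured with 4 colours; colour 2 replaces `m3`, colour 3
replaces `m1`. (There is no statement about the colours off the zone.)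
PROOF. localise for `hT.cub` reversed (chain_symm: `MH β' true → u3 (!β')`, `R = R3 (!β')`): `r1`; for `hT.quad false` reversed
(`MH β' false → u4`) followed by `hD.quad true` (`u4 → MH β true`), `R = RT`: one chain, bd_MH: loc_hall: `r2, L2`; `hD.cub` (`u3 β → MA κ true`, `R = R3 β`,
bd_MA): loc_hall `r3, L3`; empty chain from `xF β κ` (`R = fun _ _ => False`, bd_xF): `r4, L4`.
(1) weight of `m1`: `w1 y true = [m1 y]`, `w1 y false = 0`, `vs w1 ∈ {0, 1}`, on `Zn al be` `= MH β' true ∘ p`. localise: `w1'`, `= u3 (!β') ∘ p` on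
`Z1 = Zn (al + r1) (be - r1)`, `= w1` off `Zn al be`, and `w1' y s ≠ 0 → (s = true ∧ m1 y) ∨ (y ∈ Zn al be ∧ R3 (!β') (p y) s)`.
(2) matching `M3`: `w3 y true = [m3 y]`, `w3 y false = 0`, on `Zn al be` `= MH β' false ∘ p`. loc_hall on `Z2 = Zn (al + r1 + 2) (be - r1 - 2)`: `w3'`, `n3`,
`vs n3 = vs w3`. Off `Z2`: `w3' = w3`, single_edge (or `vs = 0`): `n3 y s ↔ s = true ∧ m3 y`. On `Z3 = Zn (al + r1 + 2 + r2) (be - r1 - 2 - r2)`:
`n3 y s ↔ s = true ∧ β (p y) = true`.
(3) `w1'' y s = if y ∈ Z2 ∨ (gen a h s • y) ∈ Z2` [or: `y ∈ Z1`] `then (if n3 y s then 0 else 1/3) else w1' y s`. Take `y ∈ Z1`. Off `Z2` but in `Z1`: `n3 y s ↔ s = true ∧ β' (p y) = false`,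
so the new value is `u3 (!β') (p y) s = w1' y s`: nothing changes there, and all four edges at a vertex with an edge based in `Z2` are based in
`Z1`. So `vs w1'' = 1` at these vertices (three edges off `n3`; `vs n3 = vs w3 = 1` in `Zn (al + 1) (be - 1)`), and `vs w1'' = vs w1' = vs w1` at all
others. `w1'' y s = 0` if `n3 y s` (off `Z1`: `n3 y s` means `s = true`, `m3 y`; then `m1 y = false`, and `R3 (!β') (p y) true` is false in the zone).
On `Z3`: `w1'' = u3 β ∘ p`. loc_hall (`hD.cub`) on `Z3`: `w1'''`, `n1`, `vs n1 = vs w1`, disjoint from `n3` (on `Z3` `R3 β (p y) s` excludes `n3`), `n1 y s ↔ s = false ∧ κ (p y) = true`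
on `Z4`.
(4) `n1 y true → m1 y ∨ y ∈ Zn al be`; `n3 y true → m3 y ∨ y ∈ Zn al be`; in the zone every `h`-edge has `m3` or `m1`. So `n3, n1` are contained in
the client graph. `w5 y true = if (m3 y ∨ m1 y) ∧ ¬ n3 y true ∧ ¬ n1 y true then 1/2 else 0`, `w5 y false = if n3 y false ∨ n1 y false then 0 else 1/2`:
`vs w5 = 1` (`2 + σ3 + σ1` edges of the client graph at a vertex, `σ3` of them in `n3`, `σ1` in `n1`). On `Z4`: `w5 = xF β κ ∘ p`. loc_hall (empty chain,
`w5' = w5`): `n0`.
`q y s = 2` on `n3`, `3` on `n1`, `1` on `n0`, `0` otherwise. At a vertex the edges of the client graph not in `n3 ∪ n1` are two, one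
of them in `n0`: proper. Colour 2 at `x` means an edge of `n3`: `vs (wt n3) x = vs w3 x = 0` if `m3 x = m3 (h⁻¹ x) = false`.
-/

namespace Pool.Agent.MP1822N

open Set MeasureTheory Pointwise
open Pool.Agent.Lib.MP_1822da_lc Pool.Agent.MP1822T Pool.Agent.MP1822C

universe u v

variable {Γ : Type u} [Group Γ]


section Count

variable {X : Type v} [MulAction Γ X]

/-- the base points of the four edges at `x` -/
private def t5p (a h : Γ) (x : X) (d : Bool × Bool) : X := if d.2 then (gen a h d.1)⁻¹ • x else x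

private theorem t5_vs (a h : Γ) (w : X → Bool → ℝ) (x : X) :
    vs a h w x = ∑ d : Bool × Bool, w (t5p a h x d) d.1 := by
  rw [Fintype.sum_prod_type]
  simp only [vs, Fintype.sum_bool, t5p, if_true]
  simp only [Bool.false_eq_true, if_false]
  ring

private theorem t5_lin (a h : Γ) (f g : X → Bool → ℝ) (c d : ℝ) (x : X) :
    vs a h (fun y s => c * f y s + d * g y s) x = c * vs a h f x + d * vs a h g x := by
  simp only [vs, Fintype.sum_bool]
  ring

private theorem t5_wt0 (m : X → Bool → Bool) (y : X) (s : Bool) : 0 ≤ wt m y s := by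
  unfold wt
  split_ifs <;> norm_num

private theorem t5_wt_false {m : X → Bool → Bool} {y : X} {s : Bool} (h : m y s = false) :
    wt m y s = 0 := by
  simp [wt, h]

private theorem t5_wt_true {m : X → Bool → Bool} {y : X} {s : Bool} (h : m y s = true) :
    wt m y s = 1 := by
  simp [wt, h]

private theorem t5_le (a h : Γ) {m : X → Bool → Bool} {x : X} (hv : vs a h (wt m) x ≤ 1)
    {d d' : Bool × Bool} (hd : m (t5p a h x d) d.1 = true) (hd' : m (t5p a h x d') d'.1 = true) :
    d = d' := by
  by_contra hne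
  rw [t5_vs] at hv
  have h2 : ∑ e ∈ ({d, d'} : Finset (Bool × Bool)), wt m (t5p a h x e) e.1 ≤
      ∑ e : Bool × Bool, wt m (t5p a h x e) e.1 :=
    Finset.sum_le_sum_of_subset_of_nonneg (Finset.subset_univ _) fun e _ _ => t5_wt0 _ _ _
  rw [Finset.sum_pair hne, t5_wt_true hd, t5_wt_true hd'] at h2
  linarith

private theorem t5_zero (a h : Γ) {m : X → Bool → Bool} {x : X} (hv : vs a h (wt m) x = 0)
    (d : Bool × Bool) : m (t5p a h x d) d.1 = false := by
  by_contra hne
  have hd : m (t5p a h x d) d.1 = true := by simpa using hne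
  rw [t5_vs] at hv
  have h2 : wt m (t5p a h x d) d.1 ≤ ∑ e : Bool × Bool, wt m (t5p a h x e) e.1 :=
    Finset.single_le_sum (f := fun e : Bool × Bool => wt m (t5p a h x e) e.1)
      (fun e _ => t5_wt0 _ _ _) (Finset.mem_univ d)
  rw [t5_wt_true hd, hv] at h2
  linarith

/-- the weight of a set of `h`-edges -/
private noncomputable def wm (m : X → Bool) (y : X) (s : Bool) : ℝ :=
  if s = true ∧ m y = true then 1 else 0

private theorem wm_cases (a h : Γ) {m : X → Bool} (hm : ∀ x, m x = true → m (h⁻¹ • x) = false)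
    (x : X) : vs a h (wm m) x = 0 ∨ vs a h (wm m) x = 1 := by
  have := hm x
  simp only [vs, Fintype.sum_bool, wm, gen]
  cases e : m x <;> cases e' : m (h⁻¹ • x) <;> simp_all

private theorem wm_zero (a h : Γ) {m : X → Bool} {x : X} (e : m x = false)
    (e' : m (h⁻¹ • x) = false) : vs a h (wm m) x = 0 := by
  simp only [vs, Fintype.sum_bool, wm, gen]
  simp [e, e']

private theorem wm_one (a h : Γ) {m : X → Bool} {x : X} (e : m x = !(m (h⁻¹ • x))) :
    vs a h (wm m) x = 1 := by
  simp only [vs, Fintype.sum_bool, wm, gen]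
  cases e' : m (h⁻¹ • x) <;> simp_all

private theorem wm_one' (a h : Γ) {m : X → Bool} {x : X} (hm : ∀ x, m x = true → m (h⁻¹ • x) = false)
    (e : m x = true) : vs a h (wm m) x = 1 := by
  apply wm_one
  rw [hm x e, e]
  rfl

/-- the edges of the client graph -/
private def EE (m3 m1 : X → Bool) (y : X) (s : Bool) : Prop := s = true → m3 y = true ∨ m1 y = true

private instance (m3 m1 : X → Bool) (y : X) (s : Bool) : Decidable (EE m3 m1 y s) := by
  unfold EE; infer_instance

private theorem EE_val {m3 m1 : X → Bool} (hd : ∀ x, m3 x = true → m1 x = false) (y : X) (s : Bool) :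
    (if EE m3 m1 y s then (1 : ℝ) else 0) = (if s = false then 1 else 0) + (wm m3 y s + wm m1 y s) := by
  have hdy := hd y
  cases s
  · have hE : EE m3 m1 y false := fun h => absurd h (by decide)
    rw [if_pos hE]
    simp [wm]
  · cases e : m3 y
    · cases e' : m1 y
      · have hE : ¬ EE m3 m1 y true := fun hc => by
          rcases hc rfl with h | h
          · rw [e] at h; exact absurd h (by decide)
          · rw [e'] at h; exact absurd h (by decide)
        rw [if_neg hE]
        simp [wm, e, e']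
      · have hE : EE m3 m1 y true := fun _ => Or.inr e'
        rw [if_pos hE]
        simp [wm, e, e']
    · have e' := hdy e
      have hE : EE m3 m1 y true := fun _ => Or.inl e
      rw [if_pos hE]
      simp [wm, e, e']

private theorem vs_EE (a h : Γ) {m3 m1 : X → Bool} (hd : ∀ x, m3 x = true → m1 x = false) (x : X) :
    vs a h (fun y s => if EE m3 m1 y s then (1 : ℝ) else 0) x =
      2 + (vs a h (wm m3) x + vs a h (wm m1) x) := by
  simp only [vs, Fintype.sum_bool, EE_val hd]
  simp only [Bool.true_eq_false, if_false, if_true]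
  ring

private theorem w5_val {m3 m1 : X → Bool} {n3 n1 : X → Bool → Bool}
    (e3 : ∀ y s, n3 y s = true → EE m3 m1 y s) (e1 : ∀ y s, n1 y s = true → EE m3 m1 y s)
    (e31 : ∀ y s, n3 y s = true → n1 y s = true → False) (y : X) (s : Bool) :
    (if EE m3 m1 y s ∧ n3 y s = false ∧ n1 y s = false then (1 / 2 : ℝ) else 0) =
      (1 / 2) * (if EE m3 m1 y s then (1 : ℝ) else 0) + (-1 / 2) * (wt n3 y s + wt n1 y s) := by
  have h3 := e3 y s
  have h1 := e1 y s
  have h31 := e31 y s
  by_cases hE : EE m3 m1 y s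
  · cases k3 : n3 y s <;> cases k1 : n1 y s
    · simp [hE, wt, k3, k1]
    · simp [hE, wt, k3, k1]; norm_num
    · simp [hE, wt, k3, k1]; norm_num
    · exact (h31 k3 k1).elim
  · have k3 : n3 y s = false := by
      by_contra hc
      exact hE (h3 (by simpa using hc))
    have k1 : n1 y s = false := by
      by_contra hc
      exact hE (h1 (by simpa using hc))
    simp [hE, wt, k3, k1]

private theorem w5_vs (a h : Γ) {m3 m1 : X → Bool} {n3 n1 : X → Bool → Bool}
    (hd : ∀ x, m3 x = true → m1 x = false)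
    (e3 : ∀ y s, n3 y s = true → EE m3 m1 y s) (e1 : ∀ y s, n1 y s = true → EE m3 m1 y s)
    (e31 : ∀ y s, n3 y s = true → n1 y s = true → False)
    (v3 : ∀ x, vs a h (wt n3) x = vs a h (wm m3) x) (v1 : ∀ x, vs a h (wt n1) x = vs a h (wm m1) x)
    (x : X) :
    vs a h (fun y s => if EE m3 m1 y s ∧ n3 y s = false ∧ n1 y s = false then (1 / 2 : ℝ) else 0) x
      = 1 := by
  have e : (fun (y : X) (s : Bool) =>
      if EE m3 m1 y s ∧ n3 y s = false ∧ n1 y s = false then (1 / 2 : ℝ) else 0) =
      fun y s => (1 / 2) * (if EE m3 m1 y s then (1 : ℝ) else 0) + (-1 / 2) * (1 * wt n3 y s + 1 * wt n1 y s) := by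
    funext y s
    rw [w5_val e3 e1 e31]
    ring
  rw [e, t5_lin a h (fun y s => if EE m3 m1 y s then (1 : ℝ) else 0)
    (fun y s => 1 * wt n3 y s + 1 * wt n1 y s), t5_lin a h, vs_EE a h hd, v3, v1]
  ring

/-- the rest -/
private def rs (m3 m1 : X → Bool) (n3 n1 n0 : X → Bool → Bool) (y : X) (s : Bool) : Bool :=
  decide (EE m3 m1 y s) && (!(n3 y s) && (!(n1 y s) && !(n0 y s)))

private theorem rs_vs (a h : Γ) {m3 m1 : X → Bool} {n3 n1 n0 : X → Bool → Bool}
    (hd : ∀ x, m3 x = true → m1 x = false)
    (e3 : ∀ y s, n3 y s = true → EE m3 m1 y s) (e1 : ∀ y s, n1 y s = true → EE m3 m1 y s)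
    (e0 : ∀ y s, n0 y s = true → EE m3 m1 y s ∧ n3 y s = false ∧ n1 y s = false)
    (e31 : ∀ y s, n3 y s = true → n1 y s = true → False)
    (v3 : ∀ x, vs a h (wt n3) x = vs a h (wm m3) x) (v1 : ∀ x, vs a h (wt n1) x = vs a h (wm m1) x)
    (v0 : ∀ x, vs a h (wt n0) x = 1) (x : X) :
    vs a h (wt (rs m3 m1 n3 n1 n0)) x = 1 := by
  have e : wt (rs m3 m1 n3 n1 n0) = fun (y : X) (s : Bool) =>
      2 * (if EE m3 m1 y s ∧ n3 y s = false ∧ n1 y s = false then (1 / 2 : ℝ) else 0) +
        (-1) * wt n0 y s := by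
    funext y s
    have h0 := e0 y s
    by_cases hE : EE m3 m1 y s ∧ n3 y s = false ∧ n1 y s = false
    · rw [if_pos hE]
      obtain ⟨k, k3, k1⟩ := hE
      cases k0 : n0 y s
      · have hr : rs m3 m1 n3 n1 n0 y s = true := by
          unfold rs
          simp only [Bool.and_eq_true, decide_eq_true_eq, Bool.not_eq_true']
          exact ⟨k, k3, k1, k0⟩
        rw [t5_wt_true hr, t5_wt_false k0]
        norm_num
      · have hr : rs m3 m1 n3 n1 n0 y s = false := by
          unfold rs
          rw [k0]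
          simp
        rw [t5_wt_false hr, t5_wt_true k0]
        norm_num
    · rw [if_neg hE]
      have k0 : n0 y s = false := by
        by_contra hc
        exact hE (h0 (by simpa using hc))
      have hr : rs m3 m1 n3 n1 n0 y s = false := by
        by_contra hc
        have hc' : rs m3 m1 n3 n1 n0 y s = true := by simpa using hc
        unfold rs at hc'
        simp only [Bool.and_eq_true, decide_eq_true_eq, Bool.not_eq_true'] at hc'
        exact hE ⟨hc'.1, hc'.2.1, hc'.2.2.1⟩
      rw [t5_wt_false hr, t5_wt_false k0]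
      norm_num
  rw [e, t5_lin a h, w5_vs a h hd e3 e1 e31 v3 v1, v0]
  norm_num

private theorem t5_col (a h : Γ) {m3 m1 : X → Bool} {n3 n1 n0 : X → Bool → Bool}
    (hd : ∀ x, m3 x = true → m1 x = false)
    (c3 : ∀ x, m3 x = true → m3 (h⁻¹ • x) = false) (c1 : ∀ x, m1 x = true → m1 (h⁻¹ • x) = false)
    (e3 : ∀ y s, n3 y s = true → EE m3 m1 y s) (e1 : ∀ y s, n1 y s = true → EE m3 m1 y s)
    (e0 : ∀ y s, n0 y s = true → EE m3 m1 y s ∧ n3 y s = false ∧ n1 y s = false)
    (e31 : ∀ y s, n3 y s = true → n1 y s = true → False)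
    (v3 : ∀ x, vs a h (wt n3) x = vs a h (wm m3) x) (v1 : ∀ x, vs a h (wt n1) x = vs a h (wm m1) x)
    (v0 : ∀ x, vs a h (wt n0) x = 1) (x : X) (d d' : Bool × Bool) (hdd : d ≠ d')
    (hE : EE m3 m1 (t5p a h x d) d.1) (hE' : EE m3 m1 (t5p a h x d') d'.1) :
    (fun (y : X) (s : Bool) => if n3 y s = true then (2 : Fin 4) else if n1 y s = true then 3 else
      if n0 y s = true then 1 else 0) (t5p a h x d) d.1 ≠
    (fun (y : X) (s : Bool) => if n3 y s = true then (2 : Fin 4) else if n1 y s = true then 3 else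
      if n0 y s = true then 1 else 0) (t5p a h x d') d'.1 := by
  intro hq
  have u3 : vs a h (wt n3) x ≤ 1 := by
    rw [v3]
    rcases wm_cases a h c3 x with h | h <;> rw [h] <;> norm_num
  have u1 : vs a h (wt n1) x ≤ 1 := by
    rw [v1]
    rcases wm_cases a h c1 x with h | h <;> rw [h] <;> norm_num
  have u0 : vs a h (wt n0) x ≤ 1 := le_of_eq (v0 x)
  have ur : vs a h (wt (rs m3 m1 n3 n1 n0)) x ≤ 1 :=
    le_of_eq (rs_vs a h hd e3 e1 e0 e31 v3 v1 v0 x)
  simp only at hq
  by_cases k3 : n3 (t5p a h x d) d.1 = true <;> by_cases k3' : n3 (t5p a h x d') d'.1 = true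
  · exact hdd (t5_le a h u3 k3 k3')
  · rw [if_pos k3, if_neg k3'] at hq
    revert hq
    split_ifs <;> decide
  · rw [if_neg k3, if_pos k3'] at hq
    revert hq
    split_ifs <;> decide
  rw [if_neg k3, if_neg k3'] at hq
  by_cases k1 : n1 (t5p a h x d) d.1 = true <;> by_cases k1' : n1 (t5p a h x d') d'.1 = true
  · exact hdd (t5_le a h u1 k1 k1')
  · rw [if_pos k1, if_neg k1'] at hq
    revert hq
    split_ifs <;> decide
  · rw [if_neg k1, if_pos k1'] at hq
    revert hq
    split_ifs <;> decide
  rw [if_neg k1, if_neg k1'] at hq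
  by_cases k0 : n0 (t5p a h x d) d.1 = true <;> by_cases k0' : n0 (t5p a h x d') d'.1 = true
  · exact hdd (t5_le a h u0 k0 k0')
  · rw [if_pos k0, if_neg k0'] at hq
    exact absurd hq (by decide)
  · rw [if_neg k0, if_pos k0'] at hq
    exact absurd hq (by decide)
  refine hdd (t5_le a h ur (d := d) (d' := d') ?_ ?_)
  · unfold rs
    simp only [Bool.and_eq_true, decide_eq_true_eq, Bool.not_eq_true']
    exact ⟨hE, by simpa using k3, by simpa using k1, by simpa using k0⟩
  · unfold rs
    simp only [Bool.and_eq_true, decide_eq_true_eq, Bool.not_eq_true']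
    exact ⟨hE', by simpa using k3', by simpa using k1', by simpa using k0'⟩

private theorem t5_ge {F : Set Γ} (h1 : (1 : Γ) ∈ F) {U : Set X} {al be al' be' : ℕ}
    (ha : al' ≤ al) (hb : be ≤ be') {y : X} (hy : y ∈ Zn F U al be) : y ∈ Zn F U al' be' :=
  ⟨zone_mono h1 U hb hy.1, fun h => hy.2 (zone_mono h1 U ha h)⟩

private theorem t5_step {F : Set Γ} (h1 : (1 : Γ) ∈ F) (hinv : ∀ s ∈ F, s⁻¹ ∈ F) {U : Set X}
    {al be al' be' : ℕ} (ha : al' + 1 ≤ al) (hb : be + 1 ≤ be') {γ : Γ} (hγ : γ ∈ F) {y : X}
    (hy : y ∈ Zn F U al be) : γ • y ∈ Zn F U al' be' :=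
  t5_ge h1 (by omega) hb (Zn_smul h1 hinv (r := 1) (by omega) (by rwa [pow_one]) hy)

private theorem t5_gen {F : Set Γ} (hinv : ∀ s ∈ F, s⁻¹ ∈ F) {a h : Γ} (ha : a ∈ F) (hh : h ∈ F)
    (s : Bool) : gen a h s ∈ F ∧ (gen a h s)⁻¹ ∈ F := by
  have : gen a h s ∈ F := by
    cases s
    · simpa [gen] using ha
    · simpa [gen] using hh
  exact ⟨this, hinv _ this⟩

private theorem t5_vs_congr (a h : Γ) {w w' : X → Bool → ℝ} {x : X} (h0 : ∀ s, w x s = w' x s)
    (h1 : ∀ s, w ((gen a h s)⁻¹ • x) s = w' ((gen a h s)⁻¹ • x) s) : vs a h w x = vs a h w' x := by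
  simp only [vs]
  exact Finset.sum_congr rfl fun s _ => by rw [h0, h1]

private theorem t5_vs3 (a h : Γ) (m : X → Bool → Bool) (x : X) :
    vs a h (fun y s => if m y s = true then (0 : ℝ) else 1 / 3) x = (4 - vs a h (wt m) x) / 3 := by
  simp only [vs, wt, Fintype.sum_bool]
  split_ifs <;> norm_num

/-- the sum at a vertex of the zone -/
private theorem t5_zone [MeasurableSpace X] {F : Set Γ} {U : Set X} {M : ℕ} {p : X → Γ}
    (H : FrD F U M p) {a h : Γ} (hh : h ∈ F) {b : Γ → Bool} (hb : ∀ y, b (h * y) = !(b y))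
    {al be : ℕ} (hM : be ≤ M) {m : X → Bool} {e : Bool}
    (hm : ∀ y ∈ Zn F U al be, m y = xor e (b (p y))) {y : X} (hy : y ∈ Zn F U (al + 1) (be - 1))
    (hbe : 1 ≤ be) : vs a h (wm m) y = 1 := by
  apply wm_one
  have k1 : y ∈ Zn F U al be := t5_ge H.one (by omega) (by omega) hy
  have k2 : h⁻¹ • y ∈ Zn F U al be := t5_step H.one H.inv (by omega) (by omega) (H.inv h hh) hy
  have k3 : p (h⁻¹ • y) = h⁻¹ * p y :=
    H.eqv y (zone_mono H.one U hM k1.1) _ (H.inv h hh) (zone_mono H.one U hM k2.1)
  have k4 : b (p y) = !(b (h⁻¹ * p y)) := by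
    rw [← hb, mul_inv_cancel_left]
  rw [hm y k1, hm _ k2, k3, k4]
  cases e <;> cases b (h⁻¹ * p y) <;> rfl

end Count

/-- **The client of a triple.** -/
theorem client2 [Countable Γ] {F : Set Γ} (h1 : (1 : Γ) ∈ F) (hinv : ∀ s ∈ F, s⁻¹ ∈ F)
    (hgen : Subgroup.closure F = ⊤) {a h : Γ} (ha : a ∈ F) (hh : h ∈ F) {β κ : Γ → Bool}
    (hD : Dsg a h β κ) {β' : Γ → Bool} (hT : TDsg a h β') :
    ∃ r L : ℕ, ∀ {X : Type v} [MulAction Γ X] [MeasurableSpace X] [StandardBorelSpace X]
      (_ : ∀ γ : Γ, Measurable fun x : X => γ • x)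
      (_ : ∀ (γ : Γ) (x : X), γ • x = x → γ = 1)
      {c : X → Bool} (_ : ∀ s x, c (gen a h s • x) = !(c x))
      {U : Set X} {M : ℕ} {p : X → Γ} (_ : FrD F U M p)
      {al be : ℕ} (_ : r ≤ al) (_ : al + L ≤ be) (_ : be + r ≤ M)
      {m3 m1 : X → Bool} (_ : MeasurableSet {x | m3 x = true})
      (_ : MeasurableSet {x | m1 x = true})
      (_ : ∀ x, m3 x = true → m3 (h⁻¹ • x) = false)
      (_ : ∀ x, m1 x = true → m1 (h⁻¹ • x) = false)
      (_ : ∀ x, m3 x = true → m1 x = false)
      (_ : ∀ y ∈ Zn F U al be, m3 y = !(β' (p y)))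
      (_ : ∀ y ∈ Zn F U al be, m1 y = β' (p y)),
      ∃ q : X → Bool → Fin 4, (∀ s, FM fun x => q x s) ∧
        (∀ x, ∀ d d' : Bool × Bool, d ≠ d' →
          (d.1 = true → (m3 (if d.2 then (gen a h d.1)⁻¹ • x else x) = true ∨
            m1 (if d.2 then (gen a h d.1)⁻¹ • x else x) = true)) →
          (d'.1 = true → (m3 (if d'.2 then (gen a h d'.1)⁻¹ • x else x) = true ∨
            m1 (if d'.2 then (gen a h d'.1)⁻¹ • x else x) = true)) →
          q (if d.2 then (gen a h d.1)⁻¹ • x else x) d.1 ≠
            q (if d'.2 then (gen a h d'.1)⁻¹ • x else x) d'.1) ∧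
        ∀ x, ∀ d : Bool × Bool,
          (d.1 = true → (m3 (if d.2 then (gen a h d.1)⁻¹ • x else x) = true ∨
            m1 (if d.2 then (gen a h d.1)⁻¹ • x else x) = true)) →
          (m3 x = false → m3 (h⁻¹ • x) = false →
            q (if d.2 then (gen a h d.1)⁻¹ • x else x) d.1 ≠ 2) ∧
          (m1 x = false → m1 (h⁻¹ • x) = false →
            q (if d.2 then (gen a h d.1)⁻¹ • x else x) d.1 ≠ 3) := by
  have C1 : Chain a h (R3 fun y => !(β' y)) (MH β' true) (u3 fun y => !(β' y)) := chain_symm hT.cub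
  have C2 : Chain a h RT (MH β' false) (MH β true) := (chain_symm (hT.quad false)).trans (hD.quad true)
  obtain ⟨r1, H1⟩ := localise.{u, v} h1 hinv hgen ha hh C1
  obtain ⟨r2, L2, hL2, H2⟩ := loc_hall.{u, v} h1 hinv hgen ha hh C2 (bd_MH hD.βh true)
  obtain ⟨r3, L3, hL3, H3⟩ := loc_hall.{u, v} h1 hinv hgen ha hh hD.cub (bd_MA hD.κa true)
  obtain ⟨r4, L4, hL4, H4⟩ := loc_hall.{u, v} h1 hinv hgen ha hh
    (R := fun _ _ => False) (x := xF β κ) (x' := xF β κ) Relation.ReflTransGen.refl (bd_xF hD)
  refine ⟨r1 + r2 + r3 + r4 + 4, 2 * (r1 + r2 + r3 + 4) + L2 + L3 + L4, ?_⟩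
  intro X _ _ _ hmeas hfree c hc U M p hF al be kal kbe kM m3 m1 mm3 mm1 c3 c1 hd hz3 hz1
  -- (1) the weight of `m1`
  obtain ⟨w1, w1m, w1n, w1v, w1o, w1i, w1R⟩ := H1 hmeas hF (al := al) (be := be) (by omega) (by omega)
    (by omega) (w := wm m1) (fun s => by
      unfold wm
      exact Measurable.ite ((MeasurableSet.const _).inter mm1) measurable_const measurable_const)
    (fun y s => by unfold wm; split_ifs <;> norm_num)
    (fun y hy s => by simp only [wm, MH, hz1 y hy])
  have w1s : ∀ y s, w1 y s ≠ 0 → (s = true ∧ m1 y = true) ∨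
      (y ∈ Zn F U al be ∧ R3 (fun y => !(β' y)) (p y) s) := by
    intro y s hne
    by_cases e : w1 y s = wm m1 y s
    · left
      rw [e] at hne
      unfold wm at hne
      by_contra hcon
      exact hne (if_neg hcon)
    · right
      refine ⟨?_, w1R y s e⟩
      by_contra hcon
      exact e (w1o y hcon s)
  -- (2) the matching `n3`
  obtain ⟨w3, n3, w3m, w3n, w3v, w3o, w3i, _, n3m, n3p, n3v⟩ := H2 hmeas hfree hc hF
    (al := al + r1 + 2) (be := be - r1 - 2) (by omega) (by omega) (by omega) (w := wm m3) (fun s => by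
      unfold wm
      exact Measurable.ite ((MeasurableSet.const _).inter mm3) measurable_const measurable_const)
    (fun y s => by unfold wm; split_ifs <;> norm_num) (fun y => wm_cases a h c3 y)
    (fun y hy s => by
      simp only [wm, MH, hz3 y (t5_ge h1 (by omega) (by omega) hy)]
      cases β' (p y) <;> simp)
  have n3off : ∀ y, y ∉ Zn F U (al + r1 + 2) (be - r1 - 2) → ∀ s,
      (n3 y s = true ↔ s = true ∧ m3 y = true) := by
    intro y hy s
    constructor
    · intro hn
      have hp := n3p y s hn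
      rw [w3o y hy s] at hp
      unfold wm at hp
      by_contra hcon
      rw [if_neg hcon] at hp
      exact lt_irrefl _ hp
    · rintro ⟨rfl, hm⟩
      have hv1 : vs a h (wm m3) y = 1 := wm_one' a h c3 hm
      have hw : w3 y true = 1 := by
        rw [w3o y hy true]
        unfold wm
        rw [if_pos ⟨rfl, hm⟩]
      exact (single_edge w3n n3p ((n3v y).trans (w3v y).symm) ((w3v y).trans hv1)
        (Or.inr hw)).2 hw
  have z3 : ∀ y ∈ Zn F U (al + 1) (be - 1), vs a h (wm m3) y = 1 := by
    intro y hy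
    refine t5_zone hF hh hT.βh (al := al) (be := be) (by omega) (e := true) ?_ hy (by omega)
    intro y hy
    rw [hz3 y hy, Bool.true_xor]
  have z1 : ∀ y ∈ Zn F U (al + 1) (be - 1), vs a h (wm m1) y = 1 := by
    intro y hy
    refine t5_zone hF hh hT.βh (al := al) (be := be) (by omega) (e := false) ?_ hy (by omega)
    intro y hy
    rw [hz1 y hy, Bool.false_xor]
  have n3in : ∀ y ∈ Zn F U (al + r1 + 2 + r2) (be - r1 - 2 - r2), ∀ s,
      (n3 y s = true ↔ s = true ∧ β (p y) = true) := by
    intro y hy s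
    have e := w3i y hy s
    rw [single_edge w3n n3p ((n3v y).trans (w3v y).symm)
      ((w3v y).trans (z3 y (t5_ge h1 (by omega) (by omega) hy))), e, MH]
    · by_cases hc : s = true ∧ β (p y) = true
      · simp [hc]
      · simp [hc]
    · rw [e, MH]
      split_ifs
      · right; rfl
      · left; rfl
  -- (3) the corrected weight
  set Z1 : Set X := Zn F U (al + r1) (be - r1) with hZ1
  classical
  set w2 : X → Bool → ℝ := fun y s =>
    if y ∈ Z1 then (if n3 y s = true then 0 else 1 / 3) else w1 y s with hw2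
  have w2Z : ∀ y, y ∈ Z1 → ∀ s, w2 y s = if n3 y s = true then 0 else 1 / 3 := by
    intro y hy s
    simp only [hw2]
    rw [if_pos hy]
  have w2nZ : ∀ y, y ∉ Z1 → ∀ s, w2 y s = w1 y s := by
    intro y hy s
    simp only [hw2]
    rw [if_neg hy]
  have w2o : ∀ y, y ∉ Zn F U (al + r1 + 2) (be - r1 - 2) → ∀ s, w2 y s = w1 y s := by
    intro y hy s
    by_cases hyZ : y ∈ Z1
    · rw [w2Z y hyZ s, w1i y hyZ s]
      have hn := n3off y hy s
      have hm := hz3 y (t5_ge h1 (by omega) (by omega) hyZ)
      rw [hm] at hn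
      unfold u3 R3
      cases s
      · have : ¬ (n3 y false = true) := fun h' => by simpa using (hn.1 h').1
        simp [this]
      · cases e : β' (p y)
        · have : n3 y true = true := hn.2 ⟨rfl, by rw [e]; rfl⟩
          simp [this, e]
        · have : ¬ (n3 y true = true) := fun h' => by
            have := (hn.1 h').2
            rw [e] at this
            exact absurd this (by decide)
          simp [this, e]
    · exact w2nZ y hyZ s
  have w2v : ∀ y, vs a h w2 y = vs a h (wm m1) y := by
    intro y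
    by_cases hy : y ∈ Zn F U (al + r1 + 1) (be - r1 - 1)
    · have e1 : vs a h w2 y = vs a h (fun y s => if n3 y s = true then (0 : ℝ) else 1 / 3) y := by
        apply t5_vs_congr
        · intro s
          exact w2Z y (t5_ge h1 (by omega) (by omega) hy) s
        · intro s
          exact w2Z _ (t5_step h1 hinv (by omega) (by omega) (t5_gen hinv ha hh s).2 hy) s
      have hy' : y ∈ Zn F U (al + 1) (be - 1) := t5_ge h1 (by omega) (by omega) hy
      rw [e1, t5_vs3, n3v, z3 y hy', z1 y hy']
      norm_num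
    · rw [← w1v y]
      apply t5_vs_congr
      · intro s
        exact w2o y (fun hc => hy (t5_ge h1 (by omega) (by omega) hc)) s
      · intro s
        refine w2o _ (fun hc => hy ?_) s
        have := t5_step h1 hinv (al' := al + r1 + 1) (be' := be - r1 - 1) (by omega) (by omega)
          (t5_gen hinv ha hh s).1 hc
        rwa [smul_inv_smul] at this
  have w2n : ∀ y s, 0 ≤ w2 y s := by
    intro y s
    by_cases hy : y ∈ Z1
    · rw [w2Z y hy s]
      split_ifs <;> norm_num
    · rw [w2nZ y hy s]
      exact w1n y s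
  have w2m : ∀ s, Measurable fun x => w2 x s := by
    intro s
    exact Measurable.ite (measurable_Zn hmeas hF.fin hF.meas _ _)
      (Measurable.ite (n3m s) measurable_const measurable_const) (w1m s)
  have w2n3 : ∀ y s, n3 y s = true → w2 y s = 0 := by
    intro y s hn
    by_cases hy : y ∈ Z1
    · rw [w2Z y hy s, if_pos hn]
    · rw [w2nZ y hy s]
      have hy2 : y ∉ Zn F U (al + r1 + 2) (be - r1 - 2) :=
        fun hc => hy (t5_ge h1 (by omega) (by omega) hc)
      obtain ⟨rfl, hm⟩ := (n3off y hy2 s).1 hn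
      by_contra hne
      rcases w1s y true hne with h' | ⟨h', h''⟩
      · rw [hd y hm] at h'
        exact absurd h'.2 (by decide)
      · rw [hz3 y h'] at hm
        rcases h'' with h'' | h''
        · exact absurd h'' (by decide)
        · have h2 : (!(β' (p y))) = false := h''
          rw [hm] at h2
          exact absurd h2 (by decide)
  have w2s : ∀ y s, w2 y s ≠ 0 → (s = true ∧ m1 y = true) ∨ y ∈ Zn F U al be := by
    intro y s hne
    by_cases hy : y ∈ Z1
    · exact Or.inr (t5_ge h1 (by omega) (by omega) hy)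
    · rw [w2nZ y hy s] at hne
      rcases w1s y s hne with h' | h'
      · exact Or.inl h'
      · exact Or.inr h'.1
  -- the matching `n1`
  obtain ⟨w4, n1, w4m, w4n, w4v, w4o, w4i, w4R, n1m, n1p, n1v⟩ := H3 hmeas hfree hc hF
    (al := al + r1 + 2 + r2) (be := be - r1 - 2 - r2) (by omega) (by omega) (by omega) (w := w2)
    w2m w2n (fun y => by rw [w2v y]; exact wm_cases a h c1 y)
    (fun y hy s => by
      have hn := n3in y hy s
      rw [w2Z y (t5_ge h1 (by omega) (by omega) hy) s]
      unfold u3 R3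
      cases s
      · have : ¬ (n3 y false = true) := fun h' => by simpa using (hn.1 h').1
        simp [this]
      · cases e : β (p y)
        · have : ¬ (n3 y true = true) := fun h' => by simpa [e] using (hn.1 h').2
          simp [this]
        · have : n3 y true = true := hn.2 ⟨rfl, e⟩
          simp [this])
  have d31 : ∀ y s, n3 y s = true → n1 y s = true → False := by
    intro y s e3 e1
    have p1 := n1p y s e1
    have hne : w4 y s ≠ w2 y s := by
      rw [w2n3 y s e3]
      exact ne_of_gt p1
    have hy : y ∈ Zn F U (al + r1 + 2 + r2) (be - r1 - 2 - r2) := by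
      by_contra hy
      exact hne (w4o y hy s)
    have h3 := (n3in y hy s).1 e3
    rcases w4R y s hne with h' | h'
    · rw [h3.1] at h'
      exact absurd h' (by simp)
    · rw [h3.2] at h'
      exact absurd h' (by simp)
  have v3' : ∀ x, vs a h (wt n3) x = vs a h (wm m3) x := n3v
  have v1' : ∀ x, vs a h (wt n1) x = vs a h (wm m1) x := fun x => (n1v x).trans (w2v x)
  have n1in : ∀ y ∈ Zn F U (al + r1 + 2 + r2 + r3) (be - r1 - 2 - r2 - r3), ∀ s,
      (n1 y s = true ↔ s = false ∧ κ (p y) = true) := by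
    intro y hy s
    have e := w4i y hy s
    rw [single_edge w4n n1p ((n1v y).trans (w4v y).symm)
      (((w4v y).trans (w2v y)).trans (z1 y (t5_ge h1 (by omega) (by omega) hy))), e, MA]
    · by_cases hc : s = false ∧ κ (p y) = true
      · simp [hc]
      · simp [hc]
    · rw [e, MA]
      split_ifs
      · right; rfl
      · left; rfl
  -- (4) the rest
  have zE : ∀ y ∈ Zn F U al be, ∀ s, EE m3 m1 y s := by
    intro y hy s _
    rw [hz3 y hy, hz1 y hy]
    cases β' (p y) <;> simp
  have e3 : ∀ y s, n3 y s = true → EE m3 m1 y s := by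
    intro y s hn
    by_cases hy : y ∈ Zn F U al be
    · exact zE y hy s
    · intro _
      exact Or.inl ((n3off y (fun hc => hy (t5_ge h1 (by omega) (by omega) hc)) s).1 hn).2
  have e1 : ∀ y s, n1 y s = true → EE m3 m1 y s := by
    intro y s hn
    by_cases hy : y ∈ Zn F U al be
    · exact zE y hy s
    · intro _
      have p1 := n1p y s hn
      rw [w4o y (fun hc => hy (t5_ge h1 (by omega) (by omega) hc)) s] at p1
      rcases w2s y s (ne_of_gt p1) with h' | h'
      · exact Or.inr h'.2
      · exact absurd h' hy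
  have w5v := w5_vs a h hd e3 e1 d31 v3' v1'
  obtain ⟨w6, n0, w6m, w6n, w6v, w6o, w6i, w6R, n0m, n0p, n0v⟩ := H4 hmeas hfree hc hF
    (al := al + r1 + 2 + r2 + r3) (be := be - r1 - 2 - r2 - r3) (by omega) (by omega) (by omega)
    (w := fun y s => if EE m3 m1 y s ∧ n3 y s = false ∧ n1 y s = false then (1 / 2 : ℝ) else 0)
    (fun s => by
      refine Measurable.ite ?_ measurable_const measurable_const
      have s3 : MeasurableSet {x | n3 x s = false} := by
        have : {x | n3 x s = false} = {x | n3 x s = true}ᶜ := by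
          ext x
          simp
        rw [this]
        exact (n3m s).compl
      have s1 : MeasurableSet {x | n1 x s = false} := by
        have : {x | n1 x s = false} = {x | n1 x s = true}ᶜ := by
          ext x
          simp
        rw [this]
        exact (n1m s).compl
      have sE : MeasurableSet {x | EE m3 m1 x s} := by
        cases s
        · have : {x | EE m3 m1 x false} = Set.univ := by
            ext x
            simp [EE]
          rw [this]
          exact MeasurableSet.univ
        · have : {x | EE m3 m1 x true} = {x | m3 x = true} ∪ {x | m1 x = true} := by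
            ext x
            simp [EE]
          rw [this]
          exact mm3.union mm1
      exact sE.inter (s3.inter s1))
    (fun y s => by split_ifs <;> norm_num)
    (fun y => Or.inr (w5v y)) (fun y hy s => by
      have h3 := n3in y (t5_ge h1 (by omega) (by omega) hy) s
      have h1' := n1in y hy s
      have hE : EE m3 m1 y s := zE y (t5_ge h1 (by omega) (by omega) hy) s
      simp only [xF]
      cases s
      · have k3 : n3 y false = false := by
          by_contra hcon
          exact absurd (h3.1 (by simpa using hcon)).1 (by decide)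
        cases e : κ (p y)
        · have k1 : n1 y false = false := by
            by_contra hcon
            have := (h1'.1 (by simpa using hcon)).2
            rw [e] at this
            exact absurd this (by decide)
          rw [if_pos ⟨hE, k3, k1⟩, if_pos (Or.inr ⟨rfl, rfl⟩)]
        · have k1 : n1 y false = true := h1'.2 ⟨rfl, e⟩
          rw [if_neg (by rw [k1]; simp), if_neg (by simp)]
      · have k1 : n1 y true = false := by
          by_contra hcon
          exact absurd (h1'.1 (by simpa using hcon)).1 (by decide)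
        cases e : β (p y)
        · have k3 : n3 y true = false := by
            by_contra hcon
            have := (h3.1 (by simpa using hcon)).2
            rw [e] at this
            exact absurd this (by decide)
          rw [if_pos ⟨hE, k3, k1⟩, if_pos (Or.inl ⟨rfl, rfl⟩)]
        · have k3 : n3 y true = true := h3.2 ⟨rfl, e⟩
          rw [if_neg (by rw [k3]; simp), if_neg (by simp)])
  have v0' : ∀ x, vs a h (wt n0) x = 1 := fun x => (n0v x).trans (w5v x)
  have e0 : ∀ y s, n0 y s = true → EE m3 m1 y s ∧ n3 y s = false ∧ n1 y s = false := by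
    intro y s hn
    have p0 := n0p y s hn
    have e : w6 y s = (if EE m3 m1 y s ∧ n3 y s = false ∧ n1 y s = false then (1 / 2 : ℝ) else 0) := by
      by_contra hne
      exact w6R y s hne
    rw [e] at p0
    by_contra hcon
    rw [if_neg hcon] at p0
    exact lt_irrefl _ p0
  refine ⟨fun y s => if n3 y s = true then (2 : Fin 4) else if n1 y s = true then 3 else
      if n0 y s = true then 1 else 0, ?_, ?_, ?_⟩
  · intro s
    exact FM.ite (n3m s) (FM.const _) (FM.ite (n1m s) (FM.const _)
      (FM.ite (n0m s) (FM.const _) (FM.const _)))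
  · intro x d d' hdd hE hE'
    exact t5_col a h hd c3 c1 e3 e1 e0 d31 v3' v1' v0' x d d' hdd hE hE'
  · intro x d _
    constructor
    · intro k k' hq
      have hz : vs a h (wt n3) x = 0 := by
        rw [v3' x]
        exact wm_zero a h k k'
      have hn : n3 (t5p a h x d) d.1 = false := t5_zero a h hz d
      have hq' : (if n3 (t5p a h x d) d.1 = true then (2 : Fin 4) else
        if n1 (t5p a h x d) d.1 = true then 3 else if n0 (t5p a h x d) d.1 = true then 1 else 0) = 2 :=
        hq
      rw [hn] at hq'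
      revert hq'
      simp only [Bool.false_eq_true, if_false]
      split_ifs <;> decide
    · intro k k' hq
      have hz : vs a h (wt n1) x = 0 := by
        rw [v1' x]
        exact wm_zero a h k k'
      have hn : n1 (t5p a h x d) d.1 = false := t5_zero a h hz d
      have hq' : (if n3 (t5p a h x d) d.1 = true then (2 : Fin 4) else
        if n1 (t5p a h x d) d.1 = true then 3 else if n0 (t5p a h x d) d.1 = true then 1 else 0) = 3 :=
        hq
      rw [hn] at hq'
      revert hq'
      simp only [Bool.false_eq_true, if_false]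
      split_ifs <;> decide

end Pool.Agent.MP1822N
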