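import Pool.Agent.Lib.MP_1822da_lc.NB.C5a
import Pool.Agent.Lib.MP_1822da_lc.NB.TDefs

/-!
# The colouring of a triple (section 8.2, NB1822_T.md)

`q0` colours the edges of the base pair `(a0, h)` with 4 colours; `q1` colours the client graph: all `a1`-edges and the `h`-edges with
`q0 = 3` or `q0 = 1`, with 4 colours.
PROOF. BC_of_colouring with `K = Fin 4 ⊕ Bool`, `I = Fin 3`, `g = ![h, a0, a1]`. Colours:
 edge `(y, a0)`: `inl (q0 y false)`;
 edge `(y, a1)`: `inr false, inr true, inl 3, inl 1` if `q1 y false = 0, 1, 2, 3`;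
 edge `(y, h)`: if `q0 y true = 0` or `2`: `inl (q0 y true)`; else `inr false, inr true, inl 3, inl 1` if `q1 y true = 0, 1, 2, 3`.
Injectivity at `x`: the colours `inl 0, inl 2` come from `q0` only (injective at `x`); the colours `inr b` from `q1` at `x` on the client
graph only (`hne`); colour `inl 3`: if an `a0`-edge at `x` has `q0 = 3`, no `h`-edge at `x` has `q0 = 3` (`hinj`), so by `h23` no client edge at `x`
has `q1 = 2`; otherwise only client edges with `q1 = 2`, at most one (`hne`). Colour `inl 1`: the same with `q0 = 1` and `q1 = 3`.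
-/

namespace Pool.Agent.MP1822N

open Set MeasureTheory Pointwise
open Pool.Agent.Lib.MP_1822da_lc Pool.Agent.MP1822T Pool.Agent.MP1822C

universe u v

variable {Γ : Type u} [Group Γ] {X : Type v} [MulAction Γ X]

/-- the edge `d` at `x` of the pair `(a1, h)` is in the client graph -/
def InCl (a1 h : Γ) (q0 : X → Bool → Fin 4) (x : X) (d : Bool × Bool) : Prop :=
  d.1 = true → (q0 (if d.2 then (gen a1 h d.1)⁻¹ • x else x) true = 3 ∨
    q0 (if d.2 then (gen a1 h d.1)⁻¹ • x else x) true = 1)

/-- the generators of a triple -/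
private def t6_gen (h a0 a1 : Γ) : Option Bool → Γ
  | none => h
  | some false => a0
  | some true => a1

/-- the colour of an edge of the client graph -/
private def t6_cc : Fin 4 → Fin 4 ⊕ Bool :=
  ![Sum.inr false, Sum.inr true, Sum.inl 3, Sum.inl 1]

/-- the colour of the `h`-edge -/
private def t6_hc (u z : Fin 4) : Fin 4 ⊕ Bool := if u = 0 ∨ u = 2 then Sum.inl u else t6_cc z

private def t6_col (q0 q1 : X → Bool → Fin 4) (x : X) : Option Bool → Fin 4 ⊕ Bool
  | none => t6_hc (q0 x true) (q1 x true)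
  | some false => Sum.inl (q0 x false)
  | some true => t6_cc (q1 x false)

private theorem t6_hh : ∀ u u' z z' : Fin 4, u ≠ u' →
    ((u = 3 ∨ u = 1) → (u' = 3 ∨ u' = 1) → z ≠ z') → t6_hc u z ≠ t6_hc u' z' := by
  decide

private theorem t6_h0 : ∀ u u' v z : Fin 4, u ≠ v → u' ≠ v →
    ((u = 3 ∨ u = 1) → (u ≠ 3 → u' ≠ 3 → z ≠ 2) ∧ (u ≠ 1 → u' ≠ 1 → z ≠ 3)) →
    t6_hc u z ≠ Sum.inl v := by
  decide

private theorem t6_h1 : ∀ u z w : Fin 4, ((u = 3 ∨ u = 1) → z ≠ w) →
    t6_hc u z ≠ t6_cc w := by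
  decide

private theorem t6_01 : ∀ u u' v w : Fin 4, u ≠ v → u' ≠ v →
    ((u ≠ 3 → u' ≠ 3 → w ≠ 2) ∧ (u ≠ 1 → u' ≠ 1 → w ≠ 3)) →
    Sum.inl v ≠ t6_cc w := by
  decide

private theorem t6_11 : ∀ w w' : Fin 4, w ≠ w' → t6_cc w ≠ t6_cc w' := by
  decide

theorem triple_colour [MeasurableSpace X] (hmeas : ∀ γ : Γ, Measurable fun x : X => γ • x)
    {h a0 a1 : Γ} (h0 : h ≠ a0) (h0' : h ≠ a0⁻¹) (h1 : h ≠ a1) (h1' : h ≠ a1⁻¹)
    (h01 : a0 ≠ a1) (h01' : a0 ≠ a1⁻¹) (hh : h ≠ h⁻¹) (h00 : a0 ≠ a0⁻¹) (h11 : a1 ≠ a1⁻¹)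
    {q0 : X → Bool → Fin 4} (hq0 : ∀ s, FM fun x => q0 x s)
    (hinj : ∀ x, Function.Injective fun d : Bool × Bool =>
      q0 (if d.2 then (gen a0 h d.1)⁻¹ • x else x) d.1)
    {q1 : X → Bool → Fin 4} (hq1 : ∀ s, FM fun x => q1 x s)
    (hne : ∀ x, ∀ d d' : Bool × Bool, d ≠ d' → InCl a1 h q0 x d → InCl a1 h q0 x d' →
      q1 (if d.2 then (gen a1 h d.1)⁻¹ • x else x) d.1 ≠
        q1 (if d'.2 then (gen a1 h d'.1)⁻¹ • x else x) d'.1)
    (h23 : ∀ x, ∀ d : Bool × Bool, InCl a1 h q0 x d →
      (q0 x true ≠ 3 → q0 (h⁻¹ • x) true ≠ 3 →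
        q1 (if d.2 then (gen a1 h d.1)⁻¹ • x else x) d.1 ≠ 2) ∧
      (q0 x true ≠ 1 → q0 (h⁻¹ • x) true ≠ 1 →
        q1 (if d.2 then (gen a1 h d.1)⁻¹ • x else x) d.1 ≠ 3))
    {T : Finset Γ} (hT : ∀ γ, γ ∈ T ↔ (γ = h ∨ γ = a0 ∨ γ = a1) ∨
      (γ⁻¹ = h ∨ γ⁻¹ = a0 ∨ γ⁻¹ = a1)) : BC X T := by
  classical
  have hflip : ∀ {b c : Γ}, b ≠ c⁻¹ → c ≠ b⁻¹ := by
    intro b c hbc hcb
    exact hbc (by rw [hcb, inv_inv])
  refine BC_of_colouring hmeas (I := Option Bool) (K := Fin 4 ⊕ Bool)
    (t6_gen h a0 a1) ?_ ?_ ?_ (t6_col q0 q1) ?_ ?_ T ?_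
  · rintro (_ | _ | _) (_ | _ | _) hij
    · rfl
    · exact absurd hij h0
    · exact absurd hij h1
    · exact absurd hij.symm h0
    · rfl
    · exact absurd hij h01
    · exact absurd hij.symm h1
    · exact absurd hij.symm h01
    · rfl
  · rintro (_ | _ | _) (_ | _ | _)
    · exact hh
    · exact h0'
    · exact h1'
    · exact hflip h0'
    · exact h00
    · exact h01'
    · exact hflip h1'
    · exact hflip h01'
    · exact h11
  · simp only [Fintype.card_sum, Fintype.card_fin, Fintype.card_bool, Fintype.card_option]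
  · rintro (_ | _ | _)
    · exact ((hq0 true).pair (hq1 true)).comp (fun z : Fin 4 × Fin 4 => t6_hc z.1 z.2)
    · exact (hq0 false).comp (fun z : Fin 4 => (Sum.inl z : Fin 4 ⊕ Bool))
    · exact (hq1 false).comp (fun z : Fin 4 => t6_cc z)
  · intro x
    have I := hinj x
    have i1 : q0 x true ≠ q0 (h⁻¹ • x) true := fun H => by
      have := @I (true, false) (true, true) (by simpa [gen] using H)
      simp at this
    have i2 : q0 x true ≠ q0 x false := fun H => by
      have := @I (true, false) (false, false) (by simpa [gen] using H)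
      simp at this
    have i3 : q0 x true ≠ q0 (a0⁻¹ • x) false := fun H => by
      have := @I (true, false) (false, true) (by simpa [gen] using H)
      simp at this
    have i4 : q0 (h⁻¹ • x) true ≠ q0 x false := fun H => by
      have := @I (true, true) (false, false) (by simpa [gen] using H)
      simp at this
    have i5 : q0 (h⁻¹ • x) true ≠ q0 (a0⁻¹ • x) false := fun H => by
      have := @I (true, true) (false, true) (by simpa [gen] using H)
      simp at this
    have i6 : q0 x false ≠ q0 (a0⁻¹ • x) false := fun H => by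
      have := @I (false, false) (false, true) (by simpa [gen] using H)
      simp at this
    have C00 : InCl a1 h q0 x (false, false) := fun e => absurd e (by simp)
    have C01 : InCl a1 h q0 x (false, true) := fun e => absurd e (by simp)
    have C10 : (q0 x true = 3 ∨ q0 x true = 1) → InCl a1 h q0 x (true, false) := fun e _ => by
      simpa [gen] using e
    have C11 : (q0 (h⁻¹ • x) true = 3 ∨ q0 (h⁻¹ • x) true = 1) →
        InCl a1 h q0 x (true, true) := fun e _ => by
      simpa [gen] using e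
    have j1 : (q0 x true = 3 ∨ q0 x true = 1) →
        (q0 (h⁻¹ • x) true = 3 ∨ q0 (h⁻¹ • x) true = 1) → q1 x true ≠ q1 (h⁻¹ • x) true :=
      fun e e' => by
        have := hne x (true, false) (true, true) (by simp) (C10 e) (C11 e')
        simpa [gen] using this
    have j2 : (q0 x true = 3 ∨ q0 x true = 1) → q1 x true ≠ q1 x false := fun e => by
      have := hne x (true, false) (false, false) (by simp) (C10 e) C00
      simpa [gen] using this
    have j3 : (q0 x true = 3 ∨ q0 x true = 1) → q1 x true ≠ q1 (a1⁻¹ • x) false := fun e => by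
      have := hne x (true, false) (false, true) (by simp) (C10 e) C01
      simpa [gen] using this
    have j4 : (q0 (h⁻¹ • x) true = 3 ∨ q0 (h⁻¹ • x) true = 1) →
        q1 (h⁻¹ • x) true ≠ q1 x false := fun e => by
      have := hne x (true, true) (false, false) (by simp) (C11 e) C00
      simpa [gen] using this
    have j5 : (q0 (h⁻¹ • x) true = 3 ∨ q0 (h⁻¹ • x) true = 1) →
        q1 (h⁻¹ • x) true ≠ q1 (a1⁻¹ • x) false := fun e => by
      have := hne x (true, true) (false, true) (by simp) (C11 e) C01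
      simpa [gen] using this
    have j6 : q1 x false ≠ q1 (a1⁻¹ • x) false := by
      have := hne x (false, false) (false, true) (by simp) C00 C01
      simpa [gen] using this
    have l1 : (q0 x true = 3 ∨ q0 x true = 1) →
        (q0 x true ≠ 3 → q0 (h⁻¹ • x) true ≠ 3 → q1 x true ≠ 2) ∧
        (q0 x true ≠ 1 → q0 (h⁻¹ • x) true ≠ 1 → q1 x true ≠ 3) := fun e => by
      have := h23 x (true, false) (C10 e)
      simpa [gen] using this
    have l2 : (q0 (h⁻¹ • x) true = 3 ∨ q0 (h⁻¹ • x) true = 1) →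
        (q0 (h⁻¹ • x) true ≠ 3 → q0 x true ≠ 3 → q1 (h⁻¹ • x) true ≠ 2) ∧
        (q0 (h⁻¹ • x) true ≠ 1 → q0 x true ≠ 1 → q1 (h⁻¹ • x) true ≠ 3) := fun e => by
      have := h23 x (true, true) (C11 e)
      have h2 : (q0 x true ≠ 3 → q0 (h⁻¹ • x) true ≠ 3 → q1 (h⁻¹ • x) true ≠ 2) ∧
        (q0 x true ≠ 1 → q0 (h⁻¹ • x) true ≠ 1 → q1 (h⁻¹ • x) true ≠ 3) := by
        simpa [gen] using this
      exact ⟨fun a b => h2.1 b a, fun a b => h2.2 b a⟩
    have l3 : (q0 x true ≠ 3 → q0 (h⁻¹ • x) true ≠ 3 → q1 x false ≠ 2) ∧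
        (q0 x true ≠ 1 → q0 (h⁻¹ • x) true ≠ 1 → q1 x false ≠ 3) := by
      have := h23 x (false, false) C00
      simpa [gen] using this
    have l4 : (q0 x true ≠ 3 → q0 (h⁻¹ • x) true ≠ 3 → q1 (a1⁻¹ • x) false ≠ 2) ∧
        (q0 x true ≠ 1 → q0 (h⁻¹ • x) true ≠ 1 → q1 (a1⁻¹ • x) false ≠ 3) := by
      have := h23 x (false, true) C01
      simpa [gen] using this
    -- the colours at `x`
    let P : Option Bool × Bool → Fin 4 ⊕ Bool := fun d =>
      t6_col q0 q1 (if d.2 then (t6_gen h a0 a1 d.1)⁻¹ • x else x) d.1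
    have c1 : P (none, false) = t6_hc (q0 x true) (q1 x true) := rfl
    have c2 : P (none, true) = t6_hc (q0 (h⁻¹ • x) true) (q1 (h⁻¹ • x) true) := rfl
    have c3 : P (some false, false) = Sum.inl (q0 x false) := rfl
    have c4 : P (some false, true) = Sum.inl (q0 (a0⁻¹ • x) false) := rfl
    have c5 : P (some true, false) = t6_cc (q1 x false) := rfl
    have c6 : P (some true, true) = t6_cc (q1 (a1⁻¹ • x) false) := rfl
    have n1 : P (none, false) ≠ P (none, true) := by rw [c1, c2]; exact t6_hh _ _ _ _ i1 j1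
    have n2 : P (none, false) ≠ P (some false, false) := by
      rw [c1, c3]; exact t6_h0 _ _ _ _ i2 i4 l1
    have n3 : P (none, false) ≠ P (some false, true) := by
      rw [c1, c4]; exact t6_h0 _ _ _ _ i3 i5 l1
    have n4 : P (none, true) ≠ P (some false, false) := by
      rw [c2, c3]; exact t6_h0 _ _ _ _ i4 i2 l2
    have n5 : P (none, true) ≠ P (some false, true) := by
      rw [c2, c4]; exact t6_h0 _ _ _ _ i5 i3 l2
    have n6 : P (some false, false) ≠ P (some false, true) := by
      rw [c3, c4]; exact fun H => i6 (Sum.inl.inj H)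
    have n7 : P (none, false) ≠ P (some true, false) := by rw [c1, c5]; exact t6_h1 _ _ _ j2
    have n8 : P (none, false) ≠ P (some true, true) := by rw [c1, c6]; exact t6_h1 _ _ _ j3
    have n9 : P (none, true) ≠ P (some true, false) := by rw [c2, c5]; exact t6_h1 _ _ _ j4
    have n10 : P (none, true) ≠ P (some true, true) := by rw [c2, c6]; exact t6_h1 _ _ _ j5
    have n11 : P (some false, false) ≠ P (some true, false) := by
      rw [c3, c5]; exact t6_01 _ _ _ _ i2 i4 l3
    have n12 : P (some false, false) ≠ P (some true, true) := by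
      rw [c3, c6]; exact t6_01 _ _ _ _ i2 i4 l4
    have n13 : P (some false, true) ≠ P (some true, false) := by
      rw [c4, c5]; exact t6_01 _ _ _ _ i3 i5 l3
    have n14 : P (some false, true) ≠ P (some true, true) := by
      rw [c4, c6]; exact t6_01 _ _ _ _ i3 i5 l4
    have n15 : P (some true, false) ≠ P (some true, true) := by
      rw [c5, c6]; exact t6_11 _ _ j6
    change Function.Injective P
    rintro ⟨_ | _ | _, _ | _⟩ ⟨_ | _ | _, _ | _⟩ H
    · rfl
    · exact absurd H n1
    · exact absurd H n2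
    · exact absurd H n3
    · exact absurd H n7
    · exact absurd H n8
    · exact absurd H n1.symm
    · rfl
    · exact absurd H n4
    · exact absurd H n5
    · exact absurd H n9
    · exact absurd H n10
    · exact absurd H n2.symm
    · exact absurd H n4.symm
    · rfl
    · exact absurd H n6
    · exact absurd H n11
    · exact absurd H n12
    · exact absurd H n3.symm
    · exact absurd H n5.symm
    · exact absurd H n6.symm
    · rfl
    · exact absurd H n13
    · exact absurd H n14
    · exact absurd H n7.symm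
    · exact absurd H n9.symm
    · exact absurd H n11.symm
    · exact absurd H n13.symm
    · rfl
    · exact absurd H n15
    · exact absurd H n8.symm
    · exact absurd H n10.symm
    · exact absurd H n12.symm
    · exact absurd H n14.symm
    · exact absurd H n15.symm
    · rfl
  · intro γ
    rw [hT]
    constructor
    · rintro ((h1 | h1 | h1) | (h1 | h1 | h1))
      · exact ⟨none, Or.inl h1⟩
      · exact ⟨some false, Or.inl h1⟩
      · exact ⟨some true, Or.inl h1⟩
      · exact ⟨none, Or.inr (by rw [← inv_inv γ, h1]; rfl)⟩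
      · exact ⟨some false, Or.inr (by rw [← inv_inv γ, h1]; rfl)⟩
      · exact ⟨some true, Or.inr (by rw [← inv_inv γ, h1]; rfl)⟩
    · rintro ⟨_ | _ | _, h1 | h1⟩
      · exact Or.inl (Or.inl h1)
      · exact Or.inr (Or.inl (by rw [h1, inv_inv]; rfl))
      · exact Or.inl (Or.inr (Or.inl h1))
      · exact Or.inr (Or.inr (Or.inl (by rw [h1, inv_inv]; rfl)))
      · exact Or.inl (Or.inr (Or.inr h1))
      · exact Or.inr (Or.inr (Or.inr (by rw [h1, inv_inv]; rfl)))

end Pool.Agent.MP1822N
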