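import Pool.Agent.Lib.MP_1822da_lc.NB.T6
import Pool.Agent.Lib.MP_1822da_lc.NB.T5
import Pool.Agent.Lib.MP_1822da_lc.NB.T4
import Pool.Agent.Lib.MP_1822da_lc.NB.T3
import Pool.Agent.Lib.MP_1822da_lc.NB.B5b

/-!
# Theorem T (triples; section 8.2, NB1822_T.md)

PROOF (assembly; compare C5c). `F = insert 1 S`, `Γ` countable (countable_of_gen). `β', α₀, α₁` from `ht.tw`; `β₀, β₁` from `ht.β₀, ht.β₁`. `designs` for
`(a₀, h)` with `β₀, α₀` (`Twd.αa`, `Twd.αh`): `κ₀`; for `(a₁, h)` with `β₁, α₁`: `κ₁`. `designs_tw` for both pairs: `TDsg a₀ h β'`, `TDsg a₁ h β'`.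
`base2` for `(a₀, h)` with `β'`: `r, L`. `client2` for `(a₁, h)` with `β'`: `r₁, L₁`. `R = r + r₁ + 1`, `al0 = R`, `al = R + L + R`, `be = al + L₁ + 2 * R + …`,
`M = be + R`. `exists_frd M`: `U`, `p`. `base2` with `(al, be, al0)`: `q0`. `m3 y = decide (q0 y true = 3)`, `m1 y = decide (q0 y true = 1)`; for
`y ∈ Zn (al + r) (be - r)`: `m3 y = !(β' (p y))`, `m1 y = β' (p y)`. `m3 x → m3 (h⁻¹ x) = false`: injectivity of `q0` at `x` for the edges
`(true, false)`, `(true, true)`. `client2` on `Zn (al + r) (be - r)`: `q1`. `c` from bip for each pair (`e y = xor (α_i y) (β_i y)`, as in C5c).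
triple_colour.
-/

namespace Pool.Agent.MP1822N

open Set MeasureTheory Pointwise
open Pool.Agent.Lib.MP_1822da_lc Pool.Agent.MP1822T Pool.Agent.MP1822C

universe u v

variable {Γ : Type u} [Group Γ] {X : Type v} [MulAction Γ X]

private theorem t7_ne_inv {g : Γ} (hg : ¬ IsOfFinOrder g) : g ≠ g⁻¹ := by
  intro h
  apply hg
  rw [isOfFinOrder_iff_pow_eq_one]
  refine ⟨2, by norm_num, ?_⟩
  rw [pow_two]
  nth_rewrite 2 [h]
  exact mul_inv_cancel g

/-- **Theorem T (triples).** -/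
theorem triple_BC [MeasurableSpace X] [StandardBorelSpace X]
    (hmeas : ∀ γ : Γ, Measurable fun x : X => γ • x)
    (hfree : ∀ (γ : Γ) (x : X), γ • x = x → γ = 1) {S : Finset Γ} (hsymm : ∀ s ∈ S, s⁻¹ ∈ S)
    (h1 : (1 : Γ) ∉ S) (hgen : Subgroup.closure (S : Set Γ) = ⊤)
    (hasi : BorelAsiLe (schreierGraph S X) 1) {h a₀ a₁ : Γ} (ht : Trip S h a₀ a₁)
    {T : Finset Γ} (hT : ∀ γ, γ ∈ T ↔ (γ = h ∨ γ = a₀ ∨ γ = a₁) ∨
      (γ⁻¹ = h ∨ γ⁻¹ = a₀ ∨ γ⁻¹ = a₁)) : BC X T := by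
  have hcount : Countable Γ := countable_of_gen hsymm hgen
  obtain ⟨β', α₀, α₁, T0, T1⟩ := ht.tw
  obtain ⟨β₀, hβ₀h, hβ₀a⟩ := ht.β₀
  obtain ⟨β₁, hβ₁h, hβ₁a⟩ := ht.β₁
  -- the set `F`
  have h1F : (1 : Γ) ∈ (insert 1 (S : Set Γ)) := Set.mem_insert _ _
  have hinvF : ∀ s ∈ (insert 1 (S : Set Γ)), s⁻¹ ∈ (insert 1 (S : Set Γ)) := by
    intro s hs
    rcases Set.mem_insert_iff.1 hs with h | h
    · rw [h, inv_one]
      exact h1F
    · exact Set.mem_insert_of_mem _ (hsymm s h)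
  have hgenF : Subgroup.closure (insert 1 (S : Set Γ)) = ⊤ := by
    apply top_le_iff.1
    rw [← hgen]
    exact Subgroup.closure_mono (Set.subset_insert _ _)
  have hhF : h ∈ (insert 1 (S : Set Γ)) := Set.mem_insert_of_mem _ ht.hS
  have ha0F : a₀ ∈ (insert 1 (S : Set Γ)) := Set.mem_insert_of_mem _ ht.a₀S
  have ha1F : a₁ ∈ (insert 1 (S : Set Γ)) := Set.mem_insert_of_mem _ ht.a₁S
  -- designs
  obtain ⟨κ₀, D0⟩ := designs ht.nil₀ ht.a₀o hβ₀h hβ₀a T0.αa T0.αh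
  obtain ⟨κ₁, D1⟩ := designs ht.nil₁ ht.a₁o hβ₁h hβ₁a T1.αa T1.αh
  have TD0 := designs_tw ht.nil₀ hβ₀h hβ₀a T0
  have TD1 := designs_tw ht.nil₁ hβ₁h hβ₁a T1
  obtain ⟨r0, L0, hbase⟩ := base2.{u, v} h1F hinvF hgenF ha0F hhF D0 TD0
  obtain ⟨r1, L1, hcl⟩ := client2.{u, v} h1F hinvF hgenF ha1F hhF D1 TD1
  -- the parameters
  obtain ⟨al, hal⟩ : ∃ al : ℕ, al = r0 + L0 + r1 := ⟨_, rfl⟩
  obtain ⟨be, hbe⟩ : ∃ be : ℕ, be = al + L1 + 2 * r0 := ⟨_, rfl⟩
  obtain ⟨M, hM⟩ : ∃ M : ℕ, M = be + r0 + r1 := ⟨_, rfl⟩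
  obtain ⟨U, p, HF⟩ := exists_frd hmeas hfree hsymm h1 hgen hasi M
  obtain ⟨c0, hc0⟩ := bip (X := X) hfree hβ₀h hβ₀a T0.αa T0.αh
  obtain ⟨c1, hc1⟩ := bip (X := X) hfree hβ₁h hβ₁a T1.αa T1.αh
  obtain ⟨q0, hq0, hinj, hq0z⟩ := hbase hmeas hfree hc0 HF (al := al) (be := be) (al0 := r0)
    le_rfl (by omega) (by omega) (by omega)
  set m3 : X → Bool := fun y => decide (q0 y true = 3) with hm3
  set m1 : X → Bool := fun y => decide (q0 y true = 1) with hm1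
  have hm3t : ∀ y, m3 y = true ↔ q0 y true = 3 := fun y => decide_eq_true_iff
  have hm3f : ∀ y, m3 y = false ↔ q0 y true ≠ 3 := fun y => decide_eq_false_iff_not
  have hm1t : ∀ y, m1 y = true ↔ q0 y true = 1 := fun y => decide_eq_true_iff
  have hm1f : ∀ y, m1 y = false ↔ q0 y true ≠ 1 := fun y => decide_eq_false_iff_not
  have hm3m : MeasurableSet {x | m3 x = true} := by
    have h2 : {x | m3 x = true} = {x | q0 x true = 3} := by
      ext x
      exact hm3t x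
    rw [h2]
    exact hq0 true 3
  have hm1m : MeasurableSet {x | m1 x = true} := by
    have h2 : {x | m1 x = true} = {x | q0 x true = 1} := by
      ext x
      exact hm1t x
    rw [h2]
    exact hq0 true 1
  have hno : ∀ (j : Fin 4) (x : X), q0 x true = j → q0 (h⁻¹ • x) true ≠ j := by
    intro j x hx h2
    have h3 := hinj x (a₁ := (true, false)) (a₂ := (true, true)) (by
      show q0 x true = q0 ((gen a₀ h true)⁻¹ • x) true
      rw [hx]
      exact h2.symm)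
    exact absurd (congrArg Prod.snd h3) (by decide)
  have hm3i : ∀ x, m3 x = true → m3 (h⁻¹ • x) = false := fun x hx =>
    (hm3f _).2 (hno 3 x ((hm3t x).1 hx))
  have hm1i : ∀ x, m1 x = true → m1 (h⁻¹ • x) = false := fun x hx =>
    (hm1f _).2 (hno 1 x ((hm1t x).1 hx))
  have hm31 : ∀ x, m3 x = true → m1 x = false := fun x hx => by
    rw [hm1f, (hm3t x).1 hx]
    decide
  have hm3z : ∀ y ∈ Zn (insert 1 (S : Set Γ)) U (al + r0) (be - r0), m3 y = !(β' (p y)) := by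
    intro y hy
    have h2 := (hq0z y hy true).1
    cases h3 : β' (p y) with
    | false => exact (hm3t y).2 (h2.2 ⟨rfl, h3⟩)
    | true =>
      refine (hm3f y).2 fun h4 => ?_
      have h5 := (h2.1 h4).2
      rw [h3] at h5
      exact absurd h5 (by decide)
  have hm1z : ∀ y ∈ Zn (insert 1 (S : Set Γ)) U (al + r0) (be - r0), m1 y = β' (p y) := by
    intro y hy
    have h2 := (hq0z y hy true).2
    cases h3 : β' (p y) with
    | true => exact (hm1t y).2 (h2.2 ⟨rfl, h3⟩)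
    | false =>
      refine (hm1f y).2 fun h4 => ?_
      have h5 := (h2.1 h4).2
      rw [h3] at h5
      exact absurd h5 (by decide)
  obtain ⟨q1, hq1, hq1a, hq1b⟩ := hcl hmeas hfree hc1 HF (al := al + r0) (be := be - r0)
    (by omega) (by omega) (by omega) hm3m hm1m hm3i hm1i hm31 hm3z hm1z
  have hcl' : ∀ (x : X) (d : Bool × Bool), InCl a₁ h q0 x d →
      (d.1 = true → (m3 (if d.2 then (gen a₁ h d.1)⁻¹ • x else x) = true ∨
        m1 (if d.2 then (gen a₁ h d.1)⁻¹ • x else x) = true)) := by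
    intro x d hd hd1
    rcases hd hd1 with h2 | h2
    · exact Or.inl ((hm3t _).2 h2)
    · exact Or.inr ((hm1t _).2 h2)
  exact triple_colour hmeas ht.ha₀ ht.ha₀' ht.ha₁ ht.ha₁' ht.aa ht.aa' (t7_ne_inv ht.ho)
    (t7_ne_inv ht.a₀o) (t7_ne_inv ht.a₁o) hq0 hinj hq1
    (fun x d d' hdd hd hd' => hq1a x d d' hdd (hcl' x d hd) (hcl' x d' hd'))
    (fun x d hd =>
      ⟨fun h2 h3 => (hq1b x d (hcl' x d hd)).1 ((hm3f x).2 h2) ((hm3f _).2 h3),
        fun h2 h3 => (hq1b x d (hcl' x d hd)).2 ((hm1f x).2 h2) ((hm1f _).2 h3)⟩)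
    hT

end Pool.Agent.MP1822N
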