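import Pool.Agent.Lib.MP_1822da_lc.NB.A2a
import Pool.Agent.Lib.MP_1822da_lc.NB.TDefs

/-!
# Twisted patterns from homomorphisms to `ℤ/4`

PROOF of fun_of_hom4: as fun_of_hom (A2a): `ψ y = toAdd (φ (y * r(y)⁻¹))`, `r` = representatives of the right cosets of `K`.
PROOF of twd_of_psi: if `r = 1`: `β y = decide (ψ y = 2 ∨ ψ y = 3)`, `α y = decide (ψ y = 1 ∨ ψ y = 3)` (`ψ = α + 2 β`): `ψ (h*y) = ψ y + 2`: `β` changes, `α` does
not; `ψ (a*y) = ψ y + 1`: `α` changes, `β` changes iff `α y` (`1 → 2`, `3 → 0`). If `r = 3` (`-1`): the same `β`, and `α y = decide (ψ y = 0 ∨ ψ y = 2)`: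
`ψ (a*y) = ψ y - 1`: `β` changes iff `ψ y = 0` (`0 → 3`) or `ψ y = 2` (`2 → 1`), i.e. iff `α y`. (Finite check over `ZMod 4`: `decide`.)
-/

namespace Pool.Agent.MP1822N

open Set MeasureTheory Pointwise
open Pool.Agent.Lib.MP_1822da_lc Pool.Agent.MP1822T Pool.Agent.MP1822C

universe u v

variable {Γ : Type u} [Group Γ]

theorem fun_of_hom4 (K : Subgroup Γ) (φ : K →* Multiplicative (ZMod 4)) :
    ∃ ψ : Γ → ZMod 4, ∀ (k : K) (y : Γ), ψ (k * y) = Multiplicative.toAdd (φ k) + ψ y := by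
  let r : Γ → Γ := fun y => (Quotient.mk (QuotientGroup.rightRel K) y).out
  have hr : ∀ y, y * (r y)⁻¹ ∈ K := fun y =>
    QuotientGroup.rightRel_apply.mp (Quotient.mk_out (s := QuotientGroup.rightRel K) y)
  have hrk : ∀ (k : K) (y : Γ), r (k * y) = r y := by
    intro k y
    have h1 : (Quotient.mk (QuotientGroup.rightRel K) ((k : Γ) * y)) =
        Quotient.mk (QuotientGroup.rightRel K) y := by
      refine Quotient.sound (QuotientGroup.rightRel_apply.mpr ?_)
      have : y * ((k : Γ) * y)⁻¹ = (k : Γ)⁻¹ := by group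
      rw [this]
      exact K.inv_mem k.2
    show (Quotient.mk (QuotientGroup.rightRel K) ((k : Γ) * y)).out = _
    rw [h1]
  refine ⟨fun y => Multiplicative.toAdd (φ ⟨y * (r y)⁻¹, hr y⟩), fun k y => ?_⟩
  have h2 : (⟨(k : Γ) * y * (r (k * y))⁻¹, hr (k * y)⟩ : K) = k * ⟨y * (r y)⁻¹, hr y⟩ := by
    apply Subtype.ext
    show (k : Γ) * y * (r (k * y))⁻¹ = k * (y * (r y)⁻¹)
    rw [hrk, mul_assoc]
  show Multiplicative.toAdd (φ ⟨(k : Γ) * y * (r (k * y))⁻¹, hr (k * y)⟩) = _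
  rw [h2, map_mul, toAdd_mul]

/-- the second bit of an element of `ZMod 4` -/
def bit2 (z : ZMod 4) : Bool := decide (z = 2 ∨ z = 3)

theorem twd_of_psi {a h : Γ} {ψ : Γ → ZMod 4} {r : ZMod 4} (hr : r = 1 ∨ r = 3)
    (ha : ∀ y, ψ (a * y) = r + ψ y) (hh : ∀ y, ψ (h * y) = 2 + ψ y) :
    ∃ α : Γ → Bool, Twd a h α (fun y => bit2 (ψ y)) := by
  rcases hr with rfl | rfl
  · refine ⟨fun y => decide (ψ y = 1 ∨ ψ y = 3), ⟨fun y => ?_, fun y => ?_, fun y => ?_, fun y => ?_⟩⟩
    · rw [ha]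
      generalize ψ y = z
      revert z
      decide
    · rw [hh]
      generalize ψ y = z
      revert z
      decide
    · rw [hh]
      generalize ψ y = z
      revert z
      decide
    · rw [ha]
      generalize ψ y = z
      revert z
      decide
  · refine ⟨fun y => decide (ψ y = 0 ∨ ψ y = 2), ⟨fun y => ?_, fun y => ?_, fun y => ?_, fun y => ?_⟩⟩
    · rw [ha]
      generalize ψ y = z
      revert z
      decide
    · rw [hh]
      generalize ψ y = z
      revert z
      decide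
    · rw [hh]
      generalize ψ y = z
      revert z
      decide
    · rw [ha]
      generalize ψ y = z
      revert z
      decide

end Pool.Agent.MP1822N
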