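import Pool.Agent.Lib.MP_1822da_lc.NB.A2a

/-!
# Homomorphisms to `ℤ` in the exceptional triple (H5, section 8.3, NB1822_T.md)

PROOF of hom_or_odd: as hom_or_finite (A2a): `Q = K ⧸ (closure A ⊔ commutator K)` is cyclic, generated by the image `xb` of `x`; if
`orderOf xb` is even (0 included) `xb ^ n ↦ n mod 2` gives the hom; otherwise `m = orderOf xb` is odd and `xb ^ m = 1`.
PROOF of odd_hom: `D = K ⧸ (zpowers c ⊔ commutator K)`, an abelian group generated by the images `a, b` of `a, b`; `a ^ p = b ^ r`, `b ^ q = a ^ s` in `D`,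
`p, q` odd (an element of `closure {b, c} ⊔ commutator K` has image in `⟨b⟩`). `a` has infinite order in `D`: otherwise `b` also has finite order
(`b ^ q = a ^ s`), `D` is finite (generated by two commuting elements of finite order), `zpowers c ⊔ commutator K` has finite index, by lemmaX
`zpowers c` has finite index in `K` and some `a ^ n`, `n > 0`, is in `zpowers c`: contradiction to `hac`. Every `d = a ^ i * b ^ j` in `D` satisfies
`d ^ q = a ^ (i * q + s * j)`; as `a` has infinite order the exponent `k` with `d ^ q = a ^ k` is unique: `κ d = k` is a homomorphism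
`D → Multiplicative ℤ` (`(d * d') ^ q = d ^ q * d' ^ q`). `κ a = q` is odd, `κ b = s`; `a ^ (p * q) = b ^ (r * q) = a ^ (s * r)`, so `s * r = p * q` is odd and
`s` is odd. Compose with `K → D`.
-/

namespace Pool.Agent.MP1822N

open Set MeasureTheory Pointwise
open Pool.Agent.Lib.MP_1822da_lc Pool.Agent.MP1822T Pool.Agent.MP1822C

universe u v

private theorem t9_normal {K : Type u} [Group K] (H : Subgroup K) (h : commutator K ≤ H) :
    H.Normal := by
  refine ⟨fun n hn g => ?_⟩
  have h1 : g * n * g⁻¹ * n⁻¹ ∈ H := by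
    have h0 := Subgroup.commutator_mem_commutator (Subgroup.mem_top g) (Subgroup.mem_top n)
    rw [commutatorElement_def] at h0
    exact h h0
  have h2 : g * n * g⁻¹ = (g * n * g⁻¹ * n⁻¹) * n := by group
  rw [h2]
  exact H.mul_mem h1 hn

private theorem t9_sq : (Multiplicative.ofAdd 1 : Multiplicative (ZMod 2)) *
    Multiplicative.ofAdd 1 = 1 := by decide

open Classical in
/-- the homomorphism of a subgroup of index two -/
private noncomputable def t9Hom {K : Type u} [Group K] (H : Subgroup K) (hi : H.index = 2) :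
    K →* Multiplicative (ZMod 2) where
  toFun k := if k ∈ H then 1 else Multiplicative.ofAdd 1
  map_one' := by simp [H.one_mem]
  map_mul' a b := by
    have h := Subgroup.mul_mem_iff_of_index_two hi (a := a) (b := b)
    by_cases ha : a ∈ H <;> by_cases hb : b ∈ H <;> simp [ha, hb, h, t9_sq]

private theorem t9Hom_ne {K : Type u} [Group K] (H : Subgroup K) (hi : H.index = 2) {k : K}
    (hk : k ∉ H) : t9Hom H hi k ≠ 1 := by
  simp [t9Hom, hk]

private theorem t9Hom_eq {K : Type u} [Group K] (H : Subgroup K) (hi : H.index = 2) {k : K}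
    (hk : k ∈ H) : t9Hom H hi k = 1 := by
  simp [t9Hom, hk]

theorem hom_or_odd {K : Type u} [Group K] (A : Set K) (x : K)
    (hgen : Subgroup.closure (insert x A) = ⊤) :
    (∃ φ : K →* Multiplicative (ZMod 2), φ x ≠ 1 ∧ ∀ a ∈ A, φ a = 1) ∨
      ∃ m : ℕ, Odd m ∧ x ^ m ∈ Subgroup.closure A ⊔ commutator K := by
  set M : Subgroup K := Subgroup.closure A ⊔ commutator K with hM
  have hMn : M.Normal := t9_normal M le_sup_right
  have hgM : ∀ k : K, ∃ n : ℤ, ∃ m ∈ M, k = x ^ n * m := by
    intro k
    have h1 : Subgroup.zpowers x ⊔ M = ⊤ := by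
      rw [eq_top_iff, ← hgen, Subgroup.closure_le]
      intro y hy
      rcases hy with hy | hy
      · rw [hy]; exact Subgroup.mem_sup_left (Subgroup.mem_zpowers x)
      · exact Subgroup.mem_sup_right (Subgroup.mem_sup_left (Subgroup.subset_closure hy))
    have h2 : k ∈ ((Subgroup.zpowers x ⊔ M : Subgroup K) : Set K) := by
      rw [h1]; exact Set.mem_univ k
    rw [Subgroup.mul_normal] at h2
    obtain ⟨y, hy, m, hm, rfl⟩ := Set.mem_mul.mp h2
    obtain ⟨n, rfl⟩ := Subgroup.mem_zpowers_iff.mp hy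
    exact ⟨n, m, hm, rfl⟩
  set H : Subgroup K := Subgroup.zpowers (x ^ 2) ⊔ M with hH
  have hMH : M ≤ H := le_sup_right
  have hx2 : ∀ j : ℤ, x ^ (2 * j) ∈ H := by
    intro j
    rw [zpow_mul]
    exact Subgroup.mem_sup_left (Subgroup.mem_zpowers_iff.mpr ⟨j, by norm_cast⟩)
  by_cases hxH : x ∈ H
  · right
    have h2 : x ∈ ((Subgroup.zpowers (x ^ 2) ⊔ M : Subgroup K) : Set K) := hxH
    rw [Subgroup.mul_normal] at h2
    obtain ⟨y, hy, m, hm, hym⟩ := Set.mem_mul.mp h2
    obtain ⟨n, rfl⟩ := Subgroup.mem_zpowers_iff.mp hy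
    have hodd : x ^ (1 - 2 * n) ∈ M := by
      have h3 : x ^ (1 - 2 * n) = m := by
        have h4 : (x ^ 2) ^ n = x ^ (2 * n) := by
          rw [zpow_mul]; norm_cast
        rw [h4] at hym
        have h5 : m = (x ^ (2 * n))⁻¹ * x := eq_inv_mul_of_mul_eq hym
        rw [h5, ← zpow_neg, ← zpow_add_one]
        congr 1; ring
      rw [h3]; exact hm
    refine ⟨(1 - 2 * n).natAbs, ?_, ?_⟩
    · rw [Int.natAbs_odd]
      exact ⟨-n, by ring⟩
    · rcases Int.natAbs_eq (1 - 2 * n) with h' | h'
      · rw [h', zpow_natCast] at hodd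
        exact hodd
      · rw [h', zpow_neg, zpow_natCast] at hodd
        exact (Subgroup.inv_mem_iff M).1 hodd
  · left
    have hi : H.index = 2 := by
      rw [Subgroup.index_eq_two_iff]
      refine ⟨x, fun b => ?_⟩
      have hHn : H.Normal := t9_normal H (le_trans le_sup_right hMH)
      obtain ⟨n, m, hm, rfl⟩ := hgM b
      rcases Int.even_or_odd n with ⟨j, hj⟩ | ⟨j, hj⟩
      · right
        have hb : x ^ n * m ∈ H := by
          refine H.mul_mem ?_ (hMH hm)
          rw [hj, ← two_mul]; exact hx2 j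
        refine ⟨hb, fun hc => hxH ?_⟩
        have := H.mul_mem (H.inv_mem hb) hc
        simpa [mul_assoc] using this
      · left
        refine ⟨?_, fun hc => hxH ?_⟩
        · have h7 : x ^ n * m * x = x ^ (2 * (j + 1)) * (x⁻¹ * m * x) := by
            have : x ^ n = x ^ (2 * (j + 1)) * x⁻¹ := by
              rw [← zpow_sub_one]; congr 1; omega
            rw [this]; group
          rw [h7]
          refine H.mul_mem (hx2 _) (hMH ?_)
          have := hMn.conj_mem m hm x⁻¹
          simpa using this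
        · have h8 : x ^ n ∈ H := by
            have := H.mul_mem hc (H.inv_mem (hMH hm))
            simpa [mul_assoc] using this
          rw [hj, zpow_add_one] at h8
          have := H.mul_mem (H.inv_mem (hx2 j)) h8
          simpa [mul_assoc] using this
    refine ⟨t9Hom H hi, ?_, fun a ha => ?_⟩
    · exact t9Hom_ne H hi hxH
    · exact t9Hom_eq H hi (hMH (Subgroup.mem_sup_left (Subgroup.subset_closure ha)))

private theorem t9_tool {K : Type u} [Group K] {T : Set K} (hT : T.Finite)
    (hgen : Subgroup.closure T = ⊤) (R : Subgroup K) (hR : commutator K ≤ R)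
    (hp : ∀ t ∈ T, ∃ p : ℕ, 0 < p ∧ t ^ p ∈ R) : R.FiniteIndex := by
  have hn : R.Normal := t9_normal R hR
  let cg : CommGroup (K ⧸ R) :=
    { (inferInstance : Group (K ⧸ R)) with
      mul_comm := (Subgroup.Normal.quotient_commutative_iff_commutator_le.2 hR).is_comm.comm }
  have fgK : Group.FG K := Group.fg_iff.2 ⟨T, hgen, hT⟩
  have fgQ : Group.FG (K ⧸ R) := QuotientGroup.fg R
  have htor : IsMulTorsion (K ⧸ R) := by
    intro q
    obtain ⟨k, rfl⟩ := QuotientGroup.mk_surjective q
    have hk : k ∈ Subgroup.closure T := by rw [hgen]; exact Subgroup.mem_top k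
    induction hk using Subgroup.closure_induction with
    | mem t ht =>
      obtain ⟨p, hp0, hpm⟩ := hp t ht
      rw [isOfFinOrder_iff_pow_eq_one]
      refine ⟨p, hp0, ?_⟩
      rw [← QuotientGroup.mk_pow]
      exact (QuotientGroup.eq_one_iff _).2 hpm
    | one => exact IsOfFinOrder.one
    | mul x y _ _ hx hy => exact hx.mul hy
    | inv x _ hx => exact hx.inv
  have : Finite (K ⧸ R) := CommGroup.finite_of_fg_isMulTorsion _ htor
  exact Subgroup.finiteIndex_of_finite_quotient

theorem odd_hom {K : Type u} [Group K] [Group.IsNilpotent K] {a b c : K}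
    (hgen : Subgroup.closure {a, b, c} = ⊤)
    (hac : ∀ n : ℕ, 0 < n → a ^ n ∉ Subgroup.zpowers c)
    (hA : ∃ p : ℕ, Odd p ∧ a ^ p ∈ Subgroup.closure {b, c} ⊔ commutator K)
    (hB : ∃ q : ℕ, Odd q ∧ b ^ q ∈ Subgroup.closure {a, c} ⊔ commutator K) :
    ∃ κ : K →* Multiplicative ℤ, κ c = 1 ∧ Odd (Multiplicative.toAdd (κ a)) ∧
      Odd (Multiplicative.toAdd (κ b)) := by
  obtain ⟨p, hpo, hp⟩ := hA
  obtain ⟨q, hqo, hq⟩ := hB
  set R : Subgroup K := Subgroup.zpowers c ⊔ commutator K with hRd
  have hR : commutator K ≤ R := le_sup_right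
  have hn : R.Normal := t9_normal R hR
  let cg : CommGroup (K ⧸ R) :=
    { (inferInstance : Group (K ⧸ R)) with
      mul_comm := (Subgroup.Normal.quotient_commutative_iff_commutator_le.2 hR).is_comm.comm }
  let π : K →* K ⧸ R := QuotientGroup.mk' R
  have hπ : ∀ k ∈ R, π k = 1 := fun k hk => (QuotientGroup.eq_one_iff k).2 hk
  have hπc : π c = 1 := hπ c (Subgroup.mem_sup_left (Subgroup.mem_zpowers c))
  have himg : ∀ u : K, ∀ y ∈ Subgroup.closure {u, c} ⊔ commutator K,
      π y ∈ Subgroup.zpowers (π u) := by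
    intro u y hy
    have hle : Subgroup.closure {u, c} ⊔ commutator K ≤
        (Subgroup.zpowers (π u)).comap π := by
      refine sup_le ?_ ?_
      · rw [Subgroup.closure_le]
        rintro z (rfl | rfl)
        · exact Subgroup.mem_zpowers _
        · rw [SetLike.mem_coe, Subgroup.mem_comap, hπc]
          exact Subgroup.one_mem _
      · intro z hz
        rw [Subgroup.mem_comap, hπ z (hR hz)]
        exact Subgroup.one_mem _
    exact hle hy
  obtain ⟨r, hr⟩ := Subgroup.mem_zpowers_iff.1 (himg b _ hp)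
  obtain ⟨s, hs⟩ := Subgroup.mem_zpowers_iff.1 (himg a _ hq)
  rw [map_pow] at hr hs
  -- `a` has infinite order in the quotient
  have hinf : ¬ IsOfFinOrder (π a) := by
    intro hfo
    have hfb : IsOfFinOrder (π b) := by
      have h1 : IsOfFinOrder ((π b) ^ q) := by
        rw [← hs]
        exact hfo.zpow
      exact (isOfFinOrder_pow.1 h1).resolve_right (by rintro rfl; exact absurd hqo (by decide))
    have hfin : R.FiniteIndex := by
      refine t9_tool (T := {a, b, c}) (Set.toFinite _) hgen R hR ?_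
      rintro t (rfl | rfl | rfl)
      · obtain ⟨n, hn0, h⟩ := isOfFinOrder_iff_pow_eq_one.1 hfo
        exact ⟨n, hn0, (QuotientGroup.eq_one_iff _).1 ((map_pow π t n).trans h)⟩
      · obtain ⟨n, hn0, h⟩ := isOfFinOrder_iff_pow_eq_one.1 hfb
        exact ⟨n, hn0, (QuotientGroup.eq_one_iff _).1 ((map_pow π t n).trans h)⟩
      · refine ⟨1, one_pos, ?_⟩
        rw [pow_one]
        exact Subgroup.mem_sup_left (Subgroup.mem_zpowers t)
    have hF := lemmaX c hfin
    obtain ⟨n, hn0, -, hnm⟩ := Subgroup.exists_pow_mem_of_index_ne_zero hF.index_ne_zero a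
    exact hac n hn0 hnm
  have hinj : ∀ m n : ℤ, (π a) ^ m = (π a) ^ n → m = n := fun m n h =>
    injective_zpow_iff_not_isOfFinOrder.2 hinf h
  have hqz : ∀ d : K ⧸ R, ∃ k : ℤ, (π a) ^ k = d ^ q := by
    intro d
    obtain ⟨k, rfl⟩ := QuotientGroup.mk'_surjective R d
    have hle : Subgroup.closure {a, b, c} ≤
        ((Subgroup.zpowers (π a)).comap (powMonoidHom q : K ⧸ R →* K ⧸ R)).comap π := by
      rw [Subgroup.closure_le]
      rintro z (rfl | rfl | rfl)
      · rw [SetLike.mem_coe, Subgroup.mem_comap, Subgroup.mem_comap]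
        exact Subgroup.pow_mem _ (Subgroup.mem_zpowers _) q
      · rw [SetLike.mem_coe, Subgroup.mem_comap, Subgroup.mem_comap]
        exact Subgroup.mem_zpowers_iff.2 ⟨s, hs⟩
      · rw [SetLike.mem_coe, Subgroup.mem_comap, Subgroup.mem_comap, hπc, map_one]
        exact Subgroup.one_mem _
    have hk : k ∈ Subgroup.closure {a, b, c} := by rw [hgen]; exact Subgroup.mem_top k
    exact Subgroup.mem_zpowers_iff.1 (hle hk)
  choose f hf using hqz
  let κ : K ⧸ R →* Multiplicative ℤ := MonoidHom.mk' (fun d => Multiplicative.ofAdd (f d)) (by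
    intro d d'
    rw [← ofAdd_add]
    refine congrArg Multiplicative.ofAdd (hinj _ _ ?_)
    rw [hf, zpow_add, hf, hf, mul_pow])
  have hκ : ∀ d, Multiplicative.toAdd (κ d) = f d := fun d => rfl
  refine ⟨κ.comp π, ?_, ?_, ?_⟩
  · rw [MonoidHom.comp_apply, hπc, map_one]
  · rw [MonoidHom.comp_apply, hκ]
    have : f (π a) = q := hinj _ _ (by rw [hf, zpow_natCast])
    rw [this]
    exact_mod_cast hqo
  · rw [MonoidHom.comp_apply, hκ]
    have h1 : f (π b) = s := hinj _ _ (by rw [hf, hs])
    rw [h1]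
    have h2 : s * r = (p : ℤ) * q := by
      apply hinj
      rw [zpow_mul, hs, zpow_mul, zpow_natCast, zpow_natCast, ← hr, ← zpow_natCast,
        ← zpow_natCast, ← zpow_mul, ← zpow_mul, mul_comm]
    have h3 : Odd (s * r) := by
      rw [h2]
      exact_mod_cast hpo.mul hqo
    exact (Int.odd_mul.1 h3).1

end Pool.Agent.MP1822N
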