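import Pool.Agent.Lib.MP_1822da_lc.NB.T9a
import Pool.Agent.Lib.MP_1822da_lc.NB.T8

/-!
# Triples are stars or twisted (H5, section 8.3, NB1822_T.md)

PROOF. `K = closure T`, `T = {x, y, z}` (`Finset.card_eq_three`), `x', y', z' : K`. hom_or_odd for each of the three elements (`A` = the other two; the closure of
the three in `K` is `⊤`): a hom gives the first alternative by fun_of_hom. Otherwise all three odd conditions hold. `¬ Cm` and infinite order give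
`∀ n > 0, x' ^ n ∉ zpowers z'` etc. (`x ^ n = z ^ k`: `k ≠ 0` as `x` has infinite order, so `Cm x z`.)
`κ₁` = odd_hom with `(a, b, c) = (x, y, z)`: `κ₁ z = 0`, `κ₁ x, κ₁ y` odd. `κ₂` = odd_hom with `(a, b, c) = (y, z, x)`: `κ₂ x = 0`, `κ₂ y, κ₂ z` odd.
`φ k = ofAdd ((κ₁ k : ZMod 4) + 2 * (κ₂ k : ZMod 4))` is a homomorphism `K →* Multiplicative (ZMod 4)` with `φ z = 2` (`2 * odd = 2` in `ZMod 4`), `φ x, φ y` odd
(`1` or `3`). fun_of_hom4 gives `ψ`; twd_of_psi for `(x, z)` and `(y, z)` (`h = z`), both with `β = bit2 ∘ ψ`.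
-/

namespace Pool.Agent.MP1822N

open Set MeasureTheory Pointwise
open Pool.Agent.Lib.MP_1822da_lc Pool.Agent.MP1822T Pool.Agent.MP1822C

universe u v

variable {Γ : Type u} [Group Γ]

private theorem gen_top {T : Set Γ} {A : Set (Subgroup.closure T)}
    (h : ((↑) : Subgroup.closure T → Γ) ⁻¹' T = A) :
    Subgroup.closure A = ⊤ := by
  rw [← h]
  exact Subgroup.closure_closure_coe_preimage

private theorem alt_one {T : Finset Γ} {h b c : Γ} (hT : ∀ t, t ∈ T ↔ t = h ∨ t = b ∨ t = c)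
    (hh : h ∈ Subgroup.closure (T : Set Γ)) (hb : b ∈ Subgroup.closure (T : Set Γ))
    (hc : c ∈ Subgroup.closure (T : Set Γ)) :
    (∃ h ∈ T, ∃ β : Γ → Bool, (∀ y, β (h * y) = !(β y)) ∧
      ∀ a ∈ T, a ≠ h → ∀ y, β (a * y) = β y) ∨
    ∃ m : ℕ, Odd m ∧ (⟨h, hh⟩ : Subgroup.closure (T : Set Γ)) ^ m ∈
      Subgroup.closure {(⟨b, hb⟩ : Subgroup.closure (T : Set Γ)), ⟨c, hc⟩} ⊔
        commutator (Subgroup.closure (T : Set Γ)) := by
  have hgen : Subgroup.closure (insert (⟨h, hh⟩ : Subgroup.closure (T : Set Γ))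
      {(⟨b, hb⟩ : Subgroup.closure (T : Set Γ)), ⟨c, hc⟩}) = ⊤ := by
    apply gen_top
    ext ⟨y, hy⟩
    simp only [Set.mem_preimage, Finset.mem_coe, hT, Set.mem_insert_iff, Set.mem_singleton_iff,
      Subtype.mk.injEq]
  rcases hom_or_odd _ _ hgen with ⟨φ, h1, h2⟩ | h1
  · left
    obtain ⟨β, hβ⟩ := fun_of_hom (Subgroup.closure (T : Set Γ)) φ
    refine ⟨h, (hT h).mpr (Or.inl rfl), β, fun y => (hβ ⟨h, hh⟩ y).1 h1, ?_⟩
    intro a ha hne y
    rcases (hT a).mp ha with e | e | e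
    · exact absurd e hne
    · rw [e]; exact (hβ ⟨b, hb⟩ y).2 (h2 _ (by simp))
    · rw [e]; exact (hβ ⟨c, hc⟩ y).2 (h2 _ (by simp))
  · right
    exact h1

private theorem not_zp {L : Subgroup Γ} {x z : Γ} (hx : x ∈ L) (hz : z ∈ L)
    (ho : ¬ IsOfFinOrder x) (hc : ¬ Cm x z) (n : ℕ) (hn : 0 < n) :
    (⟨x, hx⟩ : L) ^ n ∉ Subgroup.zpowers (⟨z, hz⟩ : L) := by
  intro hm
  obtain ⟨k, hk⟩ := Subgroup.mem_zpowers_iff.mp hm
  have hk' : z ^ k = x ^ n := by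
    have := congrArg Subtype.val hk
    simpa using this
  by_cases h0 : k = 0
  · apply ho
    rw [isOfFinOrder_iff_pow_eq_one]
    exact ⟨n, hn, by rw [← hk', h0, zpow_zero]⟩
  · exact hc ⟨n, k, by exact_mod_cast hn.ne', h0, by rw [hk']; simp⟩

/-- `κ₁ + 2 κ₂` -/
private def hom4 {K : Type u} [Group K] (κ₁ κ₂ : K →* Multiplicative ℤ) :
    K →* Multiplicative (ZMod 4) where
  toFun k := Multiplicative.ofAdd (((Multiplicative.toAdd (κ₁ k) : ℤ) : ZMod 4) +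
    2 * ((Multiplicative.toAdd (κ₂ k) : ℤ) : ZMod 4))
  map_one' := by simp
  map_mul' a b := by
    rw [← ofAdd_add]
    congr 1
    rw [map_mul κ₁, map_mul κ₂, toAdd_mul, toAdd_mul]
    push_cast
    ring

private theorem hom4_toAdd {K : Type u} [Group K] (κ₁ κ₂ : K →* Multiplicative ℤ) (k : K) :
    Multiplicative.toAdd (hom4 κ₁ κ₂ k) = ((Multiplicative.toAdd (κ₁ k) : ℤ) : ZMod 4) +
      2 * ((Multiplicative.toAdd (κ₂ k) : ℤ) : ZMod 4) := rfl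

private theorem z4_odd : ∀ k : ZMod 4, 2 * k + 1 = 1 ∨ 2 * k + 1 = 3 := by decide

private theorem z4_two : ∀ k : ZMod 4, 2 * (2 * k + 1) = 2 := by decide

private theorem z4_mix : ∀ k l : ZMod 4, 2 * k + 1 + 2 * (2 * l + 1) = 1 ∨
    2 * k + 1 + 2 * (2 * l + 1) = 3 := by decide

/-- H5 -/
theorem trip_or_star {T : Finset Γ} (hT : T.card = 3)
    (hnil : Group.IsNilpotent (Subgroup.closure (T : Set Γ)))
    (ho : ∀ a ∈ T, ¬ IsOfFinOrder a) (hc : ∀ a ∈ T, ∀ b ∈ T, a ≠ b → ¬ Cm a b) :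
    (∃ h ∈ T, ∃ β : Γ → Bool, (∀ y, β (h * y) = !(β y)) ∧
      ∀ a ∈ T, a ≠ h → ∀ y, β (a * y) = β y) ∨
    ∃ h ∈ T, ∃ a ∈ T, ∃ b ∈ T, h ≠ a ∧ h ≠ b ∧ a ≠ b ∧
      ∃ β α₀ α₁ : Γ → Bool, Twd a h α₀ β ∧ Twd b h α₁ β := by
  classical
  obtain ⟨x, y, z, hxy, hxz, hyz, hTe'⟩ := Finset.card_eq_three.mp hT
  have hTe : ∀ t, t ∈ T ↔ t = x ∨ t = y ∨ t = z := by
    intro t; rw [hTe']; simp only [Finset.mem_insert, Finset.mem_singleton]
  have hxT : x ∈ T := (hTe x).mpr (Or.inl rfl)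
  have hyT : y ∈ T := (hTe y).mpr (Or.inr (Or.inl rfl))
  have hzT : z ∈ T := (hTe z).mpr (Or.inr (Or.inr rfl))
  have hx : x ∈ Subgroup.closure (T : Set Γ) := Subgroup.subset_closure (by exact_mod_cast hxT)
  have hy : y ∈ Subgroup.closure (T : Set Γ) := Subgroup.subset_closure (by exact_mod_cast hyT)
  have hz : z ∈ Subgroup.closure (T : Set Γ) := Subgroup.subset_closure (by exact_mod_cast hzT)
  rcases alt_one (h := x) (b := y) (c := z) hTe hx hy hz with h1 | hX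
  · exact Or.inl h1
  rcases alt_one (h := y) (b := x) (c := z)
    (fun t => by rw [hTe]; tauto) hy hx hz with h1 | hY
  · exact Or.inl h1
  rcases alt_one (h := z) (b := x) (c := y)
    (fun t => by rw [hTe]; tauto) hz hx hy with h1 | hZ
  · exact Or.inl h1
  right
  set K := Subgroup.closure (T : Set Γ) with hK
  have hgen1 : Subgroup.closure {(⟨x, hx⟩ : K), ⟨y, hy⟩, ⟨z, hz⟩} = ⊤ := by
    apply gen_top
    ext ⟨t, ht⟩
    simp only [Set.mem_preimage, Finset.mem_coe, hTe, Set.mem_insert_iff, Set.mem_singleton_iff,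
      Subtype.mk.injEq]
  have hgen2 : Subgroup.closure {(⟨y, hy⟩ : K), ⟨z, hz⟩, ⟨x, hx⟩} = ⊤ := by
    apply gen_top
    ext ⟨t, ht⟩
    simp only [Set.mem_preimage, Finset.mem_coe, hTe, Set.mem_insert_iff, Set.mem_singleton_iff,
      Subtype.mk.injEq]
    tauto
  obtain ⟨κ₁, k1z, k1x, k1y⟩ := odd_hom hgen1
    (not_zp hx hz (ho x hxT) (hc x hxT z hzT hxz)) hX hY
  obtain ⟨κ₂, k2x, k2y, k2z⟩ := odd_hom hgen2
    (not_zp hy hx (ho y hyT) (hc y hyT x hxT hxy.symm))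
    (by rw [Set.pair_comm]; exact hY) (by rw [Set.pair_comm]; exact hZ)
  obtain ⟨ψ, hψ⟩ := fun_of_hom4 K (hom4 κ₁ κ₂)
  obtain ⟨i, hi⟩ := k1x
  obtain ⟨j, hj⟩ := k1y
  obtain ⟨k, hk⟩ := k2y
  obtain ⟨l, hl⟩ := k2z
  have ez : ∀ t, ψ (z * t) = 2 + ψ t := by
    intro t
    have := hψ ⟨z, hz⟩ t
    rw [hom4_toAdd, k1z, hl] at this
    rw [show z * t = ((⟨z, hz⟩ : K) : Γ) * t from rfl, this]
    congr 1
    have h2 := z4_two (l : ZMod 4)
    push_cast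
    rw [toAdd_one]
    simpa using h2
  have ex := hψ ⟨x, hx⟩
  rw [hom4_toAdd, k2x, hi] at ex
  have ey := hψ ⟨y, hy⟩
  rw [hom4_toAdd, hj, hk] at ey
  obtain ⟨α₀, hα₀⟩ := twd_of_psi (a := x) (h := z) (ψ := ψ)
    (r := ((2 * i + 1 : ℤ) : ZMod 4) + 2 * ((Multiplicative.toAdd (1 : Multiplicative ℤ) : ℤ) : ZMod 4))
    (by
      have h2 := z4_odd (i : ZMod 4)
      push_cast
      rw [toAdd_one]
      simpa using h2) ex ez
  obtain ⟨α₁, hα₁⟩ := twd_of_psi (a := y) (h := z) (ψ := ψ)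
    (r := ((2 * j + 1 : ℤ) : ZMod 4) + 2 * ((2 * k + 1 : ℤ) : ZMod 4))
    (by
      have h2 := z4_mix (j : ZMod 4) (k : ZMod 4)
      push_cast
      exact h2) ey ez
  exact ⟨z, hzT, x, hxT, y, hyT, hxz.symm, hyz.symm, hxy, _, α₀, α₁, hα₀, hα₁⟩

end Pool.Agent.MP1822N
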